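import Pool.Agent.X266.CD.Lsw

/-! Laws among the odd integers, and odd predecessors. -/

set_option autoImplicit false

namespace Pool.Agent.X266.CD

open Finset Filter Topology Pool.Agent.H319R3.GC Pool.Agent.Y55.DS Polynomial Pool.Agent.Y965.PL
open Pool.Agent.Y965.PS (Tz ac ac_succ)
open Pool.Agent.H499R2.ND (Phi Phi_continuous Dn Td Tn cnt)
open Pool.Agent.H499R2.LT (odn Dn_iff)
open Pool.Agent.H499R2.HL (H H_two H_of_two odn_two dn_odd)

theorem Dn_of_Mn {P : ℕ → Prop} {l : ℝ} (h : Mn (ind P) l) : Dn P l := by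
  classical
  unfold Mn at h
  unfold Pool.Agent.H499R2.ND.Dn
  refine h.congr fun N => ?_
  congr 1
  unfold Pool.Agent.H499R2.ND.cnt ind
  rw [sum_boole]
  have e : {n : ℕ | 1 ≤ n ∧ n ≤ N ∧ P n} = ((Icc 1 N).filter P : Finset ℕ) := by
    ext n
    simp only [Set.mem_ofPred_eq, coe_filter, mem_Icc, and_assoc]
  rw [e, Set.ncard_coe_finset]

theorem lawK_Dn {δ : ℝ} (hδ : Nat1 δ) (m : ℕ) (a b : ℤ) (hm : 1 ≤ m) (x : ℝ) :
    Dn (fun n => Lv valK (clsK m a b) (th (2 / Real.log (4 / 3)) bK x) n) (δ / m ^ 2 * Phi x) := by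
  have h := Dn_of_Mn (hδ.lawK m a b hm x)
  have e : δ * Phi x / m ^ 2 = δ / m ^ 2 * Phi x := by ring
  rw [e] at h
  exact Dn_iff (fun n _ => by rw [true_and]) h

/-- the law of the total stopping time at `2 n` -/
theorem lawK_two {δ : ℝ} (hδ : Nat1 δ) (m : ℕ) (a b : ℤ) (hm : 1 ≤ m) (x : ℝ) :
    Dn (fun n => Lv valK (clsK m a b) (th (2 / Real.log (4 / 3)) bK x) (2 * n)) (δ / m ^ 2 * Phi x) := by
  have hν := nu_pos'
  have hA : 0 ≤ 2 / Real.log (4 / 3) := by positivity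
  refine Pool.Agent.H499R2.ND.dn_squeeze (P := fun x n => Lv valK (clsK m (a - 1) b) (th (2 / Real.log (4 / 3)) bK x) n)
    (F := fun x => δ / m ^ 2 * Phi x) (Phi_continuous.const_mul _) (fun x => lawK_Dn hδ m (a - 1) b hm x) ?_
  intro θ hθ η hη
  obtain ⟨N0, h0⟩ := (((th_cmp hA bK_pos (show x - θ < x - θ / 2 by linarith) (show (0 : ℝ) < 1 / 4 by norm_num)).and
    (th_cmp hA bK_pos (show x < x + θ by linarith) (show (0 : ℝ) < 1 / 4 by norm_num))).and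
    (tsqrt.eventually_ge_atTop (2 / (θ * bK)))).exists_forall_of_atTop
  have hsq : ∀ n : ℕ, N0 ≤ n → 1 ≤ θ / 2 * (bK * √ (Real.log n)) := by
    intro n hn
    have h1 := (h0 n hn).2
    rw [div_le_iff₀ (by have := bK_pos; positivity)] at h1
    nlinarith
  refine ⟨fun n => n < N0 + 1, ?_, fun n hn hE => ?_⟩
  · filter_upwards [(tendsto_natCast_atTop_atTop (R := ℝ)).eventually_ge_atTop (((N0 : ℝ) + 1) / η)] with N hN
    rw [div_le_iff₀ hη] at hN
    unfold Pool.Agent.H499R2.ND.cnt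
    have h2 : {n : ℕ | 1 ≤ n ∧ n ≤ N ∧ n < N0 + 1} ⊆ ((range (N0 + 1) : Finset ℕ) : Set ℕ) := by
      intro n hn
      rw [mem_coe, mem_range]
      exact hn.2.2
    have h3 := Set.ncard_le_ncard h2 (Finset.finite_toSet _)
    rw [Set.ncard_coe_finset, card_range] at h3
    have h4 : ({n : ℕ | 1 ≤ n ∧ n ≤ N ∧ n < N0 + 1}.ncard : ℝ) ≤ (N0 : ℝ) + 1 := by exact_mod_cast h3
    linarith
  have hE' : N0 ≤ n := by omega
  have hn2 : N0 ≤ 2 * n := by omega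
  have hnR : (1 : ℝ) ≤ n := by exact_mod_cast hn
  obtain ⟨⟨c1, c2⟩, c3⟩ := h0 (2 * n) hn2
  have k1 := c1 n (by push_cast; linarith) (by omega)
  have k2 := c2 n (by push_cast; linarith) (by omega)
  have e1 : th (2 / Real.log (4 / 3)) bK (x - θ / 2) (2 * n) + 1 ≤ th (2 / Real.log (4 / 3)) bK x (2 * n) := by
    have := hsq (2 * n) hn2
    unfold th
    linarith
  constructor
  · rintro ⟨k, hk, hk1, hk2, hk3⟩
    refine ⟨k + 1, H_two hk, ?_, ?_, ?_⟩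
    · unfold valK at hk1 ⊢
      push_cast
      linarith [k1.1]
    · have := hk2.add_right 1
      rw [sub_add_cancel] at this
      push_cast
      exact this
    · rw [odn_two]; exact hk3
  · rintro ⟨k, hk, hk1, hk2, hk3⟩
    obtain ⟨k', rfl, hk'⟩ := H_of_two hk
    rw [odn_two] at hk3
    refine ⟨k', hk', ?_, ?_, hk3⟩
    · unfold valK at hk1 ⊢
      push_cast at hk1
      linarith [k2.2]
    · push_cast at hk2
      have := hk2.sub_right 1
      rw [add_sub_cancel_right] at this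
      exact this

/-- the law of the total stopping time among the odd integers -/
theorem lawK_odd {δ : ℝ} (hδ : Nat1 δ) (m : ℕ) (a b : ℤ) (hm : 1 ≤ m) (x : ℝ) :
    Mn (fun n => ind (fun n => n % 2 = 1) n * ind (Lv valK (clsK m a b) (th (2 / Real.log (4 / 3)) bK x)) n)
      (δ / m ^ 2 * Phi x / 2) := by
  have h := Mn_of_Dn (dn_odd (lawK_Dn hδ m a b hm x) (lawK_two hδ m a b hm x))
  have e : ind (fun n => n % 2 = 1 ∧ Lv valK (clsK m a b) (th (2 / Real.log (4 / 3)) bK x) n) =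
      fun n => ind (fun n => n % 2 = 1) n * ind (Lv valK (clsK m a b) (th (2 / Real.log (4 / 3)) bK x)) n := by
    funext n
    exact ind_and _ _ n
  rw [e] at h
  exact h

/-- invariant sets among the odd integers -/
theorem inv_odd {S : Set ℤ} (hS : ∀ x, Tz 1 x ∈ S ↔ x ∈ S) {δ : ℝ} (h : Dn (fun n : ℕ => (n : ℤ) ∈ S) δ) :
    Dn (fun n : ℕ => n % 2 = 1 ∧ (n : ℤ) ∈ S) (δ / 2) := by
  refine dn_odd h (Dn_iff (fun n _ => ?_) h)
  rw [← hS ((2 * n : ℕ) : ℤ)]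
  have e : Tz 1 ((2 * n : ℕ) : ℤ) = n := by
    unfold Tz
    rw [if_pos (by omega)]
    omega
  rw [e]

theorem Dn_not {P : ℕ → Prop} {δ : ℝ} (h : Dn P δ) : Dn (fun n => ¬ P n) (1 - δ) := by
  have h1 := Mn_of_Dn h
  apply Dn_of_Mn
  unfold Mn at h1 ⊢
  have h2 : Tendsto (fun N : ℕ => (1 : ℝ) - (∑ n ∈ Icc 1 N, ind P n) / N) atTop (𝓝 (1 - δ)) := h1.const_sub 1
  refine h2.congr' ?_
  filter_upwards [eventually_ge_atTop 1] with N hN
  have hN0 : (N : ℝ) ≠ 0 := by exact_mod_cast (by omega : N ≠ 0)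
  have e : ∑ n ∈ Icc 1 N, ind (fun n => ¬ P n) n = N - ∑ n ∈ Icc 1 N, ind P n := by
    have h3 : ∀ n, ind (fun n => ¬ P n) n = 1 - ind P n := by
      intro n
      by_cases hp : P n
      · rw [ind_pos hp, ind_neg (P := fun n => ¬ P n) (fun h => h hp)]; ring
      · rw [ind_neg hp, ind_pos (P := fun n => ¬ P n) hp]; ring
    simp only [h3]
    rw [sum_sub_distrib, sum_const, Nat.card_Icc, Nat.add_sub_cancel, nsmul_eq_mul, mul_one]
  rw [e]
  field_simp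

/-- the density of an invariant set in a class, relative to `v` -/
theorem dens_inv' {s : ℤ} (hs : s = 1 ∨ s = -1) {S : Set ℤ} (hS : ∀ x, Tz 1 x ∈ S ↔ x ∈ S) {v w : ℕ → ℝ}
    {ρ C c d : ℝ} (hc0 : 0 < c) (hT : TrK w v ρ C c)
    (h : Mn (fun n => v n * ind (fun n : ℕ => s * (n : ℤ) ∈ S) n) d) :
    Mn (fun n => w n * ind (fun n : ℕ => s * (n : ℤ) ∈ S) n) (ρ * d) := by
  classical
  refine Tr_Mn (v := v) hc0 (C := C * 2) (fun N hN => ?_) h
  have h1 := hT.inv hN hs (F := fun x => if x ∈ S then 1 else 0) (fun x => by split_ifs <;> simp) (fun x => by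
    by_cases h : x ∈ S
    · rw [if_pos h, if_pos ((hS x).2 h)]
    · rw [if_neg h, if_neg fun h' => h ((hS x).1 h')])
  have e : (fun n : ℕ => (fun x : ℤ => if x ∈ S then (1 : ℝ) else 0) (s * n)) = ind (fun n : ℕ => s * (n : ℤ) ∈ S) := by
    funext n
    beta_reduce
    by_cases h : s * (n : ℤ) ∈ S
    · rw [if_pos h, ind_pos (P := fun n : ℕ => s * (n : ℤ) ∈ S) h]
    · rw [if_neg h, ind_neg (P := fun n : ℕ => s * (n : ℤ) ∈ S) h]
  rw [e] at h1
  exact h1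

/-- the density of an invariant set in a class of odd integers -/
theorem dens_odd {S : Set ℤ} (hS : ∀ x, Tz 1 x ∈ S ↔ x ∈ S) {δ : ℝ} (hδ : Dn (fun n : ℕ => (n : ℤ) ∈ S) δ)
    {w : ℕ → ℝ} {ρ C c : ℝ} (hc0 : 0 < c) (hT : TrK w (ind (fun n => n % 2 = 1)) ρ C c) :
    Mn (fun n => w n * ind (fun n : ℕ => (n : ℤ) ∈ S) n) (ρ * (δ / 2)) := by
  have h := Mn_of_Dn (inv_odd hS hδ)
  have e : ind (fun n : ℕ => n % 2 = 1 ∧ (n : ℤ) ∈ S) = fun n => ind (fun n => n % 2 = 1) n *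
      ind (fun n : ℕ => (1 : ℤ) * (n : ℤ) ∈ S) n := by
    funext n
    simp only [one_mul]
    exact ind_and _ _ n
  rw [e] at h
  have h1 := dens_inv' (s := 1) (Or.inl rfl) hS hc0 hT h
  simp only [one_mul] at h1
  exact h1

/-- odd predecessors in rich sets -/
theorem pred_odd {E : ℕ → Prop} {ν : ℝ} (hR : Rich (fun n : ℕ => ((2 : ℕ) : ℤ) ∣ n - 1) E ν) {θ C : ℝ} (hθ : 0 < θ) :
    ∃ K : ℝ, 1 ≤ K ∧ ∀ B : ℕ → Prop,
      (∀ X : ℕ, 1 ≤ X → ∑ n ∈ Icc 1 X, ind E n * ind B n ≤ C * (X : ℝ) ^ (1 - ν - θ)) →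
      (∀ a : ℕ, a % 2 = 1 → a % 3 ≠ 0 → ∃ z : ℕ, E z ∧ ¬ B z ∧ a ≤ z ∧ (z : ℝ) ≤ K * (a : ℝ) ^ K ∧
        ∃ j : ℕ, (j : ℝ) ≤ K * (1 + Real.log a) ∧ Tn^[j] z = a) ∧
      (∀ a : ℕ, a % 2 = 1 → ∃ z i j : ℕ, E z ∧ ¬ B z ∧ 1 ≤ z ∧ (z : ℝ) ≤ K * (a : ℝ) ^ K ∧
        (i : ℝ) ≤ K * (1 + Real.log a) ∧ (j : ℝ) ≤ K * (1 + Real.log a) ∧ Tn^[j] z = Tn^[i] a) := by
  classical
  obtain ⟨K, hK, HK⟩ := hR.pred (baseLB_odd (B := fun n : ℕ => ((2 : ℕ) : ℤ) ∣ n - 1) (fun n hn => by omega)) hθ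
    (le_max_right C 0)
  have hbase : ∀ (B : ℕ → Prop),
      (∀ X : ℕ, 1 ≤ X → ∑ n ∈ Icc 1 X, ind E n * ind B n ≤ C * (X : ℝ) ^ (1 - ν - θ)) →
      (∀ a : ℕ, 1 ≤ a → (a : ℤ) % 2 = 1 → ¬ (3 : ℤ) ∣ (a : ℤ) → ∃ z : ℕ, E z ∧ ¬ B z ∧ 1 ≤ z ∧ a ≤ z ∧
        (z : ℝ) ≤ K * (a : ℝ) ^ K ∧ ∃ j : ℕ, (j : ℝ) ≤ K * (1 + Real.log a) ∧ Tn^[j] z = a) := by
    intro B hB a ha ha2 ha3
    obtain ⟨z, hz1, hzE, hzB, hz2, hz3, j, hj1, hj2⟩ := HK 1 a ⟨rfl, by omega, ha2, ha3⟩ B (fun X hX => by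
      have h1 := hB X hX
      rw [← count_sum] at h1
      have e : {n : ℕ | 1 ≤ n ∧ n ≤ X ∧ E n ∧ B n} = ((Icc 1 X).filter fun n => E n ∧ B n : Finset ℕ) := by
        ext n
        simp only [Set.mem_ofPred_eq, coe_filter, mem_Icc, and_assoc]
      rw [e, Set.ncard_coe_finset] at h1
      refine le_trans (le_of_eq ?_) (h1.trans (mul_le_mul_of_nonneg_right (le_max_left _ _) (by positivity)))
      congr)
    have hsz : sz 1 (a : ℤ) = a := by
      unfold sz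
      rw [Int.cast_natCast, Nat.abs_cast, Int.cast_one, abs_one]
      exact max_eq_left (by exact_mod_cast ha)
    rw [hsz] at hz2 hj1
    have hsig : (a : ℤ).sign = 1 := Int.sign_eq_one_of_pos (by omega)
    rw [hsig, one_mul, Tz_iter_nat] at hj2
    rw [Int.cast_natCast, Nat.abs_cast] at hz3
    exact ⟨z, hzE, hzB, hz1, by exact_mod_cast hz3, hz2, j, hj1, by exact_mod_cast hj2⟩
  set K' : ℝ := max (K * 2 ^ K) (2 * K + 5) with hK'
  have hK1 : K * 2 ^ K ≤ K' := le_max_left _ _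
  have hK2 : 2 * K + 5 ≤ K' := le_max_right _ _
  refine ⟨K', by linarith, fun B hB => ⟨fun a ha ha3 => ?_, fun a ha => ?_⟩⟩
  · obtain ⟨z, h1, h2, h3, h4, h5, j, h6, h7⟩ := hbase B hB a (by omega) (by omega) (by omega)
    have haR : (1 : ℝ) ≤ a := by exact_mod_cast (by omega : 1 ≤ a)
    have hlog : 0 ≤ Real.log (a : ℝ) := Real.log_nonneg haR
    refine ⟨z, h1, h2, h4, h5.trans ?_, j, h6.trans ?_, h7⟩
    · calc K * (a : ℝ) ^ K ≤ K' * (a : ℝ) ^ K := mul_le_mul_of_nonneg_right (by linarith) (by positivity)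
        _ ≤ K' * (a : ℝ) ^ K' := mul_le_mul_of_nonneg_left
          (Real.rpow_le_rpow_of_exponent_le haR (by linarith)) (by linarith)
    · exact mul_le_mul_of_nonneg_right (by linarith) (by linarith)
  · have haR : (1 : ℝ) ≤ a := by exact_mod_cast (by omega : 1 ≤ a)
    have hlog : 0 ≤ Real.log (a : ℝ) := Real.log_nonneg haR
    obtain ⟨i, y, g1, g2, ⟨-, g3, g4, g5⟩, g6, g7⟩ := hN_odd a (by omega) ha
    obtain ⟨z, h1, h2, h3, h4, h5, j, h6, h7⟩ := hbase B hB y g2 g4 g5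
    have hyR : (1 : ℝ) ≤ y := by exact_mod_cast g2
    have hy2 : (y : ℝ) ≤ 2 * a := by exact_mod_cast g6
    have hlog2 : Real.log (y : ℝ) ≤ 1 + Real.log (a : ℝ) := by
      have e1 := Real.log_le_log (by linarith) hy2
      rw [Real.log_mul (by norm_num) (by linarith)] at e1
      linarith [Real.log_two_lt_d9]
    refine ⟨z, i, j, h1, h2, h3, h5.trans ?_, ?_, h6.trans ?_, by rw [h7, g1]⟩
    · calc K * (y : ℝ) ^ K ≤ K * (2 * (a : ℝ)) ^ K := by
            apply mul_le_mul_of_nonneg_left _ (by linarith)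
            exact Real.rpow_le_rpow (by positivity) hy2 (by linarith)
        _ = K * 2 ^ K * (a : ℝ) ^ K := by rw [Real.mul_rpow (by norm_num) (by positivity)]; ring
        _ ≤ K' * (a : ℝ) ^ K := mul_le_mul_of_nonneg_right hK1 (by positivity)
        _ ≤ K' * (a : ℝ) ^ K' := mul_le_mul_of_nonneg_left
          (Real.rpow_le_rpow_of_exponent_le haR (by linarith)) (by linarith)
    · have e1 : ((2 : ℝ)) ^ i ≤ 4 * (a : ℝ) := by exact_mod_cast g7
      have e2 := Real.log_le_log (by positivity) e1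
      rw [Real.log_pow, Real.log_mul (by norm_num) (by linarith)] at e2
      have e3 := Real.log_two_gt_d9
      have e4 := Real.log_two_lt_d9
      have e6 : Real.log 4 = 2 * Real.log 2 := by
        rw [show (4 : ℝ) = 2 ^ 2 by norm_num, Real.log_pow]; norm_num
      have e5 : (i : ℝ) * 0.69 ≤ i * Real.log 2 := mul_le_mul_of_nonneg_left (by linarith) (Nat.cast_nonneg _)
      nlinarith
    · nlinarith

end Pool.Agent.X266.CD
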