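import Pool.Agent.X266.CD.Mod
import Pool.Agent.W36.PDV

/-! Lower bounds for the number of predecessors. -/

set_option autoImplicit false

namespace Pool.Agent.X266.CD

open Finset Pool.Agent.H366R2.KGen
open Pool.Agent.Y965.PS (Tz)

theorem TK_Tz (k : ℤ) : TK k = Tz k := by funext x; rfl

open Classical in
theorem sum_ge {B : ℕ → Prop} {G : ℕ → ℝ} (hG : ∀ n, 0 ≤ G n) {Y : ℕ} (S : Finset ℕ)
    (hS : ∀ n ∈ S, (Y / 2 < n ∧ n ≤ Y) ∧ B n ∧ G n = 1) : (S.card : ℝ) ≤ ∑ n ∈ (Ioc (Y / 2) Y).filter B, G n := by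
  have h1 : ∑ n ∈ S, G n ≤ ∑ n ∈ (Ioc (Y / 2) Y).filter B, G n := by
    apply sum_le_sum_of_subset_of_nonneg
    · intro n hn
      obtain ⟨h2, h3, _⟩ := hS n hn
      rw [mem_filter, mem_Ioc]
      exact ⟨h2, h3⟩
    · intro n _ _; exact hG n
  refine le_trans (le_of_eq ?_) h1
  rw [sum_congr rfl fun n hn => (hS n hn).2.2, sum_const, nsmul_eq_mul, mul_one]

theorem baseLB_all {B : ℕ → Prop} (hB : ∀ n, B n) :
    BaseLB B (fun k a => k % 2 = 1 ∧ ¬ (3 : ℤ) ∣ k ∧ ¬ (3 : ℤ) ∣ a) := by
  classical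
  obtain ⟨c, C, hc, hC, H⟩ := Pool.Agent.W36.PDU.mainKall
  refine ⟨fun k a h => ⟨h.1, by rintro rfl; exact h.2.2 (dvd_zero _)⟩, min c 1, C, lt_min hc one_pos, min_le_right _ _, hC.le, ?_⟩
  rintro k a ⟨hk, hk3, ha3⟩ X hX
  have ha0 : a ≠ 0 := by rintro rfl; exact ha3 (dvd_zero _)
  have hA1 : 1 ≤ sz k a := sz_ge hk
  have haR : (1 : ℝ) ≤ |(a : ℝ)| := by exact_mod_cast Int.one_le_abs ha0
  have haX : |(a : ℝ)| ≤ X := (le_max_left _ _).trans hX
  have hkX : |(k : ℝ)| ≤ X := (le_max_right _ _).trans hX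
  have hX0 : (0 : ℝ) < X := by linarith
  have hc1 : min c 1 ≤ c := min_le_left _ _
  have hc2 : min c 1 ≤ 1 := min_le_right _ _
  have hc0 : 0 < min c 1 := lt_min hc one_pos
  obtain ⟨S, hS, hcard⟩ := H k a hk hk3 ha3 X haX hkX
  refine ⟨X, ?_, le_rfl, ?_⟩
  · rw [div_le_iff₀ (by linarith)]
    calc min c 1 * (X : ℝ) ≤ 1 * X := mul_le_mul_of_nonneg_right hc2 hX0.le
      _ = X * 1 := by ring
      _ ≤ X * sz k a := mul_le_mul_of_nonneg_left hA1 hX0.le
  · have h1 : min c 1 * X / sz k a ^ 2 ≤ c * X / max |(a : ℝ)| |(k : ℝ)| := by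
      show min c 1 * X / sz k a ^ 2 ≤ c * X / sz k a
      rw [div_le_div_iff₀ (by positivity) (by linarith)]
      have h2 : sz k a ≤ sz k a ^ 2 := le_self_pow₀ hA1 (by norm_num)
      calc min c 1 * X * sz k a ≤ c * X * sz k a := by gcongr
        _ ≤ c * X * sz k a ^ 2 := by gcongr
    refine h1.trans (hcard.trans ?_)
    have hsgn : ∀ z ∈ S, a.sign * (z.natAbs : ℤ) = z := by
      intro z hz
      obtain ⟨_, _, h3, _⟩ := hS z hz
      have h4 : z.sign = a.sign := by
        rcases lt_or_gt_of_ne ha0 with h | h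
        · have : z < 0 := by nlinarith
          rw [Int.sign_eq_neg_one_of_neg h, Int.sign_eq_neg_one_of_neg this]
        · have : 0 < z := by nlinarith
          rw [Int.sign_eq_one_of_pos h, Int.sign_eq_one_of_pos this]
      rw [← h4]; exact Int.sign_mul_natAbs z
    have hinj : Set.InjOn Int.natAbs (S : Set ℤ) := by
      intro z hz z' hz' he
      rw [← hsgn z hz, ← hsgn z' hz', he]
    rw [← card_image_of_injOn hinj]
    apply sum_ge (fun n => FJ_nonneg _ _ _ _)
    intro n hn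
    rw [mem_image] at hn
    obtain ⟨z, hz, rfl⟩ := hn
    obtain ⟨h3, h4, h5, j, hj, hja⟩ := hS z hz
    have e1 : |(z : ℝ)| = z.natAbs := by rw [Nat.cast_natAbs, Int.cast_abs]
    rw [e1] at h3 h4
    refine ⟨⟨?_, by exact_mod_cast h4⟩, hB _, ?_⟩
    · have h6 : (X : ℝ) < 2 * z.natAbs := by linarith
      have h7 : X < 2 * z.natAbs := by exact_mod_cast h6
      omega
    · rw [hsgn z hz]
      unfold FJ
      rw [if_pos]
      refine ⟨j, hj.trans ?_, by rw [← TK_Tz]; exact hja⟩
      apply mul_le_mul_of_nonneg_left _ hC.le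
      have h6 : Real.log (X / |(a : ℝ)|) ≤ Real.log X := by
        apply Real.log_le_log (by positivity)
        exact div_le_self hX0.le haR
      linarith

theorem Tz_even (i : ℕ) (k w : ℤ) : (Tz k)^[i] (2 ^ i * w) = w := by
  rw [← TK_Tz]; exact TK_halves k i w

theorem odd_dec : ∀ n : ℕ, 0 < n → ∃ v m : ℕ, m % 2 = 1 ∧ n = 2 ^ v * m := by
  intro n
  induction n using Nat.strong_induction_on with
  | _ n ih =>
    intro hn
    rcases Nat.mod_two_eq_zero_or_one n with h | h
    · obtain ⟨v, m, hm, he⟩ := ih (n / 2) (by omega) (by omega)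
      refine ⟨v + 1, m, hm, ?_⟩
      have : n = 2 * (n / 2) := by omega
      rw [this, he, pow_succ]; ring
    · exact ⟨0, n, h, by simp⟩

theorem baseLB_odd {B : ℕ → Prop} (hB : ∀ n, n % 2 = 1 → B n) :
    BaseLB B (fun k a => k = 1 ∧ 0 < a ∧ a % 2 = 1 ∧ ¬ (3 : ℤ) ∣ a) := by
  classical
  obtain ⟨c₁, C, hc₁, hC, H⟩ := Pool.Agent.W36.PDU.mainKall
  set c : ℝ := min c₁ 1 with hcdef
  have hc : 0 < c := lt_min hc₁ one_pos
  have hc1 : c ≤ 1 := min_le_right _ _
  have hcc : c ≤ c₁ := min_le_left _ _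
  refine ⟨?_, c ^ 2 / 10, C, by positivity, by nlinarith, hC.le, ?_⟩
  · rintro k a ⟨rfl, h, _⟩; exact ⟨by norm_num, h.ne'⟩
  rintro k a ⟨rfl, ha0, ha2, ha3⟩ X hX
  have haZ : (1 : ℤ) ≤ a := ha0
  have haR : (1 : ℝ) ≤ a := by exact_mod_cast haZ
  have hsz : sz 1 a = a := by
    unfold sz
    rw [abs_of_nonneg (by linarith), Int.cast_one, abs_one]
    exact max_eq_left haR
  rw [hsz] at hX ⊢
  set A : ℝ := (a : ℝ) with hA
  have hA0 : 0 < A := by linarith
  have hX0 : (0 : ℝ) < X := by linarith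
  obtain ⟨S, hS, hcard⟩ := H 1 a (by norm_num) (by norm_num) ha3 X (by rw [abs_of_pos hA0]; exact hX)
    (by rw [Int.cast_one, abs_one]; linarith)
  have hmax : max |(a : ℝ)| |((1 : ℤ) : ℝ)| = A := hsz
  rw [hmax] at hcard
  have hpos : ∀ z ∈ S, 0 < z := by
    intro z hz
    obtain ⟨_, _, h3, _⟩ := hS z hz
    nlinarith
  -- the number of the powers of two
  set R : ℕ := ⌈4 * A / c⌉₊ with hR
  have h4Ac : 4 ≤ 4 * A / c := by rw [le_div_iff₀ hc]; nlinarith
  have hR1 : 4 * A / c ≤ R := Nat.le_ceil _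
  have hR2 : (R : ℝ) ≤ 5 * A / c := by
    have h1 := (Nat.ceil_lt_add_one (by positivity : 0 ≤ 4 * A / c)).le
    rw [← hR] at h1
    have h2 : 1 ≤ A / c := by rw [le_div_iff₀ hc]; linarith
    have h3 : 5 * A / c = 4 * A / c + A / c := by ring
    rw [h3]; linarith
  have hR4 : 4 ≤ R := by
    have : (4 : ℝ) ≤ R := h4Ac.trans hR1
    exact_mod_cast this
  set V : ℕ := Nat.clog 2 R with hV
  have hV1 : R ≤ 2 ^ V := Nat.le_pow_clog (by norm_num) R
  have hV2 : 2 ^ (V - 1) < R := Nat.pow_pred_clog_lt_self (by norm_num) (by omega)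
  have hV0 : 0 < V := Nat.clog_pos (by norm_num) (by omega)
  have hV3 : V ≤ R := by
    have h1 : V - 1 < 2 ^ (V - 1) := Nat.lt_two_pow_self
    omega
  set Sv : ℕ → Finset ℤ := fun v => S.filter (fun z => ∃ m : ℕ, m % 2 = 1 ∧ z = 2 ^ v * (m : ℤ)) with hSv
  set Si : Finset ℤ := S.filter (fun z => ((2 : ℤ) ^ V) ∣ z) with hSi
  have hcov : S ⊆ (range V).biUnion Sv ∪ Si := by
    intro z hz
    obtain ⟨v, m, hm, he⟩ := odd_dec z.toNat (by have := hpos z hz; omega)
    have hz' : z = 2 ^ v * (m : ℤ) := by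
      have h1 : ((z.toNat : ℕ) : ℤ) = z := Int.toNat_of_nonneg (hpos z hz).le
      rw [← h1, he]; push_cast; ring
    rw [mem_union, mem_biUnion]
    rcases lt_or_ge v V with h | h
    · left
      exact ⟨v, mem_range.2 h, mem_filter.2 ⟨hz, m, hm, hz'⟩⟩
    · right
      refine mem_filter.2 ⟨hz, ?_⟩
      rw [hz']
      exact (pow_dvd_pow 2 h).mul_right _
  have hSi' : (Si.card : ℝ) ≤ c * X / (4 * A) := by
    have h1 : Si.card ≤ X / 2 ^ V := by
      have h2 : Si.card ≤ (Icc 1 (X / 2 ^ V)).card := by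
        apply card_le_card_of_injOn (fun z => (z / 2 ^ V).toNat)
        · intro z hz
          rw [mem_coe, mem_filter] at hz
          obtain ⟨w, hw⟩ := hz.2
          have hz0 := hpos z hz.1
          have hp : (0 : ℤ) < 2 ^ V := by positivity
          have hw0 : 0 < w := by
            by_contra hcon
            push Not at hcon
            nlinarith
          have e1 : z / 2 ^ V = w := by rw [hw]; exact Int.mul_ediv_cancel_left _ hp.ne'
          have h4 := (hS z hz.1).2.1
          rw [abs_of_pos (by exact_mod_cast hz0)] at h4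
          have h5 : z ≤ (X : ℤ) := by exact_mod_cast h4
          show (z / 2 ^ V).toNat ∈ (↑(Icc 1 (X / 2 ^ V)) : Set ℕ)
          rw [e1, coe_Icc, Set.mem_Icc]
          refine ⟨by omega, ?_⟩
          rw [Nat.le_div_iff_mul_le (by positivity)]
          have h6 : ((w.toNat * 2 ^ V : ℕ) : ℤ) ≤ X := by
            push_cast
            rw [Int.toNat_of_nonneg hw0.le]
            rw [hw] at h5
            linarith
          exact_mod_cast h6
        · intro z hz z' hz' he
          rw [mem_coe, mem_filter] at hz hz'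
          obtain ⟨w, hw⟩ := hz.2
          obtain ⟨w', hw'⟩ := hz'.2
          have hp : (0 : ℤ) < 2 ^ V := by positivity
          have hz0 := hpos z hz.1
          have hz0' := hpos z' hz'.1
          have hw0 : 0 < w := by
            by_contra hcon
            push Not at hcon
            nlinarith
          have hw0' : 0 < w' := by
            by_contra hcon
            push Not at hcon
            nlinarith
          have e1 : z / 2 ^ V = w := by rw [hw]; exact Int.mul_ediv_cancel_left _ hp.ne'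
          have e1' : z' / 2 ^ V = w' := by rw [hw']; exact Int.mul_ediv_cancel_left _ hp.ne'
          simp only [e1, e1'] at he
          have : w = w' := by omega
          rw [hw, hw', this]
      rw [Nat.card_Icc, Nat.add_sub_cancel] at h2
      exact h2
    have h2 : (Si.card : ℝ) ≤ (X : ℝ) / 2 ^ V := by
      have h3 : (Si.card : ℝ) ≤ ((X / 2 ^ V : ℕ) : ℝ) := by exact_mod_cast h1
      refine h3.trans ?_
      have := Nat.cast_div_le (α := ℝ) (m := X) (n := 2 ^ V)
      push_cast at this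
      exact this
    refine h2.trans ?_
    have h3 : 4 * A / c ≤ 2 ^ V := hR1.trans (by exact_mod_cast hV1)
    rw [div_le_div_iff₀ (by positivity) (by positivity)]
    rw [div_le_iff₀ hc] at h3
    nlinarith
  -- a power of two with many integers
  obtain ⟨v, hvV, hv⟩ : ∃ v < V, c * X / (2 * A * V) ≤ (Sv v).card := by
    by_contra hcon
    push Not at hcon
    have h1 := (card_le_card hcov).trans ((card_union_le _ _).trans (Nat.add_le_add_right card_biUnion_le _))
    have h2 : (S.card : ℝ) ≤ ∑ v ∈ range V, ((Sv v).card : ℝ) + Si.card := by exact_mod_cast h1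
    have h3 : ∑ v ∈ range V, ((Sv v).card : ℝ) ≤ ∑ v ∈ range V, c * X / (2 * A * V) :=
      sum_le_sum fun v hv => (hcon v (mem_range.1 hv)).le
    rw [sum_const, card_range, nsmul_eq_mul] at h3
    have hVR : (0 : ℝ) < V := by exact_mod_cast hV0
    have h4 : (V : ℝ) * (c * X / (2 * A * V)) = c * X / (2 * A) := by field_simp
    have h5 : c * X / A ≤ S.card := by
      refine le_trans ?_ hcard
      gcongr
    have h6 : c * X / (2 * A) + c * X / (4 * A) < c * X / A := by
      have h7 : c * X / (2 * A) + c * X / (4 * A) = 3 / 4 * (c * X / A) := by field_simp; ring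
      have h8 : 0 < c * X / A := by positivity
      rw [h7]; linarith
    linarith
  have hVR : (0 : ℝ) < V := by exact_mod_cast hV0
  have hVA : (V : ℝ) ≤ 5 * A / c := (by exact_mod_cast hV3 : (V : ℝ) ≤ R).trans hR2
  have hlow : c ^ 2 / 10 * X / A ^ 2 ≤ (Sv v).card := by
    refine le_trans ?_ hv
    rw [div_le_div_iff₀ (by positivity) (by positivity)]
    have h1 : V * c ≤ 5 * A := by rwa [le_div_iff₀ hc] at hVA
    have h2 : c ^ 2 / 10 * X * (2 * A * V) = c * X * A / 5 * (V * c) := by ring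
    rw [h2]
    have h3 : c * X * A / 5 * (V * c) ≤ c * X * A / 5 * (5 * A) := mul_le_mul_of_nonneg_left h1 (by positivity)
    refine h3.trans (le_of_eq ?_)
    ring
  have hne : (Sv v).Nonempty := by
    rw [← card_pos]
    have h1 : (0 : ℝ) < (Sv v).card := lt_of_lt_of_le (by positivity) hlow
    exact_mod_cast h1
  set Y : ℕ := X / 2 ^ v with hY
  have hp2 : 0 < 2 ^ v := by positivity
  have hmem : ∀ z ∈ Sv v, ∀ m : ℕ, z = 2 ^ v * (m : ℤ) → Y / 2 < m ∧ m ≤ Y := by
    intro z hz m he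
    have hz' := hS z (mem_filter.1 hz).1
    have hz0 := hpos z (mem_filter.1 hz).1
    obtain ⟨h3, h4, _⟩ := hz'
    rw [abs_of_pos (by exact_mod_cast hz0)] at h3 h4
    have h5 : (X : ℤ) < 2 * z := by
      have : (X : ℝ) < 2 * z := by linarith
      exact_mod_cast this
    have h6 : z ≤ (X : ℤ) := by exact_mod_cast h4
    rw [he] at h5 h6
    have h7 : X < 2 * (2 ^ v * m) := by exact_mod_cast h5
    have h8 : 2 ^ v * m ≤ X := by exact_mod_cast h6
    constructor
    · rw [hY, Nat.div_div_eq_div_mul, Nat.div_lt_iff_lt_mul (by positivity)]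
      linarith
    · rw [hY, Nat.le_div_iff_mul_le hp2]
      linarith
  have hY1 : 1 ≤ Y := by
    obtain ⟨z, hz⟩ := hne
    obtain ⟨m, hm, he⟩ := (mem_filter.1 hz).2
    have := hmem z hz m he
    omega
  refine ⟨Y, ?_, Nat.div_le_self _ _, ?_⟩
  · have h1 : X < 2 ^ v * (Y + 1) := by
      have := Nat.lt_mul_div_succ X hp2
      exact this
    have h2 : X < 2 ^ v * (2 * Y) := lt_of_lt_of_le h1 (Nat.mul_le_mul_left _ (by omega))
    have h3 : (X : ℝ) < 2 ^ v * (2 * Y) := by exact_mod_cast h2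
    have h4 : 2 ^ v ≤ 2 ^ (V - 1) := Nat.pow_le_pow_right (by norm_num) (by omega)
    have h5 : ((2 : ℝ)) ^ v ≤ 5 * A / c := by
      have : ((2 ^ v : ℕ) : ℝ) ≤ R := by exact_mod_cast (h4.trans hV2.le)
      push_cast at this
      exact this.trans hR2
    rw [div_le_iff₀ hA0]
    have h6 : (X : ℝ) ≤ 5 * A / c * (2 * Y) := by
      have : ((2 : ℝ)) ^ v * (2 * Y) ≤ 5 * A / c * (2 * Y) := mul_le_mul_of_nonneg_right h5 (by positivity)
      linarith
    have h7 : c * X ≤ 10 * A * Y := by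
      have h8 := mul_le_mul_of_nonneg_left h6 hc.le
      have h9 : c * (5 * A / c * (2 * Y)) = 10 * A * Y := by field_simp; ring
      linarith
    have h8 : c ^ 2 / 10 * X ≤ c / 10 * (10 * A * Y) := by
      have : c ^ 2 / 10 * X = c / 10 * (c * X) := by ring
      rw [this]
      exact mul_le_mul_of_nonneg_left h7 (by positivity)
    have h9 : 0 ≤ A * Y := by positivity
    have h10 : c / 10 * (10 * A * Y) = c * (A * Y) := by ring
    rw [h10] at h8
    nlinarith
  · have hsig : a.sign = 1 := Int.sign_eq_one_of_pos ha0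
    have h1 : c ^ 2 / 10 * Y / A ^ 2 ≤ c ^ 2 / 10 * X / A ^ 2 := by
      have : (Y : ℝ) ≤ X := by exact_mod_cast Nat.div_le_self X (2 ^ v)
      gcongr
    refine (h1.trans hlow).trans ?_
    have hinj : Set.InjOn (fun z : ℤ => (z / 2 ^ v).toNat) (Sv v : Set ℤ) := by
      intro z hz z' hz' he
      obtain ⟨m, hm, e1⟩ := (mem_filter.1 (mem_coe.1 hz)).2
      obtain ⟨m', hm', e1'⟩ := (mem_filter.1 (mem_coe.1 hz')).2
      have hp : ((2 : ℤ) ^ v) ≠ 0 := by positivity
      simp only [e1, e1', Int.mul_ediv_cancel_left _ hp, Int.toNat_natCast] at he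
      rw [e1, e1', he]
    rw [← card_image_of_injOn hinj]
    apply sum_ge (fun n => FJ_nonneg _ _ _ _)
    intro n hn
    rw [mem_image] at hn
    obtain ⟨z, hz, rfl⟩ := hn
    obtain ⟨m, hm, e1⟩ := (mem_filter.1 hz).2
    have hp : ((2 : ℤ) ^ v) ≠ 0 := by positivity
    have e2 : (z / 2 ^ v).toNat = m := by rw [e1, Int.mul_ediv_cancel_left _ hp, Int.toNat_natCast]
    rw [e2]
    refine ⟨hmem z hz m e1, hB m hm, ?_⟩
    rw [hsig, one_mul]
    unfold FJ
    rw [if_pos]
    obtain ⟨_, _, _, j, hj, hja⟩ := hS z (mem_filter.1 hz).1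
    rw [TK_Tz] at hja
    have hvj : v ≤ j := by
      by_contra hcon
      push Not at hcon
      have e3 : z = 2 ^ j * (2 ^ (v - j) * (m : ℤ)) := by
        rw [e1, ← mul_assoc, ← pow_add]; congr 2; omega
      rw [e3, Tz_even] at hja
      have h6 : (2 : ℤ) ∣ a := by
        rw [← hja]
        exact (dvd_pow_self 2 (by omega)).mul_right _
      omega
    refine ⟨j - v, ?_, ?_⟩
    · have h6 : ((j - v : ℕ) : ℝ) ≤ j := by exact_mod_cast Nat.sub_le j v
      refine (h6.trans hj).trans ?_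
      apply mul_le_mul_of_nonneg_left _ hC.le
      have h7 : Real.log (X / |(a : ℝ)|) ≤ Real.log X := by
        apply Real.log_le_log (by rw [abs_of_pos hA0]; positivity)
        rw [abs_of_pos hA0]
        exact div_le_self hX0.le haR
      linarith
    · have e4 : j = (j - v) + v := by omega
      rw [e4, Function.iterate_add_apply, e1, Tz_even] at hja
      exact hja

end Pool.Agent.X266.CD
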