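import Pool.Agent.X266.CD.Gen
import Pool.Agent.Y965.PL.Disp

/-! The `3x+k` maps: transfer to digit classes and to polynomials modulo one. -/

set_option autoImplicit false

namespace Pool.Agent.X266.CD

open Finset Pool.Agent.H319R3.GC Pool.Agent.Y55.DS Polynomial
open Pool.Agent.Y965.PS (Tz ac oc ac_succ main_id oc_nonneg)
open Pool.Agent.Y965.PL (ASync)

/-- the multipliers of the `3x+k` maps -/
def m3 (i : ℕ) : ℤ := if i = 0 then 1 else 3
/-- the remainders of the `3x+k` maps -/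
def rk (k : ℤ) (i : ℕ) : ℤ := if i = 0 then 0 else -k

theorem adm3 {k : ℤ} (hk : k % 2 = 1) : Adm 2 m3 (rk k) := by
  refine ⟨le_rfl, ?_, ?_, ?_, ?_⟩
  · intro i hi
    interval_cases i
    · exact isCoprime_one_left
    · show IsCoprime (3 : ℤ) 2
      exact ⟨1, -1, by norm_num⟩
  · intro i hi
    interval_cases i
    · unfold m3 rk; simp
    · show (2 : ℤ) ∣ 3 * 1 - (-k)
      omega
  · unfold PP
    simp [Finset.prod_range_succ, m3]
  · unfold PP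
    simp [Finset.prod_range_succ, m3]

theorem Tm_eq (k x : ℤ) : Tm 2 m3 (rk k) x = Tz k x := by
  unfold Tm Tz
  rcases Int.emod_two_eq_zero_or_one x with h | h
  · have e : (x % ((2 : ℕ) : ℤ)).toNat = 0 := by
      have : x % ((2 : ℕ) : ℤ) = 0 := h
      rw [this]; rfl
    rw [e, if_pos h]
    show (1 * x - 0) / 2 = x / 2
    rw [one_mul, sub_zero]
  · have e : (x % ((2 : ℕ) : ℤ)).toNat = 1 := by
      have : x % ((2 : ℕ) : ℤ) = 1 := h
      rw [this]; rfl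
    rw [e, if_neg (by omega)]
    show (3 * x - -k) / 2 = (3 * x + k) / 2
    rw [sub_neg_eq_add]

theorem Tm_fun (k : ℤ) : Tm 2 m3 (rk k) = Tz k := funext (Tm_eq k)

theorem ac_front (k : ℤ) (t : ℕ) (x : ℤ) : ac k (t + 1) x = (if x % 2 = 0 then 0 else 1) + ac k t (Tz k x) := by
  induction t with
  | zero => rw [ac_succ]; simp [ac]
  | succ t ih =>
    rw [ac_succ, ih, ac_succ, Function.iterate_succ_apply, add_assoc]

theorem Mw_eq (k : ℤ) (j : ℕ) : ∀ x : ℤ, Mw m3 (wd 2 m3 (rk k) j x) = 3 ^ ac k j x := by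
  induction j with
  | zero => intro x; simp [wd, Mw, ac]
  | succ j ih =>
    intro x
    have h1 : Mw m3 (wd 2 m3 (rk k) (j + 1) x) = m3 (x % ((2 : ℕ) : ℤ)).toNat * Mw m3 (wd 2 m3 (rk k) j (Tm 2 m3 (rk k) x)) := by
      simp [wd, Mw]
    rw [h1, Tm_eq, ih, ac_front]
    rcases Int.emod_two_eq_zero_or_one x with h | h
    · have e : (x % ((2 : ℕ) : ℤ)).toNat = 0 := by
        have : x % ((2 : ℕ) : ℤ) = 0 := h
        rw [this]; rfl
      rw [e, if_pos h, zero_add]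
      show 1 * _ = _
      rw [one_mul]
    · have e : (x % ((2 : ℕ) : ℤ)).toNat = 1 := by
        have : x % ((2 : ℕ) : ℤ) = 1 := h
        rw [this]; rfl
      rw [e, if_neg (by omega), pow_add]
      show 3 * _ = _
      rw [pow_one]

theorem Tz_pos {x : ℤ} (hx : 0 < x) (j : ℕ) : 0 < (Tz 1)^[j] x := by
  induction j generalizing x with
  | zero => exact hx
  | succ j ih =>
    rw [Function.iterate_succ_apply]
    apply ih
    unfold Tz
    split_ifs <;> omega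

theorem Tz_nonpos {x : ℤ} (hx : x ≤ 0) (j : ℕ) : (Tz 1)^[j] x ≤ 0 := by
  induction j generalizing x with
  | zero => exact hx
  | succ j ih =>
    rw [Function.iterate_succ_apply]
    apply ih
    unfold Tz
    split_ifs <;> omega

/-- `2 ^ k ≤ N ^ (1 / 16)` and `√N < x` -/
theorem two_lt {k N : ℕ} {x : ℤ} (h1 : (((2 : ℕ) : ℝ)) ^ k ≤ (N : ℝ) ^ (1 / 16 : ℝ)) (hN : 1 ≤ N)
    (h2 : (N : ℝ) ^ (1 / 2 : ℝ) < |(x : ℝ)|) (hx : 0 < x) : 2 ^ k < x := by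
  have hNR : (1 : ℝ) ≤ N := by exact_mod_cast hN
  have h3 : (N : ℝ) ^ (1 / 16 : ℝ) ≤ (N : ℝ) ^ (1 / 2 : ℝ) := Real.rpow_le_rpow_of_exponent_le hNR (by norm_num)
  rw [abs_of_pos (by exact_mod_cast hx)] at h2
  have h4 : ((2 : ℝ)) ^ k < (x : ℝ) := by
    have : ((2 : ℝ)) ^ k ≤ (N : ℝ) ^ (1 / 16 : ℝ) := by exact_mod_cast h1
    linarith
  exact_mod_cast h4

theorem syncK_async {G : ℕ → ℝ} (hG : ASync 1 (fun z => G z.toNat)) {N : ℕ} (hN : 1 ≤ N) :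
    SyncK 2 m3 (rk 1) N (fun z => G z.toNat) := by
  refine ⟨hG.1, fun k x y h1 h2 h3 h4 h5 => ?_⟩
  rw [Tm_fun] at h4
  rw [Mw_eq, Mw_eq] at h5
  have h6 : ac 1 k x = ac 1 k y := Int.pow_right_injective (by norm_num) h5
  by_cases hx : 0 < x
  · have hy : 0 < y := by
      by_contra hcon
      have := Tz_nonpos (not_lt.1 hcon) k
      have := Tz_pos hx k
      omega
    exact hG.2 k x y (two_lt h1 hN h2 hx) (two_lt h1 hN h3 hy) h4 h6
  · have hy : ¬ 0 < y := by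
      intro hcon
      have := Tz_nonpos (not_lt.1 hx) k
      have := Tz_pos hcon k
      omega
    have e1 : x.toNat = 0 := by omega
    have e2 : y.toNat = 0 := by omega
    simp only [e1, e2]

/-- the size -/
theorem sum_rk (k : ℤ) : 1 + ∑ i ∈ range 2, |((rk k i : ℤ) : ℝ)| = 1 + |(k : ℝ)| := by
  simp [Finset.sum_range_succ, rk]

/-- admissible functions for the `3x+k` maps -/
def GK (N : ℕ) (A : ℝ) (G : ℕ → ℝ) : Prop := ∃ (k s : ℤ) (F : ℤ → ℝ), k % 2 = 1 ∧ (s = 1 ∨ s = -1) ∧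
  SyncK 2 m3 (rk k) N F ∧ A = 1 + |(k : ℝ)| ∧ ∀ n : ℕ, G n = F (s * n)

theorem eng3 : Eng 2 GK := by
  have E := eng_maps (adm3 (k := 1) (by norm_num))
  refine ⟨le_rfl, ?_, ?_, ?_, ?_, ?_⟩
  · rintro N A G ⟨k, s, F, hk, hs, hF, rfl, hG⟩
    have := abs_nonneg (k : ℝ)
    linarith
  · rintro N A G ⟨k, s, F, hk, hs, hF, rfl, hG⟩ n
    rw [hG]; exact hF.1 _
  · rintro N A G ⟨k, s, F, hk, hs, hF, hA, hG⟩
    refine ⟨k, s, fun x => (1 + F x) / 2, hk, hs, ⟨fun x => ?_, fun j x y h1 h2 h3 h4 h5 => ?_⟩, hA, fun n => by simp only [hG]⟩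
    · have := abs_le.1 (hF.1 x)
      rw [abs_le]; constructor <;> linarith [this.1, this.2]
    · simp only; rw [hF.2 j x y h1 h2 h3 h4 h5]
  · rintro N A G ⟨k, s, F, hk, hs, hF, hA, hG⟩
    exact ⟨k, s, fun _ => 1, hk, hs, ⟨fun x => by simp, fun _ _ _ _ _ _ _ _ => rfl⟩, hA, fun n => rfl⟩
  · intro a c C ha hc hc1 hC
    obtain ⟨K, b, hK, hb, H⟩ := E.main a c C ha hc hc1 hC
    refine ⟨K, b, hK, hb, ?_⟩
    rintro N A G z hN ⟨k, s, F, hk, hs, hF, hA, hG⟩ hz1 hz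
    exact H N A G z hN ⟨rk k, s, F, adm3 hk, hs, hF, by rw [sum_rk]; exact hA, hG⟩ hz1 hz

theorem GK_async {G : ℕ → ℝ} (hG : ASync 1 (fun z => G z.toNat)) {N : ℕ} (hN : 1 ≤ N) : GK N 2 G :=
  ⟨1, 1, fun z => G z.toNat, by norm_num, Or.inl rfl, syncK_async hG hN, by norm_num, fun n => by simp⟩

/-- functions on the grand orbits of the `3x+k` map -/
def SyncG (k : ℤ) (F : ℤ → ℝ) : Prop := (∀ x, |F x| ≤ 1) ∧ ∀ (j : ℕ) (x y : ℤ), (Tz k)^[j] x = (Tz k)^[j] y → F x = F y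

theorem syncK_syncG {k : ℤ} {F : ℤ → ℝ} (hF : SyncG k F) (N : ℕ) : SyncK 2 m3 (rk k) N F :=
  ⟨hF.1, fun j x y _ _ _ h4 _ => hF.2 j x y (by rw [← Tm_fun]; exact h4)⟩

theorem GK_syncG {k s : ℤ} (hk : k % 2 = 1) (hs : s = 1 ∨ s = -1) {F : ℤ → ℝ} (hF : SyncG k F) (N : ℕ) :
    GK N (1 + |(k : ℝ)|) (fun n => F (s * n)) :=
  ⟨k, s, F, hk, hs, syncK_syncG hF N, rfl, fun _ => rfl⟩

end Pool.Agent.X266.CD
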