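import Pool.Agent.X266.CD.Law
import Pool.Agent.X266.CD.Base
import Pool.Agent.Y965.PL.Hei

/-! Consequences for the total stopping times. -/

set_option autoImplicit false

namespace Pool.Agent.X266.CD

open Finset Filter Topology Pool.Agent.Y965.PL Pool.Agent.Y55.DS Polynomial
open Pool.Agent.H499R2.HL (H H_unique)
open Pool.Agent.H499R2.LT (odn)
open Pool.Agent.H499R2.ND (Phi Phi_continuous Tn)
open Pool.Agent.Y965.PS (Tz)

/-- all bounded functions of the hitting time and the number of odd terms are transferable -/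
def TrF (w v : ℕ → ℝ) (ρ err : ℝ) (N : ℕ) : Prop := ∀ (g : ℕ → ℕ → ℝ) (g0 : ℝ), (∀ k o, |g k o| ≤ 1) → |g0| ≤ 1 →
  Tr w v ρ err N (Fg g g0)

theorem Fg_const (c : ℝ) (n : ℕ) : Fg (fun _ _ => c) c n = c := by
  by_cases h : ∃ k, H k n
  · obtain ⟨k, hk⟩ := h; rw [Fg_H hk]
  · rw [Fg_not h]

theorem TrF.one {w v : ℕ → ℝ} {ρ err : ℝ} {N : ℕ} (h : TrF w v ρ err N) : Tr w v ρ err N (fun _ => 1) := by
  have h1 := h (fun _ _ => 1) 1 (by simp) (by simp)
  unfold Tr at h1 ⊢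
  simp only [Fg_const] at h1
  exact h1

theorem TrF.lv {w v : ℕ → ℝ} {ρ err : ℝ} {N : ℕ} (h : TrF w v ρ err N) (val : ℕ → ℕ → ℝ) (cls : ℕ → ℕ → Prop) (t : ℝ) :
    Tr w v ρ err N (ind (Lv val cls (fun _ => t))) := by
  classical
  have h1 := h (fun k o => if val k o ≤ t ∧ cls k o then 1 else 0) 0 (fun k o => by split_ifs <;> simp) (by simp)
  unfold Tr at h1 ⊢
  simp only [ind_Lv_Fg]
  exact h1

theorem TrF.fin {w v : ℕ → ℝ} {ρ err : ℝ} {N : ℕ} (h : TrF w v ρ err N) : Tr w v ρ err N (ind (fun n => ∃ k, H k n)) := by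
  have h1 := h.lv (fun _ _ => 0) (fun _ _ => True) 0
  have e : ind (Lv (fun _ _ => 0) (fun _ _ => True) (fun _ => 0)) = ind (fun n => ∃ k, H k n) := by
    funext n
    apply ind_congr
    unfold Lv
    simp
  rw [e] at h1
  exact h1

theorem law_of_tr {val : ℕ → ℕ → ℝ} {cls : ℕ → ℕ → Prop} {A b : ℝ} (hA : 0 ≤ A) (hb : 0 < b) {d : ℝ → ℝ}
    (hd : Continuous d) {v : ℕ → ℝ} (hv : ∀ n, 0 ≤ v n ∧ v n ≤ 1)
    (hlaw : ∀ x, Mn (fun n => v n * ind (Lv val cls (th A b x)) n) (d x)) (x : ℝ) {ε : ℝ} (hε : 0 < ε) :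
    ∃ N0 : ℕ, ∀ N : ℕ, N0 ≤ N → ∀ (w : ℕ → ℝ) (ρ err : ℝ), (∀ n, 0 ≤ w n) → 0 ≤ ρ →
      (∀ M, 1 ≤ M → M ≤ N → TrF w v ρ err M) →
      |∑ n ∈ Icc 1 N, w n * ind (Lv val cls (th A b x)) n - ρ * (d x * N)| ≤ ε * ρ * N + 2 * err := by
  obtain ⟨N0, h⟩ := law_w hA hb hd hv hlaw x hε
  refine ⟨max N0 1, fun N hN w ρ err hw hρ hT => h N ((le_max_left _ _).trans hN) w ρ err hw hρ
    (fun M h1 h2 => (hT M h1 h2).one) (fun t => (hT N ((le_max_right _ _).trans hN) le_rfl).lv _ _ t)⟩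

theorem Tr.scale {w v : ℕ → ℝ} {ρ err : ℝ} {N : ℕ} {G : ℕ → ℝ} {t : ℝ} (ht : 0 ≤ t) (h : Tr w v ρ err N G) :
    Tr w v ρ (t * err) N (fun n => t * G n) := by
  unfold Tr at h ⊢
  have e1 : ∑ n ∈ Icc 1 N, w n * (t * G n) - ρ * ∑ n ∈ Icc 1 N, v n * (t * G n) =
      t * (∑ n ∈ Icc 1 N, w n * G n - ρ * ∑ n ∈ Icc 1 N, v n * G n) := by
    have e2 : ∑ n ∈ Icc 1 N, w n * (t * G n) = t * ∑ n ∈ Icc 1 N, w n * G n := by
      rw [mul_sum]; apply sum_congr rfl; intro n _; ring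
    have e3 : ∑ n ∈ Icc 1 N, v n * (t * G n) = t * ∑ n ∈ Icc 1 N, v n * G n := by
      rw [mul_sum]; apply sum_congr rfl; intro n _; ring
    rw [e2, e3]; ring
  rw [e1, abs_mul, abs_of_nonneg ht]
  exact mul_le_mul_of_nonneg_left h ht

/-- truncated functions -/
theorem TrF.tr {w v : ℕ → ℝ} {ρ err : ℝ} {N : ℕ} (h : TrF w v ρ err N) {val : ℕ → ℕ → ℝ} (hval : ∀ k o, 0 ≤ val k o)
    {f : ℝ → ℕ → ℝ} (hf : IsTr val f) {t : ℝ} (ht : 0 < t) : Tr w v ρ (t * err) N (f t) := by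
  have h1 := (h (fun k o => min (val k o) t / t) 1 (fun k o => by
    rw [abs_of_nonneg (div_nonneg (le_min (hval _ _) ht.le) ht.le), div_le_one ht]
    exact min_le_right _ _) (by simp)).scale ht.le
  have e : (fun n => t * Fg (fun k o => min (val k o) t / t) 1 n) = f t := by
    funext n
    by_cases hn : ∃ k, H k n
    · obtain ⟨k, hk⟩ := hn
      rw [Fg_H hk, hf.1 t n k hk]
      field_simp
    · rw [Fg_not hn, hf.2 t n hn, mul_one]
  rw [e] at h1
  exact h1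

/-- the weight of a set -/
theorem sum_wt (N : ℕ) (P : ℕ → Prop) [DecidablePred P] (G : ℕ → ℝ) :
    ∑ n ∈ (Icc 1 N).filter P, G n = ∑ n ∈ Icc 1 N, ind P n * G n := by
  rw [sum_filter]
  apply sum_congr rfl
  intro n _
  by_cases h : P n
  · rw [if_pos h, ind_pos h, one_mul]
  · rw [if_neg h, ind_neg h, zero_mul]

theorem pow_le {C c : ℝ} (hC : 0 ≤ C) (hc : c ≤ 1) {M N : ℕ} (h : M ≤ N) : C * (M : ℝ) ^ (1 - c) ≤ C * (N : ℝ) ^ (1 - c) := by
  apply mul_le_mul_of_nonneg_left _ hC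
  exact Real.rpow_le_rpow (Nat.cast_nonneg _) (by exact_mod_cast h) (by linarith)

/-- TRANSFER to digit classes -/
theorem dig_tr {ι : Type*} [Fintype ι] [DecidableEq ι] (q : ι → ℕ) (hq : ∀ i, 3 ≤ q i)
    (hqd : ∀ i, Nat.Coprime 2 (q i)) (hc : ∀ i j, i ≠ j → Nat.Coprime (q i) (q j)) (W : ι → ℕ → ℤ)
    (hW : ∀ i, SA (q i) (W i)) (m : ι → ℕ) (hm : ∀ i, 1 ≤ m i) {M : ℕ} (hM : 1 ≤ M) : ∃ C c : ℝ, 0 ≤ C ∧ 0 < c ∧ c ≤ 1 ∧
    ∀ (a : ι → ℤ) (b : ℤ) (N : ℕ), 1 ≤ N → TrF (ind (Cl m W a M b))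
      (ind (Cl (fun i => obs (q i) (W i) (m i)) (fun i n => n * W i 1) a M b))
      (∏ i, ((obs (q i) (W i) (m i) : ℝ) / m i)) (C * (N : ℝ) ^ (1 - c)) N := by
  classical
  obtain ⟨C, c, hC, hc0, H⟩ := kim_gen eng3 q hq hqd hc W hW m hm hM
  refine ⟨C * 2, min c 1, by positivity, lt_min hc0 one_pos, min_le_right _ _, fun a b N hN g g0 hg hg0 => ?_⟩
  have h1 := H N 2 _ hN (GK_async (async_Fg hg hg0) hN) a b
  unfold Tr
  rw [← sum_wt, ← sum_wt]
  refine h1.trans ?_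
  apply mul_le_mul_of_nonneg_left _ (by positivity)
  exact Real.rpow_le_rpow_of_exponent_le (by exact_mod_cast hN) (by linarith [min_le_left c 1])

/-- the set of the `n` in a residue class with the fractional part of `P n` in `[u, v)` -/
def Fr (M : ℕ) (b : ℤ) (P : ℝ[X]) (u v : ℝ) (n : ℕ) : Prop :=
  (M : ℤ) ∣ n - b ∧ u ≤ Int.fract (P.eval (n : ℝ)) ∧ Int.fract (P.eval (n : ℝ)) < v

/-- TRANSFER to fractional parts -/
theorem pol_tr {k : ℕ} (hk : 1 ≤ k) {α : ℝ} (hα : Dioph α) {M : ℕ} (hM : 1 ≤ M) (b : ℤ) : ∃ C c : ℝ, 0 ≤ C ∧ 0 < c ∧ c ≤ 1 ∧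
    ∀ P : ℝ[X], P.natDegree ≤ k + 1 → P.coeff (k + 1) = α → ∀ u v : ℝ, 0 ≤ u → u ≤ v → v ≤ 1 → ∀ N : ℕ, 1 ≤ N →
      TrF (ind (Fr M b P u v)) (ind (fun n => (M : ℤ) ∣ n - b)) (v - u) (C * (N : ℝ) ^ (1 - c)) N := by
  classical
  obtain ⟨C, c, hC, hc0, hc1, H⟩ := disc_mod eng3 hk hα hM b
  refine ⟨C * 2, c, by positivity, hc0, hc1.le, fun P hP hPc u v hu huv hv N hN g g0 hg hg0 => ?_⟩
  have h1 := H N 2 _ hN (GK_async (async_Fg hg hg0) hN) P hP hPc u v hu huv hv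
  unfold Tr
  rw [← sum_wt, ← sum_wt, show (Icc 1 N).filter (Fr M b P u v) = (Icc 1 N).filter (fun n : ℕ => (M : ℤ) ∣ n - b ∧
    u ≤ Int.fract (P.eval (n : ℝ)) ∧ Int.fract (P.eval (n : ℝ)) < v) from filter_congr fun n _ => Iff.rfl]
  exact h1

/-- the first term which is not divisible by three -/
theorem non3 {k : ℤ} (hk : k % 2 = 1) (hk3 : ¬ (3 : ℤ) ∣ k) : ∀ (n : ℕ) (x : ℤ), x.natAbs = n → x ≠ 0 →
    ∃ (j : ℕ) (y : ℤ), (Tz k)^[j] x = y ∧ ¬ (3 : ℤ) ∣ y ∧ |y| ≤ 2 * max |x| |k| ∧ 2 ^ j ≤ 2 * |x| := by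
  intro n
  induction n using Nat.strong_induction_on with
  | _ n ih =>
    intro x hxn hx
    have hx1 : 1 ≤ |x| := Int.one_le_abs hx
    by_cases h3 : (3 : ℤ) ∣ x
    · rcases Int.emod_two_eq_zero_or_one x with h2 | h2
      · have e : Tz k x = x / 2 := by unfold Tz; rw [if_pos h2]
        have hy0 : x / 2 ≠ 0 := by omega
        obtain ⟨j, y, h4, h5, h6, h7⟩ := ih (x / 2).natAbs (by omega) (x / 2) rfl hy0
        have h8 : 2 * |x / 2| = |x| := by
          have h9 : x = 2 * (x / 2) := by omega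
          have : |x| = |2 * (x / 2)| := congrArg _ h9
          rw [this, abs_mul, abs_two]
        refine ⟨j + 1, y, by rw [Function.iterate_succ_apply, e]; exact h4, h5, ?_, ?_⟩
        · refine h6.trans ?_
          have : |x / 2| ≤ |x| := by have := abs_nonneg (x / 2); linarith
          have := max_le_max_right |k| this
          linarith
        · rw [pow_succ]; linarith
      · refine ⟨1, (3 * x + k) / 2, ?_, ?_, ?_, ?_⟩
        · show Tz k x = _
          unfold Tz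
          rw [if_neg (by omega)]
        · intro hcon
          apply hk3
          omega
        · have h4 : 2 * |(3 * x + k) / 2| = |3 * x + k| := by
            have h9 : 3 * x + k = 2 * ((3 * x + k) / 2) := by omega
            have : |3 * x + k| = |2 * ((3 * x + k) / 2)| := congrArg _ h9
            rw [this, abs_mul, abs_two]
          have h5 : |3 * x + k| ≤ 3 * |x| + |k| := by
            refine (abs_add_le _ _).trans ?_
            rw [abs_mul]
            norm_num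
          have h6 : |x| ≤ max |x| |k| := le_max_left _ _
          have h7 : |k| ≤ max |x| |k| := le_max_right _ _
          linarith
        · linarith
    · refine ⟨0, x, rfl, h3, ?_, ?_⟩
      · have : |x| ≤ max |x| |k| := le_max_left _ _
        have := abs_nonneg x
        linarith
      · linarith

theorem Tz_iter_nat (j n : ℕ) : (Tz 1)^[j] (n : ℤ) = ((Tn^[j] n : ℕ) : ℤ) := Tz_iter j n

/-- on the positive integers -/
theorem non3_nat {n : ℕ} (hn : 1 ≤ n) : ∃ j y : ℕ, Tn^[j] n = y ∧ 1 ≤ y ∧ ¬ (3 : ℤ) ∣ (y : ℤ) ∧ y ≤ 2 * n ∧ 2 ^ j ≤ 2 * n := by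
  obtain ⟨j, y, h1, h2, h3, h4⟩ := non3 (k := 1) (by norm_num) (by norm_num) n (n : ℤ) (by simp) (by omega)
  rw [Tz_iter_nat] at h1
  have hpos : 0 < (Tz 1)^[j] (n : ℤ) := Tz_pos (by omega) j
  rw [Tz_iter_nat] at hpos
  have e1 : |(n : ℤ)| = n := abs_of_nonneg (by omega)
  rw [e1] at h3 h4
  have e2 : max (n : ℤ) |1| = n := by
    rw [abs_one]; exact max_eq_left (by omega)
  rw [e2] at h3
  refine ⟨j, Tn^[j] n, rfl, by omega, by rw [h1]; exact h2, ?_, ?_⟩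
  · have h5 := le_abs_self y
    rw [← h1] at h5 h3
    have : ((Tn^[j] n : ℕ) : ℤ) ≤ 2 * n := h5.trans h3
    exact_mod_cast this
  · exact_mod_cast h4

theorem Tn_one (j : ℕ) : Tn^[j] 1 = 1 ∨ Tn^[j] 1 = 2 := by
  induction j with
  | zero => left; rfl
  | succ j ih =>
    rw [Function.iterate_succ_apply']
    rcases ih with h | h
    · right; rw [h]; rfl
    · left; rw [h]; rfl

/-- the hitting time of a term of the trajectory -/
theorem H_term {z n k j : ℕ} (hz : H k z) (hj : Tn^[j] z = n) : ∃ i, H i n ∧ (i ≤ k ∨ n = 2) ∧ i ≤ k + 1 := by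
  rcases le_or_gt j k with h | h
  · refine ⟨k - j, ⟨?_, fun i hi => ?_⟩, Or.inl (Nat.sub_le _ _), by omega⟩
    · rw [← hj, ← Function.iterate_add_apply, Nat.sub_add_cancel h]; exact hz.1
    · rw [← hj, ← Function.iterate_add_apply]; exact hz.2 _ (by omega)
  · have e : Tn^[j - k] 1 = n := by
      rw [← hz.1, ← Function.iterate_add_apply, Nat.sub_add_cancel h.le]; exact hj
    rcases Tn_one (j - k) with h1 | h1
    · rw [e] at h1
      exact ⟨0, ⟨h1, fun i hi => by omega⟩, Or.inl (by omega), by omega⟩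
    · rw [e] at h1
      refine ⟨1, ⟨by rw [h1]; rfl, fun i hi => ?_⟩, Or.inr h1, by omega⟩
      have : i = 0 := by omega
      subst this
      rw [h1]; decide

/-- the hitting time of an earlier term -/
theorem H_add {n y i j : ℕ} (hj : Tn^[j] n = y) (hi : H i y) : ∃ k, H k n ∧ k ≤ j + i := by
  classical
  have hex : ∃ k, Tn^[k] n = 1 := ⟨i + j, by rw [Function.iterate_add_apply, hj]; exact hi.1⟩
  refine ⟨Nat.find hex, ⟨Nat.find_spec hex, fun l hl => Nat.find_min hex hl⟩, ?_⟩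
  have := Nat.find_min' hex (show Tn^[i + j] n = 1 by rw [Function.iterate_add_apply, hj]; exact hi.1)
  omega

theorem odn_le (k n : ℕ) : odn k n ≤ k := by
  unfold Pool.Agent.H499R2.LT.odn
  exact (card_filter_le _ _).trans (by rw [card_range])

/-- admissible values: the total stopping time with or without the odd steps, the height -/
def Adv (val : ℕ → ℕ → ℝ) : Prop := ∀ k o i i' : ℕ, val k o ≤ val (k + i) (o + i') ∧ val (k + i) (o + i') ≤ val k o + i + i'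

theorem adv_K : Adv valK := by
  intro k o i i'
  unfold valK
  have : (0 : ℝ) ≤ i' := Nat.cast_nonneg _
  have : (0 : ℝ) ≤ i := Nat.cast_nonneg _
  push_cast
  constructor <;> linarith

theorem adv_L : Adv valL := by
  intro k o i i'
  unfold valL
  have : (0 : ℝ) ≤ i' := Nat.cast_nonneg _
  have : (0 : ℝ) ≤ i := Nat.cast_nonneg _
  push_cast
  constructor <;> linarith

theorem adv_O : Adv valO := by
  intro k o i i'
  unfold valO
  have : (0 : ℝ) ≤ i' := Nat.cast_nonneg _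
  have : (0 : ℝ) ≤ i := Nat.cast_nonneg _
  push_cast
  constructor <;> linarith

theorem adv_H : Adv valH := by
  intro k o i i'
  unfold valH
  have h1 : max o 1 ≤ max (o + i') 1 := by omega
  have h2 : max (o + i') 1 ≤ max o 1 + i' := by omega
  have h3 : ((max o 1 : ℕ) : ℝ) ≤ ((max (o + i') 1 : ℕ) : ℝ) := by exact_mod_cast h1
  have h4 : ((max (o + i') 1 : ℕ) : ℝ) ≤ ((max o 1 : ℕ) : ℝ) + i' := by exact_mod_cast h2
  have : (0 : ℝ) ≤ i := Nat.cast_nonneg _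
  constructor <;> linarith

theorem odn_one_two : odn 1 2 = 0 := by
  rw [show (1 : ℕ) = 0 + 1 by rfl, odn_succ', odn_zero]

/-- the value of a term of the trajectory -/
theorem val_term {val : ℕ → ℕ → ℝ} (hv : Adv val) {z n k j : ℕ} (hz : H k z) (hj : Tn^[j] z = n) :
    ∃ i, H i n ∧ val i (odn i n) ≤ val k (odn k z) + 1 := by
  rcases le_or_gt j k with h | h
  · have hH : H (k - j) n := ⟨by rw [← hj, ← Function.iterate_add_apply, Nat.sub_add_cancel h]; exact hz.1,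
      fun i hi => by rw [← hj, ← Function.iterate_add_apply]; exact hz.2 _ (by omega)⟩
    refine ⟨k - j, hH, ?_⟩
    have e1 : odn k z = odn (k - j) n + odn j z := by
      have := odn_split j (k - j) z
      rw [hj] at this
      have e : j + (k - j) = k := by omega
      rw [e] at this
      omega
    have e2 := (hv (k - j) (odn (k - j) n) j (odn j z)).1
    rw [← e1, Nat.sub_add_cancel h] at e2
    linarith
  · have e : Tn^[j - k] 1 = n := by
      rw [← hz.1, ← Function.iterate_add_apply, Nat.sub_add_cancel h.le]; exact hj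
    have h0 : val 0 0 ≤ val k (odn k z) := by
      have := (hv 0 0 k (odn k z)).1
      rwa [zero_add, zero_add] at this
    rcases Tn_one (j - k) with h1 | h1
    · rw [e] at h1
      subst h1
      refine ⟨0, ⟨rfl, fun i hi => by omega⟩, ?_⟩
      rw [odn_zero]; linarith
    · rw [e] at h1
      subst h1
      refine ⟨1, ⟨rfl, fun i hi => ?_⟩, ?_⟩
      · have : i = 0 := by omega
        subst this
        decide
      · rw [odn_one_two]
        have := (hv 0 0 1 0).2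
        rw [zero_add, zero_add] at this
        push_cast at this
        linarith

/-- the value of an earlier term -/
theorem val_add {val : ℕ → ℕ → ℝ} (hv : Adv val) {n y i j : ℕ} (hj : Tn^[j] n = y) (hi : H i y) :
    ∃ k, H k n ∧ val k (odn k n) ≤ val i (odn i y) + 2 * j := by
  classical
  obtain ⟨k, hk, hkj⟩ := H_add hj hi
  refine ⟨k, hk, ?_⟩
  have hoj : odn j n ≤ j := odn_le _ _
  rcases le_or_gt j k with h | h
  · -- `k - j` is the hitting time of `y`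
    have hH : H (k - j) y := ⟨by rw [← hj, ← Function.iterate_add_apply, Nat.sub_add_cancel h]; exact hk.1,
      fun l hl => by rw [← hj, ← Function.iterate_add_apply]; exact hk.2 _ (by omega)⟩
    have he := H_unique hH hi
    have e1 : odn k n = odn i y + odn j n := by
      have := odn_split j (k - j) n
      rw [hj, he] at this
      have e : j + i = k := by omega
      rw [e] at this
      omega
    have e2 := (hv i (odn i y) j (odn j n)).2
    have e3 : i + j = k := by omega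
    rw [e3, ← e1] at e2
    have : ((odn j n : ℕ) : ℝ) ≤ j := by exact_mod_cast hoj
    linarith
  · have hok : odn k n ≤ k := odn_le _ _
    have e2 := (hv 0 0 k (odn k n)).2
    rw [zero_add, zero_add] at e2
    have e3 := (hv 0 0 i (odn i y)).1
    rw [zero_add, zero_add] at e3
    have h4 : ((odn k n : ℕ) : ℝ) ≤ k := by exact_mod_cast hok
    have h5 : ((k : ℕ) : ℝ) ≤ j := by exact_mod_cast h.le
    linarith

open Classical in
/-- A SET WHICH IS SUFFICIENT for upper bounds of the total stopping time (with or without the odd steps) -/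
theorem suff {E B B' : ℕ → Prop} {Q : ℤ → ℤ → Prop} {ν : ℝ} (hR : Rich B E ν) (hB : BaseLB B Q)
    (hN : ∀ n : ℕ, 1 ≤ n → B' n → ∃ j y : ℕ, Tn^[j] n = y ∧ 1 ≤ y ∧ Q 1 (y : ℤ) ∧ y ≤ 2 * n ∧ 2 ^ j ≤ 4 * n)
    {val : ℕ → ℕ → ℝ} (hv : Adv val) {θ C0 : ℝ} (hθ : 0 < θ) (hC0 : 0 ≤ C0) :
    ∃ K : ℝ, 1 ≤ K ∧ ∀ ψ : ℝ → ℝ, Monotone ψ → (∀ X : ℕ, 1 ≤ X → (((Icc 1 X).filter (fun n => E n ∧
      ¬ ∃ k, H k n ∧ val k (odn k n) ≤ ψ n)).card : ℝ) ≤ C0 * (X : ℝ) ^ (1 - ν - θ)) →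
      ∀ n : ℕ, 1 ≤ n → B' n → ∃ k, H k n ∧ val k (odn k n) ≤ ψ (K * (n : ℝ) ^ K) + K * (1 + Real.log n) := by
  obtain ⟨K, hK, HK⟩ := hR.pred hB hθ hC0
  have hK0 : 0 < K := by linarith
  refine ⟨max (K * 2 ^ K) (max K 9), (by norm_num : (1 : ℝ) ≤ 9).trans ((le_max_right _ _).trans (le_max_right _ _)), ?_⟩
  intro ψ hψ hbad n hn hBn
  set K' := max (K * 2 ^ K) (max K 9) with hK'
  have hK1 : K * 2 ^ K ≤ K' := le_max_left _ _
  have hK2 : K ≤ K' := (le_max_left _ _).trans (le_max_right _ _)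
  have hK3 : 9 ≤ K' := (le_max_right _ _).trans (le_max_right _ _)
  obtain ⟨j1, y, hy1, hy2, hyQ, hy3, hy4⟩ := hN n hn hBn
  obtain ⟨z, hz1, hzE, hzB, hz2, -, j, -, hj⟩ := HK 1 y hyQ
    (fun n : ℕ => ¬ ∃ k, H k n ∧ val k (odn k n) ≤ ψ (n : ℝ)) (fun X hX => by convert hbad X hX)
  push Not at hzB
  have hsz : sz 1 (y : ℤ) = y := by
    unfold sz
    rw [Int.cast_natCast, Nat.abs_cast, Int.cast_one, abs_one]
    exact max_eq_left (by exact_mod_cast hy2)
  rw [hsz] at hz2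
  have hsig : (y : ℤ).sign = 1 := Int.sign_eq_one_of_pos (by omega)
  rw [hsig, one_mul, Tz_iter_nat] at hj
  have hj' : Tn^[j] z = y := by exact_mod_cast hj
  obtain ⟨k, hk, hkv⟩ := hzB
  obtain ⟨i, hi, hiv⟩ := val_term hv hk hj'
  obtain ⟨l, hl, hlv⟩ := val_add hv hy1 hi
  refine ⟨l, hl, ?_⟩
  have hnR : (1 : ℝ) ≤ n := by exact_mod_cast hn
  have hn0 : (0 : ℝ) < n := by linarith
  have hzn : (z : ℝ) ≤ K' * (n : ℝ) ^ K' := by
    calc (z : ℝ) ≤ K * (y : ℝ) ^ K := hz2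
      _ ≤ K * (2 * n : ℝ) ^ K := by
        apply mul_le_mul_of_nonneg_left _ hK0.le
        exact Real.rpow_le_rpow (Nat.cast_nonneg _) (by exact_mod_cast hy3) hK0.le
      _ = K * 2 ^ K * (n : ℝ) ^ K := by rw [Real.mul_rpow (by norm_num) hn0.le]; ring
      _ ≤ K' * (n : ℝ) ^ K := mul_le_mul_of_nonneg_right hK1 (by positivity)
      _ ≤ K' * (n : ℝ) ^ K' := mul_le_mul_of_nonneg_left (Real.rpow_le_rpow_of_exponent_le hnR hK2) (by linarith)
  have hlog : 0 ≤ Real.log n := Real.log_nonneg hnR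
  have hj1 : (j1 : ℝ) ≤ 4 * (1 + Real.log n) - 1 / 2 := by
    have h1 : ((2 : ℝ)) ^ j1 ≤ 4 * n := by exact_mod_cast hy4
    have h2 := Real.log_le_log (by positivity) h1
    rw [Real.log_pow, Real.log_mul (by norm_num) hn0.ne'] at h2
    have h3 : Real.log 4 = 2 * Real.log 2 := by
      rw [show (4 : ℝ) = 2 ^ 2 by norm_num, Real.log_pow]; norm_num
    rw [h3] at h2
    have h4 := Real.log_two_gt_d9
    have h5 := Real.log_two_lt_d9
    have h6 : (j1 : ℝ) * Real.log 2 ≥ j1 * 0.69 := mul_le_mul_of_nonneg_left (by linarith) (Nat.cast_nonneg _)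
    nlinarith
  have h7 : ψ z ≤ ψ (K' * (n : ℝ) ^ K') := hψ hzn
  have h8 : 9 * (1 + Real.log n) ≤ K' * (1 + Real.log n) := mul_le_mul_of_nonneg_right hK3 (by linarith)
  linarith

/-- the hypothesis on the first terms -/
theorem hN_all : ∀ n : ℕ, 1 ≤ n → True → ∃ j y : ℕ, Tn^[j] n = y ∧ 1 ≤ y ∧
    ((1 : ℤ) % 2 = 1 ∧ ¬ (3 : ℤ) ∣ 1 ∧ ¬ (3 : ℤ) ∣ (y : ℤ)) ∧ y ≤ 2 * n ∧ 2 ^ j ≤ 4 * n := by
  intro n hn _
  obtain ⟨j, y, h1, h2, h3, h4, h5⟩ := non3_nat hn
  exact ⟨j, y, h1, h2, ⟨by norm_num, by norm_num, h3⟩, h4, h5.trans (by omega)⟩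

theorem Tn_halves (v m : ℕ) : Tn^[v] (2 ^ v * m) = m := by
  have h := Tz_even v 1 (m : ℤ)
  have e : ((2 : ℤ) ^ v * (m : ℤ)) = ((2 ^ v * m : ℕ) : ℤ) := by push_cast; ring
  rw [e, Tz_iter_nat] at h
  exact_mod_cast h

theorem hN_odd : ∀ n : ℕ, 1 ≤ n → n % 2 = 1 → ∃ j y : ℕ, Tn^[j] n = y ∧ 1 ≤ y ∧
    ((1 : ℤ) = 1 ∧ 0 < (y : ℤ) ∧ (y : ℤ) % 2 = 1 ∧ ¬ (3 : ℤ) ∣ (y : ℤ)) ∧ y ≤ 2 * n ∧ 2 ^ j ≤ 4 * n := by
  intro n hn hn2
  by_cases h3 : n % 3 = 0
  · obtain ⟨v, m, hm, he⟩ := odd_dec ((3 * n + 1) / 2) (by omega)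
    have hp : 1 ≤ 2 ^ v := Nat.one_le_two_pow
    have e1 : 2 * (2 ^ v * m) = 3 * n + 1 := by omega
    have hm1 : m ≤ 2 ^ v * m := Nat.le_mul_of_pos_left _ hp
    have hv1 : 2 ^ v ≤ 2 ^ v * m := Nat.le_mul_of_pos_right _ (by omega)
    refine ⟨v + 1, m, ?_, by omega, ⟨rfl, by omega, by omega, ?_⟩, by omega, ?_⟩
    · rw [Function.iterate_succ_apply]
      have : Tn n = 2 ^ v * m := by
        unfold Pool.Agent.H499R2.ND.Tn
        rw [if_neg (by omega), he]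
      rw [this, Tn_halves]
    · intro hcon
      have h4 : (3 : ℕ) ∣ m := by exact_mod_cast hcon
      have h5 : (3 : ℕ) ∣ 3 * n + 1 := by
        rw [← e1]
        exact (h4.mul_left _).mul_left _
      omega
    · rw [pow_succ]; omega
  · refine ⟨0, n, rfl, hn, ⟨rfl, by omega, by omega, by omega⟩, by omega, by omega⟩

end Pool.Agent.X266.CD
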