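import Pool.Agent.X266.CD.Cor

/-! Laws and averages in classes. -/

set_option autoImplicit false

namespace Pool.Agent.X266.CD

open Finset Filter Topology Pool.Agent.Y965.PL Pool.Agent.Y55.DS Polynomial
open Pool.Agent.H499R2.HL (H H_unique)
open Pool.Agent.H499R2.LT (odn)
open Pool.Agent.H499R2.ND (Phi Phi_continuous Tn)
open Pool.Agent.Y965.PS (Tz)

theorem MnS_id {u : ℕ → ℝ} {d : ℝ} (h : Mn u d) : MnS (fun n => n) u d := h

theorem lawId_K {δ : ℝ} (hδ : Nat1 δ) : Law (fun n => n) (fun _ => True) valK (2 / Real.log (4 / 3)) bK δ 1 := by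
  refine ⟨?_, hδ.fin, fun x => ?_⟩
  · have e : ind (fun _ : ℕ => True) = fun _ => (1 : ℝ) := by
      funext n; exact ind_pos trivial
    rw [e]; exact MnS_const _ _
  · have h1 := hδ.lawK 1 0 0 le_rfl x
    rw [Nat.cast_one, one_pow, div_one] at h1
    have e : ind (fun n => True ∧ Lv valK (clsK 1 0 0) (th (2 / Real.log (4 / 3)) bK x) n) =
        ind (fun n => True ∧ Lv valK (fun _ _ => True) (th (2 / Real.log (4 / 3)) bK x) n) := by
      funext n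
      apply ind_congr
      refine and_congr_right fun _ => exists_congr fun k => and_congr_right fun _ => and_congr_right fun _ => ?_
      unfold clsK
      simp [Int.ModEq]
    rw [e] at h1; exact h1

theorem lawId_L {δ : ℝ} (hδ : Nat2 δ) : Law (fun n => n) (fun _ => True) valL (3 / Real.log (4 / 3)) bL δ 1 := by
  refine ⟨?_, hδ.fin, fun x => ?_⟩
  · have e : ind (fun _ : ℕ => True) = fun _ => (1 : ℝ) := by
      funext n; exact ind_pos trivial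
    rw [e]; exact MnS_const _ _
  · have h1 := hδ.lawL 1 0 0 le_rfl x
    rw [Nat.cast_one, one_pow, div_one] at h1
    have e : ind (fun n => True ∧ Lv valL (clsL 1 0 0) (th (3 / Real.log (4 / 3)) bL x) n) =
        ind (fun n => True ∧ Lv valL (fun _ _ => True) (th (3 / Real.log (4 / 3)) bL x) n) := by
      funext n
      apply ind_congr
      refine and_congr_right fun _ => exists_congr fun k => and_congr_right fun _ => and_congr_right fun _ => ?_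
      unfold clsL
      simp [Int.ModEq]
    rw [e] at h1; exact h1

theorem lawId_H {δ : ℝ} (hδ : Nat3 δ) :
    Law (fun n => n) (fun n => n % 2 = 1) valH (1 / Real.log (4 / 3)) bO (δ / 2) (1 / 2) := by
  refine ⟨Mn_odd, hδ.fin, fun x => ?_⟩
  have h1 := hδ.law 1 0 le_rfl x
  have e : ind (fun n => n % 2 = 1 ∧ Lv valH (clsH 1 0) (th (1 / Real.log (4 / 3)) bO x) n) =
      ind (fun n => n % 2 = 1 ∧ Lv valH (fun _ _ => True) (th (1 / Real.log (4 / 3)) bO x) n) := by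
    funext n
    apply ind_congr
    refine and_congr_right fun _ => exists_congr fun k => and_congr_right fun _ => and_congr_right fun _ => ?_
    unfold clsH
    simp [Int.ModEq]
  rw [e, Nat.cast_one, div_one] at h1
  have e2 : δ * Phi x / 2 = δ / 2 * Phi x := by ring
  rw [e2] at h1
  exact h1

/-- a power saving is small -/
theorem small_err (C : ℝ) {c : ℝ} (hc : 0 < c) {ε : ℝ} (hε : 0 < ε) :
    ∀ᶠ X : ℕ in atTop, C * (X : ℝ) ^ (1 - c) ≤ ε * X := by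
  have h1 : Tendsto (fun X : ℕ => (X : ℝ) ^ c) atTop atTop :=
    (tendsto_rpow_atTop hc).comp tendsto_natCast_atTop_atTop
  filter_upwards [h1.eventually_ge_atTop (|C| / ε), eventually_ge_atTop 1] with X h2 h3
  have hX : (0 : ℝ) < X := by exact_mod_cast h3
  rw [div_le_iff₀ hε] at h2
  have e : (X : ℝ) = (X : ℝ) ^ (1 - c) * (X : ℝ) ^ c := by
    rw [← Real.rpow_add hX]; norm_num
  have h4 : 0 < (X : ℝ) ^ (1 - c) := by positivity
  calc C * (X : ℝ) ^ (1 - c) ≤ |C| * (X : ℝ) ^ (1 - c) := mul_le_mul_of_nonneg_right (le_abs_self C) h4.le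
    _ ≤ ((X : ℝ) ^ c * ε) * (X : ℝ) ^ (1 - c) := mul_le_mul_of_nonneg_right h2 h4.le
    _ = ε * ((X : ℝ) ^ (1 - c) * (X : ℝ) ^ c) := by ring
    _ = ε * X := by rw [← e]

/-- the density of a level set in a class -/
theorem dens_of {val : ℕ → ℕ → ℝ} {cls : ℕ → ℕ → Prop} {A b : ℝ} (hA : 0 ≤ A) (hb : 0 < b) {d : ℝ → ℝ}
    (hd : Continuous d) {v w : ℕ → ℝ} (hv : ∀ n, 0 ≤ v n ∧ v n ≤ 1) (hw : ∀ n, 0 ≤ w n)
    (hlaw : ∀ x, Mn (fun n => v n * ind (Lv val cls (th A b x)) n) (d x)) {ρ C c : ℝ} (hρ : 0 ≤ ρ) (hC : 0 ≤ C)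
    (hc : 0 < c) (hc1 : c ≤ 1) (hT : ∀ N : ℕ, 1 ≤ N → TrF w v ρ (C * (N : ℝ) ^ (1 - c)) N) (x : ℝ) :
    Mn (fun n => w n * ind (Lv val cls (th A b x)) n) (ρ * d x) := by
  have key : MnS (fun n => n) (fun n => w n * ind (Lv val cls (th A b x)) n) (ρ * d x) := by
    apply MnS_of
    intro ε hε _
    obtain ⟨N0, h⟩ := law_of_tr hA hb hd hv hlaw x (show 0 < ε / (2 * (ρ + 1)) by positivity)
    filter_upwards [small_err C hc (show 0 < ε / 4 by positivity), eventually_ge_atTop N0] with X h1 h2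
    have h3 := h X h2 w ρ (C * (X : ℝ) ^ (1 - c)) hw hρ (fun M h4 h5 g g0 hg hg0 =>
      (hT M h4 g g0 hg hg0).trans (pow_le hC hc1 h5))
    have h6 : ε / (2 * (ρ + 1)) * ρ * X ≤ ε / 2 * X := by
      apply mul_le_mul_of_nonneg_right _ (Nat.cast_nonneg _)
      rw [div_mul_eq_mul_div, div_le_iff₀ (by positivity)]
      nlinarith
    have e : ρ * d x * (X : ℝ) = ρ * (d x * X) := by ring
    rw [e]
    linarith
  exact key

theorem Tr_Mn {v w : ℕ → ℝ} {G : ℕ → ℝ} {ρ C c d : ℝ} (hc : 0 < c)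
    (hT : ∀ N : ℕ, 1 ≤ N → Tr w v ρ (C * (N : ℝ) ^ (1 - c)) N G) (h : Mn (fun n => v n * G n) d) :
    Mn (fun n => w n * G n) (ρ * d) := by
  have key : MnS (fun n => n) (fun n => w n * G n) (ρ * d) := by
    apply MnS_of
    intro ε hε _
    filter_upwards [Mn_ev h (show 0 < ε / (2 * (|ρ| + 1)) by positivity), small_err C hc (show 0 < ε / 2 by positivity),
      eventually_ge_atTop 1] with X h1 h2 h3
    have h4 := hT X h3
    unfold Tr at h4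
    have e : ∑ n ∈ Icc 1 X, w n * G n - ρ * d * X = (∑ n ∈ Icc 1 X, w n * G n - ρ * ∑ n ∈ Icc 1 X, v n * G n) +
      ρ * (∑ n ∈ Icc 1 X, v n * G n - d * X) := by ring
    rw [e]
    refine (abs_add_le _ _).trans ?_
    rw [abs_mul]
    have h5 := mul_le_mul_of_nonneg_left h1 (abs_nonneg ρ)
    have h6 : |ρ| * (ε / (2 * (|ρ| + 1)) * X) ≤ ε / 2 * X := by
      rw [← mul_assoc]
      apply mul_le_mul_of_nonneg_right _ (Nat.cast_nonneg _)
      rw [← mul_div_assoc, div_le_iff₀ (by positivity)]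
      have := abs_nonneg ρ
      nlinarith
    linarith
  exact key

/-- averages in a class, uniformly -/
theorem avg_of {v : ℕ → ℝ} {f : ℝ → ℕ → ℝ} {val : ℕ → ℕ → ℝ} (hval : ∀ k o, 0 ≤ val k o) (hf : IsTr val f) {Λ L : ℝ}
    (hΛ : 0 < Λ) (hbase : Tendsto (fun X : ℕ => (∑ n ∈ Icc 1 X, v n * f (Λ * Real.log X) n) / (X * Real.log X)) atTop (𝓝 L))
    {ε : ℝ} (hε : 0 < ε) : ∃ N0 : ℕ, ∀ N : ℕ, N0 ≤ N → ∀ (w : ℕ → ℝ) (ρ err : ℝ), 0 ≤ ρ → TrF w v ρ err N →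
      |(∑ n ∈ Icc 1 N, w n * f (Λ * Real.log N) n) / Real.log N - ρ * (L * N)| ≤ ε * ρ * N + Λ * err := by
  obtain ⟨N0, hN0⟩ := ((Metric.tendsto_atTop.1 hbase) ε hε)
  refine ⟨max N0 3, fun N hN w ρ err hρ hT => ?_⟩
  have h1 := hN0 N ((le_max_left _ _).trans hN)
  have hN3 : 3 ≤ N := (le_max_right _ _).trans hN
  have hNR : (0 : ℝ) < N := by exact_mod_cast (by omega : 0 < N)
  have hl : 0 < Real.log N := Real.log_pos (by exact_mod_cast (by omega : 1 < N))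
  have h2 := hT.tr hval hf (show 0 < Λ * Real.log N by positivity)
  unfold Tr at h2
  rw [Real.dist_eq] at h1
  set SW := ∑ n ∈ Icc 1 N, w n * f (Λ * Real.log N) n with hSW
  set SV := ∑ n ∈ Icc 1 N, v n * f (Λ * Real.log N) n with hSV
  have e : SW / Real.log N - ρ * (L * N) = (SW - ρ * SV) / Real.log N + ρ * (N * (SV / (N * Real.log N) - L)) := by
    field_simp
    ring
  rw [e]
  refine (abs_add_le _ _).trans ?_
  rw [abs_div, abs_of_pos hl, abs_mul, abs_of_nonneg hρ, abs_mul, abs_of_pos hNR]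
  have h3 : |SW - ρ * SV| / Real.log N ≤ Λ * err := by
    rw [div_le_iff₀ hl]
    linarith
  have h4 : ρ * (N * |SV / (N * Real.log N) - L|) ≤ ρ * (N * ε) :=
    mul_le_mul_of_nonneg_left (mul_le_mul_of_nonneg_left h1.le hNR.le) hρ
  linarith

/-- averages in a class -/
theorem avg_tendsto {v w : ℕ → ℝ} {f : ℝ → ℕ → ℝ} {val : ℕ → ℕ → ℝ} (hval : ∀ k o, 0 ≤ val k o) (hf : IsTr val f) {Λ L : ℝ}
    (hΛ : 0 < Λ) (hbase : Tendsto (fun X : ℕ => (∑ n ∈ Icc 1 X, v n * f (Λ * Real.log X) n) / (X * Real.log X)) atTop (𝓝 L))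
    {ρ C c : ℝ} (hρ : 0 ≤ ρ) (hc : 0 < c) (hT : ∀ N : ℕ, 1 ≤ N → TrF w v ρ (C * (N : ℝ) ^ (1 - c)) N) :
    Tendsto (fun X : ℕ => (∑ n ∈ Icc 1 X, w n * f (Λ * Real.log X) n) / (X * Real.log X)) atTop (𝓝 (ρ * L)) := by
  rw [Metric.tendsto_atTop]
  intro ε hε
  obtain ⟨N0, h⟩ := avg_of hval hf hΛ hbase (show 0 < ε / (4 * (ρ + 1)) by positivity)
  obtain ⟨N1, h1⟩ := ((small_err (Λ * C) hc (show 0 < ε / 4 by positivity)).and (eventually_ge_atTop 3)).exists_forall_of_atTop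
  refine ⟨max N0 N1, fun N hN => ?_⟩
  obtain ⟨h2, h3⟩ := h1 N ((le_max_right _ _).trans hN)
  have h4 := h N ((le_max_left _ _).trans hN) w ρ _ hρ (hT N (by omega))
  have hNR : (0 : ℝ) < N := by exact_mod_cast (by omega : 0 < N)
  have hl : 0 < Real.log N := Real.log_pos (by exact_mod_cast (by omega : 1 < N))
  rw [Real.dist_eq]
  set SW := ∑ n ∈ Icc 1 N, w n * f (Λ * Real.log N) n with hSW
  have e : SW / (N * Real.log N) - ρ * L = (SW / Real.log N - ρ * (L * N)) / N := by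
    field_simp
  rw [e, abs_div, abs_of_pos hNR, div_lt_iff₀ hNR]
  have h6 : ε / (4 * (ρ + 1)) * ρ * N ≤ ε / 4 * N := by
    apply mul_le_mul_of_nonneg_right _ hNR.le
    rw [div_mul_eq_mul_div, div_le_iff₀ (by positivity)]
    nlinarith
  have h7 : Λ * (C * (N : ℝ) ^ (1 - c)) = Λ * C * (N : ℝ) ^ (1 - c) := by ring
  have h8 : 0 < ε * N := by positivity
  nlinarith

theorem ind_and (P Q : ℕ → Prop) (n : ℕ) : ind (fun n => P n ∧ Q n) n = ind P n * ind Q n := by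
  by_cases h1 : P n
  · by_cases h2 : Q n
    · rw [ind_pos (P := fun n => P n ∧ Q n) ⟨h1, h2⟩, ind_pos h1, ind_pos h2, one_mul]
    · rw [ind_neg (P := fun n => P n ∧ Q n) (fun h => h2 h.2), ind_neg h2, mul_zero]
  · rw [ind_neg (P := fun n => P n ∧ Q n) (fun h => h1 h.1), ind_neg h1, zero_mul]

/-- the base averages -/
theorem base_K {δ : ℝ} (hδ : Nat1 δ) {f : ℝ → ℕ → ℝ} (hf : IsTr valK f) {Λ : ℝ} (hΛ : 2 / Real.log (4 / 3) < Λ) :
    Tendsto (fun X : ℕ => (∑ n ∈ Icc 1 X, (fun _ => (1 : ℝ)) n * f (Λ * Real.log X) n) / (X * Real.log X))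
      atTop (𝓝 (δ * (2 / Real.log (4 / 3)) + (1 - δ) * Λ)) := by
  have hν := nu_pos'
  have h := id_avg (fun _ _ => Nat.cast_nonneg _) (by positivity) bK_pos (lawId_K hδ) hf hΛ
  simp only [if_true] at h
  simpa only [one_mul] using h

theorem base_L {δ : ℝ} (hδ : Nat2 δ) {f : ℝ → ℕ → ℝ} (hf : IsTr valL f) {Λ : ℝ} (hΛ : 3 / Real.log (4 / 3) < Λ) :
    Tendsto (fun X : ℕ => (∑ n ∈ Icc 1 X, (fun _ => (1 : ℝ)) n * f (Λ * Real.log X) n) / (X * Real.log X))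
      atTop (𝓝 (δ * (3 / Real.log (4 / 3)) + (1 - δ) * Λ)) := by
  have hν := nu_pos'
  have h := id_avg (fun _ _ => Nat.cast_nonneg _) (by positivity) bL_pos (lawId_L hδ) hf hΛ
  simp only [if_true] at h
  simpa only [one_mul] using h

theorem base_H {δ : ℝ} (hδ : Nat3 δ) {f : ℝ → ℕ → ℝ} (hf : IsTr valH f) {Λ : ℝ} (hΛ : 1 / Real.log (4 / 3) < Λ) :
    Tendsto (fun X : ℕ => (∑ n ∈ Icc 1 X, ind (fun n => n % 2 = 1) n * f (Λ * Real.log X) n) / (X * Real.log X))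
      atTop (𝓝 (δ / 2 * (1 / Real.log (4 / 3)) + (1 / 2 - δ / 2) * Λ)) := by
  classical
  have hν := nu_pos'
  have h := id_avg (fun _ _ => Nat.cast_nonneg _) (by positivity) bO_pos (lawId_H hδ) hf hΛ
  refine h.congr fun X => ?_
  congr 1
  apply sum_congr rfl
  intro n _
  by_cases hn : n % 2 = 1
  · rw [if_pos hn, ind_pos (P := fun n => n % 2 = 1) hn, one_mul]
  · rw [if_neg hn, ind_neg (P := fun n => n % 2 = 1) hn, zero_mul]

/-- nondegenerate digit classes -/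
theorem dig_tr1 {ι : Type*} [Fintype ι] [DecidableEq ι] (q : ι → ℕ) (hq : ∀ i, 3 ≤ q i)
    (hqd : ∀ i, Nat.Coprime 2 (q i)) (hc : ∀ i j, i ≠ j → Nat.Coprime (q i) (q j)) (W : ι → ℕ → ℤ)
    (hW : ∀ i, SA (q i) (W i)) (m : ι → ℕ) (hm : ∀ i, 1 ≤ m i) (hobs : ∀ i, obs (q i) (W i) (m i) = 1) {M : ℕ}
    (hM : 1 ≤ M) : ∃ C c : ℝ, 0 ≤ C ∧ 0 < c ∧ c ≤ 1 ∧
    ∀ (a : ι → ℤ) (b : ℤ) (N : ℕ), 1 ≤ N → TrF (ind (Cl m W a M b)) (ind (fun n => (M : ℤ) ∣ n - b))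
      (∏ i, (1 / (m i : ℝ))) (C * (N : ℝ) ^ (1 - c)) N := by
  obtain ⟨C, c, h1, h2, h3, H⟩ := dig_tr q hq hqd hc W hW m hm hM
  refine ⟨C, c, h1, h2, h3, fun a b N hN => ?_⟩
  have h := H a b N hN
  have e1 : ind (Cl (fun i => obs (q i) (W i) (m i)) (fun i n => n * W i 1) a M b) = ind (fun n : ℕ => (M : ℤ) ∣ n - b) := by
    funext n
    apply ind_congr
    unfold Cl
    simp only [hobs]
    simp
  rw [e1] at h
  have e2 : ∏ i, ((obs (q i) (W i) (m i) : ℝ) / m i) = ∏ i, (1 / (m i : ℝ)) := by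
    simp only [hobs]
    simp
  rw [e2] at h
  exact h

theorem ind_all (b : ℤ) : ind (fun n : ℕ => ((1 : ℕ) : ℤ) ∣ n - b) = fun _ => (1 : ℝ) := by
  funext n
  exact ind_pos (by simp)

theorem ind_odd : ind (fun n : ℕ => ((2 : ℕ) : ℤ) ∣ n - 1) = ind (fun n => n % 2 = 1) := by
  funext n
  apply ind_congr
  omega

theorem count_sum (X : ℕ) (P Q : ℕ → Prop) :
    ({n : ℕ | 1 ≤ n ∧ n ≤ X ∧ P n ∧ Q n}.ncard : ℝ) = ∑ n ∈ Icc 1 X, ind P n * ind Q n := by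
  classical
  have e : {n : ℕ | 1 ≤ n ∧ n ≤ X ∧ P n ∧ Q n} = ((Icc 1 X).filter fun n => P n ∧ Q n : Finset ℕ) := by
    ext n
    simp only [Set.mem_ofPred_eq, coe_filter, mem_Icc, and_assoc]
  rw [e, Set.ncard_coe_finset]
  have h : ∀ n, ind P n * ind Q n = if P n ∧ Q n then (1 : ℝ) else 0 := by
    intro n
    rw [← ind_and]
    by_cases hpq : P n ∧ Q n
    · rw [if_pos hpq]; exact ind_pos (P := fun n => P n ∧ Q n) hpq
    · rw [if_neg hpq]; exact ind_neg (P := fun n => P n ∧ Q n) hpq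
  simp only [h]
  rw [sum_boole]

theorem count_sum1 (X : ℕ) (P : ℕ → Prop) :
    ({n : ℕ | 1 ≤ n ∧ n ≤ X ∧ P n}.ncard : ℝ) = ∑ n ∈ Icc 1 X, ind P n := by
  have h := count_sum X P (fun _ => True)
  have e : {n : ℕ | 1 ≤ n ∧ n ≤ X ∧ P n ∧ True} = {n : ℕ | 1 ≤ n ∧ n ≤ X ∧ P n} := by
    ext n; simp
  rw [e] at h
  rw [h]
  apply sum_congr rfl
  intro n _
  rw [ind_pos (P := fun _ => True) trivial, mul_one]

open Classical in
/-- the sum of a function over a set -/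
theorem fin_sum (X : ℕ) (P : ℕ → Prop) (G : ℕ → ℝ) :
    ∑ᶠ n ∈ {n : ℕ | 1 ≤ n ∧ n ≤ X ∧ P n}, G n = ∑ n ∈ Icc 1 X, ind P n * G n := by
  rw [← sum_wt]
  have e : {n : ℕ | 1 ≤ n ∧ n ≤ X ∧ P n} = ((Icc 1 X).filter fun n => P n : Finset ℕ) := by
    ext n
    simp only [Set.mem_ofPred_eq, coe_filter, mem_Icc, and_assoc]
  rw [e, finsum_mem_coe_finset]

/-- sufficient sets, with sums in place of cardinalities -/
theorem suff_ind {E B B' : ℕ → Prop} {Q : ℤ → ℤ → Prop} {ν : ℝ} (hR : Rich B E ν) (hB : BaseLB B Q)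
    (hN : ∀ n : ℕ, 1 ≤ n → B' n → ∃ j y : ℕ, Tn^[j] n = y ∧ 1 ≤ y ∧ Q 1 (y : ℤ) ∧ y ≤ 2 * n ∧ 2 ^ j ≤ 4 * n)
    {val : ℕ → ℕ → ℝ} (hv : Adv val) {θ C0 : ℝ} (hθ : 0 < θ) :
    ∃ K : ℝ, 1 ≤ K ∧ ∀ ψ : ℝ → ℝ, Monotone ψ → (∀ X : ℕ, 1 ≤ X → ∑ n ∈ Icc 1 X, ind E n *
      ind (fun n : ℕ => ¬ ∃ k, H k n ∧ val k (odn k n) ≤ ψ n) n ≤ C0 * (X : ℝ) ^ (1 - ν - θ)) →
      ∀ n : ℕ, 1 ≤ n → B' n → ∃ k, H k n ∧ val k (odn k n) ≤ ψ (K * (n : ℝ) ^ K) + K * (1 + Real.log n) := by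
  classical
  obtain ⟨K, hK, HK⟩ := suff hR hB hN hv hθ (le_max_right C0 0)
  refine ⟨K, hK, fun ψ hψ hbad n hn hBn => HK ψ hψ (fun X hX => ?_) n hn hBn⟩
  have h1 := hbad X hX
  rw [← count_sum] at h1
  have e : {n : ℕ | 1 ≤ n ∧ n ≤ X ∧ E n ∧ ¬ ∃ k, H k n ∧ val k (odn k n) ≤ ψ n} =
      ((Icc 1 X).filter fun n => E n ∧ ¬ ∃ k, H k n ∧ val k (odn k n) ≤ ψ n : Finset ℕ) := by
    ext n
    simp only [Set.mem_ofPred_eq, coe_filter, mem_Icc, and_assoc]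
  rw [e, Set.ncard_coe_finset] at h1
  refine le_trans (le_of_eq ?_) (h1.trans (mul_le_mul_of_nonneg_right (le_max_left _ _) (by positivity)))
  congr

/-- exceptions in a class, uniformly -/
theorem exc_unif {val : ℕ → ℕ → ℝ} {A b δ e : ℝ} (hA : 0 ≤ A) (hb : 0 < b) {v : ℕ → ℝ} (hv : ∀ n, 0 ≤ v n ∧ v n ≤ 1)
    (hlaw : ∀ x, Mn (fun n => v n * ind (Lv val (fun _ _ => True) (th A b x)) n) (δ * Phi x))
    (hfin : Mn (fun n => v n * ind (fun n => ∃ k, H k n) n) δ) (hall : Mn v e) {P : ℕ → Prop}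
    (hP1 : ∀ n, (¬ ∃ k, H k n) → P n) (hP2 : ∀ x, ∀ᶠ n : ℕ in atTop, Lv val (fun _ _ => True) (th A b x) n → ¬ P n)
    {ε : ℝ} (hε : 0 < ε) : ∃ N0 : ℕ, ∀ N : ℕ, N0 ≤ N → ∀ (w : ℕ → ℝ) (ρ err : ℝ), (∀ n, 0 ≤ w n) → 0 ≤ ρ →
      (∀ M, 1 ≤ M → M ≤ N → TrF w v ρ err M) →
      |∑ n ∈ Icc 1 N, w n * ind P n - ρ * ((e - δ) * N)| ≤ ε * ρ * N + 4 * err := by
  obtain ⟨-, x, -, hx⟩ := Phi_lim δ (show 0 < ε / 8 by positivity)
  obtain ⟨N1, h1⟩ := law_of_tr hA hb (Phi_continuous.const_mul δ) hv hlaw x (show 0 < ε / 8 by positivity)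
  obtain ⟨m0, hm0⟩ := (hP2 x).exists_forall_of_atTop
  obtain ⟨N2, hN2⟩ := (((Mn_ev hfin (show 0 < ε / 8 by positivity)).and (Mn_ev hall (show 0 < ε / 8 by positivity))).and
    ((tendsto_natCast_atTop_atTop (R := ℝ)).eventually_ge_atTop (((m0 : ℝ) + 1) / (ε / 8)))).exists_forall_of_atTop
  refine ⟨max (max N1 N2) (m0 + 1), fun N hN w ρ err hw hρ hT => ?_⟩
  have hNm : m0 + 1 ≤ N := (le_max_right _ _).trans hN
  obtain ⟨⟨g1, g2⟩, g3⟩ := hN2 N (((le_max_right _ _).trans (le_max_left _ _)).trans hN)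
  have h2 := h1 N (((le_max_left _ _).trans (le_max_left _ _)).trans hN) w ρ err hw hρ hT
  rw [div_le_iff₀ (by positivity)] at g3
  have hTN := hT N (by omega) le_rfl
  have t1 := hTN.one
  have t2 := hTN.fin
  have t3 := (hT (m0 + 1) (by omega) hNm).one
  unfold Tr at t1 t2 t3
  simp only [mul_one] at t1 t3
  rw [abs_le] at t1 t2 t3 g1 g2 h2
  have hNR : (0 : ℝ) ≤ N := Nat.cast_nonneg _
  have hvs : ∑ n ∈ Icc 1 (m0 + 1), v n ≤ m0 + 1 := by
    have h3 : ∑ n ∈ Icc 1 (m0 + 1), v n ≤ ∑ n ∈ Icc 1 (m0 + 1), (1 : ℝ) := sum_le_sum fun n _ => (hv n).2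
    rw [sum_const, Nat.card_Icc, Nat.add_sub_cancel, nsmul_eq_mul, mul_one] at h3
    push_cast at h3
    exact h3
  have hws : ∑ n ∈ Icc 1 (m0 + 1), w n ≤ ρ * (ε / 8 * N) + err := by
    have h3 := mul_le_mul_of_nonneg_left (hvs.trans (by linarith : (m0 : ℝ) + 1 ≤ ε / 8 * N)) hρ
    linarith [t3.2]
  -- lower bound
  have low : ∑ n ∈ Icc 1 N, w n - ∑ n ∈ Icc 1 N, w n * ind (fun n => ∃ k, H k n) n ≤ ∑ n ∈ Icc 1 N, w n * ind P n := by
    rw [← sum_sub_distrib]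
    apply sum_le_sum
    intro n _
    by_cases hf : ∃ k, H k n
    · rw [ind_pos (P := fun n => ∃ k, H k n) hf, mul_one, sub_self]
      exact mul_nonneg (hw n) (ind_nonneg _ _)
    · rw [ind_neg (P := fun n => ∃ k, H k n) hf, mul_zero, sub_zero, ind_pos (hP1 n hf), mul_one]
  -- upper bound
  have upp : ∑ n ∈ Icc 1 N, w n * ind P n ≤
      (∑ n ∈ Icc 1 N, w n - ∑ n ∈ Icc 1 N, w n * ind (Lv val (fun _ _ => True) (th A b x)) n) + ∑ n ∈ Icc 1 (m0 + 1), w n := by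
    have h3 := sum_split N (m0 + 1) (f := ind P) (g := fun n => 1 - ind (Lv val (fun _ _ => True) (th A b x)) n)
      (ind_le_one P) (fun n => by linarith [ind_le_one (Lv val (fun _ _ => True) (th A b x)) n]) hw (fun n h4 _ => by
        by_cases hP : P n
        · rw [ind_pos hP, ind_neg (P := Lv val (fun _ _ => True) (th A b x)) (fun h => hm0 n (by omega) h hP), sub_zero]
        · rw [ind_neg hP]
          linarith [ind_le_one (Lv val (fun _ _ => True) (th A b x)) n])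
    refine h3.trans (le_of_eq ?_)
    rw [← sum_sub_distrib]
    congr 1
    apply sum_congr rfl
    intro n _
    ring
  have q1 := mul_le_mul_of_nonneg_left g1.2 hρ
  have q2 := mul_le_mul_of_nonneg_left g2.1 hρ
  have q3 := mul_le_mul_of_nonneg_left g2.2 hρ
  have q4 : ρ * ((δ - ε / 8) * N) ≤ ρ * (δ * Phi x * N) :=
    mul_le_mul_of_nonneg_left (mul_le_mul_of_nonneg_right hx hNR) hρ
  have q5 : 0 ≤ ε * ρ * N := by positivity
  have herr : 0 ≤ err := by linarith [t1.1, t1.2]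
  rw [abs_le]
  constructor
  · nlinarith [t1.1, t2.2]
  · nlinarith [t1.2, h2.1]

end Pool.Agent.X266.CD
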