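import Pool.Agent.X266.CD.Eng
import Pool.Agent.Y55.DS.Kim2

/-! Products of strongly multiplicative functions of the digits have small correlations on average. -/

set_option autoImplicit false

namespace Pool.Agent.X266.CD

open Finset Pool.Agent.Y55.DS

theorem corr_dig {d : ℕ} (hd : 2 ≤ d) {ι : Type*} [Fintype ι] [DecidableEq ι] (q : ι → ℕ) (hq : ∀ i, 3 ≤ q i)
    (hqd : ∀ i, Nat.Coprime d (q i)) (hc : ∀ i j, i ≠ j → Nat.Coprime (q i) (q j)) {f : ι → ℕ → ℂ}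
    (hf : ∀ i, SM (q i) (f i)) (i0 : ι) (hnc : ¬ ∀ n, f i0 n = f i0 1 ^ n) :
    ∃ a c C : ℝ, 0 < a ∧ 0 < c ∧ c ≤ 1 ∧ 0 ≤ C ∧ ∀ w : ℕ → ℂ,
      (∀ h, ∃ w0 : ℂ, ‖w0‖ = 1 ∧ ∀ n, w n * (starRingEnd ℂ) (w (n + h)) = w0) →
      ∀ N : ℕ, 1 ≤ N → CorrN d a c C N (fun n => w n * ∏ i, f i n) := by
  classical
  obtain ⟨ρ, hρ0, hρ1, hb0, hb1⟩ := nondeg (hq i0) (hf i0) hnc
  have hdR : (2 : ℝ) ≤ d := by exact_mod_cast hd
  set p : ι → ℕ := fun i => q i ^ 2 with hp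
  have hp9 : ∀ i, 9 ≤ p i := by
    intro i
    have : 3 ^ 2 ≤ q i ^ 2 := Nat.pow_le_pow_left (hq i) 2
    exact this
  have hp0 : ∀ i, 0 < p i := fun i => by have := hp9 i; omega
  have hfp : ∀ i, SM (p i) (f i) := fun i => (hf i).pow (by have := hq i; omega) 2
  have hp9R : ∀ i, (9 : ℝ) ≤ p i := fun i => by exact_mod_cast hp9 i
  set p0 : ℝ := (p i0 : ℝ) with hp0R
  have hp09 : 9 ≤ p0 := hp9R i0
  set θ : ℝ := (p0 - 1 + ρ) / p0 with hθ
  have hθ1 : θ < 1 := by rw [hθ, div_lt_one (by linarith)]; linarith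
  have hθ0 : 8 / 9 ≤ θ := by rw [hθ, div_le_div_iff₀ (by norm_num) (by linarith)]; linarith
  have hθp : 0 < θ := by linarith
  have hlp0 : 0 < Real.log p0 := Real.log_pos (by linarith)
  set c : ℝ := -Real.log θ / Real.log p0 with hcdef
  have hc0 : 0 < c := div_pos (neg_pos.2 (Real.log_neg hθp hθ1)) hlp0
  have hc1 : c ≤ 1 := by
    rw [hcdef, div_le_one hlp0, ← Real.log_inv]
    apply Real.log_le_log (by positivity)
    have : θ⁻¹ ≤ 9 / 8 := by
      rw [inv_le_comm₀ hθp (by norm_num)]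
      norm_num
      exact hθ0
    linarith
  have hθc : θ = p0 ^ (-c) := by
    rw [Real.rpow_def_of_pos (by linarith), hcdef]
    have : Real.log p0 * -(-Real.log θ / Real.log p0) = Real.log θ := by field_simp
    rw [this, Real.exp_log hθp]
  set P : ℝ := ∏ i, (p i : ℝ) with hP
  have hP9 : 9 ≤ P := by
    rw [hP, ← mul_prod_erase univ (fun i => (p i : ℝ)) (mem_univ i0)]
    have h1 : (1 : ℝ) ≤ ∏ i ∈ univ.erase i0, (p i : ℝ) := by
      have : ∏ i ∈ univ.erase i0, (1 : ℝ) ≤ ∏ i ∈ univ.erase i0, (p i : ℝ) :=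
        prod_le_prod (fun _ _ => zero_le_one) (fun i _ => by linarith [hp9R i])
      simpa using this
    nlinarith
  have hP1 : 1 < P := by linarith
  have hlP : 0 < Real.log P := Real.log_pos hP1
  set b0 : ℝ := Real.log 9 / (4 * Real.log P) with hb0def
  have hl9 : 0 < Real.log 9 := Real.log_pos (by norm_num)
  have hb00 : 0 < b0 := by positivity
  have hb04 : b0 ≤ 1 / 4 := by
    rw [hb0def, div_le_iff₀ (by positivity)]
    have := Real.log_le_log (by norm_num : (0 : ℝ) < 9) hP9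
    linarith
  set a : ℝ := b0 / 4 with ha
  have ha0 : 0 < a := by positivity
  have ha1 : a ≤ 1 / 16 := by rw [ha]; linarith
  set r : ℝ := (Fintype.card ι : ℝ) with hr
  have hr0 : 0 ≤ r := Nat.cast_nonneg _
  refine ⟨a, c, 4 * p0 + 1 + 19 * r, ha0, hc0, hc1, by positivity, ?_⟩
  intro w hw N hN k hk
  have hNR : (1 : ℝ) ≤ N := by exact_mod_cast hN
  have hN0 : (0 : ℝ) < N := by linarith
  have hN4 : (1 : ℝ) ≤ (N : ℝ) ^ (1 / 4 : ℝ) := Real.one_le_rpow hNR (by norm_num)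
  obtain ⟨K, hK1, hK2⟩ := exists_nat_pow_near hN4 hP1
  -- `9 ^ (K + 1) ≥ N ^ b0`
  have h9K : (N : ℝ) ^ b0 ≤ 9 ^ (K + 1) := by
    have h1 : ((N : ℝ) ^ (1 / 4 : ℝ)) ^ (Real.log 9 / Real.log P) ≤ (P ^ (K + 1)) ^ (Real.log 9 / Real.log P) :=
      Real.rpow_le_rpow (by positivity) hK2.le (by positivity)
    have h2 : ((N : ℝ) ^ (1 / 4 : ℝ)) ^ (Real.log 9 / Real.log P) = (N : ℝ) ^ b0 := by
      rw [← Real.rpow_mul hN0.le]
      congr 1
      rw [hb0def]; field_simp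
    have h3 : (P ^ (K + 1)) ^ (Real.log 9 / Real.log P) = 9 ^ (K + 1) := by
      rw [← Real.rpow_natCast, ← Real.rpow_mul (by linarith), mul_comm, Real.rpow_mul (by linarith), Real.rpow_natCast]
      congr 1
      rw [Real.rpow_def_of_pos (by linarith)]
      have : Real.log P * (Real.log 9 / Real.log P) = Real.log 9 := by field_simp
      rw [this, Real.exp_log (by norm_num)]
    rwa [h2, h3] at h1
  have h9K' : (1 : ℝ) / 9 ^ K ≤ 9 * (N : ℝ) ^ (-b0) := by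
    rw [Real.rpow_neg hN0.le, ← div_eq_mul_inv, div_le_div_iff₀ (by positivity) (by positivity)]
    rw [pow_succ] at h9K
    linarith
  set D : ℝ := (d : ℝ) ^ k with hD
  have hD1 : 1 ≤ D := one_le_pow₀ (by linarith)
  have hD0 : 0 < D := by linarith
  have haN : (N : ℝ) ^ a ≤ N := by
    calc (N : ℝ) ^ a ≤ (N : ℝ) ^ (1 : ℝ) := Real.rpow_le_rpow_of_exponent_le hNR (by linarith)
      _ = N := Real.rpow_one _
  -- the moduli
  set Q : ι → ℕ := fun i => p i ^ K with hQ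
  have hQ0 : ∀ i, 0 < Q i := fun i => pow_pos (hp0 i) _
  have hfQ : ∀ i, SM (Q i) (f i) := fun i => (hfp i).pow (hp0 i) _
  have hcQ : ∀ i j, i ≠ j → Nat.Coprime (Q i) (Q j) := by
    intro i j hij
    apply Nat.Coprime.pow
    exact Nat.Coprime.pow 2 2 (hc i j hij)
  have hDQ : ∀ i, Nat.Coprime (d ^ k) (Q i) := by
    intro i
    apply Nat.Coprime.pow
    exact Nat.Coprime.pow_right 2 (hqd i)
  have hQR : ∀ i, (Q i : ℝ) = (p i : ℝ) ^ K := by
    intro i; rw [hQ]; push_cast; rfl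
  have hQ9 : ∀ i, (9 : ℝ) ^ K ≤ Q i := by
    intro i
    rw [hQR]
    exact pow_le_pow_left₀ (by norm_num) (hp9R i) K
  set Qp : ℕ := ∏ i, Q i with hQp
  have hQpR : (Qp : ℝ) = P ^ K := by
    rw [hQp]; push_cast
    rw [prod_congr rfl fun i _ => hQR i, prod_pow]
  set Jm : ℝ := N / D + 1 with hJm
  have hJm0 : 0 ≤ Jm := by rw [hJm]; positivity
  have hJm2 : D * Jm ≤ 2 * N := by
    rw [hJm, mul_add, mul_one, mul_div_cancel₀ _ (by positivity)]
    linarith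
  set β : ℕ → ℝ := fun h => Jm * (‖Co (f i0) (Q i0) h‖ / Q i0) + Qp + ∑ i, (Jm / Q i + 1) * (h : ℝ) with hβ
  have hβ0 : ∀ h, 0 ≤ β h := by
    intro h
    rw [hβ]
    have : 0 ≤ ∑ i, (Jm / Q i + 1) * (h : ℝ) := sum_nonneg fun i _ => by positivity
    have h2 : 0 ≤ Jm * (‖Co (f i0) (Q i0) h‖ / Q i0) := by positivity
    have h3 : (0 : ℝ) ≤ Qp := Nat.cast_nonneg _
    simp only
    linarith
  refine ⟨β, hβ0, ?_, ?_⟩
  · intro h hh1 _ m0 J _ hJ
    obtain ⟨w0, hw0, hw0'⟩ := hw h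
    refine (corr Q hQ0 hcQ hDQ hfQ hw0 hw0' m0 J).trans ?_
    -- `J ≤ Jm`
    have hJJ : (J : ℝ) ≤ Jm := by
      rcases Nat.eq_zero_or_pos J with h0 | h0
      · rw [h0]; simpa using hJm0
      · have h1 := hJ (J - 1) (by omega)
        have h2 : d ^ k * (J - 1) ≤ N := by omega
        have h3 : D * ((J - 1 : ℕ) : ℝ) ≤ N := by rw [hD]; exact_mod_cast h2
        rw [Nat.cast_sub h0, Nat.cast_one] at h3
        have h4 : (J : ℝ) - 1 ≤ N / D := by
          rw [le_div_iff₀ (by positivity)]; linarith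
        rw [hJm]; linarith
    have h1 : ∏ i, ‖Co (f i) (Q i) h‖ ≤ ‖Co (f i0) (Q i0) h‖ / Q i0 * Qp := by
      have h2 : ∏ i ∈ univ.erase i0, ‖Co (f i) (Q i) h‖ ≤ ∏ i ∈ univ.erase i0, (Q i : ℝ) := by
        apply prod_le_prod (fun _ _ => norm_nonneg _)
        intro i _
        refine (norm_Co (hfQ i) _ _).trans ?_
        exact_mod_cast Nat.sub_le _ _
      have hQi0 : (0 : ℝ) < Q i0 := by exact_mod_cast hQ0 i0
      have h3 : (Qp : ℝ) = Q i0 * ∏ i ∈ univ.erase i0, (Q i : ℝ) := by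
        rw [hQp]; push_cast
        rw [mul_prod_erase univ (fun i => (Q i : ℝ)) (mem_univ i0)]
      rw [h3, ← mul_prod_erase univ _ (mem_univ i0)]
      calc ‖Co (f i0) (Q i0) h‖ * ∏ i ∈ univ.erase i0, ‖Co (f i) (Q i) h‖
          ≤ ‖Co (f i0) (Q i0) h‖ * ∏ i ∈ univ.erase i0, (Q i : ℝ) := mul_le_mul_of_nonneg_left h2 (norm_nonneg _)
        _ = _ := by field_simp
    have hQpn : 0 < Qp := prod_pos fun i _ => hQ0 i
    have hQpp : (0 : ℝ) < Qp := by exact_mod_cast hQpn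
    have h2 : ((J / Qp : ℕ) : ℝ) * ∏ i, ‖Co (f i) (Q i) h‖ ≤ Jm * (‖Co (f i0) (Q i0) h‖ / Q i0) := by
      have h3 : ((J / Qp : ℕ) : ℝ) ≤ Jm / Qp := by
        refine Nat.cast_div_le.trans ?_
        gcongr
      calc ((J / Qp : ℕ) : ℝ) * ∏ i, ‖Co (f i) (Q i) h‖ ≤ (Jm / Qp) * (‖Co (f i0) (Q i0) h‖ / Q i0 * Qp) :=
            mul_le_mul h3 h1 (prod_nonneg fun _ _ => norm_nonneg _) (by positivity)
        _ = _ := by field_simp
    rw [hβ]
    simp only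
    refine add_le_add (add_le_add h2 le_rfl) ?_
    apply sum_le_sum
    intro i _
    apply mul_le_mul_of_nonneg_right _ (Nat.cast_nonneg _)
    have hQi : (0 : ℝ) < Q i := by exact_mod_cast hQ0 i
    have : ((J / Q i : ℕ) : ℝ) ≤ Jm / Q i := by
      refine Nat.cast_div_le.trans ?_
      gcongr
    linarith
  · intro X hX1 hX2
    have hX0 : 0 < X := by linarith
    obtain ⟨κ, hκ1, hκ2⟩ := exists_nat_pow_near hX1 (show 1 < p0 by linarith)
    have hκK : κ ≤ K := by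
      by_contra hcon
      push Not at hcon
      have h1 : (9 : ℝ) ^ (K + 1) ≤ (N : ℝ) ^ a := by
        calc (9 : ℝ) ^ (K + 1) ≤ 9 ^ κ := pow_le_pow_right₀ (by norm_num) (by omega)
          _ ≤ p0 ^ κ := pow_le_pow_left₀ (by norm_num) hp09 κ
          _ ≤ X := hκ1
          _ ≤ _ := hX2
      have h2 : ((N : ℝ) ^ a) ^ 4 = (N : ℝ) ^ b0 := by
        rw [← Real.rpow_natCast, ← Real.rpow_mul hN0.le]
        congr 1
        rw [ha]; push_cast; ring
      have h3 : ((9 : ℝ) ^ (K + 1)) ^ 4 ≤ 9 ^ (K + 1) := by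
        calc ((9 : ℝ) ^ (K + 1)) ^ 4 ≤ ((N : ℝ) ^ a) ^ 4 := pow_le_pow_left₀ (by positivity) h1 4
          _ = _ := h2
          _ ≤ _ := h9K
      have h4 : (1 : ℝ) < 9 ^ (K + 1) := one_lt_pow₀ (by norm_num) (by omega)
      have h5 : (9 : ℝ) ^ (K + 1) < ((9 : ℝ) ^ (K + 1)) ^ 4 := by
        calc (9 : ℝ) ^ (K + 1) = (9 ^ (K + 1)) ^ 1 := (pow_one _).symm
          _ < _ := pow_lt_pow_right₀ h4 (by norm_num)
      linarith
    have hh1 : q i0 + 1 < p i0 := by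
      have h1 := hq i0
      have h2 : 3 * q i0 ≤ q i0 ^ 2 := by rw [sq]; exact Nat.mul_le_mul_right _ h1
      show q i0 + 1 < q i0 ^ 2
      omega
    have t1 := Co_total (hp0 i0) (hfp i0) hh1 hρ0 hb0 hb1 (k := κ) (i := K) hκK (X := X) hκ1
    have hθκ : θ ^ κ ≤ p0 * X ^ (-c) := by
      have h1 : θ ^ κ = p0 ^ c * (p0 ^ (κ + 1)) ^ (-c) := by
        rw [hθc, ← Real.rpow_natCast, ← Real.rpow_natCast, ← Real.rpow_mul (by linarith), ← Real.rpow_mul (by linarith),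
          ← Real.rpow_add (by linarith)]
        congr 1; push_cast; ring
      rw [h1]
      have h2 : p0 ^ c ≤ p0 := by
        calc p0 ^ c ≤ p0 ^ (1 : ℝ) := Real.rpow_le_rpow_of_exponent_le (by linarith) hc1
          _ = p0 := Real.rpow_one _
      have h3 : (p0 ^ (κ + 1)) ^ (-c) ≤ X ^ (-c) := Real.rpow_le_rpow_of_nonpos hX0 hκ2.le (by linarith)
      exact mul_le_mul h2 h3 (by positivity) (by linarith)
    have hXc : X * X ^ (-c) = X ^ (1 - c) := by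
      rw [sub_eq_add_neg, Real.rpow_add hX0, Real.rpow_one]
    have t1' : ∑ h ∈ Icc 1 ⌊X⌋₊, ‖Co (f i0) (Q i0) h‖ / Q i0 ≤ 2 * p0 * X ^ (1 - c) := by
      rw [← sum_div, div_le_iff₀ (by exact_mod_cast hQ0 i0)]
      have e2 : (Q i0 : ℝ) = (p i0 : ℝ) ^ K := hQR i0
      rw [e2]
      refine t1.trans ?_
      have e3 : 2 * X * (((p i0 : ℝ) - 1 + ρ) / (p i0 : ℝ)) ^ κ ≤ 2 * X * (p0 * X ^ (-c)) :=
        mul_le_mul_of_nonneg_left hθκ (by positivity)
      have e4 : 2 * X * (p0 * X ^ (-c)) = 2 * p0 * X ^ (1 - c) := by rw [← hXc]; ring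
      rw [e4] at e3
      exact mul_le_mul_of_nonneg_right e3 (by positivity)
    have hcard : ((Icc 1 ⌊X⌋₊).card : ℝ) ≤ X := by
      rw [Nat.card_Icc, Nat.add_sub_cancel]; exact Nat.floor_le hX0.le
    have t2 : ∑ h ∈ Icc 1 ⌊X⌋₊, ((Qp : ℝ) + ∑ i, (Jm / Q i + 1) * (h : ℝ)) ≤ X * (Qp + ∑ i, (Jm / Q i + 1) * X) := by
      have e1 : ∀ h ∈ Icc 1 ⌊X⌋₊, ((Qp : ℝ) + ∑ i, (Jm / Q i + 1) * (h : ℝ)) ≤ Qp + ∑ i, (Jm / Q i + 1) * X := by
        intro h hh
        rw [mem_Icc] at hh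
        have h2 : (h : ℝ) ≤ X := (Nat.le_floor_iff hX0.le).1 hh.2
        gcongr
      refine (sum_le_sum e1).trans ?_
      rw [sum_const, nsmul_eq_mul]
      apply mul_le_mul_of_nonneg_right hcard
      have h3 : 0 ≤ ∑ i, (Jm / Q i + 1) * X := sum_nonneg fun i _ => by
        have : (0 : ℝ) ≤ Q i := Nat.cast_nonneg _
        have : 0 ≤ Jm / Q i := div_nonneg hJm0 this
        exact mul_nonneg (by linarith) hX0.le
      have h4 : (0 : ℝ) ≤ Qp := Nat.cast_nonneg _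
      linarith
    have e0 : ∑ h ∈ Icc 1 ⌊X⌋₊, β h = Jm * ∑ h ∈ Icc 1 ⌊X⌋₊, ‖Co (f i0) (Q i0) h‖ / Q i0
        + ∑ h ∈ Icc 1 ⌊X⌋₊, ((Qp : ℝ) + ∑ i, (Jm / Q i + 1) * (h : ℝ)) := by
      rw [mul_sum, ← sum_add_distrib]
      apply sum_congr rfl
      intro h _
      rw [hβ]; simp only; ring
    rw [e0, mul_add]
    set Y : ℝ := X ^ (1 - c) with hY
    have hY0 : 0 < Y := by positivity
    have hXY : X ≤ X * Y := le_mul_of_one_le_right hX0.le (Real.one_le_rpow hX1 (by linarith))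
    have hY1 : 1 ≤ Y := Real.one_le_rpow hX1 (by linarith)
    have s1 : D * (Jm * ∑ h ∈ Icc 1 ⌊X⌋₊, ‖Co (f i0) (Q i0) h‖ / Q i0) ≤ 4 * p0 * N * Y := by
      rw [← mul_assoc]
      refine (mul_le_mul hJm2 t1' (sum_nonneg fun _ _ => by positivity) (by positivity)).trans (le_of_eq ?_)
      ring
    -- powers of `N`
    have n1 : X * (D * Qp) ≤ N := by
      rw [hQpR]
      calc X * (D * P ^ K) ≤ (N : ℝ) ^ a * ((N : ℝ) ^ a * (N : ℝ) ^ (1 / 4 : ℝ)) := by gcongr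
        _ = (N : ℝ) ^ (a + (a + 1 / 4)) := by rw [← Real.rpow_add hN0, ← Real.rpow_add hN0]
        _ ≤ (N : ℝ) ^ (1 : ℝ) := Real.rpow_le_rpow_of_exponent_le hNR (by linarith)
        _ = N := Real.rpow_one _
    have n2 : X * X * (2 * N * (9 * (N : ℝ) ^ (-b0))) ≤ 18 * N := by
      calc X * X * (2 * N * (9 * (N : ℝ) ^ (-b0))) ≤ (N : ℝ) ^ a * (N : ℝ) ^ a * (2 * N * (9 * (N : ℝ) ^ (-b0))) := by gcongr
        _ = 18 * N * ((N : ℝ) ^ a * (N : ℝ) ^ a * (N : ℝ) ^ (-b0)) := by ring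
        _ = 18 * N * (N : ℝ) ^ (a + a + -b0) := by rw [← Real.rpow_add hN0, ← Real.rpow_add hN0]
        _ ≤ 18 * N * 1 := by
          apply mul_le_mul_of_nonneg_left _ (by positivity)
          apply Real.rpow_le_one_of_one_le_of_nonpos hNR
          rw [ha]; linarith
        _ = 18 * N := mul_one _
    have n3 : X * X * D ≤ N := by
      calc X * X * D ≤ (N : ℝ) ^ a * (N : ℝ) ^ a * (N : ℝ) ^ a := by gcongr
        _ = (N : ℝ) ^ (a + a + a) := by rw [← Real.rpow_add hN0, ← Real.rpow_add hN0]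
        _ ≤ (N : ℝ) ^ (1 : ℝ) := Real.rpow_le_rpow_of_exponent_le hNR (by linarith)
        _ = N := Real.rpow_one _
    have s2 : X * (D * ∑ i, (Jm / Q i + 1) * X) ≤ 19 * r * N := by
      have s3 : ∀ i ∈ (univ : Finset ι), X * (D * ((Jm / Q i + 1) * X)) ≤ 19 * N := by
        intro i _
        have hQi : (0 : ℝ) < Q i := by exact_mod_cast hQ0 i
        have e1 : X * (D * ((Jm / Q i + 1) * X)) = X * X * ((D * Jm) * (1 / Q i)) + X * X * D := by field_simp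
        rw [e1]
        have e2 : (D * Jm) * (1 / Q i) ≤ (2 * N) * (9 * (N : ℝ) ^ (-b0)) := by
          apply mul_le_mul hJm2 _ (by positivity) (by positivity)
          exact (one_div_le_one_div_of_le (by positivity) (hQ9 i)).trans h9K'
        have e3 : X * X * ((D * Jm) * (1 / Q i)) ≤ X * X * (2 * N * (9 * (N : ℝ) ^ (-b0))) :=
          mul_le_mul_of_nonneg_left e2 (by positivity)
        linarith
      rw [mul_sum, mul_sum]
      refine (sum_le_sum s3).trans ?_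
      rw [sum_const, card_univ, nsmul_eq_mul]
      linarith
    have s4 : D * ∑ h ∈ Icc 1 ⌊X⌋₊, ((Qp : ℝ) + ∑ i, (Jm / Q i + 1) * (h : ℝ)) ≤ N + 19 * r * N := by
      calc D * ∑ h ∈ Icc 1 ⌊X⌋₊, ((Qp : ℝ) + ∑ i, (Jm / Q i + 1) * (h : ℝ)) ≤ D * (X * (Qp + ∑ i, (Jm / Q i + 1) * X)) :=
            mul_le_mul_of_nonneg_left t2 hD0.le
        _ = X * (D * Qp) + X * (D * ∑ i, (Jm / Q i + 1) * X) := by ring
        _ ≤ _ := add_le_add n1 s2
    have s5 : (N : ℝ) + 19 * r * N ≤ (N + 19 * r * N) * Y := le_mul_of_one_le_right (by positivity) hY1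
    calc _ ≤ 4 * p0 * N * Y + (N + 19 * r * N) * Y := add_le_add s1 (s4.trans s5)
      _ = (4 * p0 + 1 + 19 * r) * N * Y := by ring

end Pool.Agent.X266.CD
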