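import Pool.Agent.X266.CD.Key

/-! The engine: synchronous functions of generalised Collatz maps are orthogonal to all sequences which have
small correlations on average along progressions. -/

set_option autoImplicit false

namespace Pool.Agent.X266.CD

open Finset Pool.Agent.H319R3.GC Pool.Agent.Y965.PS Pool.Agent.Y965.GP

variable {d : ℕ} {m r : ℕ → ℤ}

/-- one multiplier -/
theorem one_mult (h : Adm d m r) {a c C : ℝ} (hc : 0 < c) (hc1 : c ≤ 1) (hC : 0 ≤ C) {ρ : ℝ} (hρ0 : 0 < ρ)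
    (hρ1 : ρ ≤ 1) {s : ℤ} (hs : s = 1 ∨ s = -1) {N k : ℕ} (hN : 1 ≤ N) {R : ℝ} (hR : 1 ≤ R) {M : ℤ} (hM : M ≠ 0)
    (hMr : |(M : ℝ)| ≤ (ρ * d) ^ k) (hk1 : (d : ℝ) ^ k ≤ (N : ℝ) ^ (1 / 16 : ℝ)) (hk2 : 2 * R * (d : ℝ) ^ k ≤ (N : ℝ) ^ a)
    (hk3 : 2 * R * (d : ℝ) ^ k ≤ N) (hka : (d : ℝ) ^ k ≤ (N : ℝ) ^ a) {F : ℤ → ℝ} (hF : SyncK d m r N F) {z : ℕ → ℂ}
    (hz1 : ∀ n, ‖z n‖ ≤ 1) (hz : CorrN d a c C N z) :
    ‖∑ n ∈ GS (GdM d m r ρ R s k M) ⌊(N : ℝ) ^ (1 / 2 : ℝ)⌋₊ N, (F (s * n) : ℂ) * z n‖ ^ 2 ≤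
      7 * (1 + 2 * C) * (N : ℝ) ^ 2 * (R * (ρ ^ k) ^ c) := by
  have hNR : (1 : ℝ) ≤ N := by exact_mod_cast hN
  have hN0 : (0 : ℝ) < N := by linarith
  have hd1 : (1 : ℝ) ≤ d := by have := h.two_le; exact_mod_cast (by omega : 1 ≤ d)
  have hdk : (0 : ℝ) < (d : ℝ) ^ k := by positivity
  have hM0 : 0 < |(M : ℝ)| := abs_pos.2 (by exact_mod_cast hM)
  have hM1 : 1 ≤ |(M : ℝ)| := by
    have := Int.one_le_abs hM
    exact_mod_cast this
  obtain ⟨β, hβ0, hβ1, hβ2⟩ := hz k hka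
  have K := kdM h hρ0.le hρ1 hR hs (k := k) (N := N) hM hMr
  set H : ℝ := 2 * R * (d : ℝ) ^ k / |(M : ℝ)| with hH
  have hH1 : 1 ≤ H := K.H_one
  have hHa : H ≤ 2 * R * (d : ℝ) ^ k := by
    rw [hH, div_le_iff₀ hM0]
    exact le_mul_of_one_le_right (by positivity) hM1
  have hfl : ∀ n : ℕ, ⌊(N : ℝ) ^ (1 / 2 : ℝ)⌋₊ < n → (N : ℝ) ^ (1 / 2 : ℝ) < n := fun n hn => (Nat.floor_lt (by positivity)).1 hn
  have habs : ∀ n : ℕ, |((s * (n : ℤ) : ℤ) : ℝ)| = n := by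
    intro n
    rcases hs with rfl | rfl <;> simp
  have key := disp K ⌊(N : ℝ) ^ (1 / 2 : ℝ)⌋₊ (F := fun n : ℕ => F (s * n)) (fun n => hF.1 _) (by
      intro n n' hn hn' g1 g2 hk
      unfold key at hk
      rw [Prod.mk.injEq] at hk
      refine hF.2 k _ _ hk1 ?_ ?_ hk.1 hk.2
      · rw [habs]; exact hfl n hn
      · rw [habs]; exact hfl n' hn') hz1 hβ0 (by
      intro u hu1 hu2 m0 J hm0 hJ
      exact hβ1 u hu1 (hu2.trans (hHa.trans hk2)) m0 J (hfl m0 hm0) hJ)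
  refine key.trans ?_
  have hsum := hβ2 H hH1 (hHa.trans hk2)
  push_cast
  set Y : ℝ := H ^ (1 - c) with hY
  have hY1 : 1 ≤ Y := Real.one_le_rpow hH1 (by linarith)
  have hH0 : 0 < H := by linarith
  have e1 : N * |(M : ℝ)| / (d : ℝ) ^ k = 2 * R * N / H := by
    rw [hH]; field_simp
  rw [e1]
  have e2 : 2 * (2 * R * N / H + R) + 1 ≤ 7 * R * N / H := by
    have e3 : R ≤ R * N / H := by
      rw [le_div_iff₀ hH0]
      exact mul_le_mul_of_nonneg_left (hHa.trans hk3) (by linarith)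
    have e4 : 2 * (2 * R * N / H + R) + 1 = 4 * (R * N / H) + 2 * R + 1 := by ring
    have e5 : 7 * R * N / H = 7 * (R * N / H) := by ring
    rw [e4, e5]; linarith
  have e6 : (N : ℝ) + 2 * ((d : ℝ) ^ k * ∑ h ∈ Icc 1 ⌊H⌋₊, β h) ≤ (1 + 2 * C) * N * Y := by
    have : (N : ℝ) ≤ N * Y := le_mul_of_one_le_right hN0.le hY1
    nlinarith
  have e7 : 0 ≤ (N : ℝ) + 2 * ((d : ℝ) ^ k * ∑ h ∈ Icc 1 ⌊H⌋₊, β h) := by
    have : 0 ≤ ∑ h ∈ Icc 1 ⌊H⌋₊, β h := sum_nonneg fun _ _ => hβ0 _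
    positivity
  have e8 : H ^ (-c) ≤ (ρ ^ k) ^ c := by
    have hρk : 0 < ρ ^ k := by positivity
    have e9 : (ρ ^ k)⁻¹ ≤ H := by
      rw [hH, le_div_iff₀ hM0]
      rw [inv_mul_le_iff₀ hρk]
      rw [mul_pow] at hMr
      have : (d : ℝ) ^ k ≤ 2 * R * (d : ℝ) ^ k := by nlinarith
      calc |(M : ℝ)| ≤ ρ ^ k * (d : ℝ) ^ k := hMr
        _ ≤ ρ ^ k * (2 * R * (d : ℝ) ^ k) := by gcongr
    calc H ^ (-c) ≤ ((ρ ^ k)⁻¹) ^ (-c) := Real.rpow_le_rpow_of_nonpos (by positivity) e9 (by linarith)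
      _ = (ρ ^ k) ^ c := by rw [Real.inv_rpow hρk.le, Real.rpow_neg hρk.le, inv_inv]
  calc (2 * (2 * R * N / H + R) + 1) * ((N : ℝ) + 2 * ((d : ℝ) ^ k * ∑ h ∈ Icc 1 ⌊H⌋₊, β h))
      ≤ (7 * R * N / H) * ((1 + 2 * C) * N * Y) := mul_le_mul e2 e6 e7 (by positivity)
    _ = 7 * (1 + 2 * C) * (N : ℝ) ^ 2 * (R * (Y / H)) := by ring
    _ = 7 * (1 + 2 * C) * (N : ℝ) ^ 2 * (R * H ^ (-c)) := by
      congr 2
      rw [hY, Real.rpow_sub hH0, Real.rpow_one, Real.rpow_neg hH0.le]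
      field_simp
    _ ≤ _ := by gcongr

/-- THE ENGINE -/
theorem engine (h0 : Adm d m r) {a c C : ℝ} (ha : 0 < a) (hc : 0 < c) (hc1 : c ≤ 1) (hC : 0 ≤ C) :
    ∃ K b : ℝ, 0 ≤ K ∧ 0 < b ∧ ∀ r' : ℕ → ℤ, Adm d m r' → ∀ s : ℤ, (s = 1 ∨ s = -1) → ∀ N : ℕ, 1 ≤ N →
      ∀ F : ℤ → ℝ, SyncK d m r' N F → ∀ z : ℕ → ℂ, (∀ n, ‖z n‖ ≤ 1) → CorrN d a c C N z →
        ‖∑ n ∈ Icc 1 N, (F (s * n) : ℂ) * z n‖ ≤ K * (1 + ∑ i ∈ range d, |(r' i : ℝ)|) * (N : ℝ) ^ (1 - b) := by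
  classical
  obtain ⟨σ, ρ, C0, lam, hσ0, hσ1, hρ0, hρσ, hC0, hl0, hl1, hbad⟩ := params h0
  have hρ1 : ρ < 1 := hρσ.trans_lt hσ1
  have hd2 : (2 : ℝ) ≤ d := by exact_mod_cast h0.two_le
  set w : ℝ := ρ ^ (-(c / 2)) with hw
  have hw1 : 1 ≤ w := Real.one_le_rpow_of_pos_of_le_one_of_nonpos hρ0 hρ1.le (by linarith)
  set B : ℝ := 2 * (w * d) with hB
  have hB4 : 4 ≤ B := by rw [hB]; nlinarith
  set a' : ℝ := min a (1 / 16) with ha'
  have ha'0 : 0 < a' := lt_min ha (by norm_num)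
  have ha'1 : a' ≤ 1 / 16 := min_le_right _ _
  -- the rates
  set x1 : ℝ := ρ ^ (c / 8) with hx1
  set x2 : ℝ := ρ ^ (c * lam / 2) with hx2
  have hx10 : 0 < x1 := Real.rpow_pos_of_pos hρ0 _
  have hx11 : x1 < 1 := Real.rpow_lt_one hρ0.le hρ1 (by positivity)
  have hx20 : 0 < x2 := Real.rpow_pos_of_pos hρ0 _
  have hx21 : x2 < 1 := Real.rpow_lt_one hρ0.le hρ1 (by positivity)
  set θ : ℝ := max (max x1 σ) (max x2 (1 / 2)) with hθ
  have hθ0 : 0 < θ := lt_of_lt_of_le hx10 ((le_max_left _ _).trans (le_max_left _ _))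
  have hθ1 : θ < 1 := max_lt (max_lt hx11 hσ1) (max_lt hx21 (by norm_num))
  have t1 : x1 ≤ θ := (le_max_left _ _).trans (le_max_left _ _)
  have t2 : σ ≤ θ := (le_max_right _ _).trans (le_max_left _ _)
  have t3 : x2 ≤ θ := (le_max_left _ _).trans (le_max_right _ _)
  have t4 : 1 / 2 ≤ θ := (le_max_right _ _).trans (le_max_right _ _)
  obtain ⟨C2, hC20, hC2⟩ := poly_geom d hx10.le hx11
  set E : ℝ := Real.sqrt (7 * (1 + 2 * C)) with hE
  have hE0 : 0 ≤ E := Real.sqrt_nonneg _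
  set K0 : ℝ := C2 * E + 3 + 2 * C0 with hK0
  have hK00 : 0 ≤ K0 := by positivity
  have hBa : 1 < B ^ (1 / a') := Real.one_lt_rpow (by linarith) (by positivity)
  refine ⟨K0 / θ, -Real.log θ / Real.log (B ^ (1 / a')), by positivity,
    div_pos (neg_pos.2 (Real.log_neg hθ0 hθ1)) (Real.log_pos hBa), ?_⟩
  intro r' h s hs N hN F hF z hz1 hz
  set A : ℝ := 1 + ∑ i ∈ range d, |(r' i : ℝ)| with hA
  have hsum0 : 0 ≤ ∑ i ∈ range d, |(r' i : ℝ)| := sum_nonneg fun _ _ => abs_nonneg _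
  have hA1 : 1 ≤ A := by rw [hA]; linarith
  have hAl : ∑ i ∈ range d, |(r' i : ℝ)| ^ lam ≤ A := by
    rw [hA]
    have : ∑ i ∈ range d, |(r' i : ℝ)| ^ lam ≤ ∑ i ∈ range d, |(r' i : ℝ)| := by
      apply sum_le_sum
      intro i _
      rcases eq_or_ne (r' i) 0 with h1 | h1
      · rw [h1]; simp [Real.zero_rpow hl0.ne']
      · have h2 : (1 : ℝ) ≤ |(r' i : ℝ)| := by
          have := Int.one_le_abs h1
          exact_mod_cast this
        calc |(r' i : ℝ)| ^ lam ≤ |(r' i : ℝ)| ^ (1 : ℝ) := Real.rpow_le_rpow_of_exponent_le h2 hl1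
          _ = _ := Real.rpow_one _
    linarith
  have hNR : (1 : ℝ) ≤ N := by exact_mod_cast hN
  have hN0 : (0 : ℝ) < N := by linarith
  have hterm : ∀ n : ℕ, ‖(F (s * n) : ℂ) * z n‖ ≤ 1 := by
    intro n
    rw [norm_mul, Complex.norm_real, Real.norm_eq_abs]
    have a1 := hF.1 (s * n)
    have a2 := hz1 n
    calc |F (s * n)| * ‖z n‖ ≤ 1 * 1 := mul_le_mul a1 a2 (norm_nonneg _) zero_le_one
      _ = 1 := one_mul 1
  have main : ‖∑ n ∈ Icc 1 N, (F (s * n) : ℂ) * z n‖ ≤ (K0 * A / θ) * (N : ℝ) ^ (1 - (-Real.log θ / Real.log (B ^ (1 / a')))) := by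
    refine Pool.Agent.Y55.DS.to_rpow hBa hθ0 hθ1 (by positivity) hN fun k hk => ?_
    rcases Nat.eq_zero_or_pos k with hk0 | hk0
    · subst hk0
      rw [pow_zero, mul_one]
      have h1 : ‖∑ n ∈ Icc 1 N, (F (s * n) : ℂ) * z n‖ ≤ N := by
        refine (norm_sum_le _ _).trans ((sum_le_sum fun n _ => hterm n).trans ?_)
        simp
      refine h1.trans ?_
      have h2 : 1 ≤ K0 * A := by
        have : 1 ≤ K0 := by rw [hK0]; nlinarith [mul_nonneg hC20 hE0]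
        nlinarith
      exact le_mul_of_one_le_left hN0.le h2
    -- the size of `k`
    have hBk : B ^ k ≤ (N : ℝ) ^ a' := by
      have h1 : ((B ^ (1 / a')) ^ k) ^ a' ≤ (N : ℝ) ^ a' := Real.rpow_le_rpow (by positivity) hk ha'0.le
      have h2 : ((B ^ (1 / a')) ^ k) ^ a' = B ^ k := by
        rw [← Real.rpow_natCast, ← Real.rpow_mul (by positivity), ← Real.rpow_mul (by positivity), ← Real.rpow_natCast]
        congr 1
        field_simp
      rwa [h2] at h1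
    have hBa16 : B ^ k ≤ (N : ℝ) ^ (1 / 16 : ℝ) := hBk.trans (Real.rpow_le_rpow_of_exponent_le hNR ha'1)
    have hBaa : B ^ k ≤ (N : ℝ) ^ a := hBk.trans (Real.rpow_le_rpow_of_exponent_le hNR (min_le_left _ _))
    have hB16N : (N : ℝ) ^ (1 / 16 : ℝ) ≤ N := by
      calc (N : ℝ) ^ (1 / 16 : ℝ) ≤ (N : ℝ) ^ (1 : ℝ) := Real.rpow_le_rpow_of_exponent_le hNR (by norm_num)
        _ = N := Real.rpow_one _
    have hdB : (d : ℝ) ^ k ≤ B ^ k := pow_le_pow_left₀ (by positivity) (by rw [hB]; nlinarith) k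
    set R : ℝ := w ^ k with hR
    have hR1 : 1 ≤ R := one_le_pow₀ hw1
    have h2R : 2 * R * (d : ℝ) ^ k ≤ B ^ k := by
      rw [hR, hB, mul_pow, mul_pow]
      have : (2 : ℝ) ≤ 2 ^ k := by
        calc (2 : ℝ) = 2 ^ 1 := (pow_one _).symm
          _ ≤ 2 ^ k := pow_le_pow_right₀ (by norm_num) hk0
      have h3 : (0 : ℝ) ≤ w ^ k * (d : ℝ) ^ k := by positivity
      nlinarith
    set N1 := ⌊(N : ℝ) ^ (1 / 2 : ℝ)⌋₊ with hN1
    set G : ℕ → Prop := Gd d m r' ρ R s k with hG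
    -- split
    have hsplit : ‖∑ n ∈ Icc 1 N, (F (s * n) : ℂ) * z n‖ ≤ N1 +
        (‖∑ n ∈ (Ioc N1 N).filter G, (F (s * n) : ℂ) * z n‖ + (((Ioc N1 N).filter fun n => ¬ G n).card : ℝ)) := by
      have hN1N : N1 ≤ N := by
        rw [hN1]
        apply Nat.floor_le_of_le
        calc (N : ℝ) ^ (1 / 2 : ℝ) ≤ (N : ℝ) ^ (1 : ℝ) := Real.rpow_le_rpow_of_exponent_le hNR (by norm_num)
          _ = N := Real.rpow_one _
      have h1 : Icc 1 N = Ioc 0 N := by ext x; simp [mem_Icc, mem_Ioc]; omega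
      have h2 : ∑ n ∈ Icc 1 N, (F (s * n) : ℂ) * z n = ∑ n ∈ Ioc 0 N1, (F (s * n) : ℂ) * z n +
          ∑ n ∈ Ioc N1 N, (F (s * n) : ℂ) * z n := by
        rw [h1]
        exact (sum_Ioc_consecutive _ (Nat.zero_le _) hN1N).symm
      rw [h2, ← sum_filter_add_sum_filter_not (Ioc N1 N) G]
      refine (norm_add_le _ _).trans (add_le_add ?_ ((norm_add_le _ _).trans (add_le_add le_rfl ?_)))
      · refine (norm_sum_le _ _).trans ((sum_le_sum fun n _ => hterm n).trans ?_)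
        simp
      · refine (norm_sum_le _ _).trans ((sum_le_sum fun n _ => hterm n).trans ?_)
        simp
    -- the bad integers
    have hdkN : d ^ k ≤ N := by
      have : (d : ℝ) ^ k ≤ N := hdB.trans (hBa16.trans hB16N)
      exact_mod_cast this
    have hb := hbad r' h s hs k N R hdkN hR1 ((Ioc N1 N).filter fun n => ¬ G n) (by
      intro n hn
      rw [mem_filter, mem_Ioc] at hn
      exact ⟨⟨by omega, hn.1.2⟩, hn.2⟩)
    have hRl : R ^ (-lam) = x2 ^ k := by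
      rw [hR, hw, hx2, ← Real.rpow_natCast, ← Real.rpow_natCast, ← Real.rpow_mul hρ0.le, ← Real.rpow_mul hρ0.le,
        ← Real.rpow_mul hρ0.le]
      congr 1; ring
    have hb2 : (((Ioc N1 N).filter fun n => ¬ G n).card : ℝ) ≤ (2 + 2 * C0) * A * N * θ ^ k := by
      refine hb.trans ?_
      rw [hRl]
      have h1 : σ ^ k ≤ θ ^ k := pow_le_pow_left₀ hσ0.le t2 k
      have h2 : x2 ^ k ≤ θ ^ k := pow_le_pow_left₀ hx20.le t3 k
      have h3 : 0 ≤ ∑ i ∈ range d, |(r' i : ℝ)| ^ lam := sum_nonneg fun _ _ => Real.rpow_nonneg (abs_nonneg _) _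
      have h4 : C0 * (∑ i ∈ range d, |(r' i : ℝ)| ^ lam) * x2 ^ k ≤ C0 * A * θ ^ k := by gcongr
      have h5 : 0 < θ ^ k := by positivity
      have h6 : θ ^ k ≤ A * θ ^ k := le_mul_of_one_le_left h5.le hA1
      calc 2 * N * (σ ^ k + C0 * (∑ i ∈ range d, |(r' i : ℝ)| ^ lam) * x2 ^ k)
          ≤ 2 * N * (A * θ ^ k + C0 * A * θ ^ k) := by
            apply mul_le_mul_of_nonneg_left _ (by positivity)
            linarith
        _ = _ := by ring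
    -- the multipliers
    have hgood : ‖∑ n ∈ (Ioc N1 N).filter G, (F (s * n) : ℂ) * z n‖ ≤ C2 * E * N * θ ^ k := by
      have hmaps : ∀ n ∈ (Ioc N1 N).filter G, Mw m (wd d m r' k (s * n)) ∈ Ms d m k := by
        intro n _
        exact mem_image_of_mem _ (wd_mem h.two_le k _)
      rw [← sum_fiberwise_of_maps_to hmaps]
      refine (norm_sum_le _ _).trans ?_
      have hone : ∀ M ∈ Ms d m k, ‖∑ n ∈ ((Ioc N1 N).filter G).filter (fun n : ℕ => Mw m (wd d m r' k (s * n)) = M), (F (s * n) : ℂ) * z n‖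
          ≤ E * N * (x1 * x1) ^ k := by
        intro M _
        have hset : ((Ioc N1 N).filter G).filter (fun n : ℕ => Mw m (wd d m r' k (s * n)) = M) = GS (GdM d m r' ρ R s k M) N1 N := by
          ext n
          rw [mem_filter, mem_filter, Pool.Agent.Y965.GP.mem_GS, mem_Ioc]
          unfold GdM
          tauto
        rw [hset]
        rcases (GS (GdM d m r' ρ R s k M) N1 N).eq_empty_or_nonempty with hem | ⟨n0, hn0⟩
        · rw [hem, sum_empty, norm_zero]; positivity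
        · have hn0' := (Pool.Agent.Y965.GP.mem_GS.1 hn0).2
          have hM0 : M ≠ 0 := by
            intro hM
            have h1 := one_le_Mw h k (s * n0)
            rw [hn0'.2, hM] at h1
            norm_num at h1
          have hMr : |(M : ℝ)| ≤ (ρ * d) ^ k := by
            have h1 := hn0'.1.1
            rwa [hn0'.2] at h1
          have h1 := one_mult h hc hc1 hC hρ0 hρ1.le hs hN hR1 hM0 hMr (hdB.trans hBa16) (h2R.trans hBaa)
            (h2R.trans (hBa16.trans hB16N)) (hdB.trans hBaa) hF hz1 hz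
          rw [← hN1] at h1
          have h2 : R * (ρ ^ k) ^ c = ((x1 * x1) ^ k) ^ 2 := by
            rw [hR, hw, hx1, ← Real.rpow_add hρ0, ← Real.rpow_natCast ρ k, ← Real.rpow_mul hρ0.le,
              ← Real.rpow_natCast _ k, ← Real.rpow_mul hρ0.le, ← Real.rpow_add hρ0, ← Real.rpow_natCast _ k,
              ← Real.rpow_mul hρ0.le, ← Real.rpow_natCast _ 2, ← Real.rpow_mul hρ0.le]
            congr 1; push_cast; ring
          rw [h2] at h1
          have h3 : 7 * (1 + 2 * C) * (N : ℝ) ^ 2 * ((x1 * x1) ^ k) ^ 2 = (E * N * (x1 * x1) ^ k) ^ 2 := by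
            have h4 : E ^ 2 = 7 * (1 + 2 * C) := Real.sq_sqrt (by positivity)
            calc 7 * (1 + 2 * C) * (N : ℝ) ^ 2 * ((x1 * x1) ^ k) ^ 2 = E ^ 2 * (N : ℝ) ^ 2 * ((x1 * x1) ^ k) ^ 2 := by rw [h4]
              _ = _ := by ring
          rw [h3] at h1
          exact le_of_sq_le_sq h1 (by positivity)
      refine (sum_le_sum hone).trans ?_
      rw [sum_const, nsmul_eq_mul]
      have hcard : ((Ms d m k).card : ℝ) ≤ ((k : ℝ) + 1) ^ d := by exact_mod_cast card_Ms (d := d) (m := m) k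
      calc ((Ms d m k).card : ℝ) * (E * N * (x1 * x1) ^ k) ≤ ((k : ℝ) + 1) ^ d * (E * N * (x1 * x1) ^ k) := by gcongr
        _ = (((k : ℝ) + 1) ^ d * x1 ^ k) * E * N * x1 ^ k := by rw [mul_pow]; ring
        _ ≤ C2 * E * N * θ ^ k := by
          have := hC2 k
          gcongr
    have hstart : (N1 : ℝ) ≤ N * θ ^ k := by
      have h1 : (N1 : ℝ) ≤ (N : ℝ) ^ (1 / 2 : ℝ) := Nat.floor_le (by positivity)
      have h2 : (2 : ℝ) ^ k ≤ (N : ℝ) ^ (1 / 2 : ℝ) := by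
        calc (2 : ℝ) ^ k ≤ B ^ k := pow_le_pow_left₀ (by norm_num) (by linarith) k
          _ ≤ _ := hBa16
          _ ≤ _ := Real.rpow_le_rpow_of_exponent_le hNR (by norm_num)
      have h3 : (N : ℝ) ^ (1 / 2 : ℝ) * (N : ℝ) ^ (1 / 2 : ℝ) = N := by
        rw [← Real.rpow_add hN0]; norm_num
      have h4 : (N : ℝ) ^ (1 / 2 : ℝ) ≤ N * (1 / 2) ^ k := by
        have e0 : ((1 : ℝ) / 2) ^ k = ((2 : ℝ) ^ k)⁻¹ := by rw [div_pow, one_pow, one_div]
        rw [e0, ← div_eq_mul_inv, le_div_iff₀ (by positivity)]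
        calc (N : ℝ) ^ (1 / 2 : ℝ) * 2 ^ k ≤ (N : ℝ) ^ (1 / 2 : ℝ) * (N : ℝ) ^ (1 / 2 : ℝ) := by gcongr
          _ = N := h3
      have h5 : ((1 : ℝ) / 2) ^ k ≤ θ ^ k := pow_le_pow_left₀ (by norm_num) t4 k
      calc (N1 : ℝ) ≤ _ := h1
        _ ≤ _ := h4
        _ ≤ _ := by gcongr
    have hθk : 0 < θ ^ k := by positivity
    calc ‖∑ n ∈ Icc 1 N, (F (s * n) : ℂ) * z n‖ ≤ _ := hsplit
      _ ≤ N * θ ^ k + (C2 * E * N * θ ^ k + (2 + 2 * C0) * A * N * θ ^ k) := add_le_add hstart (add_le_add hgood hb2)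
      _ ≤ A * (N * θ ^ k) + (A * (C2 * E * N * θ ^ k) + (2 + 2 * C0) * A * N * θ ^ k) := by
        apply add_le_add
        · exact le_mul_of_one_le_left (by positivity) hA1
        · apply add_le_add _ le_rfl
          exact le_mul_of_one_le_left (by positivity) hA1
      _ = K0 * A * N * θ ^ k := by rw [hK0]; ring
  refine main.trans (le_of_eq ?_)
  ring
where
  le_of_sq_le_sq {x y : ℝ} (h : x ^ 2 ≤ y ^ 2) (hy : 0 ≤ y) : x ≤ y := by
    by_contra hcon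
    push Not at hcon
    nlinarith

end Pool.Agent.X266.CD
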