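import Pool.Agent.X266.CD.Eng
import Pool.Agent.Y55.DS.Disc2

/-! Polynomial phases have small correlations. -/

set_option autoImplicit false

namespace Pool.Agent.X266.CD

open Finset Pool.Agent.Y55.DS Pool.Agent.H373R2.NB
open Pool.Agent.Helper602.MK (ee)
open Pool.Agent.Helper602.MK.N_J5b (ee_add ee_zero ee_conj norm_ee)

theorem corr_pol {d : ℕ} (hd : 2 ≤ d) {k : ℕ} (hk : 1 ≤ k) {η : ℝ} (hη : 0 < η) :
    ∃ a c C : ℝ, 0 < a ∧ 0 < c ∧ c ≤ 1 ∧ 0 ≤ C ∧ ∀ N : ℕ, 1 ≤ N → ∀ (α : ℝ) (φ : ℕ → ℝ), Ph (k + 1) α φ →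
    (∀ l : ℕ, 1 ≤ l → (l : ℝ) ≤ (N : ℝ) ^ η → ∀ b : ℤ, (N : ℝ) ^ (η - k) ≤ |l * α - b|) →
    CorrN d a c C N (fun m => ee (φ m)) := by
  obtain ⟨c₁, m₁, hc₁, hIW⟩ := IW_all k hk
  have hc₁R : (1 : ℝ) ≤ c₁ := by exact_mod_cast hc₁
  have hdR : (2 : ℝ) ≤ d := by exact_mod_cast hd
  set a0 : ℝ := η / (2 * (2 * (m₁ + k) + k + 1)) with ha0
  have ha00 : 0 < a0 := by positivity
  set a : ℝ := min a0 (1 / 16) with ha
  have haP : 0 < a := lt_min ha00 (by norm_num)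
  have ha16 : a ≤ 1 / 16 := min_le_right _ _
  have haη : a * (2 * (m₁ + k) + k + 1) ≤ η / 2 := by
    have h1 : a * (2 * (m₁ + k) + k + 1) ≤ a0 * (2 * (m₁ + k) + k + 1) :=
      mul_le_mul_of_nonneg_right (min_le_left _ _) (by positivity)
    have h2 : a0 * (2 * (m₁ + k) + k + 1) = η / 2 := by rw [ha0]; field_simp
    linarith
  obtain ⟨N0, hN0⟩ := exists_nat_ge (((c₁ : ℝ) + 1) ^ (2 / η))
  refine ⟨a, 1, 2 * N0 + 2, haP, one_pos, le_rfl, by positivity, ?_⟩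
  intro N hN α φ hφ hα κ hκ
  have hNR : (1 : ℝ) ≤ N := by exact_mod_cast hN
  have hNp : (0 : ℝ) < N := by linarith
  have haN : (N : ℝ) ^ a ≤ N := by
    calc (N : ℝ) ^ a ≤ (N : ℝ) ^ (1 : ℝ) := Real.rpow_le_rpow_of_exponent_le hNR (by linarith)
      _ = N := Real.rpow_one _
  set D : ℝ := (d : ℝ) ^ κ with hD
  have hD1 : 1 ≤ D := one_le_pow₀ (by linarith)
  have hD0 : 0 < D := by linarith
  set Jm : ℝ := N / D + 1 with hJm
  have hJm0 : 0 < Jm := by rw [hJm]; positivity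
  have hJm2 : D * Jm ≤ 2 * N := by
    rw [hJm, mul_add, mul_one, mul_div_cancel₀ _ (by positivity)]
    linarith
  have hJJ : ∀ (h m0 J : ℕ), (∀ j < J, m0 + d ^ κ * j + h ≤ N) → (J : ℝ) ≤ Jm := by
    intro h m0 J hJ
    rcases Nat.eq_zero_or_pos J with h0 | h0
    · rw [h0]; simpa using hJm0.le
    · have h1 := hJ (J - 1) (by omega)
      have h2 : d ^ κ * (J - 1) ≤ N := by omega
      have h3 : D * ((J - 1 : ℕ) : ℝ) ≤ N := by rw [hD]; exact_mod_cast h2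
      rw [Nat.cast_sub h0, Nat.cast_one] at h3
      have h4 : (J : ℝ) - 1 ≤ N / D := by
        rw [le_div_iff₀ (by positivity)]; linarith
      rw [hJm]; linarith
  have hcard : ∀ X : ℝ, 1 ≤ X → ((Icc 1 ⌊X⌋₊).card : ℝ) ≤ X := by
    intro X hX
    rw [Nat.card_Icc, Nat.add_sub_cancel]; exact Nat.floor_le (by linarith)
  rcases lt_or_ge N N0 with hsm | hbig
  · refine ⟨fun _ => Jm, fun _ => hJm0.le, ?_, ?_⟩
    · intro h _ _ m0 J _ hJ
      refine (norm_sum_le _ _).trans ?_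
      have h1 : ∀ j ∈ range J, ‖ee (φ (m0 + d ^ κ * j)) * (starRingEnd ℂ) (ee (φ (m0 + d ^ κ * j + h)))‖ ≤ 1 := by
        intro j _
        rw [norm_mul, RCLike.norm_conj, norm_ee, norm_ee, one_mul]
      refine (sum_le_sum h1).trans ?_
      rw [sum_const, card_range, nsmul_eq_mul, mul_one]
      exact hJJ h m0 J hJ
    · intro X hX1 hX2
      rw [sum_const, nsmul_eq_mul, sub_self, Real.rpow_zero, mul_one]
      have h1 := hcard X hX1
      have h2 : X ≤ N0 := hX2.trans (haN.trans (by exact_mod_cast hsm.le))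
      calc D * (((Icc 1 ⌊X⌋₊).card : ℝ) * Jm) = (D * Jm) * ((Icc 1 ⌊X⌋₊).card : ℝ) := by ring
        _ ≤ (2 * N) * N0 := mul_le_mul hJm2 (h1.trans h2) (Nat.cast_nonneg _) (by positivity)
        _ ≤ (2 * N0 + 2) * N := by nlinarith
  · set u : ℝ := (N : ℝ) ^ (2 * a) with hu
    have hu1 : 1 ≤ u := Real.one_le_rpow hNR (by positivity)
    have hu0 : 0 < u := by linarith
    have hbigR : ((c₁ : ℝ) + 1) ≤ (N : ℝ) ^ (η / 2) := by
      have h1 : ((c₁ : ℝ) + 1) ^ (2 / η) ≤ N := hN0.trans (by exact_mod_cast hbig)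
      have h2 : (((c₁ : ℝ) + 1) ^ (2 / η)) ^ (η / 2) ≤ (N : ℝ) ^ (η / 2) :=
        Real.rpow_le_rpow (by positivity) h1 (by positivity)
      rw [← Real.rpow_mul (by positivity)] at h2
      have h3 : 2 / η * (η / 2) = 1 := by field_simp
      rwa [h3, Real.rpow_one] at h2
    have hkey : ((c₁ : ℝ) + 1) * (u ^ (m₁ + k) * D ^ k * (N : ℝ) ^ a) ≤ (N : ℝ) ^ η := by
      have h1 : u ^ (m₁ + k) * D ^ k * (N : ℝ) ^ a ≤ (N : ℝ) ^ (η / 2) := by
        calc u ^ (m₁ + k) * D ^ k * (N : ℝ) ^ a ≤ u ^ (m₁ + k) * ((N : ℝ) ^ a) ^ k * (N : ℝ) ^ a := by gcongr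
          _ = (N : ℝ) ^ (a * (2 * (m₁ + k) + k + 1)) := by
            rw [hu, ← Real.rpow_natCast, ← Real.rpow_natCast, ← Real.rpow_mul hNp.le, ← Real.rpow_mul hNp.le,
              ← Real.rpow_add hNp, ← Real.rpow_add hNp]
            congr 1; push_cast; ring
          _ ≤ _ := Real.rpow_le_rpow_of_exponent_le hNR haη
      calc ((c₁ : ℝ) + 1) * (u ^ (m₁ + k) * D ^ k * (N : ℝ) ^ a) ≤ (N : ℝ) ^ (η / 2) * (N : ℝ) ^ (η / 2) := by gcongr
        _ = (N : ℝ) ^ η := by rw [← Real.rpow_add hNp]; congr 1; ring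
    refine ⟨fun _ => Jm / u, fun _ => by positivity, ?_, ?_⟩
    · intro h hh1 hh2 m0 J _ hJ
      have huk : 1 ≤ u ^ k := one_le_pow₀ hu1
      have hum : 0 < u ^ m₁ := by positivity
      have hDk : 1 ≤ D ^ k := one_le_pow₀ hD1
      have hNa1 : 1 ≤ (N : ℝ) ^ a := Real.one_le_rpow hNR haP.le
      refine phase_corr (k := k) (c := c₁) (m := m₁) hIW hφ (D := d ^ κ) (Nat.one_le_pow _ _ (by omega)) hh1 hu1 hJm0
        (Y := (N : ℝ) ^ η) (Z := (N : ℝ) ^ (η - k)) ?_ ?_ hα m0 J (hJJ h m0 J hJ)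
      · push_cast
        rw [← hD]
        refine le_trans ?_ hkey
        have e1 : (c₁ : ℝ) * u ^ m₁ * (D ^ k * h) ≤ c₁ * u ^ m₁ * (D ^ k * (N : ℝ) ^ a) := by gcongr
        refine e1.trans ?_
        rw [pow_add]
        have e2 : (c₁ : ℝ) * u ^ m₁ * (D ^ k * (N : ℝ) ^ a) ≤ (c₁ + 1) * (u ^ m₁ * (D ^ k * (N : ℝ) ^ a)) := by
          rw [mul_assoc]
          apply mul_le_mul_of_nonneg_right (by linarith) (by positivity)
        refine e2.trans ?_
        apply mul_le_mul_of_nonneg_left _ (by positivity)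
        have e3 : u ^ m₁ * u ^ k * D ^ k * (N : ℝ) ^ a = (u ^ m₁ * (D ^ k * (N : ℝ) ^ a)) * u ^ k := by ring
        rw [e3]
        exact le_mul_of_one_le_right (by positivity) huk
      · have hNk : (N : ℝ) ^ (η - k) = (N : ℝ) ^ η / (N : ℝ) ^ k := by
          rw [Real.rpow_sub hNp, Real.rpow_natCast]
        rw [hNk, div_pow, div_div_eq_mul_div]
        have hJN : (N : ℝ) / D ≤ Jm := by rw [hJm]; linarith
        have e1 : (c₁ : ℝ) * u ^ m₁ * u ^ k / Jm ^ k ≤ c₁ * u ^ m₁ * u ^ k / (N / D) ^ k := by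
          gcongr
        refine e1.trans_lt ?_
        rw [div_pow, div_div_eq_mul_div]
        apply div_lt_div_of_pos_right _ (by positivity)
        refine lt_of_lt_of_le ?_ hkey
        have e2 : (c₁ : ℝ) * u ^ m₁ * u ^ k * D ^ k < (c₁ + 1) * (u ^ (m₁ + k) * D ^ k * 1) := by
          rw [pow_add]
          have : 0 < u ^ m₁ * u ^ k * D ^ k := by positivity
          linarith
        refine e2.trans_le ?_
        gcongr
    · intro X hX1 hX2
      rw [sum_const, nsmul_eq_mul, sub_self, Real.rpow_zero, mul_one]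
      have h1 := hcard X hX1
      have h2 : X ≤ u := hX2.trans (Real.rpow_le_rpow_of_exponent_le hNR (by linarith))
      have h3 : (0 : ℝ) ≤ N0 := Nat.cast_nonneg _
      calc D * (((Icc 1 ⌊X⌋₊).card : ℝ) * (Jm / u)) = (D * Jm) * (((Icc 1 ⌊X⌋₊).card : ℝ) / u) := by ring
        _ ≤ (2 * N) * 1 := by
          apply mul_le_mul hJm2 _ (by positivity) (by positivity)
          rw [div_le_one hu0]
          exact h1.trans h2
        _ ≤ (2 * N0 + 2) * N := by nlinarith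

end Pool.Agent.X266.CD
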