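import Pool.Agent.X266.CD.Dig
import Pool.Agent.X266.CD.Pol

/-! Classes of functions which are orthogonal to sequences with small correlations: digits in several bases, and
polynomials modulo one. -/

set_option autoImplicit false

namespace Pool.Agent.X266.CD

open Finset Pool.Agent.Y55.DS Pool.Agent.H373R2.NB Pool.Agent.Y965.PS Polynomial
open Pool.Agent.Helper602.MK (ee)
open Pool.Agent.Helper602.MK.N_J5b (ee_add ee_zero ee_conj norm_ee)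

/-- a class of functions (of level `N`, with a size `A`) which are orthogonal to sequences with small
correlations -/
structure Eng (d : ℕ) (𝒢 : ℕ → ℝ → (ℕ → ℝ) → Prop) : Prop where
  two_le : 2 ≤ d
  one_le : ∀ N A G, 𝒢 N A G → 1 ≤ A
  bdd : ∀ N A G, 𝒢 N A G → ∀ n, |G n| ≤ 1
  half : ∀ N A G, 𝒢 N A G → 𝒢 N A (fun n => (1 + G n) / 2)
  unit : ∀ N A G, 𝒢 N A G → 𝒢 N A (fun _ => 1)
  main : ∀ a c C : ℝ, 0 < a → 0 < c → c ≤ 1 → 0 ≤ C → ∃ K b : ℝ, 0 ≤ K ∧ 0 < b ∧ ∀ (N : ℕ) (A : ℝ) (G : ℕ → ℝ)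
    (z : ℕ → ℂ), 1 ≤ N → 𝒢 N A G → (∀ n, ‖z n‖ ≤ 1) → CorrN d a c C N z →
      ‖∑ n ∈ Icc 1 N, (G n : ℂ) * z n‖ ≤ K * A * (N : ℝ) ^ (1 - b)

variable {d : ℕ} {𝒢 : ℕ → ℝ → (ℕ → ℝ) → Prop}

/-- POWER SAVING for products of strongly multiplicative functions of the digits -/
theorem power_gen (E : Eng d 𝒢) {ι : Type*} [Fintype ι] [DecidableEq ι] (q : ι → ℕ) (hq : ∀ i, 3 ≤ q i)
    (hqd : ∀ i, Nat.Coprime d (q i)) (hc : ∀ i j, i ≠ j → Nat.Coprime (q i) (q j)) {f : ι → ℕ → ℂ}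
    (hf : ∀ i, SM (q i) (f i)) (i0 : ι) (hnc : ¬ ∀ n, f i0 n = f i0 1 ^ n) :
    ∃ C c : ℝ, 0 ≤ C ∧ 0 < c ∧ ∀ w : ℕ → ℂ, (∀ n, ‖w n‖ = 1) →
      (∀ h, ∃ w0 : ℂ, ‖w0‖ = 1 ∧ ∀ n, w n * (starRingEnd ℂ) (w (n + h)) = w0) →
      ∀ (N : ℕ) (A : ℝ) (G : ℕ → ℝ), 1 ≤ N → 𝒢 N A G →
        ‖∑ n ∈ Icc 1 N, (G n : ℂ) * (w n * ∏ i, f i n)‖ ≤ C * A * (N : ℝ) ^ (1 - c) := by
  obtain ⟨a, c, C, ha, hc0, hc1, hC, H⟩ := corr_dig E.two_le q hq hqd hc hf i0 hnc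
  obtain ⟨K, b, hK, hb, M⟩ := E.main a c C ha hc0 hc1 hC
  refine ⟨K, b, hK, hb, fun w hw1 hw N A G hN hG => M N A G _ hN hG (fun n => ?_) (H w hw N hN)⟩
  rw [norm_mul, hw1, one_mul, norm_prod, prod_congr rfl fun i _ => (hf i).1 n, prod_const_one]

open Classical in
/-- THE THEOREM OF KIM -/
theorem kim_gen (E : Eng d 𝒢) {ι : Type*} [Fintype ι] [DecidableEq ι] (q : ι → ℕ) (hq : ∀ i, 3 ≤ q i)
    (hqd : ∀ i, Nat.Coprime d (q i)) (hc : ∀ i j, i ≠ j → Nat.Coprime (q i) (q j)) (W : ι → ℕ → ℤ)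
    (hW : ∀ i, SA (q i) (W i)) (m : ι → ℕ) (hm : ∀ i, 1 ≤ m i) {M : ℕ} (hM : 1 ≤ M) : ∃ C c : ℝ, 0 ≤ C ∧ 0 < c ∧
    ∀ (N : ℕ) (A : ℝ) (G : ℕ → ℝ), 1 ≤ N → 𝒢 N A G → ∀ (a : ι → ℤ) (b : ℤ),
      |∑ n ∈ (Icc 1 N).filter (fun n => Cl m W a M b n), G n
        - (∏ i, ((obs (q i) (W i) (m i) : ℝ) / m i)) *
          ∑ n ∈ (Icc 1 N).filter (fun n => Cl (fun i => obs (q i) (W i) (m i)) (fun i n => n * W i 1) a M b n), G n|
        ≤ C * A * (N : ℝ) ^ (1 - c) := by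
  set g : ι → ℕ := fun i => obs (q i) (W i) (m i) with hg
  have hg0 : ∀ i, 1 ≤ g i := fun i => Nat.gcd_pos_of_pos_left _ (hm i)
  set D : ι → ℕ := fun i => m i / g i with hD
  have hDg : ∀ i, D i * g i = m i := fun i => Nat.div_mul_cancel (obs_dvd _ _ _)
  have hD0 : ∀ i, 1 ≤ D i := by
    intro i
    by_contra hcon
    have h1 : D i = 0 := by omega
    have h2 := hDg i
    rw [h1, zero_mul] at h2
    have := hm i
    omega
  set t : ι → Finset ℕ := fun i => range (m i) with ht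
  set t' : ι → Finset ℕ := fun i => (range (m i)).filter (fun j => D i ∣ j) with ht'
  have hsub : Fintype.piFinset t' ⊆ Fintype.piFinset t := by
    apply Fintype.piFinset_subset
    intro i
    exact filter_subset _ _
  -- the bounds for the nondegenerate tuples
  have hps : ∀ p : ι → ℕ, ∃ C c : ℝ, 0 ≤ C ∧ 0 < c ∧ (p ∈ Fintype.piFinset t \ Fintype.piFinset t' →
      ∀ w : ℕ → ℂ, (∀ n, ‖w n‖ = 1) →
      (∀ h, ∃ w0 : ℂ, ‖w0‖ = 1 ∧ ∀ n, w n * (starRingEnd ℂ) (w (n + h)) = w0) →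
      ∀ (N : ℕ) (A : ℝ) (G : ℕ → ℝ), 1 ≤ N → 𝒢 N A G →
        ‖∑ n ∈ Icc 1 N, (G n : ℂ) * (w n * ∏ i, e (p i / m i * W i n))‖ ≤ C * A * (N : ℝ) ^ (1 - c)) := by
    intro p
    by_cases hp : p ∈ Fintype.piFinset t \ Fintype.piFinset t'
    · rw [mem_sdiff, Fintype.mem_piFinset, Fintype.mem_piFinset] at hp
      obtain ⟨hp1, hp2⟩ := hp
      push Not at hp2
      obtain ⟨i0, hi0⟩ := hp2
      have hnd : ¬ D i0 ∣ p i0 := fun h => hi0 (mem_filter.2 ⟨hp1 i0, h⟩)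
      obtain ⟨C, c, hC, hc0, H⟩ := power_gen E q hq hqd hc (f := fun i n => e (p i / m i * W i n))
        (fun i => sm_of_sa (hW i) _) i0 (by
          intro hcon
          apply hnd
          apply degen (hm i0)
          intro n
          have := hcon n
          have e1 : (p i0 : ℝ) * W i0 n / m i0 = p i0 / m i0 * W i0 n := by ring
          have e2 : (p i0 : ℝ) * W i0 1 / m i0 = p i0 / m i0 * W i0 1 := by ring
          rw [e1, e2]; exact this)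
      exact ⟨C, c, hC, hc0, fun _ => H⟩
    · exact ⟨0, 1, le_rfl, one_pos, fun h => absurd h hp⟩
  choose Cp cp hCp hcp Hp using hps
  obtain ⟨c0, hc00, hc01⟩ := exists_lower (Fintype.piFinset t \ Fintype.piFinset t') cp hcp
  refine ⟨∑ p ∈ Fintype.piFinset t \ Fintype.piFinset t', Cp p, c0, sum_nonneg fun p _ => hCp p, hc00, ?_⟩
  intro N A G hN hG a b
  have hNR : (1 : ℝ) ≤ N := by exact_mod_cast hN
  have hA1 : 1 ≤ A := E.one_le N A G hG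
  -- the second class
  have hcl : ∀ n, Cl g W a M b n ↔ Cl g (fun i n => n * W i 1) a M b n := by
    intro n
    unfold Cl
    apply and_congr_left
    intro _
    apply forall_congr'
    intro i
    have h1 : (g i : ℤ) ∣ W i n - n * W i 1 :=
      (hW i).mod (by have := hq i; omega) (fun r hr => obs_dvd' hr) n
    constructor
    · intro h2
      have h3 : (n : ℤ) * W i 1 - a i = (W i n - a i) - (W i n - n * W i 1) := by ring
      rw [h3]; exact dvd_sub h2 h1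
    · intro h2
      have h3 : W i n - a i = (n * W i 1 - a i) + (W i n - n * W i 1) := by ring
      rw [h3]; exact dvd_add h2 h1
  have hF : ∀ n : ℕ, (fun x : ℤ => G x.toNat) (n : ℤ) = G n := fun n => by simp
  have hA := F_sum m W a hM b t m (fun i x => root_sum (hm i) x) (fun x : ℤ => G x.toNat) N
  have hB := F_sum m W a hM b t' g (fun i x => by
    have h1 := root_sum_sub (hD0 i) (hg0 i) x
    rw [hDg i] at h1
    exact h1) (fun x : ℤ => G x.toNat) N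
  simp only [Int.toNat_natCast] at hA hB
  have hfil : (Icc 1 N).filter (fun n => Cl g (fun i n => n * W i 1) a M b n) = (Icc 1 N).filter (fun n => Cl g W a M b n) :=
    filter_congr fun n _ => (hcl n).symm
  rw [hfil]
  set SA := ∑ n ∈ (Icc 1 N).filter (fun n => Cl m W a M b n), G n with hSA
  set SB := ∑ n ∈ (Icc 1 N).filter (fun n => Cl g W a M b n), G n with hSB
  have hmR : ∀ i, (0 : ℝ) < m i := fun i => by exact_mod_cast hm i
  have hPm : (1 : ℝ) ≤ ∏ i, (m i : ℝ) := by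
    have : ∏ i : ι, (1 : ℝ) ≤ ∏ i, (m i : ℝ) :=
      prod_le_prod (fun _ _ => zero_le_one) (fun i _ => by exact_mod_cast hm i)
    simpa using this
  have hMR : (0 : ℝ) < M := by exact_mod_cast hM
  have hPg : (∏ i, (m i : ℝ)) * ∏ i, ((g i : ℝ) / m i) = ∏ i, (g i : ℝ) := by
    rw [← prod_mul_distrib]
    apply prod_congr rfl
    intro i _
    have := (hmR i).ne'
    field_simp
  -- the difference
  have hdiff : ∑ l ∈ range M, ∑ p ∈ Fintype.piFinset t \ Fintype.piFinset t', ∑ n ∈ Icc 1 N, (G n : ℂ) * phi m W a M b l p n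
      = ((M * (∏ i, (m i : ℝ)) * (SA - (∏ i, ((g i : ℝ) / m i)) * SB) : ℝ) : ℂ) := by
    have e1 : (M * (∏ i, (m i : ℝ)) * (SA - (∏ i, ((g i : ℝ) / m i)) * SB) : ℝ)
        = M * (∏ i, (m i : ℝ)) * SA - M * (∏ i, (g i : ℝ)) * SB := by
      rw [← hPg]; ring
    rw [e1, Complex.ofReal_sub, ← hA, ← hB, ← sum_sub_distrib]
    apply sum_congr rfl
    intro l _
    rw [← sum_sdiff hsub]
    ring
  have hterm : ∀ l ∈ range M, ∀ p ∈ Fintype.piFinset t \ Fintype.piFinset t',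
      ‖∑ n ∈ Icc 1 N, (G n : ℂ) * phi m W a M b l p n‖ ≤ Cp p * (A * (N : ℝ) ^ (1 - c0)) := by
    intro l _ p hp
    obtain ⟨hw1, hw2⟩ := e_twist ((l : ℝ) / M)
    have h1 := Hp p hp (fun n => e ((l : ℝ) / M * n)) hw1 hw2 N A G hN hG
    have h2 : ∑ n ∈ Icc 1 N, (G n : ℂ) * phi m W a M b l p n
        = (e (-(l * b / M)) * ∏ i, e (-(p i * a i / m i))) *
          ∑ n ∈ Icc 1 N, (G n : ℂ) * (e ((l : ℝ) / M * n) * ∏ i, e (p i / m i * W i n)) := by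
      rw [mul_sum]
      apply sum_congr rfl
      intro n _
      unfold phi
      have e1 : e (l * ((n - b : ℤ) : ℝ) / M) = e (-(l * b / M)) * e ((l : ℝ) / M * n) := by
        rw [← e_add]; congr 1; push_cast; ring
      have e2 : ∏ i, e (p i * ((W i n - a i : ℤ) : ℝ) / m i) = (∏ i, e (-(p i * a i / m i))) * ∏ i, e (p i / m i * W i n) := by
        rw [← prod_mul_distrib]
        apply prod_congr rfl
        intro i _
        rw [← e_add]; congr 1; push_cast; ring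
      rw [e1, e2]; ring
    rw [h2, norm_mul, norm_mul, e_norm, norm_prod, prod_congr rfl fun i _ => e_norm _, prod_const_one, one_mul, one_mul]
    refine h1.trans ?_
    rw [mul_assoc]
    apply mul_le_mul_of_nonneg_left _ (hCp p)
    apply mul_le_mul_of_nonneg_left _ (by linarith)
    exact Real.rpow_le_rpow_of_exponent_le hNR (by have := hc01 p hp; linarith)
  have hfin : M * (∏ i, (m i : ℝ)) * |SA - (∏ i, ((g i : ℝ) / m i)) * SB| ≤
      M * ((∑ p ∈ Fintype.piFinset t \ Fintype.piFinset t', Cp p) * (A * (N : ℝ) ^ (1 - c0))) := by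
    have h1 : M * (∏ i, (m i : ℝ)) * |SA - (∏ i, ((g i : ℝ) / m i)) * SB|
        = ‖((M * (∏ i, (m i : ℝ)) * (SA - (∏ i, ((g i : ℝ) / m i)) * SB) : ℝ) : ℂ)‖ := by
      have h0 : 0 ≤ M * ∏ i, (m i : ℝ) := mul_nonneg hMR.le (by linarith)
      rw [Complex.norm_real, Real.norm_eq_abs, abs_mul, abs_of_nonneg h0]
    rw [h1, ← hdiff]
    refine (norm_sum_le _ _).trans ((sum_le_sum fun l hl => (norm_sum_le _ _).trans (sum_le_sum fun p hp => hterm l hl p hp)).trans ?_)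
    rw [sum_const, card_range, nsmul_eq_mul, ← sum_mul]
  have h3 : (∏ i, (m i : ℝ)) * |SA - (∏ i, ((g i : ℝ) / m i)) * SB| ≤
      (∑ p ∈ Fintype.piFinset t \ Fintype.piFinset t', Cp p) * (A * (N : ℝ) ^ (1 - c0)) := by
    rw [mul_assoc] at hfin
    exact le_of_mul_le_mul_left hfin hMR
  rw [mul_assoc]
  refine le_trans ?_ h3
  exact le_mul_of_one_le_left (abs_nonneg _) hPm

/-- THE WEYL INEQUALITY -/
theorem weyl_gen (E : Eng d 𝒢) {k : ℕ} (hk : 1 ≤ k) {η : ℝ} (hη : 0 < η) : ∃ C c : ℝ, 0 ≤ C ∧ 0 < c ∧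
    ∀ (N : ℕ) (A : ℝ) (G : ℕ → ℝ), 1 ≤ N → 𝒢 N A G → ∀ (α : ℝ) (φ : ℕ → ℝ), Ph (k + 1) α φ →
    (∀ l : ℕ, 1 ≤ l → (l : ℝ) ≤ (N : ℝ) ^ η → ∀ a : ℤ, (N : ℝ) ^ (η - k) ≤ |l * α - a|) →
    ‖∑ m ∈ Icc 1 N, (G m : ℂ) * ee (φ m)‖ ≤ C * A * (N : ℝ) ^ (1 - c) := by
  obtain ⟨a, c, C, ha, hc0, hc1, hC, H⟩ := corr_pol E.two_le hk hη
  obtain ⟨K, b, hK, hb, M⟩ := E.main a c C ha hc0 hc1 hC
  exact ⟨K, b, hK, hb, fun N A G hN hG α φ hφ hα => M N A G _ hN hG (fun n => (norm_ee _).le) (H N hN α φ hφ hα)⟩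

/-- sums with the sawtooth function of a polynomial -/
theorem psi_gen0 (E : Eng d 𝒢) {k : ℕ} (hk : 1 ≤ k) {α : ℝ} (hα : Dioph α) : ∃ C c : ℝ, 0 ≤ C ∧ 0 < c ∧ c < 1 ∧
    ∀ (N : ℕ) (A : ℝ) (G : ℕ → ℝ), 1 ≤ N → 𝒢 N A G → (∀ n, 0 ≤ G n) → ∀ P : ℝ[X], P.natDegree ≤ k + 1 →
      P.coeff (k + 1) = α → |∑ n ∈ Icc 1 N, G n * psi (P.eval (n : ℝ))| ≤ C * A * (N : ℝ) ^ (1 - c) := by
  obtain ⟨η, hη0, hη1, N0, hN0, hmin⟩ := dioph_minor hk hα
  obtain ⟨C1, c1, hC1, hc1, hW⟩ := weyl_gen E hk hη0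
  set c : ℝ := min (η / 2) (c1 / 2) with hc
  have hc0 : 0 < c := lt_min (by positivity) (by positivity)
  have hcη : c ≤ η / 2 := min_le_left _ _
  have hcc : c ≤ c1 / 2 := min_le_right _ _
  refine ⟨N0 + 5 + (2 + 2 / c1) * C1, c, by positivity, hc0, by linarith, ?_⟩
  intro N A G hN hG hF0 P hP hPc
  have hA1 : 1 ≤ A := E.one_le N A G hG
  have hF1 := E.bdd N A G hG
  have hNR : (1 : ℝ) ≤ N := by exact_mod_cast hN
  have hN00 : (0 : ℝ) < N := by linarith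
  have hp1 : (1 : ℝ) ≤ (N : ℝ) ^ (1 - c) := Real.one_le_rpow hNR (by linarith)
  have hAp : (1 : ℝ) ≤ A * (N : ℝ) ^ (1 - c) := by nlinarith
  have hpsi : ∀ x : ℝ, |psi x| ≤ 1 := by
    intro x
    unfold psi
    have h1 := Int.fract_nonneg x
    have h2 := (Int.fract_lt_one x).le
    rw [abs_le]; constructor <;> linarith
  rcases lt_or_ge N N0 with hsm | hbig
  · -- small `N`
    have h1 : |∑ n ∈ Icc 1 N, G n * psi (P.eval (n : ℝ))| ≤ N := by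
      refine (abs_sum_le_sum_abs _ _).trans ?_
      have h2 : ∀ n ∈ Icc 1 N, |G n * psi (P.eval ((n : ℕ) : ℝ))| ≤ 1 := by
        intro n _
        rw [abs_mul]
        have a1 := hF1 n
        have a2 := hpsi (P.eval (n : ℝ))
        calc |G n| * |psi (P.eval ((n : ℕ) : ℝ))| ≤ 1 * 1 := mul_le_mul a1 a2 (abs_nonneg _) zero_le_one
          _ = 1 := one_mul 1
      refine (sum_le_sum h2).trans ?_
      simp
    have h2 : (N : ℝ) ≤ N0 := by exact_mod_cast hsm.le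
    have h3 : (0 : ℝ) ≤ 5 + (2 + 2 / c1) * C1 := by positivity
    rw [mul_assoc]
    calc _ ≤ (N : ℝ) := h1
      _ ≤ N0 + 5 + (2 + 2 / c1) * C1 := by linarith
      _ ≤ _ := le_mul_of_one_le_right (by positivity) hAp
  set K := ⌈(N : ℝ) ^ η⌉₊ with hK
  have hNη : 1 ≤ (N : ℝ) ^ η := Real.one_le_rpow hNR hη0.le
  have hK1 : (N : ℝ) ^ η ≤ K := Nat.le_ceil _
  have hK2 : (K : ℝ) ≤ 2 * (N : ℝ) ^ η := by
    have := Nat.ceil_lt_add_one (by positivity : 0 ≤ (N : ℝ) ^ η)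
    linarith
  have hK3 : (1 : ℝ) ≤ K := hNη.trans hK1
  have hK4 : 1 ≤ K := by exact_mod_cast hK3
  set η' : ℝ := (N : ℝ) ^ (-(η / 2)) / 2 with hη'
  have hη'0 : 0 < η' := by positivity
  have hη'1 : η' < 1 := by
    have : (N : ℝ) ^ (-(η / 2)) ≤ 1 := Real.rpow_le_one_of_one_le_of_nonpos hNR (by linarith)
    rw [hη']; linarith
  have key := psi_sum (Icc 1 N) (F := fun m : ℕ => G m) (fun m => hF0 _) (fun m => (abs_le.1 (hF1 _)).2)
    (fun m : ℕ => P.eval (m : ℝ)) hK4 hη'0 hη'1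
  have hcard : ((Icc 1 N).card : ℝ) = N := by rw [Nat.card_Icc, Nat.add_sub_cancel]
  rw [hcard] at key
  refine key.trans ?_
  have hP1 := Ph_real (k + 1) P hP
  rw [hPc] at hP1
  -- the exponential sums
  have hsums : ∀ j ∈ Icc 1 K, ‖∑ m ∈ Icc 1 N, (G m : ℂ) * Pool.Agent.H469R2.NK.e (j * P.eval ((m : ℕ) : ℝ))‖
      ≤ C1 * A * (N : ℝ) ^ (1 - c1) := by
    intro j hj
    rw [mem_Icc] at hj
    have h1 := Ph_mul (k + 1) (j : ℝ) _ _ hP1
    have h2 := hW N A G hN hG _ _ h1 (hmin N hbig j hj.1 ((by exact_mod_cast hj.2 : (j : ℝ) ≤ K).trans hK2))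
    simp only [e_eq_ee]
    exact h2
  have hharm : ∑ j ∈ Icc 1 K, 1 / (j : ℝ) ≤ (2 + 2 / c1) * (N : ℝ) ^ (c1 / 2) := by
    have h1 : ∑ j ∈ Icc 1 K, 1 / (j : ℝ) ≤ 1 + Real.log K := by
      have := harmonic_le_one_add_log K
      rw [harmonic_eq_sum_Icc] at this
      push_cast at this
      simpa [one_div] using this
    have h2 : Real.log K ≤ Real.log 2 + η * Real.log N := by
      have e1 : Real.log K ≤ Real.log (2 * (N : ℝ) ^ η) := Real.log_le_log (by linarith) hK2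
      rwa [Real.log_mul (by norm_num) (by positivity), Real.log_rpow hN00] at e1
    have h3 : Real.log N ≤ (N : ℝ) ^ (c1 / 2) / (c1 / 2) := Real.log_le_rpow_div hN00.le (by positivity)
    have h4 : (1 : ℝ) ≤ (N : ℝ) ^ (c1 / 2) := Real.one_le_rpow hNR (by positivity)
    have h5 : Real.log 2 ≤ 1 := by have := Real.log_two_lt_d9; linarith
    have h6 : 0 ≤ Real.log N := Real.log_nonneg hNR
    have h7 : η * Real.log N ≤ Real.log N := mul_le_of_le_one_left h6 hη1.le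
    have h8 : (N : ℝ) ^ (c1 / 2) / (c1 / 2) = 2 / c1 * (N : ℝ) ^ (c1 / 2) := by field_simp
    calc _ ≤ 1 + Real.log K := h1
      _ ≤ 2 + 2 / c1 * (N : ℝ) ^ (c1 / 2) := by linarith
      _ ≤ _ := by linarith
  have t1 : η' * (N : ℝ) ≤ (N : ℝ) ^ (1 - c) := by
    have e1 : (N : ℝ) ^ (-(η / 2)) * N = (N : ℝ) ^ (1 - η / 2) := by
      rw [sub_eq_neg_add, Real.rpow_add hN00, Real.rpow_one]
    have e2 : (N : ℝ) ^ (1 - η / 2) ≤ (N : ℝ) ^ (1 - c) := Real.rpow_le_rpow_of_exponent_le hNR (by linarith)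
    have e3 : η' * (N : ℝ) = (N : ℝ) ^ (1 - η / 2) / 2 := by rw [hη', ← e1]; ring
    have e4 : (0 : ℝ) ≤ (N : ℝ) ^ (1 - η / 2) := by positivity
    rw [e3]; linarith
  have t2 : 2 * (N : ℝ) / (η' * K) ≤ 4 * (N : ℝ) ^ (1 - c) := by
    rw [div_le_iff₀ (by positivity)]
    have e1 : (N : ℝ) ^ (1 - η / 2) ≤ (N : ℝ) ^ (1 - c) := Real.rpow_le_rpow_of_exponent_le hNR (by linarith)
    have e2 : (N : ℝ) ^ (1 - η / 2) * ((N : ℝ) ^ (-(η / 2)) * (N : ℝ) ^ η) = N := by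
      rw [← Real.rpow_add hN00, ← Real.rpow_add hN00]
      have : 1 - η / 2 + (-(η / 2) + η) = 1 := by ring
      rw [this, Real.rpow_one]
    calc 2 * (N : ℝ) = 4 * (N : ℝ) ^ (1 - η / 2) * (((N : ℝ) ^ (-(η / 2)) / 2) * (N : ℝ) ^ η) := by
          rw [show 4 * (N : ℝ) ^ (1 - η / 2) * (((N : ℝ) ^ (-(η / 2)) / 2) * (N : ℝ) ^ η)
            = 2 * ((N : ℝ) ^ (1 - η / 2) * ((N : ℝ) ^ (-(η / 2)) * (N : ℝ) ^ η)) by ring, e2]
      _ ≤ 4 * (N : ℝ) ^ (1 - c) * (η' * K) := by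
          rw [← hη']
          gcongr
  have t3 : ∑ j ∈ Icc 1 K, 1 / (j : ℝ) * ‖∑ m ∈ Icc 1 N, (G m : ℂ) * Pool.Agent.H469R2.NK.e (j * P.eval ((m : ℕ) : ℝ))‖
      ≤ (2 + 2 / c1) * C1 * (A * (N : ℝ) ^ (1 - c)) := by
    calc _ ≤ ∑ j ∈ Icc 1 K, 1 / (j : ℝ) * (C1 * A * (N : ℝ) ^ (1 - c1)) :=
          sum_le_sum fun j hj => mul_le_mul_of_nonneg_left (hsums j hj) (by positivity)
      _ = (∑ j ∈ Icc 1 K, 1 / (j : ℝ)) * (C1 * A * (N : ℝ) ^ (1 - c1)) := by rw [sum_mul]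
      _ ≤ ((2 + 2 / c1) * (N : ℝ) ^ (c1 / 2)) * (C1 * A * (N : ℝ) ^ (1 - c1)) :=
          mul_le_mul_of_nonneg_right hharm (by positivity)
      _ = (2 + 2 / c1) * C1 * (A * (N : ℝ) ^ (1 - c1 / 2)) := by
          have : (N : ℝ) ^ (1 - c1 / 2) = (N : ℝ) ^ (c1 / 2) * (N : ℝ) ^ (1 - c1) := by
            rw [← Real.rpow_add hN00]; congr 1; ring
          rw [this]; ring
      _ ≤ _ := by
          apply mul_le_mul_of_nonneg_left _ (by positivity)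
          apply mul_le_mul_of_nonneg_left _ (by linarith)
          exact Real.rpow_le_rpow_of_exponent_le hNR (by linarith)
  have hN0R : (0 : ℝ) ≤ N0 := Nat.cast_nonneg _
  have hY0 : 0 < (N : ℝ) ^ (1 - c) := by positivity
  have hYA : (N : ℝ) ^ (1 - c) ≤ A * (N : ℝ) ^ (1 - c) := le_mul_of_one_le_left hY0.le hA1
  have hfin : (N : ℝ) ^ (1 - c) + 4 * (N : ℝ) ^ (1 - c) + (2 + 2 / c1) * C1 * (A * (N : ℝ) ^ (1 - c))
      ≤ (N0 + 5 + (2 + 2 / c1) * C1) * A * (N : ℝ) ^ (1 - c) := by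
    have : 0 ≤ N0 * (A * (N : ℝ) ^ (1 - c)) := by positivity
    nlinarith
  exact (add_le_add (add_le_add t1 t2) t3).trans hfin

theorem psi_gen (E : Eng d 𝒢) {k : ℕ} (hk : 1 ≤ k) {α : ℝ} (hα : Dioph α) : ∃ C c : ℝ, 0 ≤ C ∧ 0 < c ∧ c < 1 ∧
    ∀ (N : ℕ) (A : ℝ) (G : ℕ → ℝ), 1 ≤ N → 𝒢 N A G → ∀ P : ℝ[X], P.natDegree ≤ k + 1 →
      P.coeff (k + 1) = α → |∑ n ∈ Icc 1 N, G n * psi (P.eval (n : ℝ))| ≤ C * A * (N : ℝ) ^ (1 - c) := by
  obtain ⟨C, c, hC, hc, hc1, H⟩ := psi_gen0 E hk hα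
  refine ⟨3 * C, c, by positivity, hc, hc1, fun N A G hN hG P hP hPc => ?_⟩
  have hb := E.bdd N A G hG
  have h1 := H N A _ hN (E.half N A G hG) (fun x => by have := (abs_le.1 (hb x)).1; show 0 ≤ (1 + G x) / 2; linarith) P hP hPc
  have h2 := H N A (fun _ => 1) hN (E.unit N A G hG) (fun x => by norm_num) P hP hPc
  have e2 : ∑ n ∈ Icc 1 N, G n * psi (P.eval (n : ℝ)) = 2 * ∑ n ∈ Icc 1 N, (1 + G n) / 2 * psi (P.eval (n : ℝ))
      - ∑ n ∈ Icc 1 N, 1 * psi (P.eval (n : ℝ)) := by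
    rw [mul_sum, ← sum_sub_distrib]
    apply sum_congr rfl
    intro n _; ring
  rw [e2]
  refine (abs_sub _ _).trans ?_
  rw [abs_mul, abs_two]
  linarith

open Classical in
/-- DISCREPANCY of polynomials, weighted by `G` -/
theorem disc_gen (E : Eng d 𝒢) {k : ℕ} (hk : 1 ≤ k) {α : ℝ} (hα : Dioph α) : ∃ C c : ℝ, 0 ≤ C ∧ 0 < c ∧ c < 1 ∧
    ∀ (N : ℕ) (A : ℝ) (G : ℕ → ℝ), 1 ≤ N → 𝒢 N A G → ∀ P : ℝ[X], P.natDegree ≤ k + 1 →
      P.coeff (k + 1) = α → ∀ u v : ℝ, 0 ≤ u → u ≤ v → v ≤ 1 →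
      |∑ n ∈ (Icc 1 N).filter (fun n : ℕ => u ≤ Int.fract (P.eval (n : ℝ)) ∧ Int.fract (P.eval (n : ℝ)) < v), G n
        - (v - u) * ∑ n ∈ Icc 1 N, G n| ≤ C * A * (N : ℝ) ^ (1 - c) := by
  obtain ⟨C, c, hC, hc, hc1, H⟩ := psi_gen E hk hα
  refine ⟨2 * C, c, by positivity, hc, hc1, fun N A G hN hG P hP hPc u v hu huv hv => ?_⟩
  have hsub : ∀ w : ℝ, |∑ n ∈ Icc 1 N, G n * psi (P.eval (n : ℝ) - w)| ≤ C * A * (N : ℝ) ^ (1 - c) := by
    intro w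
    have h1 : (P - Polynomial.C w).natDegree ≤ k + 1 := by
      refine (natDegree_sub_le _ _).trans ?_
      rw [natDegree_C]
      omega
    have h2 : (P - Polynomial.C w).coeff (k + 1) = α := by
      rw [coeff_sub, coeff_C, if_neg (by omega), sub_zero]; exact hPc
    have h3 := H N A G hN hG _ h1 h2
    simpa using h3
  have e1 : ∑ n ∈ (Icc 1 N).filter (fun n : ℕ => u ≤ Int.fract (P.eval (n : ℝ)) ∧ Int.fract (P.eval (n : ℝ)) < v), G n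
      - (v - u) * ∑ n ∈ Icc 1 N, G n
      = ∑ n ∈ Icc 1 N, G n * psi (P.eval (n : ℝ) - v) - ∑ n ∈ Icc 1 N, G n * psi (P.eval (n : ℝ) - u) := by
    rw [sum_filter, mul_sum, ← sum_sub_distrib, ← sum_sub_distrib]
    apply sum_congr rfl
    intro n _
    have h1 := fract_ind hu huv hv (P.eval (n : ℝ))
    have h2 : (if u ≤ Int.fract (P.eval (n : ℝ)) ∧ Int.fract (P.eval (n : ℝ)) < v then G n else 0)
        = G n * (if u ≤ Int.fract (P.eval (n : ℝ)) ∧ Int.fract (P.eval (n : ℝ)) < v then (1 : ℝ) else 0) := by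
      rw [mul_ite, mul_one, mul_zero]
    rw [h2, h1]; ring
  rw [e1]
  refine (abs_sub _ _).trans ?_
  have h1 := hsub v
  have h2 := hsub u
  linarith

open Pool.Agent.H319R3.GC in
/-- THE ENGINE for generalised Collatz maps with given multipliers -/
theorem eng_maps {m r : ℕ → ℤ} (h0 : Adm d m r) : Eng d (fun N A G => ∃ (r' : ℕ → ℤ) (s : ℤ) (F : ℤ → ℝ),
    Adm d m r' ∧ (s = 1 ∨ s = -1) ∧ SyncK d m r' N F ∧ A = 1 + ∑ i ∈ range d, |(r' i : ℝ)| ∧ ∀ n : ℕ, G n = F (s * n)) := by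
  refine ⟨h0.two_le, ?_, ?_, ?_, ?_, ?_⟩
  · rintro N A G ⟨r', s, F, -, -, -, rfl, -⟩
    have : 0 ≤ ∑ i ∈ range d, |(r' i : ℝ)| := sum_nonneg fun _ _ => abs_nonneg _
    linarith
  · rintro N A G ⟨r', s, F, -, -, hF, -, hG⟩ n
    rw [hG]; exact hF.1 _
  · rintro N A G ⟨r', s, F, h, hs, hF, hA, hG⟩
    refine ⟨r', s, fun x => (1 + F x) / 2, h, hs, ⟨fun x => ?_, fun k x y h1 h2 h3 h4 h5 => ?_⟩, hA, fun n => by simp only [hG]⟩
    · have := abs_le.1 (hF.1 x)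
      rw [abs_le]; constructor <;> linarith [this.1, this.2]
    · simp only; rw [hF.2 k x y h1 h2 h3 h4 h5]
  · rintro N A G ⟨r', s, F, h, hs, hF, hA, hG⟩
    exact ⟨r', s, fun _ => 1, h, hs, ⟨fun x => by simp, fun _ _ _ _ _ _ _ _ => rfl⟩, hA, fun n => rfl⟩
  · intro a c C ha hc hc1 hC
    obtain ⟨K, b, hK, hb, H⟩ := engine h0 ha hc hc1 hC
    refine ⟨K, b, hK, hb, ?_⟩
    rintro N A G z hN ⟨r', s, F, h, hs, hF, rfl, hG⟩ hz1 hz
    have h1 := H r' h s hs N hN F hF z hz1 hz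
    simp only [hG]
    exact h1

end Pool.Agent.X266.CD
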