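import Pool.Agent.Y965.GP.Par
import Pool.Agent.Y55.DS.Param

/-! Dispersion for generalised Collatz maps, one multiplier at a time, with constants which depend on the
multipliers only. -/

set_option autoImplicit false

namespace Pool.Agent.X266.CD

open Finset Pool.Agent.H319R3.GC Pool.Agent.Y965.PS Pool.Agent.Y965.GP

variable {d : ℕ} {m r : ℕ → ℤ}

open Classical in
/-- the parameters depend on the multipliers only -/
theorem params (h0' : Adm d m r) : ∃ σ ρ C0 lam : ℝ, 0 < σ ∧ σ < 1 ∧ 0 < ρ ∧ ρ ≤ σ ∧ 0 ≤ C0 ∧ 0 < lam ∧ lam ≤ 1 ∧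
    ∀ r' : ℕ → ℤ, Adm d m r' → ∀ s : ℤ, (s = 1 ∨ s = -1) → ∀ (k N : ℕ) (R : ℝ), d ^ k ≤ N → 1 ≤ R →
      ∀ S' : Finset ℕ, (∀ n ∈ S', (1 ≤ n ∧ n ≤ N) ∧ ¬ Gd d m r' ρ R s k n) →
        (S'.card : ℝ) ≤ 2 * N * (σ ^ k + C0 * (∑ i ∈ range d, |(r' i : ℝ)| ^ lam) * R ^ (-lam)) := by
  obtain ⟨lam, h0, h1, hS⟩ := exists_lam h0'
  have hd : (0 : ℝ) < d := by have := h0'.two_le; positivity
  have hd1 : (1 : ℝ) ≤ d := by have := h0'.two_le; exact_mod_cast (by omega : 1 ≤ d)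
  have hpos : ∀ i ∈ range d, 0 < |(m i : ℝ)| := by
    intro i hi
    rw [abs_pos]
    exact_mod_cast m_ne h0' (mem_range.1 hi)
  set S := ∑ i ∈ range d, |(m i : ℝ)| ^ lam with hSdef
  set D := (d : ℝ) * (d : ℝ) ^ lam with hD
  have hDS : 0 < D - S := sub_pos.2 hS
  have hD0 : 0 < D := by positivity
  have hS0 : 0 < S := by
    apply Finset.sum_pos (fun i hi => Real.rpow_pos_of_pos (hpos i hi) _)
    rw [nonempty_range_iff]
    have := h0'.two_le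
    omega
  set σ := Real.sqrt (S / D) with hσ
  have hq0 : 0 < S / D := by positivity
  have hq1 : S / D < 1 := (div_lt_one hD0).2 hS
  have hσ0 : 0 < σ := Real.sqrt_pos.2 hq0
  have hσ2 : σ ^ 2 = S / D := Real.sq_sqrt hq0.le
  have hσ1 : σ < 1 := by nlinarith
  set ρ := σ ^ (1 / lam) with hρ
  have hρ0 : 0 < ρ := Real.rpow_pos_of_pos hσ0 _
  have hρl : ρ ^ lam = σ := by
    rw [hρ, ← Real.rpow_mul hσ0.le, one_div, inv_mul_cancel₀ h0.ne', Real.rpow_one]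
  have hρσ : ρ ≤ σ := by
    calc ρ ≤ σ ^ (1 : ℝ) := Real.rpow_le_rpow_of_exponent_ge hσ0 hσ1.le (by rw [le_div_iff₀ h0]; linarith)
      _ = σ := Real.rpow_one _
  refine ⟨σ, ρ, 1 / (D - S), lam, hσ0, hσ1, hρ0, hρσ, by positivity, h0, h1, ?_⟩
  intro r' h s hs k N R hkN hR
  set A := ∑ i ∈ range d, |(r' i : ℝ)| ^ lam with hA
  have hA0 : 0 ≤ A := Finset.sum_nonneg fun i _ => Real.rpow_nonneg (abs_nonneg _) _
  have hdk : (1 : ℝ) ≤ (d : ℝ) ^ k := one_le_pow₀ hd1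
  intro S' hS'
  have eA : 1 / (D - S) * A = A / (D - S) := by ring
  rw [eA]
  refine bad_le h hs hkN (fun w => ¬ (|(Mw m w : ℝ)| ≤ (ρ * d) ^ k ∧ |(Ww d m r' w : ℝ)| ≤ R * (d : ℝ) ^ k)) ?_ S' hS'
  -- the two kinds of bad words
  have c1 : (((LW d k).filter fun w => ¬ |(Mw m w : ℝ)| ≤ (ρ * d) ^ k).card : ℝ) ≤ (d : ℝ) ^ k * σ ^ k := by
    have m1 := markov_w (d := d) k (fun w => (Mw m w : ℝ)) h0 (T := (ρ * d) ^ k) (by positivity)
    rw [sum_Mw_rpow, ← hSdef] at m1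
    have e1 : ((ρ * (d : ℝ)) ^ k) ^ lam = (σ * (d : ℝ) ^ lam) ^ k := by
      rw [← Real.rpow_natCast, ← Real.rpow_mul (by positivity), mul_comm (k : ℝ) lam, Real.rpow_mul (by positivity),
        Real.rpow_natCast, Real.mul_rpow hρ0.le hd.le, hρl]
    rw [e1] at m1
    have e2 : S ^ k = ((d : ℝ) ^ k * σ ^ k) * (σ * (d : ℝ) ^ lam) ^ k := by
      rw [← mul_pow, ← mul_pow]
      congr 1
      have : S = D * σ ^ 2 := by rw [hσ2]; field_simp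
      rw [this, hD]; ring
    rw [e2] at m1
    exact le_of_mul_le_mul_right m1 (by positivity)
  have c2 : (((LW d k).filter fun w => ¬ |(Ww d m r' w : ℝ)| ≤ R * (d : ℝ) ^ k).card : ℝ) ≤ (d : ℝ) ^ k * (A / (D - S) * R ^ (-lam)) := by
    have m1 := markov_w (d := d) k (fun w => (Ww d m r' w : ℝ)) h0 (T := R * (d : ℝ) ^ k) (by positivity)
    have m2 := m1.trans (sum_Ww_rpow h0 h1 hS k)
    rw [← hSdef, ← hD, ← hA] at m2
    have e1 : (R * (d : ℝ) ^ k) ^ lam = R ^ lam * ((d : ℝ) ^ lam) ^ k := by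
      rw [Real.mul_rpow (by linarith) (by positivity)]
      congr 1
      rw [← Real.rpow_natCast, ← Real.rpow_mul hd.le, mul_comm (k : ℝ) lam, Real.rpow_mul hd.le, Real.rpow_natCast]
    rw [e1] at m2
    have hRl : 0 < R ^ lam := Real.rpow_pos_of_pos (by linarith) _
    have e2 : A * (D ^ k - S ^ k) / (D - S) ≤ ((d : ℝ) ^ k * (A / (D - S) * R ^ (-lam))) * (R ^ lam * ((d : ℝ) ^ lam) ^ k) := by
      have e3 : ((d : ℝ) ^ k * (A / (D - S) * R ^ (-lam))) * (R ^ lam * ((d : ℝ) ^ lam) ^ k) = A * D ^ k / (D - S) := by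
        rw [Real.rpow_neg (by linarith), hD, mul_pow]
        field_simp
      rw [e3]
      apply div_le_div_of_nonneg_right _ hDS.le
      apply mul_le_mul_of_nonneg_left _ hA0
      have : 0 ≤ S ^ k := by positivity
      linarith
    exact le_of_mul_le_mul_right (m2.trans e2) (by positivity)
  have hsub : ((LW d k).filter fun w => ¬ (|(Mw m w : ℝ)| ≤ (ρ * d) ^ k ∧ |(Ww d m r' w : ℝ)| ≤ R * (d : ℝ) ^ k)) ⊆
      ((LW d k).filter fun w => ¬ |(Mw m w : ℝ)| ≤ (ρ * d) ^ k) ∪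
        ((LW d k).filter fun w => ¬ |(Ww d m r' w : ℝ)| ≤ R * (d : ℝ) ^ k) := by
    intro w hw
    rw [mem_filter] at hw
    rw [mem_union, mem_filter, mem_filter]
    by_contra hcon
    push Not at hcon
    exact hw.2 ⟨hcon.1 hw.1, hcon.2 hw.1⟩
  have h3 := (card_le_card hsub).trans (card_union_le _ _)
  have h4 : (((LW d k).filter fun w => ¬ (|(Mw m w : ℝ)| ≤ (ρ * d) ^ k ∧ |(Ww d m r' w : ℝ)| ≤ R * (d : ℝ) ^ k)).card : ℝ) ≤
      (((LW d k).filter fun w => ¬ |(Mw m w : ℝ)| ≤ (ρ * d) ^ k).card : ℝ) +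
        (((LW d k).filter fun w => ¬ |(Ww d m r' w : ℝ)| ≤ R * (d : ℝ) ^ k).card : ℝ) := by exact_mod_cast h3
  have h5 : (((LW d k).filter fun w => ¬ (|(Mw m w : ℝ)| ≤ (ρ * d) ^ k ∧ |(Ww d m r' w : ℝ)| ≤ R * (d : ℝ) ^ k)).card : ℝ) ≤
      (d : ℝ) ^ k * (σ ^ k + A / (D - S) * R ^ (-lam)) := by
    rw [mul_add]
    exact h4.trans (add_le_add c1 c2)
  have h6 : ∀ (i1 i2 : DecidablePred fun w : List ℕ => ¬ (|(Mw m w : ℝ)| ≤ (ρ * d) ^ k ∧ |(Ww d m r' w : ℝ)| ≤ R * (d : ℝ) ^ k)),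
      (@Finset.filter _ (fun w : List ℕ => ¬ (|(Mw m w : ℝ)| ≤ (ρ * d) ^ k ∧ |(Ww d m r' w : ℝ)| ≤ R * (d : ℝ) ^ k)) i1 (LW d k)).card
        = (@Finset.filter _ (fun w : List ℕ => ¬ (|(Mw m w : ℝ)| ≤ (ρ * d) ^ k ∧ |(Ww d m r' w : ℝ)| ≤ R * (d : ℝ) ^ k)) i2 (LW d k)).card := by
    intro i1 i2
    congr!
  rw [h6 _ _] at h5
  exact h5

/-- the good integers with the multiplier `M` -/
def GdM (d : ℕ) (m r : ℕ → ℤ) (ρ R : ℝ) (s : ℤ) (k : ℕ) (M : ℤ) (n : ℕ) : Prop :=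
  Gd d m r ρ R s k n ∧ Mw m (wd d m r k (s * n)) = M

theorem gdM_shift (h : 2 ≤ d) (ρ R : ℝ) (s : ℤ) (k : ℕ) (M : ℤ) (n v : ℕ) :
    GdM d m r ρ R s k M (n + d ^ k * v) ↔ GdM d m r ρ R s k M n := by
  unfold GdM
  rw [gd_shift h, wd_s h]

theorem small_fine (h : Adm d m r) {ρ R : ℝ} {s : ℤ} (hs : s = 1 ∨ s = -1) {k n u : ℕ} {M : ℤ}
    (h1 : GdM d m r ρ R s k M n) (h2 : GdM d m r ρ R s k M (n + u)) (hk : key d m r s k n = key d m r s k (n + u)) :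
    |(M : ℝ)| * u ≤ 2 * R * (d : ℝ) ^ k := by
  unfold key at hk
  rw [Prod.mk.injEq] at hk
  have e1 := iter_eq h k (s * n)
  have e2 := iter_eq h k (s * ((n + u : ℕ) : ℤ))
  rw [← hk.1, ← hk.2] at e2
  have e3 : Mw m (wd d m r k (s * n)) * (s * u) = Ww d m r (wd d m r k (s * ((n + u : ℕ) : ℤ))) - Ww d m r (wd d m r k (s * n)) := by
    have e4 : s * ((n + u : ℕ) : ℤ) = s * n + s * u := by push_cast; ring
    rw [e4] at e2 ⊢
    linear_combination e1 - e2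
  have e5 : |(Mw m (wd d m r k (s * n)) : ℝ)| * u =
      |(Ww d m r (wd d m r k (s * ((n + u : ℕ) : ℤ))) : ℝ) - Ww d m r (wd d m r k (s * n))| := by
    have e6 : ((Mw m (wd d m r k (s * n)) * (s * u) : ℤ) : ℝ) = ((Ww d m r (wd d m r k (s * ((n + u : ℕ) : ℤ))) - Ww d m r (wd d m r k (s * n)) : ℤ) : ℝ) := by
      rw [e3]
    push_cast at e6 ⊢
    rw [← e6, abs_mul, abs_mul]
    have e7 : |(s : ℝ)| = 1 := by rcases hs with rfl | rfl <;> simp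
    rw [e7, one_mul, Nat.abs_cast]
  have e8 := abs_sub (Ww d m r (wd d m r k (s * ((n + u : ℕ) : ℤ))) : ℝ) (Ww d m r (wd d m r k (s * n)))
  rw [h1.2] at e5
  have a1 := h1.1.2
  have a2 := h2.1.2
  linarith

theorem value_fine (h : Adm d m r) {ρ R : ℝ} {s : ℤ} (hs : s = 1 ∨ s = -1) {k n N : ℕ} {M : ℤ} (hn : n ≤ N)
    (h1 : GdM d m r ρ R s k M n) : |((key d m r s k n).1 : ℝ)| ≤ N * |(M : ℝ)| / (d : ℝ) ^ k + R := by
  have hd : (0 : ℝ) < d := by have := h.two_le; positivity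
  have hdk : (0 : ℝ) < (d : ℝ) ^ k := by positivity
  have e1 := iter_eq h k (s * n)
  have e2 : (d : ℝ) ^ k * |(((Tm d m r)^[k] (s * n) : ℤ) : ℝ)| =
      |(Mw m (wd d m r k (s * n)) : ℝ) * (s * n) - Ww d m r (wd d m r k (s * n))| := by
    have e3 : (((d : ℤ) ^ k * (Tm d m r)^[k] (s * n) : ℤ) : ℝ) = ((Mw m (wd d m r k (s * n)) * (s * n) - Ww d m r (wd d m r k (s * n)) : ℤ) : ℝ) := by
      rw [e1]
    push_cast at e3 ⊢
    rw [← e3, abs_mul, abs_of_pos (by positivity : (0 : ℝ) < (d : ℝ) ^ k)]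
  have e4 := abs_sub ((Mw m (wd d m r k (s * n)) : ℝ) * (s * n)) (Ww d m r (wd d m r k (s * n)))
  have e7 : |(s : ℝ)| = 1 := by rcases hs with rfl | rfl <;> simp
  rw [abs_mul, abs_mul (s : ℝ), e7, one_mul, Nat.abs_cast] at e4
  have e5 : |(Mw m (wd d m r k (s * n)) : ℝ)| * n ≤ |(M : ℝ)| * N := by
    have : (n : ℝ) ≤ N := by exact_mod_cast hn
    rw [h1.2]
    exact mul_le_mul_of_nonneg_left this (abs_nonneg _)
  have e6 : (d : ℝ) ^ k * |(((Tm d m r)^[k] (s * n) : ℤ) : ℝ)| ≤ (d : ℝ) ^ k * (N * |(M : ℝ)| / (d : ℝ) ^ k + R) := by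
    have e8 : (d : ℝ) ^ k * (N * |(M : ℝ)| / (d : ℝ) ^ k + R) = |(M : ℝ)| * N + R * (d : ℝ) ^ k := by field_simp
    rw [e8, e2]
    linarith [h1.1.2]
  exact le_of_mul_le_mul_left e6 (by positivity)

/-- THE KEY, for one multiplier -/
theorem kdM (h : Adm d m r) {ρ R : ℝ} (hρ0 : 0 ≤ ρ) (hρ1 : ρ ≤ 1) (hR : 1 ≤ R) {s : ℤ} (hs : s = 1 ∨ s = -1) {k N : ℕ}
    {M : ℤ} (hM : M ≠ 0) (hMr : |(M : ℝ)| ≤ (ρ * d) ^ k) :
    KD N (d ^ k) (2 * R * (d : ℝ) ^ k / |(M : ℝ)|) (2 * (N * |(M : ℝ)| / (d : ℝ) ^ k + R) + 1) N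
      (GdM d m r ρ R s k M) (key d m r s k) := by
  have hd1 : (1 : ℝ) ≤ d := by have := h.two_le; exact_mod_cast (by omega : 1 ≤ d)
  have hdk : (0 : ℝ) < (d : ℝ) ^ k := by positivity
  have hM0 : 0 < |(M : ℝ)| := abs_pos.2 (by exact_mod_cast hM)
  have hMd : |(M : ℝ)| ≤ (d : ℝ) ^ k := by
    refine hMr.trans ?_
    apply pow_le_pow_left₀ (by positivity)
    nlinarith
  refine ⟨?_, ?_, ?_, ?_, ?_, ?_, ?_⟩
  · have := h.two_le
    exact Nat.one_le_pow _ _ (by omega)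
  · rw [le_div_iff₀ hM0]; nlinarith
  · intro n v
    exact gdM_shift h.two_le ρ R s k M n v
  · intro n u v g1 g2
    have e : n + d ^ k * v + u = (n + u) + d ^ k * v := by ring
    rw [e, key_shift h, key_shift h]
    constructor
    · intro hk
      rw [Prod.mk.injEq] at hk
      obtain ⟨a1, a2⟩ := hk
      rw [a2] at a1
      ext
      · linarith
      · exact a2
    · intro hk
      rw [hk]
  · intro n u g1 g2 hk
    rw [le_div_iff₀ hM0, mul_comm]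
    exact small_fine h hs g1 g2 hk
  · intro S' hS'
    set V : ℝ := N * |(M : ℝ)| / (d : ℝ) ^ k + R with hV
    have hV0 : 0 ≤ V := by positivity
    have hsub : S'.image (key d m r s k) ⊆ (Icc (-⌊V⌋) ⌊V⌋) ×ˢ {M} := by
      intro p hp
      rw [mem_image] at hp
      obtain ⟨n, hn, rfl⟩ := hp
      obtain ⟨hn1, hn2⟩ := hS' n hn
      have h2 := value_fine h hs hn1 hn2
      rw [← hV] at h2
      have h3 := abs_le.1 h2
      rw [mem_product, mem_Icc, mem_singleton]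
      refine ⟨⟨?_, Int.le_floor.2 h3.2⟩, hn2.2⟩
      have h4 : -(key d m r s k n).1 ≤ ⌊V⌋ := by
        apply Int.le_floor.2
        push_cast
        linarith [h3.1]
      linarith
    have h1 := card_le_card hsub
    rw [card_product, Int.card_Icc, card_singleton, mul_one] at h1
    have h3 : (((⌊V⌋ + 1 - -⌊V⌋).toNat : ℕ) : ℝ) ≤ 2 * V + 1 := by
      have h4 : 0 ≤ ⌊V⌋ := Int.floor_nonneg.2 hV0
      have h5 : (((⌊V⌋ + 1 - -⌊V⌋).toNat : ℤ) : ℝ) = ((⌊V⌋ + 1 - -⌊V⌋ : ℤ) : ℝ) := by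
        rw [Int.toNat_of_nonneg (by omega)]
      have h6 : (((⌊V⌋ + 1 - -⌊V⌋).toNat : ℕ) : ℝ) = ((⌊V⌋ + 1 - -⌊V⌋ : ℤ) : ℝ) := by exact_mod_cast h5
      rw [h6]
      push_cast
      have := Int.floor_le V
      linarith
    have h7 : ((S'.image (key d m r s k)).card : ℝ) ≤ ((⌊V⌋ + 1 - -⌊V⌋).toNat : ℝ) := by
      exact_mod_cast h1
    exact h7.trans h3
  · intro S' hS'
    have h1 : S' ⊆ Icc 1 N := fun n hn => mem_Icc.2 (hS' n hn).1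
    have h2 := card_le_card h1
    rw [Nat.card_Icc, Nat.add_sub_cancel] at h2
    exact_mod_cast h2

/-- small correlations on average, along progressions whose difference is a power of `d` -/
def CorrN (d : ℕ) (a c C : ℝ) (N : ℕ) (z : ℕ → ℂ) : Prop :=
  ∀ k : ℕ, (d : ℝ) ^ k ≤ (N : ℝ) ^ a → ∃ β : ℕ → ℝ, (∀ h, 0 ≤ β h) ∧
    (∀ h : ℕ, 1 ≤ h → (h : ℝ) ≤ (N : ℝ) ^ a → ∀ m0 J : ℕ, (N : ℝ) ^ (1 / 2 : ℝ) < m0 →
      (∀ j < J, m0 + d ^ k * j + h ≤ N) →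
      ‖∑ j ∈ range J, z (m0 + d ^ k * j) * (starRingEnd ℂ) (z (m0 + d ^ k * j + h))‖ ≤ β h) ∧
    ∀ X : ℝ, 1 ≤ X → X ≤ (N : ℝ) ^ a → (d : ℝ) ^ k * ∑ h ∈ Icc 1 ⌊X⌋₊, β h ≤ C * N * X ^ (1 - c)

/-- bounded functions which have the same value at large `x`, `y` with the same point and the same multiplier
at the same time `k`, `d ^ k ≤ N ^ (1 / 16)` -/
def SyncK (d : ℕ) (m r : ℕ → ℤ) (N : ℕ) (F : ℤ → ℝ) : Prop :=
  (∀ x, |F x| ≤ 1) ∧ ∀ (k : ℕ) (x y : ℤ), (d : ℝ) ^ k ≤ (N : ℝ) ^ (1 / 16 : ℝ) → (N : ℝ) ^ (1 / 2 : ℝ) < |(x : ℝ)| →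
    (N : ℝ) ^ (1 / 2 : ℝ) < |(y : ℝ)| → (Tm d m r)^[k] x = (Tm d m r)^[k] y →
    Mw m (wd d m r k x) = Mw m (wd d m r k y) → F x = F y

theorem poly_geom (D : ℕ) {q : ℝ} (hq0 : 0 ≤ q) (hq1 : q < 1) : ∃ C : ℝ, 0 ≤ C ∧ ∀ k : ℕ, ((k : ℝ) + 1) ^ D * q ^ k ≤ C := by
  have h1 := tendsto_pow_const_mul_const_pow_of_abs_lt_one D (r := q) (by rw [abs_of_nonneg hq0]; exact hq1)
  obtain ⟨B, hB⟩ := h1.bddAbove_range
  have hB' : ∀ k : ℕ, (k : ℝ) ^ D * q ^ k ≤ B := fun k => hB ⟨k, rfl⟩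
  refine ⟨2 ^ D * (|B| + 1), by positivity, fun k => ?_⟩
  rcases Nat.eq_zero_or_pos k with h0 | h0
  · subst h0
    have : (1 : ℝ) ≤ 2 ^ D := one_le_pow₀ (by norm_num)
    have h2 := abs_nonneg B
    simp
    nlinarith
  · have hk : (1 : ℝ) ≤ k := by exact_mod_cast h0
    have h2 : ((k : ℝ) + 1) ^ D ≤ (2 * k) ^ D := pow_le_pow_left₀ (by positivity) (by linarith) D
    calc ((k : ℝ) + 1) ^ D * q ^ k ≤ (2 * k) ^ D * q ^ k := by gcongr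
      _ = 2 ^ D * ((k : ℝ) ^ D * q ^ k) := by rw [mul_pow]; ring
      _ ≤ 2 ^ D * (|B| + 1) := by
        apply mul_le_mul_of_nonneg_left _ (by positivity)
        linarith [hB' k, le_abs_self B]

end Pool.Agent.X266.CD
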