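import Pool.Agent.X266.CD.Vis
import Pool.Agent.H499R2.NDCor3

/-! The maps `3x+k`: laws of the first visits, invariant sets and predecessors in classes. -/

set_option autoImplicit false

namespace Pool.Agent.X266.CD

open Finset Filter Topology Pool.Agent.H319R3.GC Pool.Agent.Y55.DS Polynomial Pool.Agent.Y965.PL
open Pool.Agent.Y965.PS (Tz ac ac_succ)
open Pool.Agent.H499R2.ND (Phi Phi_continuous Dn Td Inv dens_side class_pos HD_ncard cop_of_not_dvd)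

def LvK (k s : ℤ) (S : Finset ℤ) (m : ℕ) (κ ω : ℤ) (t : ℕ → ℝ) (n : ℕ) : Prop :=
  ∃ j : ℕ, FVis k S j (s * n) ∧ (j : ℝ) ≤ t n ∧ (j : ℤ) ≡ κ [ZMOD m] ∧ (ac k j (s * n) : ℤ) ≡ ω [ZMOD m]

open Classical in
theorem LvK_Fv (k s : ℤ) (S : Finset ℤ) (m : ℕ) (κ ω : ℤ) (t : ℝ) : ind (LvK k s S m κ ω (fun _ => t)) =
    fun n : ℕ => Fv k S (fun j o _ => if (j : ℝ) ≤ t ∧ (j : ℤ) ≡ κ [ZMOD m] ∧ (o : ℤ) ≡ ω [ZMOD m] then 1 else 0) 0
      (s * n) := by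
  funext n
  by_cases h : ∃ j, FVis k S j (s * n)
  · obtain ⟨j, hj⟩ := h
    rw [Fv_pos hj]
    split_ifs with h1
    · exact ind_pos ⟨j, hj, h1⟩
    · apply ind_neg
      rintro ⟨j', hj', h2⟩
      rw [FVis_unique hj' hj] at h2
      exact h1 h2
  · rw [Fv_neg h]
    apply ind_neg
    rintro ⟨j, hj, _⟩
    exact h ⟨j, hj⟩

theorem od_acK (k : ℤ) (j : ℕ) : ∀ x : ℤ, Pool.Agent.H499R2.LT.od k j x = (ac k j x : ℤ) := by
  induction j with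
  | zero => intro x; rfl
  | succ j ih =>
    intro x
    rw [ac_front]
    show (if x % 2 = 0 then (0 : ℤ) else 1) + Pool.Agent.H499R2.LT.od k j (Td k x) = _
    rw [ih]
    have : Td k x = Tz k x := rfl
    rw [this]
    push_cast
    split_ifs <;> simp

/-- the natural laws of the first visits -/
theorem natVK {k : ℤ} (hk : k % 2 = 1) (hk3 : ¬ (3 : ℤ) ∣ k) {s : ℤ} (hs : s = 1 ∨ s = -1) (S : Finset ℤ) {δ : ℝ}
    (hδ : Dn (fun n : ℕ => ∃ j : ℕ, (Tz k)^[j] (s * n) ∈ S) δ) (m : ℕ) (κ ω : ℤ) (hm : 1 ≤ m) (x : ℝ) :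
    Mn (ind (LvK k s S m κ ω (th (2 / Real.log (4 / 3)) bK x))) (δ / m ^ 2 * Phi x) := by
  obtain ⟨δ', _, _, h2, h3⟩ := Pool.Agent.H499R2.LT.joint_side (d := k) (Int.odd_iff.2 hk) hk3 hs S
  have e : δ' = δ := tendsto_nhds_unique h2 hδ
  rw [e] at h3
  refine Mn_of_Dn (Pool.Agent.H499R2.LT.Dn_iff (fun n hn => ?_) (h3 x m κ ω hm))
  unfold LvK
  refine exists_congr fun j => ?_
  rw [Pool.Agent.H499R2.LT.tb2 x n hn, od_acK]
  have e2 : th (2 / Real.log (4 / 3)) bK x n = 2 / Real.log (4 / 3) * Real.log n +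
      x * (Real.log 3 * Real.sqrt (2 * Real.log n / Real.log (4 / 3) ^ 3)) := by
    unfold bK
    rw [th_eq]
  rw [e2]
  unfold FVis
  constructor
  · rintro ⟨g1, g2, g3, g4⟩; exact ⟨g2, g1, g3, g4⟩
  · rintro ⟨g1, g2, g3, g4⟩; exact ⟨g2, g1, g3, g4⟩

/-- invariant functions -/
theorem TrK.invK {w v : ℕ → ℝ} {ρ C c : ℝ} (h : TrK w v ρ C c) {N : ℕ} (hN : 1 ≤ N) {k : ℤ} (hk : k % 2 = 1)
    {s : ℤ} (hs : s = 1 ∨ s = -1) {F : ℤ → ℝ} (hF1 : ∀ x, |F x| ≤ 1) (hF : ∀ x, F (Tz k x) = F x) :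
    Tr w v ρ (C * (1 + |(k : ℝ)|) * (N : ℝ) ^ (1 - c)) N (fun n => F (s * n)) := by
  have hit : ∀ (j : ℕ) (x : ℤ), F ((Tz k)^[j] x) = F x := by
    intro j
    induction j with
    | zero => intro x; rfl
    | succ j ih => intro x; rw [Function.iterate_succ_apply, ih, hF]
  refine h N hN k s F hk hs (syncK_syncG ⟨hF1, fun j x y hxy => ?_⟩ N)
  rw [← hit j x, hxy, hit]

/-- the law of the first visits in a class -/
theorem law_visK {k : ℤ} (hk : k % 2 = 1) (hk3 : ¬ (3 : ℤ) ∣ k) {s : ℤ} (hs : s = 1 ∨ s = -1) (S : Finset ℤ) {δ : ℝ}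
    (hδ : Dn (fun n : ℕ => ∃ j : ℕ, (Tz k)^[j] (s * n) ∈ S) δ) (m : ℕ) (κ ω : ℤ) (hm : 1 ≤ m) (x : ℝ)
    {ε : ℝ} (hε : 0 < ε) : ∃ N0 : ℕ, ∀ N : ℕ, N0 ≤ N → ∀ (w : ℕ → ℝ) (ρ C c : ℝ), (∀ n, 0 ≤ w n) → 0 ≤ ρ → 0 ≤ C →
      c ≤ 1 → TrK w (fun _ => 1) ρ C c →
      |∑ n ∈ Icc 1 N, w n * ind (LvK k s S m κ ω (th (2 / Real.log (4 / 3)) bK x)) n - ρ * (δ / m ^ 2 * Phi x * N)| ≤
        ε * ρ * N + 2 * (C * (1 + |(k : ℝ)|)) * (N : ℝ) ^ (1 - c) := by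
  classical
  have hν := nu_pos'
  obtain ⟨N0, h0⟩ := law_gen (L := LvK k s S m κ ω)
    (fun t t' n ht => by
      rintro ⟨j, g1, g2, g3⟩
      exact ⟨j, g1, g2.trans ht, g3⟩)
    (A := 2 / Real.log (4 / 3)) (b := bK) (by positivity) bK_pos (d := fun x => δ / m ^ 2 * Phi x)
    (Phi_continuous.const_mul _) (v := fun _ => 1) (fun n => ⟨zero_le_one, le_rfl⟩)
    (fun y => by simpa using natVK hk hk3 hs S hδ m κ ω hm y) x hε
  obtain ⟨N1, h1⟩ : ∃ N1 : ℕ, ∀ N : ℕ, N1 ≤ N → |(k : ℝ)| ≤ (N : ℝ) ^ (1 / 4 : ℝ) ∧ ∀ a ∈ S, |(a : ℝ)| ≤ (N : ℝ) ^ (1 / 4 : ℝ) := by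
    have hT : Tendsto (fun N : ℕ => (N : ℝ) ^ (1 / 4 : ℝ)) atTop atTop :=
      (tendsto_rpow_atTop (by norm_num)).comp tendsto_natCast_atTop_atTop
    obtain ⟨N1, h⟩ := (hT.eventually_ge_atTop (|(k : ℝ)| + ∑ a ∈ S, |(a : ℝ)|)).exists_forall_of_atTop
    refine ⟨N1, fun N hN => ⟨?_, fun a ha => ?_⟩⟩
    · have h3 : 0 ≤ ∑ a ∈ S, |(a : ℝ)| := sum_nonneg fun _ _ => abs_nonneg _
      linarith [h N hN]
    · have h3 := single_le_sum (f := fun a : ℤ => |(a : ℝ)|) (fun _ _ => abs_nonneg _) ha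
      have h4 := abs_nonneg (k : ℝ)
      beta_reduce at h3
      linarith [h N hN]
  have h1k : 1 ≤ |(k : ℝ)| := by
    have h1 : (1 : ℤ) ≤ |k| := Int.one_le_abs (by rintro rfl; simp at hk)
    exact_mod_cast h1
  refine ⟨max N0 (max N1 256), fun N hN w ρ C c hw hρ hC hc hT => ?_⟩
  have hNa : N0 ≤ N := (le_max_left _ _).trans hN
  have hNb : N1 ≤ N := (le_max_left _ _).trans ((le_max_right _ _).trans hN)
  have hNc : 256 ≤ N := (le_max_right _ _).trans ((le_max_right _ _).trans hN)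
  have h2 := h0 N hNa w ρ (C * (1 + |(k : ℝ)|) * (N : ℝ) ^ (1 - c)) hw hρ (fun M h4 h5 => by
    refine (hT.one h4).trans ?_
    refine le_trans ?_ (pow_le (by positivity) hc h5)
    have h6 : 0 ≤ (M : ℝ) ^ (1 - c) := by positivity
    apply mul_le_mul_of_nonneg_right _ h6
    nlinarith) (fun t => by
    rw [LvK_Fv]
    exact hT N (by omega) k s _ hk hs (syncK_Fv hk hNc (h1 N hNb).2 (h1 N hNb).1
      (fun j o a => by split_ifs <;> simp) (by simp)))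
  refine h2.trans (le_of_eq ?_)
  ring

/-- the density of the level sets of the first visits in a class -/
theorem dens_visK {k : ℤ} (hk : k % 2 = 1) (hk3 : ¬ (3 : ℤ) ∣ k) {s : ℤ} (hs : s = 1 ∨ s = -1) (S : Finset ℤ) {δ : ℝ}
    (hδ : Dn (fun n : ℕ => ∃ j : ℕ, (Tz k)^[j] (s * n) ∈ S) δ) (m : ℕ) (κ ω : ℤ) (hm : 1 ≤ m) (x : ℝ)
    {w : ℕ → ℝ} {ρ C c : ℝ} (hw : ∀ n, 0 ≤ w n) (hρ : 0 ≤ ρ) (hC : 0 ≤ C) (hc0 : 0 < c) (hc : c ≤ 1)
    (hT : TrK w (fun _ => 1) ρ C c) :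
    Mn (fun n => w n * ind (LvK k s S m κ ω (th (2 / Real.log (4 / 3)) bK x)) n) (ρ * (δ / m ^ 2 * Phi x)) := by
  have key : MnS (fun n => n) (fun n => w n * ind (LvK k s S m κ ω (th (2 / Real.log (4 / 3)) bK x)) n)
      (ρ * (δ / m ^ 2 * Phi x)) := by
    apply MnS_of
    intro ε hε _
    obtain ⟨N0, h⟩ := law_visK hk hk3 hs S hδ m κ ω hm x (show 0 < ε / (2 * (ρ + 1)) by positivity)
    filter_upwards [small_err (2 * (C * (1 + |(k : ℝ)|))) hc0 (show 0 < ε / 4 by positivity), eventually_ge_atTop N0]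
      with X h1 h2
    have h3 := h X h2 w ρ C c hw hρ hC hc hT
    have h6 : ε / (2 * (ρ + 1)) * ρ * X ≤ ε / 2 * X := by
      apply mul_le_mul_of_nonneg_right _ (Nat.cast_nonneg _)
      rw [div_mul_eq_mul_div, div_le_iff₀ (by positivity)]
      nlinarith
    have e : ρ * (δ / m ^ 2 * Phi x) * (X : ℝ) = ρ * (δ / m ^ 2 * Phi x * X) := by ring
    rw [e]
    have : 0 ≤ ε * X := by positivity
    linarith
  exact key

/-- the density of an invariant set in a class -/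
theorem dens_invK {k : ℤ} (hk : k % 2 = 1) {s : ℤ} (hs : s = 1 ∨ s = -1) {S : Set ℤ} (hS : ∀ x, x ∈ S ↔ Tz k x ∈ S)
    {δ : ℝ} (hδ : Dn (fun n : ℕ => s * (n : ℤ) ∈ S) δ) {w : ℕ → ℝ} {ρ C c : ℝ} (hc0 : 0 < c)
    (hT : TrK w (fun _ => 1) ρ C c) : Mn (fun n => w n * ind (fun n : ℕ => s * (n : ℤ) ∈ S) n) (ρ * δ) := by
  classical
  refine Tr_Mn (v := fun _ => 1) hc0 (C := C * (1 + |(k : ℝ)|)) (fun N hN => ?_) (by
    have := Mn_of_Dn hδ
    simpa using this)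
  have h1 := hT.invK hN hk hs (F := fun x => if x ∈ S then 1 else 0) (fun x => by split_ifs <;> simp) (fun x => by
    by_cases h : x ∈ S
    · rw [if_pos h, if_pos ((hS x).1 h)]
    · rw [if_neg h, if_neg fun h' => h ((hS x).2 h')])
  have e : (fun n : ℕ => (fun x : ℤ => if x ∈ S then (1 : ℝ) else 0) (s * n)) = ind (fun n : ℕ => s * (n : ℤ) ∈ S) := by
    funext n
    beta_reduce
    by_cases h : s * (n : ℤ) ∈ S
    · rw [if_pos h, ind_pos (P := fun n : ℕ => s * (n : ℤ) ∈ S) h]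
    · rw [if_neg h, ind_neg (P := fun n : ℕ => s * (n : ℤ) ∈ S) h]
  rw [e] at h1
  exact h1

theorem dn_ofH {s : ℤ} (hs : s = 1 ∨ s = -1) {S : Set ℤ} {δ : ℝ}
    (h : Tendsto (fun N : ℕ => ({n : ℤ | 0 < s * n ∧ s * n ≤ N ∧ n ∈ S}.ncard : ℝ) / N) atTop (𝓝 δ)) :
    Dn (fun n : ℕ => s * (n : ℤ) ∈ S) δ := by
  have hss : s * s = 1 := by rcases hs with rfl | rfl <;> rfl
  refine h.congr fun N => ?_
  unfold Pool.Agent.H499R2.ND.cnt
  congr 2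
  have : {n : ℤ | 0 < s * n ∧ s * n ≤ N ∧ n ∈ S}
      = (fun n : ℕ => s * (n : ℤ)) '' {n : ℕ | 1 ≤ n ∧ n ≤ N ∧ s * (n : ℤ) ∈ S} := by
    ext x
    rw [Set.mem_image]
    constructor
    · rintro ⟨h1, h2, h3⟩
      have e : s * (((s * x).toNat : ℕ) : ℤ) = x := by
        rw [Int.toNat_of_nonneg h1.le, ← mul_assoc, hss, one_mul]
      exact ⟨(s * x).toNat, ⟨by omega, by omega, by rw [e]; exact h3⟩, e⟩
    · rintro ⟨n, ⟨h1, h2, h3⟩, rfl⟩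
      have e : s * (s * (n : ℤ)) = n := by rw [← mul_assoc, hss, one_mul]
      exact ⟨by rw [e]; omega, by rw [e]; omega, h3⟩
  rw [this, Set.ncard_image_of_injective]
  intro a b hab
  rcases hs with rfl | rfl
  · simpa using hab
  · simpa using hab

/-- densities of the invariant sets -/
theorem inv_dens {k : ℤ} (hk : k % 2 = 1) (hk3 : ¬ (3 : ℤ) ∣ k) {s : ℤ} (hs : s = 1 ∨ s = -1) {S : Set ℤ}
    (hS : ∀ x, x ∈ S ↔ Tz k x ∈ S) : ∃ δ : ℝ, 0 ≤ δ ∧ δ ≤ 1 ∧ Dn (fun n : ℕ => s * (n : ℤ) ∈ S) δ ∧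
      ((∃ a ∈ S, 0 < s * a ∧ ¬ (3 : ℤ) ∣ a) → 0 < δ) := by
  have hInv : Inv k S := hS
  obtain ⟨δ, h0, h1, h2⟩ := dens_side (Int.odd_iff.2 hk) (cop_of_not_dvd hk3) hs hInv
  refine ⟨δ, h0, h1, dn_ofH hs (HD_ncard hs h2), ?_⟩
  rintro ⟨a, ha, ha1, ha3⟩
  exact class_pos (Int.odd_iff.2 hk) hk3 hs hInv ha ha1 ha3 h2

/-- classes which follow all integers are rich -/
theorem rich_of {E : ℕ → Prop} {ρ C c : ℝ} (hρ : 0 < ρ) (hC : 0 ≤ C) (hc0 : 0 < c) (hc1 : c ≤ 1)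
    (hT : TrK (ind E) (fun _ => 1) ρ C c) : Rich (fun _ => True) E 0 := by
  classical
  refine ⟨ρ, 2 * C, c, hρ, by positivity, hc0, ?_⟩
  intro k hk s hs X hX F hF hF0
  have key : ∀ N : ℕ, 1 ≤ N → N ≤ X → X / 2 ≤ N → |∑ n ∈ (Icc 1 N).filter E, F (s * n)
        - ρ * ∑ n ∈ (Icc 1 N).filter (fun _ => True), F (s * n)|
        ≤ C * (1 + |(k : ℝ)|) * (X : ℝ) ^ (1 - c) := by
    intro N hN1 hN2 hN3
    have h1 := hT N hN1 k s F hk hs (hF N hN3)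
    unfold Tr at h1
    rw [sum_wt, filter_true_of_mem (fun _ _ => trivial)]
    simp only [one_mul] at h1
    refine h1.trans ?_
    apply mul_le_mul_of_nonneg_left _ (by positivity)
    exact Real.rpow_le_rpow (Nat.cast_nonneg _) (by exact_mod_cast hN2) (by linarith)
  have k1 := (abs_le.1 (key X (by omega) le_rfl (Nat.div_le_self X 2))).1
  have k2 := (abs_le.1 (key (X / 2) (by omega) (Nat.div_le_self X 2) le_rfl)).2
  have g : ρ * ∑ n ∈ (Ioc (X / 2) X).filter (fun _ => True), F (s * n) ≤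
      ∑ n ∈ (Ioc (X / 2) X).filter E, F (s * n) + 2 * C * (1 + |(k : ℝ)|) * (X : ℝ) ^ (1 - c) := by
    rw [ioc_sum, ioc_sum]
    linarith
  rw [neg_zero, Real.rpow_zero, mul_one]
  convert g

/-- sets of positive density have many elements in rich sets -/
theorem rich_pos {E : ℕ → Prop} {ν : ℝ} (hR : Rich (fun _ => True) E ν) {k : ℤ} (hk : k % 2 = 1) {s : ℤ}
    (hs : s = 1 ∨ s = -1) {S : Set ℤ} (hS : ∀ x, x ∈ S ↔ Tz k x ∈ S) {d : ℝ} (hd : 0 < d)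
    (hδ : Dn (fun n : ℕ => s * (n : ℤ) ∈ S) d) :
    ¬ ∀ ε : ℝ, 0 < ε → ∃ᶠ X : ℕ in atTop, ∑ n ∈ Icc 1 X, ind E n * ind (fun n : ℕ => s * (n : ℤ) ∈ S) n ≤
      ε * (X : ℝ) ^ (1 - ν) := by
  classical
  intro hcon
  obtain ⟨ρ, C, b, hρ, hC, hb, HR⟩ := hR
  set F : ℤ → ℝ := fun x => if x ∈ S then 1 else 0 with hF
  have hF0 : ∀ x, 0 ≤ F x := fun x => by rw [hF]; beta_reduce; split_ifs <;> norm_num
  have hF1 : ∀ x, |F x| ≤ 1 := fun x => by rw [hF]; beta_reduce; split_ifs <;> simp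
  have hFT : ∀ x, F (Tz k x) = F x := fun x => by
    rw [hF]
    beta_reduce
    by_cases h : x ∈ S
    · rw [if_pos h, if_pos ((hS x).1 h)]
    · rw [if_neg h, if_neg fun h' => h ((hS x).2 h')]
  have hit : ∀ (j : ℕ) (x : ℤ), F ((Tz k)^[j] x) = F x := by
    intro j
    induction j with
    | zero => intro x; rfl
    | succ j ih => intro x; rw [Function.iterate_succ_apply, ih, hFT]
  have hFi : ∀ n : ℕ, F (s * n) = ind (fun n : ℕ => s * (n : ℤ) ∈ S) n := by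
    intro n
    by_cases h : s * (n : ℤ) ∈ S
    · rw [hF, ind_pos (P := fun n : ℕ => s * (n : ℤ) ∈ S) h]; exact if_pos h
    · rw [hF, ind_neg (P := fun n : ℕ => s * (n : ℤ) ∈ S) h]; exact if_neg h
  have hsync : ∀ N, SyncK 2 m3 (rk k) N F := fun N => syncK_syncG ⟨hF1, fun j x y hxy => by
    rw [← hit j x, hxy, hit]⟩ N
  have hM := Mn_of_Dn hδ
  obtain ⟨X, h1, h2, h2', h3, h4⟩ := ((hcon (ρ * d / 16) (by positivity)).and_eventually
    ((Mn_ev hM (show 0 < d / 16 by positivity)).and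
    (((Nat.tendsto_div_const_atTop (n := 2) two_ne_zero).eventually (Mn_ev hM (show 0 < d / 16 by positivity))).and
    ((small_err (C * (1 + |(k : ℝ)|)) (show 0 < b - ν by linarith) (show 0 < ρ * d / 8 by positivity)).and
    (eventually_ge_atTop 2))))).exists
  have hX : (0 : ℝ) < X := by exact_mod_cast (by omega : 0 < X)
  have h5 := HR k hk s hs X h4 F (fun N _ => hsync N) hF0
  have h6 : ∑ n ∈ (Ioc (X / 2) X).filter E, F (s * n) ≤
      ∑ n ∈ Icc 1 X, ind E n * ind (fun n : ℕ => s * (n : ℤ) ∈ S) n := by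
    rw [ioc_sum, sum_wt]
    simp only [hFi]
    have : 0 ≤ ∑ n ∈ (Icc 1 (X / 2)).filter E, ind (fun n : ℕ => s * (n : ℤ) ∈ S) n :=
      sum_nonneg fun n _ => ind_nonneg _ _
    linarith
  have h7 : d / 4 * X ≤ ∑ n ∈ (Ioc (X / 2) X).filter (fun _ => True), F (s * n) := by
    rw [ioc_sum, filter_true_of_mem (fun _ _ => trivial), filter_true_of_mem (fun _ _ => trivial)]
    simp only [hFi]
    have a1 := (abs_le.1 h2).1
    have a2 := (abs_le.1 h2').2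
    have a3 : ((X / 2 : ℕ) : ℝ) ≤ X / 2 := by
      have := Nat.cast_div_le (α := ℝ) (m := X) (n := 2)
      exact_mod_cast this
    nlinarith
  have e1 : (X : ℝ) ^ (-ν) * X = (X : ℝ) ^ (1 - ν) := by
    nth_rewrite 2 [← Real.rpow_one (X : ℝ)]
    rw [← Real.rpow_add hX]
    congr 1; ring
  have h8 : ρ * (X : ℝ) ^ (-ν) * (d / 4 * X) ≤ ρ * (X : ℝ) ^ (-ν) *
      ∑ n ∈ (Ioc (X / 2) X).filter (fun _ => True), F (s * n) := mul_le_mul_of_nonneg_left h7 (by positivity)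
  have e2 : ρ * (X : ℝ) ^ (-ν) * (d / 4 * X) = ρ * d / 4 * (X : ℝ) ^ (1 - ν) := by
    rw [← e1]; ring
  have e3 : C * (1 + |(k : ℝ)|) * (X : ℝ) ^ (1 - b) ≤ ρ * d / 8 * (X : ℝ) ^ (1 - ν) := by
    have e4 : (X : ℝ) ^ (1 - b) = (X : ℝ) ^ (-ν) * (X : ℝ) ^ (1 - (b - ν)) := by
      rw [← Real.rpow_add hX]; congr 1; ring
    have e5 := mul_le_mul_of_nonneg_left h3 (show 0 ≤ (X : ℝ) ^ (-ν) by positivity)
    rw [e4, ← e1]
    linarith
  have h9 : 0 < ρ * d * (X : ℝ) ^ (1 - ν) := by positivity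
  have h10 : ρ * (X : ℝ) ^ (-ν) * ∑ n ∈ (Ioc (X / 2) X).filter (fun _ => True), F (s * n) ≤
      ∑ n ∈ (Ioc (X / 2) X).filter E, F (s * n) + C * (1 + |(k : ℝ)|) * (X : ℝ) ^ (1 - b) := by
    convert h5
  linarith

/-- predecessors in rich sets -/
theorem predK {E : ℕ → Prop} {ν : ℝ} (hR : Rich (fun _ => True) E ν) {θ C : ℝ} (hθ : 0 < θ) :
    ∃ K : ℝ, 1 ≤ K ∧ ∀ (k : ℤ) (B : ℕ → Prop), k % 2 = 1 → ¬ (3 : ℤ) ∣ k →
      (∀ X : ℕ, 1 ≤ X → ∑ n ∈ Icc 1 X, ind E n * ind B n ≤ C * (X : ℝ) ^ (1 - ν - θ)) →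
      (∀ a : ℤ, a ≠ 0 → ¬ (3 : ℤ) ∣ a → ∃ z : ℕ, E z ∧ ¬ B z ∧ 1 ≤ z ∧ |(a : ℝ)| ≤ z ∧ (z : ℝ) ≤ K * sz k a ^ K ∧
        ∃ j : ℕ, (j : ℝ) ≤ K * (1 + Real.log (sz k a)) ∧ (Tz k)^[j] (a.sign * z) = a) ∧
      (∀ a : ℤ, a ≠ 0 → ∃ (z i j : ℕ) (s : ℤ), (s = 1 ∨ s = -1) ∧ E z ∧ ¬ B z ∧ 1 ≤ z ∧ (z : ℝ) ≤ K * sz k a ^ K ∧
        (i : ℝ) ≤ K * (1 + Real.log (sz k a)) ∧ (j : ℝ) ≤ K * (1 + Real.log (sz k a)) ∧
        (Tz k)^[j] (s * z) = (Tz k)^[i] a) := by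
  classical
  obtain ⟨K, hK, HK⟩ := hR.pred (baseLB_all (B := fun _ => True) fun _ => trivial) hθ (le_max_right C 0)
  have hbase : ∀ (k : ℤ) (B : ℕ → Prop), k % 2 = 1 → ¬ (3 : ℤ) ∣ k →
      (∀ X : ℕ, 1 ≤ X → ∑ n ∈ Icc 1 X, ind E n * ind B n ≤ C * (X : ℝ) ^ (1 - ν - θ)) →
      (∀ a : ℤ, a ≠ 0 → ¬ (3 : ℤ) ∣ a → ∃ z : ℕ, E z ∧ ¬ B z ∧ 1 ≤ z ∧ |(a : ℝ)| ≤ z ∧ (z : ℝ) ≤ K * sz k a ^ K ∧
        ∃ j : ℕ, (j : ℝ) ≤ K * (1 + Real.log (sz k a)) ∧ (Tz k)^[j] (a.sign * z) = a) := by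
    intro k B hk hk3 hB a ha ha3
    obtain ⟨z, hz1, hzE, hzB, hz2, hz3, j, hj1, hj2⟩ := HK k a ⟨hk, hk3, ha3⟩ B (fun X hX => by
      have h1 := hB X hX
      rw [← count_sum] at h1
      have e : {n : ℕ | 1 ≤ n ∧ n ≤ X ∧ E n ∧ B n} = ((Icc 1 X).filter fun n => E n ∧ B n : Finset ℕ) := by
        ext n
        simp only [Set.mem_ofPred_eq, coe_filter, mem_Icc, and_assoc]
      rw [e, Set.ncard_coe_finset] at h1
      refine le_trans (le_of_eq ?_) (h1.trans (mul_le_mul_of_nonneg_right (le_max_left _ _) (by positivity)))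
      congr)
    exact ⟨z, hzE, hzB, hz1, hz3, hz2, j, hj1, hj2⟩
  set K' : ℝ := max (K * 2 ^ K) (2 * K + 3) with hK'
  have hK1 : K * 2 ^ K ≤ K' := le_max_left _ _
  have hK2 : 2 * K + 3 ≤ K' := le_max_right _ _
  refine ⟨K', by linarith, fun k B hk hk3 hB => ⟨fun a ha ha3 => ?_, fun a ha => ?_⟩⟩
  · obtain ⟨z, h1, h2, h3, h4, h5, j, h6, h7⟩ := hbase k B hk hk3 hB a ha ha3
    have haR : (1 : ℝ) ≤ sz k a := sz_ge hk
    have hlog : 0 ≤ Real.log (sz k a) := Real.log_nonneg haR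
    refine ⟨z, h1, h2, h3, h4, h5.trans ?_, j, h6.trans ?_, h7⟩
    · calc K * sz k a ^ K ≤ K' * sz k a ^ K := mul_le_mul_of_nonneg_right (by linarith) (by positivity)
        _ ≤ K' * sz k a ^ K' := mul_le_mul_of_nonneg_left
          (Real.rpow_le_rpow_of_exponent_le haR (by linarith)) (by linarith)
    · exact mul_le_mul_of_nonneg_right (by linarith) (by linarith)
  · have haZ : 1 ≤ |a| := Int.one_le_abs ha
    have haR : (1 : ℝ) ≤ sz k a := sz_ge hk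
    have ha1 : (1 : ℝ) ≤ |(a : ℝ)| := by exact_mod_cast haZ
    have hlog : 0 ≤ Real.log (sz k a) := Real.log_nonneg haR
    obtain ⟨i, y, g1, g2, g3, g4⟩ := non3 (k := k) hk hk3 a.natAbs a rfl ha
    have hy0 : y ≠ 0 := by rintro rfl; exact g2 (dvd_zero _)
    obtain ⟨z, h1, h2, h3, h4, h5, j, h6, h7⟩ := hbase k B hk hk3 hB y hy0 g2
    have hyR : (1 : ℝ) ≤ sz k y := sz_ge hk
    have hy2 : sz k y ≤ 2 * sz k a := by
      unfold sz
      apply max_le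
      · have h8 : |(y : ℝ)| ≤ 2 * max |(a : ℝ)| |(k : ℝ)| := by exact_mod_cast g3
        exact h8
      · have h8 : |(k : ℝ)| ≤ max |(a : ℝ)| |(k : ℝ)| := le_max_right _ _
        have h9 := abs_nonneg (k : ℝ)
        linarith
    have hlog2 : Real.log (sz k y) ≤ 1 + Real.log (sz k a) := by
      have e1 := Real.log_le_log (by linarith) hy2
      rw [Real.log_mul (by norm_num) (by linarith)] at e1
      linarith [Real.log_two_lt_d9]
    refine ⟨z, i, j, y.sign, ?_, h1, h2, h3, h5.trans ?_, ?_, h6.trans ?_, by rw [h7, g1]⟩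
    · rcases lt_or_gt_of_ne hy0 with h | h
      · right; exact Int.sign_eq_neg_one_of_neg h
      · left; exact Int.sign_eq_one_of_pos h
    · calc K * sz k y ^ K ≤ K * (2 * sz k a) ^ K := by
            apply mul_le_mul_of_nonneg_left _ (by linarith)
            exact Real.rpow_le_rpow (by linarith) hy2 (by linarith)
        _ = K * 2 ^ K * sz k a ^ K := by rw [Real.mul_rpow (by norm_num) (by linarith)]; ring
        _ ≤ K' * sz k a ^ K := mul_le_mul_of_nonneg_right hK1 (by positivity)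
        _ ≤ K' * sz k a ^ K' := mul_le_mul_of_nonneg_left
          (Real.rpow_le_rpow_of_exponent_le haR (by linarith)) (by linarith)
    · have e1 : ((2 : ℝ)) ^ i ≤ 2 * |(a : ℝ)| := by exact_mod_cast g4
      have e1' : ((2 : ℝ)) ^ i ≤ 2 * sz k a := e1.trans (by
        have : |(a : ℝ)| ≤ sz k a := le_max_left _ _
        linarith)
      have e2 := Real.log_le_log (by positivity) e1'
      rw [Real.log_pow, Real.log_mul (by norm_num) (by linarith)] at e2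
      have e3 := Real.log_two_gt_d9
      have e4 := Real.log_two_lt_d9
      have e5 : (i : ℝ) * 0.69 ≤ i * Real.log 2 := mul_le_mul_of_nonneg_left (by linarith) (Nat.cast_nonneg _)
      nlinarith
    · nlinarith

end Pool.Agent.X266.CD
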