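import Pool.Agent.X266.CD.Col
import Pool.Agent.Y965.PL.Avg

/-! Laws inside a class: from constant thresholds to moving thresholds, with constants which do not depend
on the class. -/

set_option autoImplicit false

namespace Pool.Agent.X266.CD

open Finset Filter Topology Pool.Agent.Y965.PL
open Pool.Agent.H499R2.HL (H H_unique)
open Pool.Agent.H499R2.LT (odn)
open Pool.Agent.H499R2.ND (Phi Phi_continuous)

/-- the weight `w` is, for the function `G` and up to `N`, like `ρ v` -/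
def Tr (w v : ℕ → ℝ) (ρ err : ℝ) (N : ℕ) (G : ℕ → ℝ) : Prop :=
  |∑ n ∈ Icc 1 N, w n * G n - ρ * ∑ n ∈ Icc 1 N, v n * G n| ≤ err

theorem Mn_ev {u : ℕ → ℝ} {d : ℝ} (h : Mn u d) {ε : ℝ} (hε : 0 < ε) : ∀ᶠ X : ℕ in atTop,
    |∑ n ∈ Icc 1 X, u n - d * X| ≤ ε * X := by
  have h' : MnS (fun n => n) u d := h
  exact h'.ev hε

theorem sum_split (N N' : ℕ) {f g : ℕ → ℝ} (hf : ∀ n, f n ≤ 1) (hg : ∀ n, 0 ≤ g n) {v : ℕ → ℝ} (hv : ∀ n, 0 ≤ v n)
    (h : ∀ n, N' < n → n ≤ N → f n ≤ g n) :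
    ∑ n ∈ Icc 1 N, v n * f n ≤ ∑ n ∈ Icc 1 N, v n * g n + ∑ n ∈ Icc 1 N', v n := by
  have h1 : ∀ n ∈ Icc 1 N, v n * f n ≤ v n * g n + (if n ∈ Icc 1 N' then v n else 0) := by
    intro n hn
    rw [mem_Icc] at hn
    split_ifs with h2
    · have := mul_le_mul_of_nonneg_left (hf n) (hv n)
      have := mul_nonneg (hv n) (hg n)
      linarith
    · rw [mem_Icc, not_and, not_le] at h2
      have := mul_le_mul_of_nonneg_left (h n (h2 hn.1) hn.2) (hv n)
      linarith
  refine (sum_le_sum h1).trans ?_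
  rw [sum_add_distrib, ← sum_filter]
  have h2 : (Icc 1 N).filter (fun n => n ∈ Icc 1 N') ⊆ Icc 1 N' := by
    intro n hn
    exact (mem_filter.1 hn).2
  have h3 := sum_le_sum_of_subset_of_nonneg h2 (fun n _ _ => hv n)
  linarith

/-- THE LAW INSIDE A CLASS -/
theorem law_w {val : ℕ → ℕ → ℝ} {cls : ℕ → ℕ → Prop} {A b : ℝ} (hA : 0 ≤ A) (hb : 0 < b) {d : ℝ → ℝ}
    (hd : Continuous d) {v : ℕ → ℝ} (hv : ∀ n, 0 ≤ v n ∧ v n ≤ 1)
    (hlaw : ∀ x, Mn (fun n => v n * ind (Lv val cls (th A b x)) n) (d x)) (x : ℝ) {ε : ℝ} (hε : 0 < ε) :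
    ∃ N0 : ℕ, ∀ N : ℕ, N0 ≤ N → ∀ (w : ℕ → ℝ) (ρ err : ℝ), (∀ n, 0 ≤ w n) → 0 ≤ ρ →
      (∀ M, 1 ≤ M → M ≤ N → Tr w v ρ err M (fun _ => 1)) →
      (∀ t : ℝ, Tr w v ρ err N (ind (Lv val cls (fun _ => t)))) →
      |∑ n ∈ Icc 1 N, w n * ind (Lv val cls (th A b x)) n - ρ * (d x * N)| ≤ ε * ρ * N + 2 * err := by
  obtain ⟨r, hr, hr'⟩ := Metric.continuousAt_iff.1 (hd.continuousAt (x := x)) (ε / 8) (by positivity)
  set θ : ℝ := r / 4 with hθ
  have hθ0 : 0 < θ := by positivity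
  have d1 := hr' (x := x + 2 * θ) (by rw [Real.dist_eq, add_sub_cancel_left, abs_of_pos (by positivity)]; linarith)
  have d2 := hr' (x := x - 2 * θ) (by
    rw [Real.dist_eq, sub_sub_cancel_left, abs_neg, abs_of_pos (by positivity)]; linarith)
  rw [Real.dist_eq, abs_lt] at d1 d2
  set κ : ℝ := min (ε / 8) 1 with hκ
  have hκ0 : 0 < κ := lt_min (by positivity) one_pos
  have hκ1 : κ ≤ ε / 8 := min_le_left _ _
  have hκ2 : κ ≤ 1 := min_le_right _ _
  obtain ⟨N0, hN0⟩ := ((((Mn_ev (hlaw (x + 2 * θ)) (show 0 < ε / 8 by positivity))).and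
    (Mn_ev (hlaw (x - 2 * θ)) (show 0 < ε / 8 by positivity))).and
    ((((th_cmp hA hb (show x - θ < x by linarith) hκ0).and
    (th_cmp hA hb (show x < x + θ by linarith) hκ0)).and
    ((th_cmp hA hb (show x - 2 * θ < x - θ by linarith) hκ0).and
    (th_cmp hA hb (show x + θ < x + 2 * θ by linarith) hκ0))).and
    (tendsto_natCast_atTop_atTop.eventually_ge_atTop (1 / κ)))).exists_forall_of_atTop
  refine ⟨N0, fun N hN w ρ err hw hρ hT1 hT2 => ?_⟩
  obtain ⟨⟨l1, l2⟩, ⟨⟨c1, c2⟩, c3, c4⟩, g6⟩ := hN0 N hN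
  rw [div_le_iff₀ hκ0] at g6
  set N' : ℕ := ⌊κ * N⌋₊ with hN'
  have hN'1 : 1 ≤ N' := Nat.le_floor (by rw [Nat.cast_one]; linarith)
  have hN'2 : (N' : ℝ) ≤ κ * N := Nat.floor_le (by positivity)
  have hN'3 : N' ≤ N := by
    have : (N' : ℝ) ≤ N := hN'2.trans (by have : (0 : ℝ) ≤ N := Nat.cast_nonneg _; nlinarith)
    exact_mod_cast this
  have hgt : ∀ n : ℕ, N' < n → κ * N < n := by
    intro n hn
    exact (Nat.floor_lt (by positivity)).1 hn
  have hNR : (0 : ℝ) ≤ N := Nat.cast_nonneg _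
  -- the sums over small `n`
  have hvs : ∑ n ∈ Icc 1 N', v n ≤ κ * N := by
    have h1 : ∑ n ∈ Icc 1 N', v n ≤ ∑ n ∈ Icc 1 N', (1 : ℝ) := sum_le_sum fun n _ => (hv n).2
    rw [sum_const, Nat.card_Icc, Nat.add_sub_cancel, nsmul_eq_mul, mul_one] at h1
    linarith
  have hws : ∑ n ∈ Icc 1 N', w n ≤ ρ * (κ * N) + err := by
    have h1 := hT1 N' hN'1 hN'3
    unfold Tr at h1
    simp only [mul_one] at h1
    have h2 := (abs_le.1 h1).2
    have h3 := mul_le_mul_of_nonneg_left hvs hρ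
    linarith
  set I : ℝ → ℕ → ℝ := fun y => ind (Lv val cls (th A b y)) with hI
  set J : ℝ → ℕ → ℝ := fun y => ind (Lv val cls (fun _ => th A b y N)) with hJ
  have hIJ : ∀ y n, I y n ≤ 1 ∧ 0 ≤ I y n ∧ J y n ≤ 1 ∧ 0 ≤ J y n := fun y n =>
    ⟨ind_le_one _ _, ind_nonneg _ _, ind_le_one _ _, ind_nonneg _ _⟩
  have hmono : ∀ (t t' : ℕ → ℝ) (n : ℕ), t n ≤ t' n → ind (Lv val cls t) n ≤ ind (Lv val cls t') n := by
    intro t t' n h
    apply ind_mono
    rintro ⟨k, g1, g2, g3⟩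
    exact ⟨k, g1, g2.trans h, g3⟩
  have s1 := sum_split N N' (v := w) (fun n => (hIJ x n).1) (fun n => (hIJ (x + θ) n).2.2.2) hw
    (fun n h1 h2 => hmono _ _ n (c2 n (hgt n h1) h2).1)
  have s2 := sum_split N N' (v := w) (fun n => (hIJ (x - θ) n).2.2.1) (fun n => (hIJ x n).2.1) hw
    (fun n h1 h2 => hmono _ _ n (c1 n (hgt n h1) h2).2)
  have s3 := sum_split N N' (v := v) (fun n => (hIJ (x + θ) n).2.2.1) (fun n => (hIJ (x + 2 * θ) n).2.1) (fun n => (hv n).1)
    (fun n h1 h2 => hmono _ _ n (c4 n (hgt n h1) h2).2)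
  have s4 := sum_split N N' (v := v) (fun n => (hIJ (x - 2 * θ) n).1) (fun n => (hIJ (x - θ) n).2.2.2) (fun n => (hv n).1)
    (fun n h1 h2 => hmono _ _ n (c3 n (hgt n h1) h2).1)
  have t1 := hT2 (th A b (x + θ) N)
  have t2 := hT2 (th A b (x - θ) N)
  unfold Tr at t1 t2
  have t1' := (abs_le.1 t1).2
  have t2' := (abs_le.1 t2).1
  have l1' := (abs_le.1 l1).2
  have l2' := (abs_le.1 l2).1
  have u1 : ∑ n ∈ Icc 1 N, v n * J (x + θ) n ≤ (d x + 3 * (ε / 8)) * N := by
    have e1 : (d (x + 2 * θ)) * N ≤ (d x + ε / 8) * N := mul_le_mul_of_nonneg_right (by linarith [d1.2]) hNR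
    have e2 : κ * N ≤ ε / 8 * N := mul_le_mul_of_nonneg_right hκ1 hNR
    have e3 : ∑ n ∈ Icc 1 N, v n * I (x + 2 * θ) n ≤ d (x + 2 * θ) * N + ε / 8 * N := by
      have := l1'
      linarith
    nlinarith
  have u2 : (d x - 3 * (ε / 8)) * N ≤ ∑ n ∈ Icc 1 N, v n * J (x - θ) n := by
    have e1 : (d x - ε / 8) * N ≤ (d (x - 2 * θ)) * N := mul_le_mul_of_nonneg_right (by linarith [d2.1]) hNR
    have e2 : κ * N ≤ ε / 8 * N := mul_le_mul_of_nonneg_right hκ1 hNR
    have e3 : d (x - 2 * θ) * N - ε / 8 * N ≤ ∑ n ∈ Icc 1 N, v n * I (x - 2 * θ) n := by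
      have := l2'
      linarith
    nlinarith
  have u3 := mul_le_mul_of_nonneg_left u1 hρ
  have u4 := mul_le_mul_of_nonneg_left u2 hρ
  have u5 : ρ * (κ * N) ≤ ρ * (ε / 8 * N) :=
    mul_le_mul_of_nonneg_left (mul_le_mul_of_nonneg_right hκ1 hNR) hρ
  have e0 : 0 ≤ ρ * (ε * N) := by positivity
  rw [abs_le]
  constructor <;> nlinarith

theorem log_id {η : ℝ} (hη : 0 < η) {X n : ℕ} (hn : 1 ≤ n) (hX : n ≤ X) (h : η * X ≤ n) :
    |Real.log n - Real.log X| ≤ |Real.log η| := by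
  have hn0 : (0 : ℝ) < n := by exact_mod_cast hn
  have hX0 : (0 : ℝ) < X := by exact_mod_cast (by omega : 0 < X)
  have h5 : Real.log n ≤ Real.log X := Real.log_le_log hn0 (by exact_mod_cast hX)
  have h6 : Real.log X ≤ Real.log n + |Real.log η| := by
    have h7 := Real.log_le_log (by positivity) h
    rw [Real.log_mul hη.ne' hX0.ne'] at h7
    have := neg_abs_le (Real.log η)
    linarith
  have := abs_nonneg (Real.log η)
  rw [abs_le]
  constructor <;> linarith

open Classical in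
/-- TRUNCATED AVERAGES over all integers -/
theorem id_avg {E : ℕ → Prop} {val : ℕ → ℕ → ℝ} (hv : ∀ k o, 0 ≤ val k o) {A b δ e : ℝ}
    (hA : 0 < A) (hb : 0 < b) (hL : Law (fun n => n) E val A b δ e) {f : ℝ → ℕ → ℝ} (hf : IsTr val f) {Λ : ℝ}
    (hΛ : A < Λ) :
    Tendsto (fun X : ℕ => (∑ n ∈ Icc 1 X, (if E n then f (Λ * Real.log X) n else 0)) / (X * Real.log X))
      atTop (𝓝 (δ * A + (e - δ) * Λ)) := by
  have hΛ0 : 0 < Λ := by linarith
  rw [Metric.tendsto_atTop]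
  intro ε hε
  -- parameters
  set κ' : ℝ := min (ε / 8) ((Λ - A) / 2) with hκ'
  have hκ'0 : 0 < κ' := lt_min (by positivity) (by linarith)
  have hκ'1 : κ' ≤ ε / 8 := min_le_left _ _
  have hκ'2 : κ' ≤ (Λ - A) / 2 := min_le_right _ _
  set κ : ℝ := κ' / 4 with hκ
  have hκ0 : 0 < κ := by positivity
  set η : ℝ := min 1 (ε / (8 * Λ)) with hη
  have hη0 : 0 < η := lt_min one_pos (by positivity)
  have hη1 : η ≤ 1 := min_le_left _ _
  have hη2 : η * Λ ≤ ε / 8 := by
    have h1 : η ≤ ε / (8 * Λ) := min_le_right _ _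
    calc η * Λ ≤ ε / (8 * Λ) * Λ := mul_le_mul_of_nonneg_right h1 hΛ0.le
      _ = ε / 8 := by field_simp
  set D : ℝ := |Real.log η| + Real.log 2 with hD
  have hl2 : 0 < Real.log 2 := Real.log_pos (by norm_num)
  have hD0 : 0 < D := by have := abs_nonneg (Real.log η); positivity
  set u : ℕ → ℝ := fun m => A * ind (fun n => E n ∧ ∃ k, H k n) m + Λ * (ind E m - ind (fun n => E n ∧ ∃ k, H k n) m) with hu
  have hMu : MnS (fun n => n) u (A * δ + Λ * (e - δ)) := (hL.fin.mul _).add ((hL.all.sub hL.fin).mul _)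
  have hMb := bad_zero (fun n => le_rfl) hb hL hκ0
  obtain ⟨N, hN⟩ := ((hMu.ev (show 0 < ε / 8 by positivity)).and ((hMb.ev (show 0 < ε / (8 * Λ) by positivity)).and
    ((tlog.eventually_ge_atTop ((A + κ) * D * 4 / κ')).and
    ((tlog.eventually_ge_atTop 1).and (eventually_ge_atTop 1))))).exists_forall_of_atTop
  refine ⟨N, fun X hX => ?_⟩
  obtain ⟨g1, g2, g4, g5, g6⟩ := hN X hX
  set L := Real.log (X : ℝ) with hLdef
  have hX0 : (0 : ℝ) < X := by exact_mod_cast g6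
  have hL0 : 0 < L := by linarith
  rw [div_le_iff₀ hκ'0] at g4
  set w : ℕ → ℝ := fun m => (if E m then f (Λ * L) m else 0) / L with hw
  have hf0 : ∀ m, 0 ≤ f (Λ * L) m ∧ f (Λ * L) m ≤ Λ * L := by
    intro m
    by_cases h : ∃ k, H k m
    · obtain ⟨k, hk⟩ := h
      rw [hf.1 _ _ k hk]
      exact ⟨le_min (hv _ _) (by positivity), min_le_right _ _⟩
    · rw [hf.2 _ _ h]
      exact ⟨by positivity, le_rfl⟩
  have hfsub : ∀ m, ind (fun n => E n ∧ ∃ k, H k n) m ≤ ind E m := fun m => ind_mono fun h => h.1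
  have hu0 : ∀ m, 0 ≤ u m ∧ u m ≤ Λ := by
    intro m
    have h1 := ind_nonneg (fun n => E n ∧ ∃ k, H k n) m
    have h2 := hfsub m
    have h3 := ind_le_one E m
    rw [hu]
    dsimp only
    constructor <;> nlinarith
  have hw0 : ∀ m, 0 ≤ w m ∧ w m ≤ Λ := by
    intro m
    rw [hw]
    dsimp only
    obtain ⟨h1, h2⟩ := hf0 m
    split_ifs
    · exact ⟨by positivity, by rw [div_le_iff₀ hL0]; exact h2⟩
    · rw [zero_div]; exact ⟨le_rfl, hΛ0.le⟩
  -- pointwise
  have key : ∀ n ∈ Icc 1 X, |w n - u n| ≤ κ' + Λ * ind (fun n => E n ∧ Bad val A κ n) n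
      + (if (n : ℝ) < η * X then Λ else 0) := by
    intro n hn
    rw [mem_Icc] at hn
    have hwu : |w n - u n| ≤ Λ := by
      have h1 := hw0 n
      have h2 := hu0 n
      rw [abs_le]; constructor <;> linarith
    have hin := ind_nonneg (fun n => E n ∧ Bad val A κ n) n
    by_cases hs : (n : ℝ) < η * X
    · rw [if_pos hs]
      have : 0 ≤ Λ * ind (fun n => E n ∧ Bad val A κ n) n := by positivity
      linarith
    · rw [if_neg hs, add_zero]
      push Not at hs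
      by_cases hB : E n ∧ Bad val A κ n
      · rw [ind_pos (P := fun n => E n ∧ Bad val A κ n) hB]
        linarith
      · rw [ind_neg (P := fun n => E n ∧ Bad val A κ n) hB, mul_zero, add_zero]
        by_cases hE : E n
        · by_cases hfin : ∃ k, H k n
          · obtain ⟨k, hk⟩ := hfin
            have e1 : ind (fun n => E n ∧ ∃ k, H k n) n = 1 := ind_pos ⟨hE, k, hk⟩
            have e2 : ind E n = 1 := ind_pos hE
            have h1 : |val k (odn k n) - A * Real.log n| ≤ κ * Real.log n := by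
              by_contra hcon
              exact hB ⟨hE, k, hk, not_le.1 hcon⟩
            have h2 : |Real.log n - L| ≤ D := (log_id hη0 hn.1 hn.2 hs).trans (by linarith)
            rw [abs_le] at h1 h2
            have h3 : |val k (odn k n) - A * L| ≤ κ' * L := by
              have h4 : (A + κ) * D ≤ κ' * L / 4 := by linarith
              have h5 : κ * L = κ' * L / 4 := by rw [hκ]; ring
              rw [abs_le]
              constructor
              · nlinarith [h1.1, h2.1, h2.2, mul_pos hκ'0 hL0]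
              · nlinarith [h1.2, h2.1, h2.2, mul_pos hκ'0 hL0]
            have h4 : f (Λ * L) n = val k (odn k n) := by
              rw [hf.1 _ _ k hk]
              apply min_eq_left
              have := (abs_le.1 h3).2
              nlinarith
            rw [hw, hu]
            dsimp only
            rw [if_pos hE, e1, e2, h4]
            have e3 : val k (odn k n) / L - (A * 1 + Λ * (1 - 1)) = (val k (odn k n) - A * L) / L := by
              field_simp
              ring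
            rw [e3, abs_div, abs_of_pos hL0, div_le_iff₀ hL0]
            exact h3
          · have e1 : ind (fun n => E n ∧ ∃ k, H k n) n = 0 := ind_neg fun h => hfin h.2
            have e2 : ind E n = 1 := ind_pos hE
            rw [hw, hu]
            dsimp only
            rw [if_pos hE, e1, e2, hf.2 _ _ hfin]
            have e3 : Λ * L / L - (A * 0 + Λ * (1 - 0)) = 0 := by field_simp; ring
            rw [e3, abs_zero]; exact hκ'0.le
        · have e1 : ind (fun n => E n ∧ ∃ k, H k n) n = 0 := ind_neg fun h => hE h.1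
          have e2 : ind E n = 0 := ind_neg hE
          rw [hw, hu]
          dsimp only
          rw [if_neg hE, e1, e2]
          simp
          exact hκ'0.le
  -- the sum
  have hsum : |∑ n ∈ Icc 1 X, w n - ∑ n ∈ Icc 1 X, u n| ≤ κ' * X +
      Λ * ∑ n ∈ Icc 1 X, ind (fun n => E n ∧ Bad val A κ n) n + Λ * (η * X) := by
    rw [← sum_sub_distrib]
    refine (abs_sum_le_sum_abs _ _).trans ((sum_le_sum key).trans ?_)
    rw [sum_add_distrib, sum_add_distrib, ← mul_sum, sum_const, Nat.card_Icc, Nat.add_sub_cancel, nsmul_eq_mul]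
    have h1 : ∑ n ∈ Icc 1 X, (if (n : ℝ) < η * X then Λ else 0) ≤ Λ * (η * X) := by
      rw [← sum_filter, sum_const, nsmul_eq_mul, mul_comm]
      apply mul_le_mul_of_nonneg_left _ hΛ0.le
      have h2 : (Icc 1 X).filter (fun n : ℕ => (n : ℝ) < η * X) ⊆ Icc 1 ⌊η * X⌋₊ := by
        intro n hn
        rw [mem_filter, mem_Icc] at hn
        rw [mem_Icc]
        exact ⟨hn.1.1, Nat.le_floor hn.2.le⟩
      have h3 := card_le_card h2
      rw [Nat.card_Icc, Nat.add_sub_cancel] at h3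
      have h4 : (((Icc 1 X).filter (fun n : ℕ => (n : ℝ) < η * X)).card : ℝ) ≤ ⌊η * X⌋₊ := by exact_mod_cast h3
      exact h4.trans (Nat.floor_le (by positivity))
    linarith
  have hbad : Λ * ∑ n ∈ Icc 1 X, ind (fun n => E n ∧ Bad val A κ n) n ≤ ε / 8 * X := by
    have h1 := (abs_le.1 g2).2
    have h2 : Λ * ∑ n ∈ Icc 1 X, ind (fun n => E n ∧ Bad val A κ n) n ≤ Λ * (ε / (8 * Λ) * X) :=
      mul_le_mul_of_nonneg_left (by linarith) hΛ0.le
    have e3 : Λ * (ε / (8 * Λ) * X) = ε / 8 * X := by field_simp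
    linarith
  have e4 : (∑ n ∈ Icc 1 X, (if E n then f (Λ * L) n else 0)) / (X * L) = (∑ n ∈ Icc 1 X, w n) / X := by
    rw [hw]
    dsimp only
    rw [← sum_div]
    field_simp
  rw [Real.dist_eq, e4]
  have e5 : (∑ n ∈ Icc 1 X, w n) / X - (δ * A + (e - δ) * Λ)
      = (∑ n ∈ Icc 1 X, w n - (A * δ + Λ * (e - δ)) * X) / X := by
    field_simp
  rw [e5, abs_div, abs_of_pos hX0, div_lt_iff₀ hX0]
  have h7 : |∑ n ∈ Icc 1 X, w n - (A * δ + Λ * (e - δ)) * X| ≤
      |∑ n ∈ Icc 1 X, w n - ∑ n ∈ Icc 1 X, u n| +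
      |∑ n ∈ Icc 1 X, u n - (A * δ + Λ * (e - δ)) * X| := by
    have e6 : ∑ n ∈ Icc 1 X, w n - (A * δ + Λ * (e - δ)) * X =
      (∑ n ∈ Icc 1 X, w n - ∑ n ∈ Icc 1 X, u n) +
      (∑ n ∈ Icc 1 X, u n - (A * δ + Λ * (e - δ)) * X) := by ring
    rw [e6]; exact abs_add_le _ _
  have h8 : κ' * X ≤ ε / 8 * X := mul_le_mul_of_nonneg_right hκ'1 hX0.le
  have h9 : Λ * (η * X) ≤ ε / 8 * X := by
    have := mul_le_mul_of_nonneg_right hη2 hX0.le
    linarith
  nlinarith

end Pool.Agent.X266.CD
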