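import Pool.Agent.X266.CD.Vis
import Pool.Agent.H723R2.LSWDens

/-! The integers under the entire interpolation of the `3x+1` function. -/

set_option autoImplicit false

namespace Pool.Agent.X266.CD

open Finset Filter Topology Pool.Agent.H319R3.GC Pool.Agent.Y55.DS Polynomial Pool.Agent.Y965.PL
open Pool.Agent.Y965.PS (Tz ac ac_succ)
open Pool.Agent.H499R2.ND (Phi Phi_continuous Dn Td)
open Pool.Agent.H723R2.LSW (f₀ T Mer Wild cast_iter HasDensity)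
open Pool.Agent.H384R2.Fatou

theorem T_Tz : T = Tz 1 := rfl

theorem dn_of {s : ℤ} (hs : s = 1 ∨ s = -1) {S : Set ℤ} {δ : ℝ} (h : HasDensity s S δ) :
    Dn (fun n : ℕ => s * (n : ℤ) ∈ S) δ := by
  have hss : s * s = 1 := by rcases hs with rfl | rfl <;> rfl
  refine h.congr fun N => ?_
  unfold Pool.Agent.H499R2.ND.cnt
  congr 2
  have : {n : ℤ | 0 < s * n ∧ s * n ≤ N ∧ n ∈ S}
      = (fun n : ℕ => s * (n : ℤ)) '' {n : ℕ | 1 ≤ n ∧ n ≤ N ∧ s * (n : ℤ) ∈ S} := by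
    ext x
    rw [Set.mem_image]
    constructor
    · rintro ⟨h1, h2, h3⟩
      have e : s * (((s * x).toNat : ℕ) : ℤ) = x := by
        rw [Int.toNat_of_nonneg h1.le, ← mul_assoc, hss, one_mul]
      exact ⟨(s * x).toNat, ⟨by omega, by omega, by rw [e]; exact h3⟩, e⟩
    · rintro ⟨n, ⟨h1, h2, h3⟩, rfl⟩
      have e : s * (s * (n : ℤ)) = n := by rw [← mul_assoc, hss, one_mul]
      exact ⟨by rw [e]; omega, by rw [e]; omega, h3⟩
  rw [this, Set.ncard_image_of_injective]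
  intro a b hab
  rcases hs with rfl | rfl
  · simpa using hab
  · simpa using hab

/-- the integers in wandering domains -/
def WI : Set ℤ := {n | IsWanderingDomain f₀ (FatouComponent f₀ n)}

theorem WI_eq : WI = {n | Wild n} := by
  ext n; exact Pool.Agent.H723R2.LSW.wandering_iff n

theorem WI_T (x : ℤ) : Tz 1 x ∈ WI ↔ x ∈ WI := by
  rw [WI_eq]
  exact ⟨Pool.Agent.H723R2.LSW.wild_mer ⟨0, 1, rfl⟩, Pool.Agent.H723R2.LSW.wild_mer ⟨1, 0, rfl⟩⟩

theorem WI_iter (j : ℕ) : ∀ x : ℤ, (Tz 1)^[j] x ∈ WI ↔ x ∈ WI := by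
  induction j with
  | zero => intro x; exact Iff.rfl
  | succ j ih => intro x; rw [Function.iterate_succ_apply, ih, WI_T]

theorem Mer_T (a x : ℤ) : Tz 1 x ∈ {n : ℤ | Mer n a} ↔ x ∈ {n : ℤ | Mer n a} := by
  have h1 : Mer x (T x) := ⟨1, 0, rfl⟩
  exact ⟨fun h => h1.trans h, fun h => h1.symm.trans h⟩

theorem reach_iff {a : ℤ} {p : ℕ} (hp : 0 < p) (hpa : T^[p] a = a) (n : ℤ) : Mer n a ↔ ∃ k, (Tz 1)^[k] n = a := by
  constructor
  · rintro ⟨i, j, hij⟩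
    have hcp : ∀ m, T^[p * m] a = a := by
      intro m
      rw [Function.iterate_mul]
      exact Function.iterate_fixed hpa m
    refine ⟨p * j - j + i, ?_⟩
    have hle : j ≤ p * j := Nat.le_mul_of_pos_left j hp
    rw [← T_Tz, Function.iterate_add_apply, hij, ← Function.iterate_add_apply,
      Nat.sub_add_cancel hle, hcp]
  · rintro ⟨k, hk⟩; exact ⟨k, 0, hk⟩

theorem merge_set (a : ℤ) : {n : ℤ | ∃ i j : ℕ, f₀^[i] (n : ℂ) = f₀^[j] (a : ℂ)} = {n | Mer n a} := by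
  ext n
  show (∃ i j : ℕ, f₀^[i] (n : ℂ) = f₀^[j] (a : ℂ)) ↔ Mer n a
  constructor
  · rintro ⟨i, j, h⟩
    rw [Pool.Agent.H723R2.LSW.f₀_iter, Pool.Agent.H723R2.LSW.f₀_iter] at h
    exact ⟨i, j, by exact_mod_cast h⟩
  · rintro ⟨i, j, h⟩
    exact ⟨i, j, by rw [Pool.Agent.H723R2.LSW.f₀_iter, Pool.Agent.H723R2.LSW.f₀_iter, h]⟩

/-- the visits of `a` have a density, and if `a` is periodic it is that of the merging integers -/
theorem vis_density {s : ℤ} (hs : s = 1 ∨ s = -1) (a : ℤ) : ∃ δ : ℝ, 0 ≤ δ ∧ (0 < s * a → ¬ (3 : ℤ) ∣ a → 0 < δ) ∧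
    Dn (fun n : ℕ => ∃ k : ℕ, (Tz 1)^[k] (s * n) ∈ ({a} : Finset ℤ)) δ := by
  obtain ⟨δ, h1, h2, h3, _⟩ := Pool.Agent.H499R2.LT.joint_side (d := 1) odd_one (by norm_num) hs ({a} : Finset ℤ)
  exact ⟨δ, h1, fun h h' => h2 ⟨a, mem_singleton_self a, h, h'⟩, h3⟩

theorem vis_eq {s : ℤ} (hs : s = 1 ∨ s = -1) {a : ℤ} {p : ℕ} (hp : 0 < p) (hpa : T^[p] a = a) {δ β : ℝ}
    (h : Dn (fun n : ℕ => ∃ k : ℕ, (Tz 1)^[k] (s * n) ∈ ({a} : Finset ℤ)) δ) (hβ : HasDensity s {n | Mer n a} β) :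
    δ = β := by
  refine tendsto_nhds_unique h (Pool.Agent.H499R2.LT.Dn_iff (fun n _ => ?_) (dn_of hs hβ))
  show Mer (s * (n : ℤ)) a ↔ _
  rw [reach_iff hp hpa]
  exact exists_congr fun k => (mem_singleton).symm

theorem FVis_iff {a : ℤ} {j : ℕ} {x : ℤ} : FVis 1 {a} j x ↔ (f₀^[j] (x : ℂ) = a ∧ ∀ i < j, f₀^[i] (x : ℂ) ≠ a) := by
  unfold FVis
  constructor
  · rintro ⟨h1, h2⟩
    exact ⟨cast_iter.2 (mem_singleton.1 h1), fun i hi h3 => h2 i hi (mem_singleton.2 (cast_iter.1 h3))⟩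
  · rintro ⟨h1, h2⟩
    exact ⟨mem_singleton.2 (cast_iter.1 h1), fun i hi h3 => h2 i hi (cast_iter.2 (mem_singleton.1 h3))⟩

open Classical in
theorem odd_iff (j : ℕ) (x : ℤ) : ((range j).filter fun i => ∃ l : ℤ, f₀^[i] (x : ℂ) = 2 * l + 1).card = ac 1 j x := by
  induction j with
  | zero => simp [ac]
  | succ j ih =>
    rw [range_add_one, filter_insert, ac_succ]
    have h1 : (∃ l : ℤ, f₀^[j] (x : ℂ) = 2 * l + 1) ↔ ¬ (Tz 1)^[j] x % 2 = 0 := by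
      rw [Pool.Agent.H723R2.LSW.f₀_iter]
      constructor
      · rintro ⟨l, hl⟩
        have h2 : T^[j] x = 2 * l + 1 := by exact_mod_cast hl
        rw [← T_Tz, h2]; omega
      · intro h
        refine ⟨(Tz 1)^[j] x / 2, ?_⟩
        have h2 : (Tz 1)^[j] x = 2 * ((Tz 1)^[j] x / 2) + 1 := by omega
        rw [T_Tz]
        exact_mod_cast h2
    by_cases h : (Tz 1)^[j] x % 2 = 0
    · rw [if_neg (fun h' => h1.1 h' h), if_pos h, ih, Nat.add_zero]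
    · rw [if_pos (h1.2 h), if_neg h, card_insert_of_notMem (by simp), ih]

/-- predecessors in rich sets -/
theorem pred_int {E : ℕ → Prop} {ν : ℝ} (hR : Rich (fun _ => True) E ν) {θ C : ℝ} (hθ : 0 < θ) :
    ∃ K : ℝ, 1 ≤ K ∧ ∀ (s : ℤ) (B : ℕ → Prop), (s = 1 ∨ s = -1) →
      (∀ X : ℕ, 1 ≤ X → ∑ n ∈ Icc 1 X, ind E n * ind B n ≤ C * (X : ℝ) ^ (1 - ν - θ)) →
      (∀ a : ℤ, 0 < s * a → ¬ (3 : ℤ) ∣ a → ∃ z : ℕ, E z ∧ ¬ B z ∧ |(a : ℝ)| ≤ z ∧ (z : ℝ) ≤ K * |(a : ℝ)| ^ K ∧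
        ∃ j : ℕ, (j : ℝ) ≤ K * (1 + Real.log |(a : ℝ)|) ∧ (Tz 1)^[j] (s * z) = a) ∧
      (∀ a : ℤ, 0 < s * a → ∃ z i j : ℕ, E z ∧ ¬ B z ∧ 1 ≤ z ∧ (z : ℝ) ≤ K * |(a : ℝ)| ^ K ∧
        (i : ℝ) ≤ K * (1 + Real.log |(a : ℝ)|) ∧ (j : ℝ) ≤ K * (1 + Real.log |(a : ℝ)|) ∧
        (Tz 1)^[j] (s * z) = (Tz 1)^[i] a) := by
  classical
  obtain ⟨K, hK, HK⟩ := hR.pred (baseLB_all (B := fun _ => True) fun _ => trivial) hθ (le_max_right C 0)
  have hbase : ∀ (s : ℤ) (B : ℕ → Prop), (s = 1 ∨ s = -1) →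
      (∀ X : ℕ, 1 ≤ X → ∑ n ∈ Icc 1 X, ind E n * ind B n ≤ C * (X : ℝ) ^ (1 - ν - θ)) →
      (∀ a : ℤ, 0 < s * a → ¬ (3 : ℤ) ∣ a → ∃ z : ℕ, E z ∧ ¬ B z ∧ 1 ≤ z ∧ |(a : ℝ)| ≤ z ∧ (z : ℝ) ≤ K * |(a : ℝ)| ^ K ∧
        ∃ j : ℕ, (j : ℝ) ≤ K * (1 + Real.log |(a : ℝ)|) ∧ (Tz 1)^[j] (s * z) = a) := by
    intro s B hs hB a ha ha3
    obtain ⟨z, hz1, hzE, hzB, hz2, hz3, j, hj1, hj2⟩ := HK 1 a ⟨by norm_num, by norm_num, ha3⟩ B (fun X hX => by
      have h1 := hB X hX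
      rw [← count_sum] at h1
      have e : {n : ℕ | 1 ≤ n ∧ n ≤ X ∧ E n ∧ B n} = ((Icc 1 X).filter fun n => E n ∧ B n : Finset ℕ) := by
        ext n
        simp only [Set.mem_ofPred_eq, coe_filter, mem_Icc, and_assoc]
      rw [e, Set.ncard_coe_finset] at h1
      refine le_trans (le_of_eq ?_) (h1.trans (mul_le_mul_of_nonneg_right (le_max_left _ _) (by positivity)))
      congr)
    have ha0 : a ≠ 0 := by rintro rfl; simp at ha
    have haR : (1 : ℝ) ≤ |(a : ℝ)| := by exact_mod_cast Int.one_le_abs ha0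
    have hsz : sz 1 a = |(a : ℝ)| := by
      unfold sz
      rw [Int.cast_one, abs_one]
      exact max_eq_left haR
    rw [hsz] at hz2 hj1
    have hsig : a.sign = s := by
      rcases hs with rfl | rfl
      · exact Int.sign_eq_one_of_pos (by omega)
      · exact Int.sign_eq_neg_one_of_neg (by omega)
    rw [hsig] at hj2
    exact ⟨z, hzE, hzB, hz1, hz3, hz2, j, hj1, hj2⟩
  set K' : ℝ := max (K * 2 ^ K) (2 * K + 3) with hK'
  have hK1 : K * 2 ^ K ≤ K' := le_max_left _ _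
  have hK2 : 2 * K + 3 ≤ K' := le_max_right _ _
  refine ⟨K', by linarith, fun s B hs hB => ⟨fun a ha ha3 => ?_, fun a ha => ?_⟩⟩
  · obtain ⟨z, h1, h2, h3, h4, h5, j, h6, h7⟩ := hbase s B hs hB a ha ha3
    have ha0 : a ≠ 0 := by rintro rfl; simp at ha
    have haR : (1 : ℝ) ≤ |(a : ℝ)| := by exact_mod_cast Int.one_le_abs ha0
    have hlog : 0 ≤ Real.log |(a : ℝ)| := Real.log_nonneg haR
    refine ⟨z, h1, h2, h4, h5.trans ?_, j, h6.trans ?_, h7⟩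
    · calc K * |(a : ℝ)| ^ K ≤ K' * |(a : ℝ)| ^ K := mul_le_mul_of_nonneg_right (by linarith) (by positivity)
        _ ≤ K' * |(a : ℝ)| ^ K' := mul_le_mul_of_nonneg_left
          (Real.rpow_le_rpow_of_exponent_le haR (by linarith)) (by linarith)
    · exact mul_le_mul_of_nonneg_right (by linarith) (by linarith)
  · have ha0 : a ≠ 0 := by rintro rfl; simp at ha
    have haZ : 1 ≤ |a| := Int.one_le_abs ha0
    have haR : (1 : ℝ) ≤ |(a : ℝ)| := by exact_mod_cast haZ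
    have hlog : 0 ≤ Real.log |(a : ℝ)| := Real.log_nonneg haR
    obtain ⟨i, y, g1, g2, g3, g4⟩ := non3 (k := 1) (by norm_num) (by norm_num) a.natAbs a rfl ha0
    rw [abs_one, max_eq_left haZ] at g3
    have hy : 0 < s * y := by
      rw [← g1, ← T_Tz]; exact Pool.Agent.H723R2.LSW.T_iter_sign hs ha i
    obtain ⟨z, h1, h2, h3, h4, h5, j, h6, h7⟩ := hbase s B hs hB y hy g2
    have hy0 : y ≠ 0 := by rintro rfl; simp at hy
    have hyR : (1 : ℝ) ≤ |(y : ℝ)| := by exact_mod_cast Int.one_le_abs hy0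
    have hy2 : |(y : ℝ)| ≤ 2 * |(a : ℝ)| := by exact_mod_cast g3
    have hlog2 : Real.log |(y : ℝ)| ≤ 1 + Real.log |(a : ℝ)| := by
      have e1 := Real.log_le_log (by linarith) hy2
      rw [Real.log_mul (by norm_num) (by linarith)] at e1
      linarith [Real.log_two_lt_d9]
    refine ⟨z, i, j, h1, h2, h3, h5.trans ?_, ?_, h6.trans ?_, by rw [h7, g1]⟩
    · calc K * |(y : ℝ)| ^ K ≤ K * (2 * |(a : ℝ)|) ^ K := by
            apply mul_le_mul_of_nonneg_left _ (by linarith)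
            exact Real.rpow_le_rpow (by positivity) hy2 (by linarith)
        _ = K * 2 ^ K * |(a : ℝ)| ^ K := by rw [Real.mul_rpow (by norm_num) (by positivity)]; ring
        _ ≤ K' * |(a : ℝ)| ^ K := mul_le_mul_of_nonneg_right hK1 (by positivity)
        _ ≤ K' * |(a : ℝ)| ^ K' := mul_le_mul_of_nonneg_left
          (Real.rpow_le_rpow_of_exponent_le haR (by linarith)) (by linarith)
    · have e1 : ((2 : ℝ)) ^ i ≤ 2 * |(a : ℝ)| := by exact_mod_cast g4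
      have e2 := Real.log_le_log (by positivity) e1
      rw [Real.log_pow, Real.log_mul (by norm_num) (by linarith)] at e2
      have e3 := Real.log_two_gt_d9
      have e4 := Real.log_two_lt_d9
      have e5 : (i : ℝ) * 0.69 ≤ i * Real.log 2 := mul_le_mul_of_nonneg_left (by linarith) (Nat.cast_nonneg _)
      nlinarith
    · nlinarith

/-- the density of the wandering integers in a class is zero only if there are none -/
theorem pos_count {w : ℕ → ℝ} {S : ℕ → Prop} {d : ℝ} (hd : 0 < d) (h : Mn (fun n => w n * ind S n) d) :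
    ∃ ε : ℝ, 0 < ε ∧ ∀ᶠ X : ℕ in atTop, ε * X < ∑ n ∈ Icc 1 X, w n * ind S n := by
  refine ⟨d / 2, by positivity, ?_⟩
  have h1 := h.eventually_const_lt (show d / 2 < d by linarith)
  filter_upwards [h1, eventually_ge_atTop 1] with X h2 h3
  have hX : (0 : ℝ) < X := by exact_mod_cast h3
  rwa [lt_div_iff₀ hX] at h2

end Pool.Agent.X266.CD
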