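import Pool.Agent.X266.CD.Prd

/-! Residue classes; rich sets. -/

set_option autoImplicit false

namespace Pool.Agent.X266.CD

open Finset Pool.Agent.H319R3.GC Pool.Agent.Y55.DS Polynomial

/-- restricted to a residue class -/
def GM (M : ℕ) (b : ℤ) (𝒢 : ℕ → ℝ → (ℕ → ℝ) → Prop) (N : ℕ) (A : ℝ) (G' : ℕ → ℝ) : Prop :=
  ∃ (c c' : ℝ) (G : ℕ → ℝ), |c| + |c'| ≤ 1 ∧ 𝒢 N A G ∧ ∀ n : ℕ, G' n = c + c' * (if (M : ℤ) ∣ n - b then G n else 0)

theorem corr_twist {d : ℕ} {a c C : ℝ} {N : ℕ} {z w : ℕ → ℂ} (hw : ∀ h, ∃ w0 : ℂ, ‖w0‖ = 1 ∧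
    ∀ n, w n * (starRingEnd ℂ) (w (n + h)) = w0) (hz : CorrN d a c C N z) : CorrN d a c C N (fun n => w n * z n) := by
  intro k hk
  obtain ⟨β, h1, h2, h3⟩ := hz k hk
  refine ⟨β, h1, fun h hh1 hh2 m0 J hm0 hJ => ?_, h3⟩
  obtain ⟨w0, hw0, hw1⟩ := hw h
  have h4 := h2 h hh1 hh2 m0 J hm0 hJ
  have h5 : ∑ j ∈ range J, w (m0 + d ^ k * j) * z (m0 + d ^ k * j) *
      (starRingEnd ℂ) (w (m0 + d ^ k * j + h) * z (m0 + d ^ k * j + h)) =
      w0 * ∑ j ∈ range J, z (m0 + d ^ k * j) * (starRingEnd ℂ) (z (m0 + d ^ k * j + h)) := by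
    rw [mul_sum]
    apply sum_congr rfl
    intro j _
    rw [← hw1 (m0 + d ^ k * j), map_mul]
    ring
  rw [h5, norm_mul, hw0, one_mul]
  exact h4

/-- engines in residue classes -/
theorem eng_mod {d : ℕ} {𝒢 : ℕ → ℝ → (ℕ → ℝ) → Prop} (E : Eng d 𝒢) {M : ℕ} (hM : 1 ≤ M) (b : ℤ) : Eng d (GM M b 𝒢) := by
  refine ⟨E.two_le, ?_, ?_, ?_, ?_, ?_⟩
  · rintro N A G' ⟨c, c', G, hc, hG, hG'⟩
    exact E.one_le N A G hG
  · rintro N A G' ⟨c, c', G, hc, hG, hG'⟩ n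
    rw [hG']
    have h1 : |(if (M : ℤ) ∣ n - b then G n else 0)| ≤ 1 := by
      split_ifs
      · exact E.bdd N A G hG n
      · simp
    calc |c + c' * (if (M : ℤ) ∣ n - b then G n else 0)| ≤ |c| + |c'| * |(if (M : ℤ) ∣ n - b then G n else 0)| := by
          rw [← abs_mul]; exact abs_add_le _ _
      _ ≤ |c| + |c'| * 1 := by
          have := mul_le_mul_of_nonneg_left h1 (abs_nonneg c')
          linarith
      _ ≤ 1 := by linarith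
  · rintro N A G' ⟨c, c', G, hc, hG, hG'⟩
    refine ⟨(1 + c) / 2, c' / 2, G, ?_, hG, fun n => by simp only [hG']; ring⟩
    rw [abs_div, abs_div, abs_two]
    have := abs_add_le 1 c
    rw [abs_one] at this
    linarith
  · rintro N A G' ⟨c, c', G, hc, hG, hG'⟩
    exact ⟨1, 0, G, by simp, hG, fun n => by simp⟩
  · intro a c C ha hc hc1 hC
    obtain ⟨K, β, hK, hβ, H⟩ := E.main a c C ha hc hc1 hC
    refine ⟨K, β, hK, hβ, ?_⟩
    rintro N A G' z hN ⟨c, c', G, hc, hG, hG'⟩ hz1 hz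
    have hMR : (0 : ℝ) < M := by exact_mod_cast hM
    have hMC : (M : ℂ) ≠ 0 := by exact_mod_cast hMR.ne'
    have hA1 : 1 ≤ A := E.one_le N A G hG
    have h1 : ‖∑ n ∈ Icc 1 N, z n‖ ≤ K * A * (N : ℝ) ^ (1 - β) := by
      have h := H N A (fun _ => 1) z hN (E.unit N A G hG) hz1 hz
      simpa using h
    have h2 : ∀ l : ℕ, ‖∑ n ∈ Icc 1 N, (G n : ℂ) * (e ((l : ℝ) / M * n) * z n)‖ ≤ K * A * (N : ℝ) ^ (1 - β) := by
      intro l
      obtain ⟨hw1, hw2⟩ := e_twist ((l : ℝ) / M)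
      exact H N A G _ hN hG (fun n => by rw [norm_mul, hw1, one_mul]; exact hz1 n) (corr_twist hw2 hz)
    have h3 : ∑ n ∈ Icc 1 N, (((if (M : ℤ) ∣ n - b then G n else 0 : ℝ)) : ℂ) * z n =
        (1 / (M : ℂ)) * ∑ l ∈ range M, e (-(l * b / M)) * ∑ n ∈ Icc 1 N, (G n : ℂ) * (e ((l : ℝ) / M * n) * z n) := by
      simp only [mul_sum]
      rw [sum_comm]
      apply sum_congr rfl
      intro n _
      have e1 := root_sum hM ((n : ℤ) - b)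
      have e2 : ∀ l : ℕ, e (l * (((n : ℤ) - b : ℤ) : ℝ) / M) = e (-(l * b / M)) * e ((l : ℝ) / M * n) := by
        intro l
        rw [← e_add]; congr 1; push_cast; ring
      simp only [e2] at e1
      have e3 : ∑ l ∈ range M, 1 / (M : ℂ) * (e (-(l * b / M)) * ((G n : ℂ) * (e ((l : ℝ) / M * n) * z n))) =
          1 / (M : ℂ) * ((∑ l ∈ range M, e (-(l * b / M)) * e ((l : ℝ) / M * n)) * ((G n : ℂ) * z n)) := by
        rw [sum_mul, mul_sum]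
        apply sum_congr rfl
        intro l _
        ring
      rw [e3, e1]
      by_cases hd : (M : ℤ) ∣ n - b
      · rw [if_pos hd, if_pos hd]
        field_simp
      · rw [if_neg hd, if_neg hd]
        simp
    have h4 : ‖∑ n ∈ Icc 1 N, (((if (M : ℤ) ∣ n - b then G n else 0 : ℝ)) : ℂ) * z n‖ ≤ K * A * (N : ℝ) ^ (1 - β) := by
      rw [h3, norm_mul]
      have h5 : ‖∑ l ∈ range M, e (-(l * b / M)) * ∑ n ∈ Icc 1 N, (G n : ℂ) * (e ((l : ℝ) / M * n) * z n)‖ ≤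
          M * (K * A * (N : ℝ) ^ (1 - β)) := by
        refine (norm_sum_le _ _).trans ?_
        have h6 : ∀ l ∈ range M, ‖e (-(l * b / M)) * ∑ n ∈ Icc 1 N, (G n : ℂ) * (e ((l : ℝ) / M * n) * z n)‖ ≤
            K * A * (N : ℝ) ^ (1 - β) := by
          intro l _
          rw [norm_mul, e_norm, one_mul]
          exact h2 l
        refine (sum_le_sum h6).trans ?_
        rw [sum_const, card_range, nsmul_eq_mul]
      have h7 : ‖(1 / (M : ℂ))‖ = 1 / M := by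
        rw [norm_div, norm_one, Complex.norm_natCast]
      rw [h7]
      calc 1 / (M : ℝ) * _ ≤ 1 / M * (M * (K * A * (N : ℝ) ^ (1 - β))) := mul_le_mul_of_nonneg_left h5 (by positivity)
        _ = K * A * (N : ℝ) ^ (1 - β) := by field_simp
    have h8 : ∑ n ∈ Icc 1 N, (G' n : ℂ) * z n = c * ∑ n ∈ Icc 1 N, z n +
        c' * ∑ n ∈ Icc 1 N, (((if (M : ℤ) ∣ n - b then G n else 0 : ℝ)) : ℂ) * z n := by
      rw [mul_sum, mul_sum, ← sum_add_distrib]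
      apply sum_congr rfl
      intro n _
      rw [hG']
      push_cast
      ring
    rw [h8]
    refine (norm_add_le _ _).trans ?_
    rw [norm_mul, norm_mul, Complex.norm_real, Complex.norm_real, Real.norm_eq_abs, Real.norm_eq_abs]
    have h9 : 0 ≤ K * A * (N : ℝ) ^ (1 - β) := by positivity
    have h10 := mul_le_mul_of_nonneg_left h1 (abs_nonneg c)
    have h11 := mul_le_mul_of_nonneg_left h4 (abs_nonneg c')
    nlinarith

open Classical in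
/-- DISCREPANCY of polynomials in a residue class, weighted by `G` -/
theorem disc_mod {d : ℕ} {𝒢 : ℕ → ℝ → (ℕ → ℝ) → Prop} (E : Eng d 𝒢) {k : ℕ} (hk : 1 ≤ k) {α : ℝ} (hα : Dioph α)
    {M : ℕ} (hM : 1 ≤ M) (b : ℤ) : ∃ C c : ℝ, 0 ≤ C ∧ 0 < c ∧ c < 1 ∧
    ∀ (N : ℕ) (A : ℝ) (G : ℕ → ℝ), 1 ≤ N → 𝒢 N A G → ∀ P : ℝ[X], P.natDegree ≤ k + 1 →
      P.coeff (k + 1) = α → ∀ u v : ℝ, 0 ≤ u → u ≤ v → v ≤ 1 →
      |∑ n ∈ (Icc 1 N).filter (fun n : ℕ => (M : ℤ) ∣ n - b ∧ u ≤ Int.fract (P.eval (n : ℝ)) ∧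
          Int.fract (P.eval (n : ℝ)) < v), G n
        - (v - u) * ∑ n ∈ (Icc 1 N).filter (fun n : ℕ => (M : ℤ) ∣ n - b), G n| ≤ C * A * (N : ℝ) ^ (1 - c) := by
  obtain ⟨C, c, hC, hc, hc1, H⟩ := disc_gen (eng_mod E hM b) hk hα
  refine ⟨C, c, hC, hc, hc1, fun N A G hN hG P hP hPc u v hu huv hv => ?_⟩
  have h1 := H N A (fun n => if (M : ℤ) ∣ n - b then G n else 0) hN ⟨0, 1, G, by simp, hG, fun n => by ring⟩ P hP hPc u v hu huv hv
  have e1 : ∑ n ∈ (Icc 1 N).filter (fun n : ℕ => (M : ℤ) ∣ n - b ∧ u ≤ Int.fract (P.eval (n : ℝ)) ∧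
          Int.fract (P.eval (n : ℝ)) < v), G n = ∑ n ∈ (Icc 1 N).filter (fun n : ℕ => u ≤ Int.fract (P.eval (n : ℝ)) ∧
          Int.fract (P.eval (n : ℝ)) < v), (if (M : ℤ) ∣ n - b then G n else 0) := by
    rw [sum_filter, sum_filter]
    apply sum_congr rfl
    intro n _
    by_cases g1 : (M : ℤ) ∣ n - b
    · by_cases g2 : u ≤ Int.fract (P.eval (n : ℝ)) ∧ Int.fract (P.eval (n : ℝ)) < v
      · rw [if_pos ⟨g1, g2⟩, if_pos g2, if_pos g1]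
      · rw [if_neg (fun h => g2 h.2), if_neg g2]
    · rw [if_neg (fun h => g1 h.1)]
      split_ifs <;> rfl
  have e2 : ∑ n ∈ (Icc 1 N).filter (fun n : ℕ => (M : ℤ) ∣ n - b), G n = ∑ n ∈ Icc 1 N, (if (M : ℤ) ∣ n - b then G n else 0) := by
    rw [sum_filter]
  rw [e1, e2]
  exact h1

theorem ioc_sum (X : ℕ) (P : ℕ → Prop) [DecidablePred P] (G : ℕ → ℝ) : ∑ n ∈ (Ioc (X / 2) X).filter P, G n =
    ∑ n ∈ (Icc 1 X).filter P, G n - ∑ n ∈ (Icc 1 (X / 2)).filter P, G n := by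
  have h1 : (Icc 1 X) = (Icc 1 (X / 2)) ∪ (Ioc (X / 2) X) := by
    ext n
    simp only [mem_Icc, mem_union, mem_Ioc]
    omega
  have h2 : Disjoint (Icc 1 (X / 2)) (Ioc (X / 2) X) := by
    rw [disjoint_left]
    intro n h3 h4
    rw [mem_Icc] at h3
    rw [mem_Ioc] at h4
    omega
  rw [h1, filter_union, sum_union (disjoint_filter_filter h2)]
  ring

theorem GK_of {k s : ℤ} (hk : k % 2 = 1) (hs : s = 1 ∨ s = -1) {F : ℤ → ℝ} {N : ℕ} (hF : SyncK 2 m3 (rk k) N F) :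
    GK N (1 + |(k : ℝ)|) (fun n => F (s * n)) := ⟨k, s, F, hk, hs, hF, rfl, fun _ => rfl⟩

theorem pow_half {X : ℕ} (hX : 2 ≤ X) {c : ℝ} (hc : c ≤ 1) : ((X / 2 : ℕ) : ℝ) ^ (1 - c) ≤ (X : ℝ) ^ (1 - c) := by
  apply Real.rpow_le_rpow (Nat.cast_nonneg _) _ (by linarith)
  exact_mod_cast Nat.div_le_self X 2

/-- digit classes are rich -/
theorem rich_dig {ι : Type*} [Fintype ι] [DecidableEq ι] (q : ι → ℕ) (hq : ∀ i, 3 ≤ q i)
    (hqd : ∀ i, Nat.Coprime 2 (q i)) (hc : ∀ i j, i ≠ j → Nat.Coprime (q i) (q j)) (W : ι → ℕ → ℤ)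
    (hW : ∀ i, SA (q i) (W i)) (m : ι → ℕ) (hm : ∀ i, 1 ≤ m i) (hobs : ∀ i, obs (q i) (W i) (m i) = 1) {M : ℕ}
    (hM : 1 ≤ M) (a : ι → ℤ) (b : ℤ) : Rich (fun n => (M : ℤ) ∣ n - b) (Cl m W a M b) 0 := by
  classical
  obtain ⟨C, c, hC, hc0, H⟩ := kim_gen eng3 q hq hqd hc W hW m hm hM
  set c' : ℝ := min c 1 with hc'
  have hc'0 : 0 < c' := lt_min hc0 one_pos
  have hc'1 : c' ≤ 1 := min_le_right _ _
  have hc'c : c' ≤ c := min_le_left _ _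
  have hmR : ∀ i, (0 : ℝ) < m i := fun i => by exact_mod_cast hm i
  refine ⟨∏ i, (1 / (m i : ℝ)), 2 * C, c', prod_pos fun i _ => by have := hmR i; positivity, by positivity, hc'0, ?_⟩
  intro k hk s hs X hX F hF hF0
  have hcl : ∀ n : ℕ, Cl (fun i => obs (q i) (W i) (m i)) (fun i n => n * W i 1) a M b n ↔ (M : ℤ) ∣ n - b := by
    intro n
    unfold Cl
    simp only [hobs]
    simp
  have hp : ∏ i, ((obs (q i) (W i) (m i) : ℝ) / m i) = ∏ i, (1 / (m i : ℝ)) := by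
    simp only [hobs]
    simp
  have key : ∀ N : ℕ, 1 ≤ N → N ≤ X → X / 2 ≤ N → |∑ n ∈ (Icc 1 N).filter (fun n => Cl m W a M b n), F (s * n)
        - (∏ i, (1 / (m i : ℝ))) * ∑ n ∈ (Icc 1 N).filter (fun n : ℕ => (M : ℤ) ∣ n - b), F (s * n)|
        ≤ C * (1 + |(k : ℝ)|) * (X : ℝ) ^ (1 - c') := by
    intro N hN1 hN2 hN3
    have h1 := H N _ _ hN1 (GK_of hk hs (hF N hN3)) a b
    rw [hp] at h1
    have h2 : (Icc 1 N).filter (fun n => Cl (fun i => obs (q i) (W i) (m i)) (fun i n => n * W i 1) a M b n) =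
        (Icc 1 N).filter (fun n : ℕ => (M : ℤ) ∣ n - b) := filter_congr fun n _ => hcl n
    rw [h2] at h1
    refine h1.trans ?_
    apply mul_le_mul_of_nonneg_left _ (by positivity)
    have hNR : (1 : ℝ) ≤ N := by exact_mod_cast hN1
    calc (N : ℝ) ^ (1 - c) ≤ (N : ℝ) ^ (1 - c') := Real.rpow_le_rpow_of_exponent_le hNR (by linarith)
      _ ≤ (X : ℝ) ^ (1 - c') := Real.rpow_le_rpow (by linarith) (by exact_mod_cast hN2) (by linarith)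
  have k1 := (abs_le.1 (key X (by omega) le_rfl (Nat.div_le_self X 2))).1
  have k2 := (abs_le.1 (key (X / 2) (by omega) (Nat.div_le_self X 2) le_rfl)).2
  have g : (∏ i, (1 / (m i : ℝ))) * ∑ n ∈ (Ioc (X / 2) X).filter (fun n : ℕ => (M : ℤ) ∣ n - b), F (s * n) ≤
      ∑ n ∈ (Ioc (X / 2) X).filter (fun n => Cl m W a M b n), F (s * n) + 2 * C * (1 + |(k : ℝ)|) * (X : ℝ) ^ (1 - c') := by
    rw [ioc_sum, ioc_sum]
    linarith
  rw [neg_zero, Real.rpow_zero, mul_one]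
  convert g

/-- sparse sets of fractional parts are rich -/
theorem rich_pol {k : ℕ} (hk : 1 ≤ k) {α : ℝ} (hα : Dioph α) {M : ℕ} (hM : 1 ≤ M) (b : ℤ) : ∃ ν0 : ℝ, 0 < ν0 ∧ ν0 < 1 ∧
    ∀ P : ℝ[X], P.natDegree ≤ k + 1 → P.coeff (k + 1) = α → ∀ ν : ℝ, 0 ≤ ν → ν < ν0 →
      Rich (fun n => (M : ℤ) ∣ n - b) (fun n => (M : ℤ) ∣ n - b ∧ Int.fract (P.eval (n : ℝ)) < (n : ℝ) ^ (-ν)) ν := by
  classical
  obtain ⟨C, c, hC, hc0, hc1, H⟩ := disc_mod eng3 hk hα hM b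
  refine ⟨c, hc0, hc1, fun P hP hPc ν hν0 hν => ?_⟩
  refine ⟨1, 2 * C, c, one_pos, by positivity, hν, ?_⟩
  intro k hk s hs X hX F hF hF0
  have hXR : (1 : ℝ) ≤ X := by exact_mod_cast (by omega : 1 ≤ X)
  set w : ℝ := (X : ℝ) ^ (-ν) with hw
  have hw0 : 0 ≤ w := by positivity
  have hw1 : w ≤ 1 := Real.rpow_le_one_of_one_le_of_nonpos hXR (by linarith)
  have key : ∀ N : ℕ, 1 ≤ N → N ≤ X → X / 2 ≤ N →
      |∑ n ∈ (Icc 1 N).filter (fun n : ℕ => (M : ℤ) ∣ n - b ∧ 0 ≤ Int.fract (P.eval (n : ℝ)) ∧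
          Int.fract (P.eval (n : ℝ)) < w), F (s * n)
        - (w - 0) * ∑ n ∈ (Icc 1 N).filter (fun n : ℕ => (M : ℤ) ∣ n - b), F (s * n)| ≤ C * (1 + |(k : ℝ)|) * (X : ℝ) ^ (1 - c) := by
    intro N hN1 hN2 hN3
    refine (H N _ _ hN1 (GK_of hk hs (hF N hN3)) P hP hPc 0 w le_rfl hw0 hw1).trans ?_
    apply mul_le_mul_of_nonneg_left _ (by positivity)
    exact Real.rpow_le_rpow (Nat.cast_nonneg _) (by exact_mod_cast hN2) (by linarith)
  have k1 := (abs_le.1 (key X (by omega) le_rfl (Nat.div_le_self X 2))).1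
  have k2 := (abs_le.1 (key (X / 2) (by omega) (Nat.div_le_self X 2) le_rfl)).2
  have h3 : ∑ n ∈ (Ioc (X / 2) X).filter (fun n : ℕ => (M : ℤ) ∣ n - b ∧ 0 ≤ Int.fract (P.eval (n : ℝ)) ∧
          Int.fract (P.eval (n : ℝ)) < w), F (s * n) ≤ ∑ n ∈ (Ioc (X / 2) X).filter (fun n : ℕ => (M : ℤ) ∣ n - b ∧
          Int.fract (P.eval (n : ℝ)) < (n : ℝ) ^ (-ν)), F (s * n) := by
    apply sum_le_sum_of_subset_of_nonneg
    · intro n hn
      rw [mem_filter, mem_Ioc] at hn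
      rw [mem_filter, mem_Ioc]
      refine ⟨hn.1, hn.2.1, hn.2.2.2.trans_le ?_⟩
      have hn1 : 1 ≤ n := by omega
      have hnR : (0 : ℝ) < n := by exact_mod_cast hn1
      exact Real.rpow_le_rpow_of_nonpos hnR (by exact_mod_cast hn.1.2) (by linarith)
    · intro n _ _; exact hF0 _
  rw [ioc_sum] at h3
  have h4 : ∑ n ∈ (Ioc (X / 2) X).filter (fun n : ℕ => (M : ℤ) ∣ n - b), F (s * n) =
      ∑ n ∈ (Icc 1 X).filter (fun n : ℕ => (M : ℤ) ∣ n - b), F (s * n) -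
        ∑ n ∈ (Icc 1 (X / 2)).filter (fun n : ℕ => (M : ℤ) ∣ n - b), F (s * n) := ioc_sum _ _ _
  have g : (X : ℝ) ^ (-ν) * ∑ n ∈ (Ioc (X / 2) X).filter (fun n : ℕ => (M : ℤ) ∣ n - b), F (s * n) ≤
      ∑ n ∈ (Ioc (X / 2) X).filter (fun n : ℕ => (M : ℤ) ∣ n - b ∧
          Int.fract (P.eval (n : ℝ)) < (n : ℝ) ^ (-ν)), F (s * n) + 2 * C * (1 + |(k : ℝ)|) * (X : ℝ) ^ (1 - c) := by
    rw [h4]
    rw [sub_zero] at k1 k2
    linarith
  rw [one_mul]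
  convert g

end Pool.Agent.X266.CD
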