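import Pool.Agent.X266.CD.Col

/-! Predecessors in rich sets. -/

set_option autoImplicit false

namespace Pool.Agent.X266.CD

open Finset Pool.Agent.H319R3.GC Pool.Agent.Y55.DS Polynomial
open Pool.Agent.Y965.PS (Tz ac oc ac_succ main_id oc_nonneg)
open Pool.Agent.Y965.PL (ASync)

theorem oc_le3 (k x : ℤ) : ∀ t : ℕ, oc k t x ≤ 3 ^ t - 2 ^ t := by
  intro t
  induction t with
  | zero => simp [oc]
  | succ t ih =>
    have h1 : (2 : ℤ) ^ t ≤ 3 ^ t := pow_le_pow_left₀ (by norm_num) (by norm_num) t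
    have h2 : (3 : ℤ) ^ (t + 1) = 3 * 3 ^ t := by rw [pow_succ]; ring
    have h3 : (2 : ℤ) ^ (t + 1) = 2 * 2 ^ t := by rw [pow_succ]; ring
    have h4 : (0 : ℤ) < 2 ^ t := by positivity
    rw [h2, h3]
    unfold oc
    split_ifs
    · linarith
    · linarith

theorem early {k a x : ℤ} {i j N : ℕ} (hk : k % 2 = 1) (hij : i ≤ j)
    (h2 : (((2 : ℕ) : ℝ)) ^ j ≤ (N : ℝ) ^ (1 / 16 : ℝ)) (hN : 256 ≤ N) (ha : |(a : ℝ)| ≤ (N : ℝ) ^ (1 / 4 : ℝ))
    (hk' : |(k : ℝ)| ≤ (N : ℝ) ^ (1 / 4 : ℝ)) (hx : (N : ℝ) ^ (1 / 2 : ℝ) < |(x : ℝ)|) : (Tz k)^[i] x ≠ a := by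
  intro hcon
  have hNR : (256 : ℝ) ≤ N := by exact_mod_cast hN
  have hN0 : (0 : ℝ) ≤ N := by linarith
  set t : ℝ := (N : ℝ) ^ (1 / 16 : ℝ) with ht
  have ht0 : 0 ≤ t := by positivity
  have e4 : (N : ℝ) ^ (1 / 4 : ℝ) = t ^ 4 := by
    rw [ht, ← Real.rpow_natCast, ← Real.rpow_mul hN0]; norm_num
  have e8 : (N : ℝ) ^ (1 / 2 : ℝ) = t ^ 8 := by
    rw [ht, ← Real.rpow_natCast, ← Real.rpow_mul hN0]; norm_num
  have e16 : t ^ 16 = N := by
    rw [ht, ← Real.rpow_natCast, ← Real.rpow_mul hN0]; norm_num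
  have ht2 : 2 ≤ t ^ 2 := by
    by_contra hlt
    push Not at hlt
    have h1 : (t ^ 2) ^ 8 < 2 ^ 8 := pow_lt_pow_left₀ hlt (by positivity) (by norm_num)
    have h3 : (t ^ 2) ^ 8 = N := by rw [← pow_mul]; exact e16
    rw [h3] at h1
    norm_num at h1
    linarith
  rw [e4] at ha hk'
  rw [e8] at hx
  have h1 := main_id hk x i
  rw [hcon] at h1
  have h3 := oc_le3 k x i
  have h4 := oc_nonneg (d := k) x i
  have p2 : ((2 : ℝ)) ^ i ≤ t := by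
    have : ((2 : ℝ)) ^ i ≤ 2 ^ j := pow_le_pow_right₀ (by norm_num) hij
    have h5 : ((2 : ℝ)) ^ j ≤ t := by exact_mod_cast h2
    linarith
  have p3 : ((3 : ℝ)) ^ i ≤ t ^ 2 := by
    have h5 : ((3 : ℝ)) ^ i ≤ 4 ^ i := pow_le_pow_left₀ (by norm_num) (by norm_num) i
    have h6 : ((4 : ℝ)) ^ i = (2 ^ i) ^ 2 := by rw [← pow_mul, mul_comm, pow_mul]; norm_num
    rw [h6] at h5
    exact h5.trans (pow_le_pow_left₀ (by positivity) p2 2)
  have q1 : (3 : ℝ) ^ ac k i x * |(x : ℝ)| ≤ 2 ^ i * |(a : ℝ)| + |(k : ℝ)| * 3 ^ i := by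
    have h5 : ((3 : ℝ)) ^ ac k i x * x = 2 ^ i * a - k * oc k i x := by
      have : ((2 ^ i * a : ℤ) : ℝ) = ((3 ^ ac k i x * x + k * oc k i x : ℤ) : ℝ) := by rw [h1]
      push_cast at this
      linarith
    have h6 : (3 : ℝ) ^ ac k i x * |(x : ℝ)| = |((3 : ℝ)) ^ ac k i x * x| := by
      rw [abs_mul, abs_of_pos (by positivity : (0 : ℝ) < 3 ^ ac k i x)]
    have h7 : |((oc k i x : ℤ) : ℝ)| ≤ 3 ^ i := by
      rw [abs_of_nonneg (by exact_mod_cast h4)]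
      have h8 : ((oc k i x : ℤ) : ℝ) ≤ 3 ^ i - 2 ^ i := by exact_mod_cast h3
      have : (0 : ℝ) < 2 ^ i := by positivity
      linarith
    rw [h6, h5]
    refine (abs_sub _ _).trans ?_
    rw [abs_mul, abs_mul, abs_of_pos (by positivity : (0 : ℝ) < 2 ^ i)]
    exact add_le_add le_rfl (mul_le_mul_of_nonneg_left h7 (abs_nonneg _))
  have q2 : |(x : ℝ)| ≤ (3 : ℝ) ^ ac k i x * |(x : ℝ)| :=
    le_mul_of_one_le_left (abs_nonneg _) (one_le_pow₀ (by norm_num))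
  have q3 : (2 : ℝ) ^ i * |(a : ℝ)| ≤ t * t ^ 4 := mul_le_mul p2 ha (abs_nonneg _) ht0
  have q4 : |(k : ℝ)| * 3 ^ i ≤ t ^ 4 * t ^ 2 := mul_le_mul hk' p3 (by positivity) (by positivity)
  have ht1 : 1 ≤ t := by
    by_contra hlt
    push Not at hlt
    have : t ^ 2 ≤ 1 := pow_le_one₀ ht0 hlt.le
    linarith
  have q5 : t * t ^ 4 ≤ t ^ 6 := by
    have : t * t ^ 4 = t ^ 5 := by ring
    rw [this]
    exact pow_le_pow_right₀ ht1 (by norm_num)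
  have q6 : 2 * t ^ 6 ≤ t ^ 8 := by
    have : t ^ 8 = t ^ 2 * t ^ 6 := by ring
    rw [this]
    exact mul_le_mul_of_nonneg_right ht2 (by positivity)
  have q7 : t ^ 4 * t ^ 2 = t ^ 6 := by ring
  linarith

open Classical in
/-- `x` reaches `a` in at most `J` steps -/
noncomputable def FJ (k a : ℤ) (J : ℝ) (x : ℤ) : ℝ := if ∃ j : ℕ, (j : ℝ) ≤ J ∧ (Tz k)^[j] x = a then 1 else 0

theorem FJ_nonneg (k a : ℤ) (J : ℝ) (x : ℤ) : 0 ≤ FJ k a J x := by unfold FJ; split_ifs <;> norm_num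
theorem FJ_le (k a : ℤ) (J : ℝ) (x : ℤ) : FJ k a J x ≤ 1 := by unfold FJ; split_ifs <;> norm_num

theorem syncK_FJ {k a : ℤ} {J : ℝ} (hk : k % 2 = 1) {N : ℕ} (hN : 256 ≤ N) (ha : |(a : ℝ)| ≤ (N : ℝ) ^ (1 / 4 : ℝ))
    (hk' : |(k : ℝ)| ≤ (N : ℝ) ^ (1 / 4 : ℝ)) : SyncK 2 m3 (rk k) N (FJ k a J) := by
  refine ⟨fun x => by rw [abs_of_nonneg (FJ_nonneg _ _ _ _)]; exact FJ_le _ _ _ _, ?_⟩
  have key : ∀ (j : ℕ) (x y : ℤ), (((2 : ℕ) : ℝ)) ^ j ≤ (N : ℝ) ^ (1 / 16 : ℝ) → (N : ℝ) ^ (1 / 2 : ℝ) < |(x : ℝ)| →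
      (Tz k)^[j] x = (Tz k)^[j] y → (∃ i : ℕ, (i : ℝ) ≤ J ∧ (Tz k)^[i] x = a) →
      ∃ i : ℕ, (i : ℝ) ≤ J ∧ (Tz k)^[i] y = a := by
    rintro j x y h1 h2 h4 ⟨i, hi, hia⟩
    have hji : j < i := by
      by_contra hcon
      exact early hk (not_lt.1 hcon) h1 hN ha hk' h2 hia
    refine ⟨i, hi, ?_⟩
    have e : i = (i - j) + j := by omega
    rw [e, Function.iterate_add_apply] at hia ⊢
    rw [← h4]; exact hia
  intro j x y h1 h2 h3 h4 _
  rw [Tm_fun] at h4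
  unfold FJ
  by_cases h : ∃ i : ℕ, (i : ℝ) ≤ J ∧ (Tz k)^[i] x = a
  · rw [if_pos h, if_pos (key j x y h1 h2 h4 h)]
  · rw [if_neg h, if_neg fun h' => h (key j y x h1 h3 h4.symm h')]

open Classical in
/-- sets which contain their share, up to a power saving, of the integers of `B` with a given property -/
def Rich (B E : ℕ → Prop) (ν : ℝ) : Prop := ∃ ρ C b : ℝ, 0 < ρ ∧ 0 ≤ C ∧ ν < b ∧ ∀ k : ℤ, k % 2 = 1 → ∀ s : ℤ,
  (s = 1 ∨ s = -1) → ∀ X : ℕ, 2 ≤ X → ∀ F : ℤ → ℝ, (∀ N, X / 2 ≤ N → SyncK 2 m3 (rk k) N F) → (∀ x, 0 ≤ F x) →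
    ρ * (X : ℝ) ^ (-ν) * ∑ n ∈ (Ioc (X / 2) X).filter B, F (s * n) ≤
      ∑ n ∈ (Ioc (X / 2) X).filter E, F (s * n) + C * (1 + |(k : ℝ)|) * (X : ℝ) ^ (1 - b)

/-- the size of the data -/
noncomputable def sz (k a : ℤ) : ℝ := max |(a : ℝ)| |(k : ℝ)|

open Classical in
/-- many predecessors in `B` -/
def BaseLB (B : ℕ → Prop) (Q : ℤ → ℤ → Prop) : Prop := (∀ k a, Q k a → k % 2 = 1 ∧ a ≠ 0) ∧
  ∃ c C : ℝ, 0 < c ∧ c ≤ 1 ∧ 0 ≤ C ∧ ∀ k a, Q k a → ∀ X : ℕ, sz k a ≤ X → ∃ Y : ℕ, c * X / sz k a ≤ Y ∧ Y ≤ X ∧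
    c * Y / sz k a ^ 2 ≤ ∑ n ∈ (Ioc (Y / 2) Y).filter B, FJ k a (C * (1 + Real.log X)) (a.sign * n)

theorem sz_ge {k a : ℤ} (hk : k % 2 = 1) : 1 ≤ sz k a := by
  have h1 : (1 : ℤ) ≤ |k| := Int.one_le_abs (by rintro rfl; simp at hk)
  have h2 : (1 : ℝ) ≤ |(k : ℝ)| := by exact_mod_cast h1
  exact h2.trans (le_max_right _ _)

open Classical in
/-- PREDECESSORS IN RICH SETS -/
theorem Rich.pred {B E : ℕ → Prop} {ν : ℝ} {Q : ℤ → ℤ → Prop} (hR : Rich B E ν) (hB : BaseLB B Q) {θ C0 : ℝ}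
    (hθ : 0 < θ) (hC0 : 0 ≤ C0) : ∃ K : ℝ, 1 ≤ K ∧ ∀ k a, Q k a → ∀ Bad : ℕ → Prop,
      (∀ X : ℕ, 1 ≤ X → (((Icc 1 X).filter (fun n => E n ∧ Bad n)).card : ℝ) ≤ C0 * (X : ℝ) ^ (1 - ν - θ)) →
      ∃ z : ℕ, 1 ≤ z ∧ E z ∧ ¬ Bad z ∧ (z : ℝ) ≤ K * sz k a ^ K ∧ |(a : ℝ)| ≤ z ∧
        ∃ j : ℕ, (j : ℝ) ≤ K * (1 + Real.log (sz k a)) ∧ (Tz k)^[j] (a.sign * z) = a := by
  obtain ⟨ρ, C, b, hρ, hC, hb, HR⟩ := hR
  obtain ⟨hQ, c, CB, hc, hc1, hCB, HB⟩ := hB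
  set τ : ℝ := min (b - ν) θ with hτ
  have hτ0 : 0 < τ := lt_min (by linarith) hθ
  have hτ1 : τ ≤ b - ν := min_le_left _ _
  have hτ2 : τ ≤ θ := min_le_right _ _
  set M : ℝ := (2 * C + C0 + 1) / (ρ * c) with hM
  have hM0 : 0 < M := by positivity
  set D : ℝ := (M ^ (1 / τ) + 1100) / c with hD
  have hMt : 0 ≤ M ^ (1 / τ) := by positivity
  have hD1 : 1100 ≤ D := by
    rw [hD, le_div_iff₀ hc]; nlinarith
  set P : ℝ := 5 + 3 / τ with hP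
  have hP5 : 5 ≤ P := by rw [hP]; have : 0 ≤ 3 / τ := by positivity
                         linarith
  have hlog : 0 ≤ Real.log (2 * D) := Real.log_nonneg (by linarith)
  refine ⟨max (max (2 * D) P) (CB * (1 + Real.log (2 * D) + P)), (by linarith : (1 : ℝ) ≤ 2 * D).trans
    ((le_max_left _ _).trans (le_max_left _ _)), ?_⟩
  set K := max (max (2 * D) P) (CB * (1 + Real.log (2 * D) + P)) with hK
  have hK1 : 2 * D ≤ K := (le_max_left _ _).trans (le_max_left _ _)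
  have hK2 : P ≤ K := (le_max_right _ _).trans (le_max_left _ _)
  have hK3 : CB * (1 + Real.log (2 * D) + P) ≤ K := le_max_right _ _
  intro k a hQka Bad hBad
  obtain ⟨hk, ha0⟩ := hQ k a hQka
  set A := sz k a with hA
  have hA1 : 1 ≤ A := sz_ge hk
  have hA0 : 0 < A := by linarith
  have haA : |(a : ℝ)| ≤ A := le_max_left _ _
  have hkA : |(k : ℝ)| ≤ A := le_max_right _ _
  have hlA : 0 ≤ Real.log A := Real.log_nonneg hA1
  set X : ℕ := ⌈D * A ^ P⌉₊ with hX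
  have hAP : 1 ≤ A ^ P := Real.one_le_rpow hA1 (by linarith)
  have hX1 : D * A ^ P ≤ X := Nat.le_ceil _
  have hX2 : (X : ℝ) ≤ 2 * D * A ^ P := by
    have h1 := (Nat.ceil_lt_add_one (by positivity : 0 ≤ D * A ^ P)).le
    rw [← hX] at h1
    nlinarith
  have hAX : A ≤ X := by
    have h1 : A ≤ A ^ P := by
      calc A = A ^ (1 : ℝ) := (Real.rpow_one A).symm
        _ ≤ A ^ P := Real.rpow_le_rpow_of_exponent_le hA1 (by linarith)
    nlinarith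
  have hX0 : (0 : ℝ) < X := by linarith
  obtain ⟨Y, hY1, hY2, hY3⟩ := HB k a hQka X hAX
  have hY2' : (Y : ℝ) ≤ X := by exact_mod_cast hY2
  -- the size of `Y`
  have hYb : (M ^ (1 / τ) + 1100) * A ^ (P - 1) ≤ Y := by
    refine le_trans ?_ hY1
    rw [← hA, le_div_iff₀ hA0]
    have e1 : A ^ (P - 1) * A = A ^ P := by
      rw [Real.rpow_sub_one hA0.ne']; field_simp
    have e2 : c * (D * A ^ P) = (M ^ (1 / τ) + 1100) * A ^ P := by rw [hD]; field_simp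
    calc (M ^ (1 / τ) + 1100) * A ^ (P - 1) * A = (M ^ (1 / τ) + 1100) * A ^ P := by rw [mul_assoc, e1]
      _ = c * (D * A ^ P) := e2.symm
      _ ≤ c * X := mul_le_mul_of_nonneg_left hX1 hc.le
  have hA4 : A ^ (4 : ℕ) ≤ A ^ (P - 1) := by
    rw [← Real.rpow_natCast]
    exact Real.rpow_le_rpow_of_exponent_le hA1 (by push_cast; linarith)
  have hA3t : A ^ (3 / τ) ≤ A ^ (P - 1) := Real.rpow_le_rpow_of_exponent_le hA1 (by rw [hP]; linarith)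
  have hA41 : 1 ≤ A ^ (4 : ℕ) := one_le_pow₀ hA1
  have hY1100 : 1100 * A ^ (4 : ℕ) ≤ Y := by
    have h1 : 0 ≤ M ^ (1 / τ) * A ^ (P - 1) := by positivity
    have h2 := mul_le_mul_of_nonneg_left hA4 (by norm_num : (0 : ℝ) ≤ 1100)
    linarith
  have hYM : M ^ (1 / τ) * A ^ (3 / τ) ≤ Y := by
    have h1 : 0 ≤ 1100 * A ^ (P - 1) := by positivity
    have h2 := mul_le_mul_of_nonneg_left hA3t hMt
    linarith
  have hYR : (1 : ℝ) ≤ Y := by nlinarith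
  have hY0 : (0 : ℝ) < Y := by linarith
  have hYt : M * A ^ (3 : ℕ) ≤ (Y : ℝ) ^ τ := by
    have h1 := Real.rpow_le_rpow (by positivity) hYM hτ0.le
    rw [Real.mul_rpow (by positivity) (by positivity), ← Real.rpow_mul hM0.le, ← Real.rpow_mul hA0.le, one_div,
      inv_mul_cancel₀ hτ0.ne', Real.rpow_one, div_mul_cancel₀ _ hτ0.ne'] at h1
    rw [← Real.rpow_natCast]
    exact_mod_cast h1
  have hYn : 1100 ≤ Y := by
    have : (1100 : ℝ) ≤ Y := by nlinarith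
    exact_mod_cast this
  have hhalf : ∀ N : ℕ, Y / 2 ≤ N → 256 ≤ N ∧ A ≤ (N : ℝ) ^ (1 / 4 : ℝ) := by
    intro N hN
    refine ⟨by omega, ?_⟩
    have h1 : Y < 2 * (N + 1) := by omega
    have h2 : (Y : ℝ) < 2 * (N + 1) := by exact_mod_cast h1
    have h3 : A ^ (4 : ℕ) ≤ N := by nlinarith
    have h4 : (A ^ (4 : ℕ)) ^ (1 / 4 : ℝ) = A := by
      rw [← Real.rpow_natCast, ← Real.rpow_mul hA0.le]; norm_num
    rw [← h4]
    exact Real.rpow_le_rpow (by positivity) h3 (by norm_num)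
  set J : ℝ := CB * (1 + Real.log X) with hJ
  have hsa : a.sign = 1 ∨ a.sign = -1 := by
    rcases lt_or_gt_of_ne ha0 with h | h
    · right; exact Int.sign_eq_neg_one_of_neg h
    · left; exact Int.sign_eq_one_of_pos h
  have hrich := HR k hk a.sign hsa Y (by omega) (FJ k a J)
    (fun N hN => syncK_FJ hk (hhalf N hN).1 (haA.trans (hhalf N hN).2) (hkA.trans (hhalf N hN).2)) (FJ_nonneg _ _ _)
  by_contra hcon
  push Not at hcon
  -- all are bad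
  have hbad : ∑ n ∈ (Ioc (Y / 2) Y).filter E, FJ k a J (a.sign * n) ≤ C0 * (Y : ℝ) ^ (1 - ν - θ) := by
    refine le_trans ?_ (hBad Y (by omega))
    rw [card_eq_sum_ones, Nat.cast_sum]
    have h1 : ∑ n ∈ (Ioc (Y / 2) Y).filter E, FJ k a J (a.sign * n) ≤
        ∑ n ∈ ((Ioc (Y / 2) Y).filter E).filter (fun n => Bad n), (1 : ℝ) := by
      rw [sum_filter (fun n => Bad n)]
      apply sum_le_sum
      intro n hn
      rw [mem_filter, mem_Ioc] at hn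
      split_ifs with hbn
      · exact FJ_le _ _ _ _
      · unfold FJ
        rw [if_neg]
        rintro ⟨j, hj, hja⟩
        have hn1 : 1 ≤ n := by omega
        have hnY : (n : ℝ) ≤ Y := by exact_mod_cast hn.1.2
        refine hcon n hn1 hn.2 hbn ?_ ?_ j ?_ hja
        · calc (n : ℝ) ≤ X := hnY.trans hY2'
            _ ≤ 2 * D * A ^ P := hX2
            _ ≤ K * A ^ P := mul_le_mul_of_nonneg_right hK1 (by positivity)
            _ ≤ K * A ^ K := mul_le_mul_of_nonneg_left (Real.rpow_le_rpow_of_exponent_le hA1 hK2) (by linarith)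
        · have h5 : Y < 2 * n := by omega
          have h6 : (Y : ℝ) < 2 * n := by exact_mod_cast h5
          have h7 : A ≤ A ^ (4 : ℕ) := le_self_pow₀ hA1 (by norm_num)
          linarith
        · have k1 : J ≤ CB * (1 + Real.log (2 * D) + P * Real.log A) := by
            rw [hJ]
            apply mul_le_mul_of_nonneg_left _ hCB
            have h5 := Real.log_le_log hX0 hX2
            rw [Real.log_mul (by positivity) (by positivity), Real.log_rpow hA0] at h5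
            linarith
          have h5 : CB * (1 + Real.log (2 * D) + P * Real.log A) ≤ CB * ((1 + Real.log (2 * D) + P) * (1 + Real.log A)) := by
            apply mul_le_mul_of_nonneg_left _ hCB
            nlinarith
          rw [← mul_assoc] at h5
          exact (hj.trans k1).trans (h5.trans (mul_le_mul_of_nonneg_right hK3 (by linarith)))
    refine h1.trans ?_
    push_cast
    apply sum_le_sum_of_subset_of_nonneg
    · intro n hn
      rw [mem_filter, mem_filter, mem_Ioc] at hn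
      rw [mem_filter, mem_Icc]
      exact ⟨⟨by omega, hn.1.1.2⟩, hn.1.2, hn.2⟩
    · intro n _ _; norm_num
  -- the final contradiction
  have hYν : 0 < (Y : ℝ) ^ (-ν) := by positivity
  have f1 : ρ * (Y : ℝ) ^ (-ν) * (c * Y / A ^ 2) ≤ C0 * (Y : ℝ) ^ (1 - ν - θ) + C * (1 + |(k : ℝ)|) * (Y : ℝ) ^ (1 - b) := by
    have h1 := mul_le_mul_of_nonneg_left hY3 (by positivity : 0 ≤ ρ * (Y : ℝ) ^ (-ν))
    linarith
  set Z : ℝ := (Y : ℝ) ^ (1 - ν) with hZ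
  have hZ0 : 0 < Z := by positivity
  have z1 : (Y : ℝ) ^ (-ν) * Y = Z := by
    rw [hZ, sub_eq_neg_add, Real.rpow_add hY0, Real.rpow_one]
  have z2 : (Y : ℝ) ^ (1 - ν - θ) ≤ Z * (Y : ℝ) ^ (-τ) := by
    rw [hZ, ← Real.rpow_add hY0]
    exact Real.rpow_le_rpow_of_exponent_le hYR (by linarith)
  have z3 : (Y : ℝ) ^ (1 - b) ≤ Z * (Y : ℝ) ^ (-τ) := by
    rw [hZ, ← Real.rpow_add hY0]
    exact Real.rpow_le_rpow_of_exponent_le hYR (by linarith)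
  have z4 : 1 + |(k : ℝ)| ≤ 2 * A := by linarith
  set T : ℝ := (Y : ℝ) ^ (-τ) with hT
  have hT0 : 0 < T := by positivity
  have f2 : ρ * c * Z / A ^ 2 ≤ (C0 + 2 * C) * A * (Z * T) := by
    have h1 : ρ * (Y : ℝ) ^ (-ν) * (c * Y / A ^ 2) = ρ * c * Z / A ^ 2 := by
      rw [← z1]; ring
    rw [h1] at f1
    have h2 : C0 * (Y : ℝ) ^ (1 - ν - θ) ≤ C0 * A * (Z * T) := by
      have h3 : C0 * (Y : ℝ) ^ (1 - ν - θ) ≤ C0 * (Z * T) := mul_le_mul_of_nonneg_left z2 hC0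
      have h4 : C0 * (Z * T) ≤ C0 * A * (Z * T) := by
        rw [mul_assoc]
        apply mul_le_mul_of_nonneg_left _ hC0
        exact le_mul_of_one_le_left (by positivity) hA1
      linarith
    have h5 : C * (1 + |(k : ℝ)|) * (Y : ℝ) ^ (1 - b) ≤ C * (2 * A) * (Z * T) :=
      mul_le_mul (mul_le_mul_of_nonneg_left z4 hC) z3 (by positivity) (by positivity)
    nlinarith
  have f3 : ρ * c ≤ (C0 + 2 * C) * A ^ 3 * T := by
    rw [div_le_iff₀ (by positivity)] at f2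
    have h1 : (C0 + 2 * C) * A * (Z * T) * A ^ 2 = ((C0 + 2 * C) * A ^ 3 * T) * Z := by ring
    rw [h1] at f2
    exact le_of_mul_le_mul_right f2 hZ0
  have f4 : (Y : ℝ) ^ τ * T = 1 := by
    rw [hT, ← Real.rpow_add hY0, add_neg_cancel, Real.rpow_zero]
  have f5 : ρ * c * (Y : ℝ) ^ τ ≤ (C0 + 2 * C) * A ^ 3 := by
    have h1 := mul_le_mul_of_nonneg_right f3 (by positivity : 0 ≤ (Y : ℝ) ^ τ)
    have h2 : (C0 + 2 * C) * A ^ 3 * T * (Y : ℝ) ^ τ = (C0 + 2 * C) * A ^ 3 * ((Y : ℝ) ^ τ * T) := by ring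
    rw [h2, f4, mul_one] at h1
    exact h1
  have f6 : (2 * C + C0 + 1) * A ^ 3 ≤ ρ * c * (Y : ℝ) ^ τ := by
    have h1 := mul_le_mul_of_nonneg_left hYt (by positivity : 0 ≤ ρ * c)
    have h2 : ρ * c * (M * A ^ (3 : ℕ)) = (2 * C + C0 + 1) * A ^ 3 := by rw [hM]; field_simp
    rw [h2] at h1
    exact h1
  have f7 : 0 < A ^ 3 := by positivity
  nlinarith

end Pool.Agent.X266.CD
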