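import Pool.Agent.X266.CD.Cor2
import Pool.Agent.W33.Coll.Main

/-! Large total stopping times in a class and among all integers. -/

set_option autoImplicit false

namespace Pool.Agent.X266.CD

open Finset Filter Topology Pool.Agent.Y965.PL
open Pool.Agent.H499R2.HL (H H_unique)
open Pool.Agent.H499R2.LT (odn)
open Pool.Agent.H499R2.ND (Phi Phi_continuous Tn)

/-- the total stopping time is larger than `t` or infinite -/
def Slow (t : ℝ) (n : ℕ) : Prop := ¬ ∃ k, H k n ∧ (k : ℝ) ≤ t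

theorem Slow.mono {s t : ℝ} (h : s ≤ t) {n : ℕ} (hn : Slow t n) : Slow s n := by
  rintro ⟨k, hk, hk1⟩
  exact hn ⟨k, hk, hk1.trans h⟩

theorem TrF.slow {w v : ℕ → ℝ} {ρ err : ℝ} {N : ℕ} (h : TrF w v ρ err N) (t : ℝ) :
    Tr w v ρ err N (ind (Slow t)) := by
  classical
  have h1 := h (fun k _ => if (k : ℝ) ≤ t then 0 else 1) 1 (fun k o => by split_ifs <;> simp) (by simp)
  have e : Fg (fun k _ => if (k : ℝ) ≤ t then (0 : ℝ) else 1) 1 = ind (Slow t) := by
    funext n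
    by_cases hn : ∃ k, H k n
    · obtain ⟨k, hk⟩ := hn
      rw [Fg_H hk]
      by_cases hkt : (k : ℝ) ≤ t
      · rw [if_pos hkt, ind_neg (P := Slow t) (fun h => h ⟨k, hk, hkt⟩)]
      · rw [if_neg hkt, ind_pos (P := Slow t)]
        rintro ⟨k', hk', hk't⟩
        rw [H_unique hk' hk] at hk't
        exact hkt hk't
    · rw [Fg_not hn, ind_pos (P := Slow t)]
      rintro ⟨k, hk, _⟩
      exact hn ⟨k, hk⟩
  rw [e] at h1
  exact h1

theorem not_fast {c : ℝ} {n : ℕ} : ¬ Pool.Agent.W33.Coll.Fast c n ↔ Slow (c * Real.log n) n := by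
  classical
  unfold Slow Pool.Agent.W33.Coll.Fast
  rw [not_iff_not]
  constructor
  · rintro ⟨k, hk, hk1⟩
    have hex : ∃ k, Tn^[k] n = 1 := ⟨k, hk1⟩
    refine ⟨Nat.find hex, ⟨Nat.find_spec hex, fun l hl => Nat.find_min hex hl⟩, ?_⟩
    have h3 : Nat.find hex ≤ k := Nat.find_min' hex hk1
    have h2 : ((Nat.find hex : ℕ) : ℝ) ≤ k := by exact_mod_cast h3
    linarith
  · rintro ⟨k, hk, hk2⟩
    exact ⟨k, hk2, hk.1⟩

/-- from a class to all integers, at the scale of `X` -/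
theorem block {w : ℕ → ℝ} {ρ C A c d : ℝ} (hρ : 0 < ρ) (hw : ∀ n, 0 ≤ w n) (hc : 0 ≤ c) {X : ℕ}
    (hT : TrF w (fun _ => 1) ρ (C * (X : ℝ) ^ (1 - d)) X)
    (hA : ∑ n ∈ Icc 1 X, w n * ind (fun n : ℕ => Slow (c * Real.log n) n) n ≤ A * (X : ℝ) ^ (1 - d)) :
    ∑ n ∈ Icc 1 X, ind (Slow (c * Real.log X)) n ≤ (A + C) / ρ * (X : ℝ) ^ (1 - d) := by
  have h1 := hT.slow (c * Real.log X)
  unfold Tr at h1
  simp only [one_mul] at h1
  have h2 : ∑ n ∈ Icc 1 X, w n * ind (Slow (c * Real.log X)) n ≤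
      ∑ n ∈ Icc 1 X, w n * ind (fun n : ℕ => Slow (c * Real.log n) n) n := by
    apply sum_le_sum
    intro n hn
    rw [mem_Icc] at hn
    apply mul_le_mul_of_nonneg_left _ (hw n)
    apply ind_mono
    intro h
    refine h.mono (mul_le_mul_of_nonneg_left ?_ hc)
    exact Real.log_le_log (by exact_mod_cast hn.1) (by exact_mod_cast hn.2)
  have h3 := (abs_le.1 h1).1
  rw [div_mul_eq_mul_div, le_div_iff₀ hρ]
  linarith

/-- dyadic induction -/
theorem bad_count {B d c c' : ℝ} (hd : d ≤ 1 / 2) (hc' : 0 ≤ c') (hcc : c < c')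
    (h : ∀ X : ℕ, 1 ≤ X → ∑ n ∈ Icc 1 X, ind (Slow (c * Real.log X)) n ≤ B * (X : ℝ) ^ (1 - d)) :
    ∃ B' : ℝ, 0 ≤ B' ∧ ∀ X : ℕ, ∑ n ∈ Icc 1 X, ind (fun n : ℕ => Slow (c' * Real.log n) n) n ≤ B' * (X : ℝ) ^ (1 - d) := by
  obtain ⟨X1, hX1⟩ := (tlog.eventually_ge_atTop (c' * Real.log 2 / (c' - c))).exists_forall_of_atTop
  refine ⟨max (4 * B) (X1 + 1), le_trans (by positivity) (le_max_right _ _), ?_⟩
  set B' : ℝ := max (4 * B) (X1 + 1) with hB'
  have hB1 : 4 * B ≤ B' := le_max_left _ _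
  have hB2 : (X1 : ℝ) + 1 ≤ B' := le_max_right _ _
  have hB0 : 0 ≤ B' := le_trans (by positivity) hB2
  intro X
  induction X using Nat.strong_induction_on with
  | _ X ih =>
  rcases Nat.eq_zero_or_pos X with h0 | h0
  · subst h0
    simp only [show Icc 1 0 = (∅ : Finset ℕ) from rfl, sum_empty]
    positivity
  have hX0 : (1 : ℝ) ≤ X := by exact_mod_cast h0
  have hp1 : 1 ≤ (X : ℝ) ^ (1 - d) := Real.one_le_rpow hX0 (by linarith)
  rcases le_or_gt X X1 with h1 | h1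
  · have h2 : ∑ n ∈ Icc 1 X, ind (fun n : ℕ => Slow (c' * Real.log n) n) n ≤ ∑ n ∈ Icc 1 X, (1 : ℝ) :=
      sum_le_sum fun n _ => ind_le_one _ n
    rw [sum_const, Nat.card_Icc, Nat.add_sub_cancel, nsmul_eq_mul, mul_one] at h2
    have h3 : (X : ℝ) ≤ X1 := by exact_mod_cast h1
    nlinarith
  · have h2 := ih (X / 2) (Nat.div_lt_self h0 (by norm_num))
    have h3 := hX1 X h1.le
    have hsplit : Icc 1 X = Icc 1 (X / 2) ∪ Ioc (X / 2) X := by
      ext n
      simp only [mem_Icc, mem_union, mem_Ioc]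
      omega
    have hdisj : Disjoint (Icc 1 (X / 2)) (Ioc (X / 2) X) := by
      rw [Finset.disjoint_left]
      intro n
      simp only [mem_Icc, mem_Ioc]
      omega
    rw [hsplit, sum_union hdisj]
    have h4 : ∑ n ∈ Ioc (X / 2) X, ind (fun n : ℕ => Slow (c' * Real.log n) n) n ≤
        ∑ n ∈ Icc 1 X, ind (Slow (c * Real.log X)) n := by
      have h5 : ∑ n ∈ Ioc (X / 2) X, ind (fun n : ℕ => Slow (c' * Real.log n) n) n ≤
          ∑ n ∈ Ioc (X / 2) X, ind (Slow (c * Real.log X)) n := by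
        apply sum_le_sum
        intro n hn
        rw [mem_Ioc] at hn
        apply ind_mono
        intro h
        refine h.mono ?_
        rw [div_le_iff₀ (by linarith)] at h3
        have h6 : (X : ℝ) / 2 ≤ n := by
          rw [div_le_iff₀ (by norm_num)]
          exact_mod_cast (by omega : X ≤ n * 2)
        have h7 := Real.log_le_log (by linarith) h6
        rw [Real.log_div (by linarith) (by norm_num)] at h7
        have h8 := mul_le_mul_of_nonneg_left h7 hc'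
        linarith
      refine h5.trans (sum_le_sum_of_subset_of_nonneg ?_ fun n _ _ => ind_nonneg _ n)
      intro n hn
      rw [mem_Ioc] at hn
      rw [mem_Icc]
      omega
    have h9 : ((X / 2 : ℕ) : ℝ) ^ (1 - d) ≤ 3 / 4 * (X : ℝ) ^ (1 - d) := by
      have e1 : ((X / 2 : ℕ) : ℝ) ≤ (1 / 2) * X := by
        have := Nat.cast_div_le (α := ℝ) (m := X) (n := 2)
        push_cast at this
        linarith
      have e2 := Real.rpow_le_rpow (Nat.cast_nonneg _) e1 (show (0 : ℝ) ≤ 1 - d by linarith)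
      rw [Real.mul_rpow (by norm_num) (by linarith)] at e2
      have e3 : (1 / 2 : ℝ) ^ (1 - d) ≤ (1 / 2 : ℝ) ^ (1 / 2 : ℝ) :=
        Real.rpow_le_rpow_of_exponent_ge (by norm_num) (by norm_num) (by linarith)
      have e4 : (1 / 2 : ℝ) ^ (1 / 2 : ℝ) ≤ 3 / 4 := by
        rw [← Real.sqrt_eq_rpow]
        exact Real.sqrt_le_iff.2 ⟨by norm_num, by norm_num⟩
      have e5 := mul_le_mul_of_nonneg_right (e3.trans e4) (show (0 : ℝ) ≤ (X : ℝ) ^ (1 - d) by positivity)
      linarith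
    have h10 := h X h0
    have h11 := mul_le_mul_of_nonneg_left h9 hB0
    have h12 := mul_le_mul_of_nonneg_right hB1 (show (0 : ℝ) ≤ (X : ℝ) ^ (1 - d) by positivity)
    linarith

theorem inv_univ : Pool.Agent.W33.Coll.Inv Set.univ := fun _ _ => Iff.rfl

/-- exceptions in a class and all integers -/
theorem fast_of_class {w : ℕ → ℝ} {ρ C c0 : ℝ} (hρ : 0 < ρ) (hC : 0 ≤ C) (hc0 : 0 < c0) (hw : ∀ n, 0 ≤ w n ∧ w n ≤ 1)
    (hT : ∀ N : ℕ, 1 ≤ N → TrF w (fun _ => 1) ρ (C * (N : ℝ) ^ (1 - c0)) N) {c δ : ℝ}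
    (hc : 2 / Real.log (4 / 3) < c) (hδ : 0 < δ)
    (h : ∀ᶠ X : ℕ in atTop, ∑ n ∈ Icc 1 X, w n * ind (fun n : ℕ => Slow (c * Real.log n) n) n ≤ (X : ℝ) ^ (1 - δ))
    {ε : ℝ} (hε : 0 < ε) : ∃ N1 : ℕ, ∀ n, N1 ≤ n → Pool.Agent.W33.Coll.Fast
      (2 / Real.log (4 / 3) + (c - 2 / Real.log (4 / 3)) / min δ (min c0 (1 / 2)) + ε) n := by
  have hν := nu_pos'
  have hμ0 : 0 < 2 / Real.log (4 / 3) := by positivity
  set μ := 2 / Real.log (4 / 3) with hμ
  set d := min δ (min c0 (1 / 2)) with hd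
  have hd0 : 0 < d := lt_min hδ (lt_min hc0 (by norm_num))
  have hd1 : d ≤ δ := min_le_left _ _
  have hd2 : d ≤ c0 := (min_le_right _ _).trans (min_le_left _ _)
  have hd3 : d ≤ 1 / 2 := (min_le_right _ _).trans (min_le_right _ _)
  obtain ⟨X0, hX0⟩ := h.exists_forall_of_atTop
  set K := (c - μ) / d with hK
  have hK0 : 0 < K := div_pos (by linarith) hd0
  have hKd : K * d = c - μ := by rw [hK]; field_simp
  set c' := c + d * ε / 8 with hc'
  have hcc : c < c' := by rw [hc']; have : 0 < d * ε / 8 := by positivity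
                          linarith
  set d' := (c' - μ) / (K + ε / 2) with hd'
  have hd'0 : 0 < d' := div_pos (by linarith) (by positivity)
  have hd'1 : d' < d := by
    rw [hd', div_lt_iff₀ (by positivity)]
    have : 0 < d * ε := by positivity
    nlinarith
  have hq : (c' - μ) / d' = K + ε / 2 := by
    rw [hd', div_div_eq_mul_div, mul_comm, mul_div_assoc, div_self (by linarith), mul_one]
  -- all `X`
  have hall : ∀ X : ℕ, 1 ≤ X → ∑ n ∈ Icc 1 X, w n * ind (fun n : ℕ => Slow (c * Real.log n) n) n ≤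
      ((X0 : ℝ) + 1) * (X : ℝ) ^ (1 - d) := by
    intro X hX
    have hX1 : (1 : ℝ) ≤ X := by exact_mod_cast hX
    have hp1 : 1 ≤ (X : ℝ) ^ (1 - d) := Real.one_le_rpow hX1 (by linarith)
    have hXN : (0 : ℝ) ≤ X0 := Nat.cast_nonneg _
    rcases le_or_gt X0 X with h1 | h1
    · have h2 := hX0 X h1
      have h3 : (X : ℝ) ^ (1 - δ) ≤ (X : ℝ) ^ (1 - d) := Real.rpow_le_rpow_of_exponent_le hX1 (by linarith)
      nlinarith
    · have h2 : ∑ n ∈ Icc 1 X, w n * ind (fun n : ℕ => Slow (c * Real.log n) n) n ≤ ∑ n ∈ Icc 1 X, (1 : ℝ) := by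
        apply sum_le_sum
        intro n _
        have i1 := ind_le_one (fun n : ℕ => Slow (c * Real.log n) n) n
        have i2 := ind_nonneg (fun n : ℕ => Slow (c * Real.log n) n) n
        obtain ⟨i3, i4⟩ := hw n
        nlinarith
      rw [sum_const, Nat.card_Icc, Nat.add_sub_cancel, nsmul_eq_mul, mul_one] at h2
      have h3 : (X : ℝ) ≤ X0 := by exact_mod_cast h1.le
      nlinarith
  have hblock : ∀ X : ℕ, 1 ≤ X → ∑ n ∈ Icc 1 X, ind (Slow (c * Real.log X)) n ≤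
      ((X0 : ℝ) + 1 + C) / ρ * (X : ℝ) ^ (1 - d) := by
    intro X hX
    have hX1 : (1 : ℝ) ≤ X := by exact_mod_cast hX
    refine block hρ (fun n => (hw n).1) (by linarith) ?_ (hall X hX)
    intro g g0 hg hg0
    refine (hT X hX g g0 hg hg0).trans (mul_le_mul_of_nonneg_left ?_ hC)
    exact Real.rpow_le_rpow_of_exponent_le hX1 (by linarith)
  obtain ⟨B', hB', hbad⟩ := bad_count hd3 (show 0 ≤ c' by linarith) hcc hblock
  obtain ⟨Y, hY⟩ := (((tendsto_rpow_atTop (show 0 < d - d' by linarith)).eventually_ge_atTop B').and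
    (eventually_ge_atTop 1)).exists_forall_of_atTop
  obtain ⟨N1, hN1⟩ := Pool.Agent.W33.Coll.transfer inv_univ (c := c') (δ := d') (ε := ε / 2) (H := 1) (by linarith)
    hd'0 (by linarith) (by positivity) ⟨Y, fun x hx => by
      obtain ⟨g1, g2⟩ := hY x hx
      have e : Pool.Agent.W33.Coll.Bad Set.univ c' 1 x =
          {n : ℕ | 1 ≤ n ∧ n ≤ ⌊x⌋₊ ∧ Slow (c' * Real.log n) n} := by
        ext n
        unfold Pool.Agent.W33.Coll.Bad
        simp only [Set.mem_ofPred_eq, Set.mem_univ, true_and, Nat.lt_one_iff, forall_eq, add_zero]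
        rw [not_fast, Nat.le_floor_iff (by linarith)]
      rw [e, count_sum1]
      refine (hbad ⌊x⌋₊).trans ?_
      have hx0 : 0 < x := by linarith
      have h5 : (⌊x⌋₊ : ℝ) ^ (1 - d) ≤ x ^ (1 - d) :=
        Real.rpow_le_rpow (Nat.cast_nonneg _) (Nat.floor_le hx0.le) (by linarith)
      have h6 : x ^ (1 - d') = x ^ (d - d') * x ^ (1 - d) := by
        rw [← Real.rpow_add hx0]; congr 1; ring
      rw [h6]
      exact mul_le_mul g1 h5 (by positivity) (by positivity)⟩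
  refine ⟨N1, fun n hn => ?_⟩
  have h7 := hN1 n hn (Set.mem_univ _)
  rw [← hμ, hq] at h7
  have e2 : μ + K + ε = μ + (K + ε / 2) + ε / 2 := by ring
  rw [e2]
  exact h7

end Pool.Agent.X266.CD
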