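import Pool.Agent.X266.CD.Scal
import Pool.Agent.X140.Coll3

/-! The scaled stopping time constant and transferable classes. -/

set_option autoImplicit false

namespace Pool.Agent.X266.CD.SC

open Finset Filter Topology Pool.Agent.Y965.PL Pool.Agent.X266.CD
open scoped ENNReal
open Pool.Agent.H499R2.HL (H H_unique)
open Pool.Agent.H499R2.LT (odn)
open Pool.Agent.H499R2.ND (Phi Phi_continuous Tn)

def T (n : ℕ) : ℕ := if n % 2 = 0 then n / 2 else (3 * n + 1) / 2

noncomputable def sigma (n : ℕ) : ℕ∞ := sInf {k : ℕ∞ | ∃ j : ℕ, T^[j] n = 1 ∧ k = j}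

noncomputable def scaled (n : ℕ) : ℝ≥0∞ := (sigma n : ℝ≥0∞) / ENNReal.ofReal (Real.log n)

noncomputable def gamma : ℝ≥0∞ := limsup scaled atTop

noncomputable def gammaIn (E : Set ℕ) : ℝ≥0∞ := limsup scaled (atTop ⊓ 𝓟 E)

noncomputable def slowIn (E : Set ℕ) (c x : ℝ) : ℕ :=
  {n : ℕ | 1 ≤ n ∧ (n : ℝ) ≤ x ∧ n ∈ E ∧ ENNReal.ofReal c < scaled n}.ncard

theorem T_eq : T = Tn := by funext a; rfl

theorem sigma_eq {n k : ℕ} (h : H k n) : sigma n = k := by
  unfold sigma
  rw [T_eq]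
  apply le_antisymm
  · exact sInf_le ⟨k, h.1, rfl⟩
  · refine le_sInf ?_
    rintro j ⟨i, hi, rfl⟩
    have : k ≤ i := by
      by_contra hlt
      exact h.2 i (by omega) hi
    exact_mod_cast this

theorem sigma_top {n : ℕ} (h : ¬ ∃ k, H k n) : sigma n = ⊤ := by
  unfold sigma
  rw [T_eq]
  have : {k : ℕ∞ | ∃ j : ℕ, Tn^[j] n = 1 ∧ k = j} = ∅ := by
    rw [Set.eq_empty_iff_forall_notMem]
    rintro k ⟨j, hj, _⟩
    exact h (H_iff_ex.2 ⟨j, hj⟩)
  rw [this, sInf_empty]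

theorem sigma_ne_top {n : ℕ} : sigma n ≠ ⊤ ↔ ∃ k, H k n := by
  constructor
  · intro h
    by_contra hcon
    exact h (sigma_top hcon)
  · rintro ⟨k, hk⟩
    rw [sigma_eq hk]
    exact ENat.natCast_ne_top k

theorem scaled_top {n : ℕ} (h : ¬ ∃ k, H k n) : scaled n = ⊤ := by
  unfold scaled
  rw [sigma_top h, ENat.toENNReal_top]
  exact ENNReal.top_div_of_ne_top ENNReal.ofReal_ne_top

theorem scaled_eq {n k : ℕ} (h : H k n) : scaled n = ENNReal.ofReal ((k : ℝ) / Real.log n) := by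
  unfold scaled
  rw [sigma_eq h, ENat.toENNReal_coe, ← ENNReal.ofReal_natCast]
  rcases (Real.log_natCast_nonneg n).eq_or_lt with h0 | h0
  · have hk : k = 0 := by
      rcases Nat.lt_trichotomy n 1 with h1 | h1 | h1
      · exfalso
        have hn : n = 0 := by omega
        subst hn
        have h2 : ∀ j : ℕ, Tn^[j] 0 = 0 := by
          intro j
          induction j with
          | zero => rfl
          | succ j ih => rw [Function.iterate_succ_apply', ih]; rfl
        have := h.1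
        rw [h2] at this
        omega
      · subst h1
        by_contra hk
        exact h.2 0 (by omega) rfl
      · exfalso
        have : 0 < Real.log (n : ℝ) := Real.log_pos (by exact_mod_cast h1)
        linarith
    subst hk
    simp
  · rw [ENNReal.ofReal_div_of_pos h0]

/-- large scaled times -/
theorem lt_scaled {c : ℝ} (hc : 0 ≤ c) {n : ℕ} (hn : 1 ≤ n) : ENNReal.ofReal c < scaled n ↔ Slow (c * Real.log n) n := by
  by_cases h : ∃ k, H k n
  · obtain ⟨k, hk⟩ := h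
    rw [scaled_eq hk, ENNReal.ofReal_lt_ofReal_iff_of_nonneg hc]
    have e : Slow (c * Real.log n) n ↔ c * Real.log n < k := by
      unfold Slow
      constructor
      · intro h
        by_contra hcon
        exact h ⟨k, hk, not_lt.1 hcon⟩
      · rintro h ⟨k', hk', hk1⟩
        rw [H_unique hk' hk] at hk1
        linarith
    rw [e]
    rcases (Real.log_natCast_nonneg n).eq_or_lt with h0 | h0
    · have hn1 : n = 1 := by
        by_contra hcon
        have : 0 < Real.log (n : ℝ) := Real.log_pos (by exact_mod_cast (by omega : 1 < n))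
        linarith
      subst hn1
      have hk0 : k = 0 := by
        by_contra hk0
        exact hk.2 0 (by omega) rfl
      subst hk0
      simp only [Nat.cast_one, Real.log_one, Nat.cast_zero, div_zero, mul_zero]
      constructor
      · intro h; linarith
      · intro h; linarith
    · rw [lt_div_iff₀ h0]
  · rw [scaled_top h]
    refine ⟨fun _ => ?_, fun _ => ENNReal.ofReal_lt_top⟩
    rintro ⟨k, hk, _⟩
    exact h ⟨k, hk⟩

theorem slowIn_eq (E : Set ℕ) {c x : ℝ} (hc : 0 ≤ c) (hx : 0 ≤ x) : (slowIn E c x : ℝ) =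
    ∑ n ∈ Icc 1 ⌊x⌋₊, ind (fun n => n ∈ E) n * ind (fun n : ℕ => Slow (c * Real.log n) n) n := by
  rw [← count_sum]
  unfold slowIn
  congr 2
  ext n
  simp only [Set.mem_ofPred_eq]
  rw [Nat.le_floor_iff hx]
  exact and_congr_right fun h => and_congr_right fun _ => and_congr_right fun _ => lt_scaled hc h

theorem gamma_le {c : ℝ} (hc : 0 ≤ c) (h : ∀ᶠ n : ℕ in atTop, Pool.Agent.W33.Coll.Fast c n) :
    gamma ≤ ENNReal.ofReal c := by
  refine limsup_le_of_le (by isBoundedDefault) ?_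
  filter_upwards [h, eventually_ge_atTop 1] with n h1 h2
  by_contra hcon
  exact not_fast.2 ((lt_scaled hc h2).1 (not_le.1 hcon)) h1

theorem fast_of_gamma (h : gamma < ⊤) : ∃ c : ℝ, 0 ≤ c ∧ ∀ᶠ n : ℕ in atTop, Pool.Agent.W33.Coll.Fast c n := by
  obtain ⟨b, hb1, hb2⟩ := exists_between h
  have h1 : ∀ᶠ n in atTop, scaled n < b := eventually_lt_of_limsup_lt hb1 (by isBoundedDefault)
  refine ⟨b.toReal, ENNReal.toReal_nonneg, ?_⟩
  filter_upwards [h1, eventually_ge_atTop 1] with n h1 h2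
  by_contra hcon
  have h3 := (lt_scaled ENNReal.toReal_nonneg h2).2 (not_fast.1 hcon)
  rw [ENNReal.ofReal_toReal hb2.ne] at h3
  exact absurd h1 (not_lt.2 h3.le)

variable {δ : ℝ} {E : Set ℕ} {ρ C c0 : ℝ}

/-- the law in a class -/
theorem law_class (hδ : Nat1 δ) (hρ : 0 < ρ) (hC : 0 ≤ C) (hc0 : 0 < c0) (hc1 : c0 ≤ 1)
    (hT : ∀ N : ℕ, 1 ≤ N → TrF (ind (fun n => n ∈ E)) (fun _ => 1) ρ (C * (N : ℝ) ^ (1 - c0)) N) :
    Law (fun n => n) (fun n => n ∈ E) valK (2 / Real.log (4 / 3)) bK (ρ * δ) ρ := by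
  have hν := nu_pos'
  have hL := lawId_K hδ
  refine ⟨?_, ?_, fun x => ?_⟩
  · have h1 := Tr_Mn (d := 1) hc0 (fun N hN => (hT N hN).one) (by
      have h2 : MnS (fun n => n) (ind (fun _ : ℕ => True)) 1 := hL.all
      have e : ind (fun _ : ℕ => True) = fun _ => (1 : ℝ) * 1 := by
        funext n; rw [ind_pos (P := fun _ => True) trivial, mul_one]
      rw [e] at h2
      exact h2)
    simp only [mul_one] at h1
    exact h1
  · have h1 := Tr_Mn (d := δ) hc0 (fun N hN => (hT N hN).fin) (by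
      have h2 : MnS (fun n => n) (ind (fun n => True ∧ ∃ k, H k n)) δ := hL.fin
      have e : ind (fun n => True ∧ ∃ k, H k n) = fun n => (1 : ℝ) * ind (fun n => ∃ k, H k n) n := by
        funext n; rw [one_mul]; apply ind_congr; rw [true_and]
      rw [e] at h2
      exact h2)
    have e : (fun n => ind (fun n => n ∈ E) n * ind (fun n => ∃ k, H k n) n) = ind (fun n => n ∈ E ∧ ∃ k, H k n) := by
      funext n; rw [← ind_and]
    rw [e] at h1
    exact h1
  · have h1 := dens_of (A := 2 / Real.log (4 / 3)) (b := bK) (val := valK) (cls := fun _ _ => True)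
        (d := fun x => δ * Phi x) (by positivity) bK_pos (Phi_continuous.const_mul δ)
        (v := fun _ => 1) (w := ind (fun n => n ∈ E)) (fun n => ⟨zero_le_one, le_rfl⟩) (fun n => ind_nonneg _ _)
        (fun y => by
          have h2 : MnS (fun n => n) _ _ := hL.law y
          have e : ind (fun n => True ∧ Lv valK (fun _ _ => True) (th (2 / Real.log (4 / 3)) bK y) n) =
              fun n => (1 : ℝ) * ind (Lv valK (fun _ _ => True) (th (2 / Real.log (4 / 3)) bK y)) n := by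
            funext n; rw [one_mul]; apply ind_congr; rw [true_and]
          rw [e] at h2
          exact h2) hρ.le hC hc0 hc1 hT x
    have e : (fun n => ind (fun n => n ∈ E) n * ind (Lv valK (fun _ _ => True) (th (2 / Real.log (4 / 3)) bK x)) n) =
        ind (fun n => n ∈ E ∧ Lv valK (fun _ _ => True) (th (2 / Real.log (4 / 3)) bK x) n) := by
      funext n; rw [← ind_and]
    rw [e, ← mul_assoc] at h1
    exact h1

/-- the mean values of the continuous functions -/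
theorem mean_class (hδ : Nat1 δ) (hρ : 0 < ρ) (hC : 0 ≤ C) (hc0 : 0 < c0) (hc1 : c0 ≤ 1)
    (hT : ∀ N : ℕ, 1 ≤ N → TrF (ind (fun n => n ∈ E)) (fun _ => 1) ρ (C * (N : ℝ) ^ (1 - c0)) N)
    {h : ℝ≥0∞ → ℝ} (hh : Continuous h) :
    Tendsto (fun X : ℕ => (∑ᶠ n ∈ {n : ℕ | 1 ≤ n ∧ n ≤ X ∧ n ∈ E}, h (scaled n)) / X) atTop
      (𝓝 (ρ * (δ * h (ENNReal.ofReal (2 / Real.log (4 / 3))) + (1 - δ) * h ⊤))) := by
  have hLaw := law_class hδ hρ hC hc0 hc1 hT
  set M : ℝ := ‖BoundedContinuousFunction.mkOfCompact (⟨h, hh⟩ : C(ℝ≥0∞, ℝ))‖ with hM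
  have hMb : ∀ t : ℝ≥0∞, |h t| ≤ M := fun t =>
    (BoundedContinuousFunction.mkOfCompact (⟨h, hh⟩ : C(ℝ≥0∞, ℝ))).norm_coe_le_norm t
  have hM0 : 0 ≤ M := (abs_nonneg _).trans (hMb ⊤)
  have hcont : Continuous (fun t : ℝ => h (ENNReal.ofReal t)) := hh.comp ENNReal.continuous_ofReal
  have h1 := ps_cont (fun n => le_rfl) bK_pos hLaw (h := fun t : ℝ => h (ENNReal.ofReal t)) (h1 := h ⊤)
      hcont.continuousAt (B := M) (fun _ => hMb _) (hMb _)
      (w := fun m => ind (fun n => n ∈ E) m * h (scaled m))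
      (fun m k _ hE hk => by
        rw [ind_pos (P := fun n => n ∈ E) hE, one_mul, scaled_eq hk]
        rfl) (fun m _ hE hn => by
        rw [ind_pos (P := fun n => n ∈ E) hE, one_mul, scaled_top hn])
      (fun m => by
        rw [abs_mul]
        have i1 := ind_abs (fun n => n ∈ E) m
        have i2 := hMb (scaled m)
        calc |ind (fun n => n ∈ E) m| * |h (scaled m)| ≤ 1 * M := mul_le_mul i1 i2 (abs_nonneg _) zero_le_one
          _ = M := one_mul _)
      (fun m _ hE => by rw [ind_neg (P := fun n => n ∈ E) hE, zero_mul])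
  have e1 : ρ * δ * h (ENNReal.ofReal (2 / Real.log (4 / 3))) + (ρ - ρ * δ) * h ⊤ =
      ρ * (δ * h (ENNReal.ofReal (2 / Real.log (4 / 3))) + (1 - δ) * h ⊤) := by ring
  rw [← e1]
  unfold MnS at h1
  refine h1.congr fun X => ?_
  rw [fin_sum X (fun n => n ∈ E)]

/-- exceptions in the class and the constant -/
theorem gamma_class (hρ : 0 < ρ) (hC : 0 ≤ C) (hc0 : 0 < c0)
    (hT : ∀ N : ℕ, 1 ≤ N → TrF (ind (fun n => n ∈ E)) (fun _ => 1) ρ (C * (N : ℝ) ^ (1 - c0)) N) {c δ' : ℝ}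
    (hc : 2 / Real.log (4 / 3) < c) (hδ : 0 < δ') (hx : ∀ᶠ x : ℝ in atTop, (slowIn E c x : ℝ) ≤ x ^ (1 - δ')) :
    gamma ≤ ENNReal.ofReal (2 / Real.log (4 / 3) + (c - 2 / Real.log (4 / 3)) / min δ' (min c0 (1 / 2))) := by
  have hν := nu_pos'
  have hμ0 : 0 < 2 / Real.log (4 / 3) := by positivity
  have hq : 0 ≤ (c - 2 / Real.log (4 / 3)) / min δ' (min c0 (1 / 2)) :=
    div_nonneg (by linarith) (le_min hδ.le (le_min hc0.le (by norm_num)))
  refine ENNReal.le_of_forall_pos_le_add fun ε hε _ => ?_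
  have hε' : (0 : ℝ) < ε := by exact_mod_cast hε
  obtain ⟨N1, hN1⟩ := fast_of_class hρ hC hc0 (fun n => ⟨ind_nonneg _ n, ind_le_one _ n⟩) hT hc hδ (by
    filter_upwards [tendsto_natCast_atTop_atTop.eventually hx] with X h1
    rw [slowIn_eq E (by linarith) (Nat.cast_nonneg _), Nat.floor_natCast] at h1
    exact h1) hε'
  have h5 := gamma_le (by linarith) (eventually_atTop.2 ⟨N1, hN1⟩)
  refine h5.trans (le_of_eq ?_)
  rw [ENNReal.ofReal_add (by linarith) hε'.le, ENNReal.ofReal_coe_nnreal]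

theorem gammaIn_le : gammaIn E ≤ gamma := by
  unfold gammaIn gamma
  exact limsup_le_limsup_of_le inf_le_left

/-- the lower bound in the class -/
theorem le_gammaIn (hδ : Nat1 δ) (hρ : 0 < ρ) (hC : 0 ≤ C) (hc0 : 0 < c0) (hc1 : c0 ≤ 1)
    (hT : ∀ N : ℕ, 1 ≤ N → TrF (ind (fun n => n ∈ E)) (fun _ => 1) ρ (C * (N : ℝ) ^ (1 - c0)) N) :
    ENNReal.ofReal (2 / Real.log (4 / 3)) ≤ gammaIn E := by
  by_contra hcon
  push Not at hcon
  obtain ⟨b, hb1, hb2⟩ := exists_between hcon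
  have h1 : ∀ᶠ n in atTop ⊓ 𝓟 E, scaled n < b := eventually_lt_of_limsup_lt hb1 (by isBoundedDefault)
  rw [eventually_inf_principal] at h1
  set μ := ENNReal.ofReal (2 / Real.log (4 / 3)) with hμ
  have hμt : μ ≠ ⊤ := ENNReal.ofReal_ne_top
  set h : ℝ≥0∞ → ℝ := fun x => (min x μ - b).toReal with hh
  have hcont : Continuous h := by
    rw [hh, continuous_iff_continuousAt]
    intro x
    apply (ENNReal.tendsto_toReal ?_).comp
    · have : Continuous fun x : ℝ≥0∞ => min x μ - b := by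
        refine (ENNReal.continuous_sub_right b).comp (continuous_id.min continuous_const)
      exact this.continuousAt
    · refine ne_top_of_le_ne_top hμt (tsub_le_self.trans (min_le_right _ _))
  have hm := mean_class hδ hρ hC hc0 hc1 hT hcont
  have e1 : h μ = (μ - b).toReal := by rw [hh]; simp
  have e2 : h ⊤ = (μ - b).toReal := by rw [hh]; simp
  have hpos : 0 < (μ - b).toReal := ENNReal.toReal_pos (tsub_pos_of_lt hb2).ne' (ne_top_of_le_ne_top hμt tsub_le_self)
  rw [e1, e2] at hm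
  obtain ⟨N, hN⟩ := eventually_atTop.1 h1
  -- the mean value is zero
  have hz : Tendsto (fun X : ℕ => (∑ᶠ n ∈ {n : ℕ | 1 ≤ n ∧ n ≤ X ∧ n ∈ E}, h (scaled n)) / X) atTop (𝓝 0) := by
    have hb : ∀ X : ℕ, |∑ᶠ n ∈ {n : ℕ | 1 ≤ n ∧ n ≤ X ∧ n ∈ E}, h (scaled n)| ≤ ∑ n ∈ range N, |h (scaled n)| := by
      intro X
      rw [fin_sum X (fun n => n ∈ E)]
      refine (abs_sum_le_sum_abs _ _).trans ?_
      have h3 : ∀ n ∈ Icc 1 X, |ind (fun n => n ∈ E) n * h (scaled n)| ≤ if n ∈ range N then |h (scaled n)| else 0 := by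
        intro n _
        split_ifs with hn
        · rw [abs_mul]
          have i1 := ind_abs (fun n => n ∈ E) n
          have := mul_le_mul_of_nonneg_right i1 (abs_nonneg (h (scaled n)))
          linarith
        · rw [mem_range, not_lt] at hn
          by_cases hE : n ∈ E
          · have h4 := hN n hn hE
            have e : h (scaled n) = 0 := by
              rw [hh]
              simp only
              rw [tsub_eq_zero_of_le ((min_le_left _ _).trans h4.le)]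
              rfl
            rw [e, mul_zero, abs_zero]
          · rw [ind_neg (P := fun n => n ∈ E) hE, zero_mul, abs_zero]
      refine (sum_le_sum h3).trans ?_
      rw [← sum_filter]
      apply sum_le_sum_of_subset_of_nonneg
      · intro n hn
        exact (mem_filter.1 hn).2
      · intro n _ _; exact abs_nonneg _
    have h5 : Tendsto (fun X : ℕ => (∑ n ∈ range N, |h (scaled n)|) / (X : ℝ)) atTop (𝓝 0) :=
      tendsto_const_nhds.div_atTop tendsto_natCast_atTop_atTop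
    refine squeeze_zero_norm (fun X => ?_) h5
    rw [Real.norm_eq_abs, abs_div, Nat.abs_cast]
    exact div_le_div_of_nonneg_right (hb X) (Nat.cast_nonneg _)
  have h6 := tendsto_nhds_unique hm hz
  have e3 : ρ * (δ * (μ - b).toReal + (1 - δ) * (μ - b).toReal) = ρ * (μ - b).toReal := by ring
  rw [e3] at h6
  have : 0 < ρ * (μ - b).toReal := mul_pos hρ hpos
  linarith

/-- finitely many exceptions -/
theorem gamma_le_of_gammaIn (hδ : Nat1 δ) (hρ : 0 < ρ) (hC : 0 ≤ C) (hc0 : 0 < c0) (hc1 : c0 ≤ 1)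
    (hT : ∀ N : ℕ, 1 ≤ N → TrF (ind (fun n => n ∈ E)) (fun _ => 1) ρ (C * (N : ℝ) ^ (1 - c0)) N) :
    gamma ≤ ENNReal.ofReal (2 / Real.log (4 / 3)) +
      (gammaIn E - ENNReal.ofReal (2 / Real.log (4 / 3))) / ENNReal.ofReal (min c0 (1 / 2)) := by
  have hν := nu_pos'
  have hμ0 : 0 < 2 / Real.log (4 / 3) := by positivity
  have hb0 : 0 < min c0 (1 / 2) := lt_min hc0 (by norm_num)
  rcases eq_or_ne (gammaIn E) ⊤ with ht | ht
  · rw [ht, ENNReal.top_sub ENNReal.ofReal_ne_top, ENNReal.top_div_of_ne_top ENNReal.ofReal_ne_top, add_top]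
    exact le_top
  · have hlow := le_gammaIn hδ hρ hC hc0 hc1 hT
    set g := (gammaIn E).toReal with hg
    have hgE : gammaIn E = ENNReal.ofReal g := (ENNReal.ofReal_toReal ht).symm
    have hg0 : 2 / Real.log (4 / 3) ≤ g := by
      rw [hgE] at hlow
      exact (ENNReal.ofReal_le_ofReal_iff ENNReal.toReal_nonneg).1 hlow
    rw [hgE, ← ENNReal.ofReal_sub _ hμ0.le, ← ENNReal.ofReal_div_of_pos hb0,
      ← ENNReal.ofReal_add hμ0.le (div_nonneg (by linarith) hb0.le)]
    refine ENNReal.le_of_forall_pos_le_add fun ε hε _ => ?_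
    have hε' : (0 : ℝ) < ε := by exact_mod_cast hε
    set c := g + ε * min c0 (1 / 2) with hc
    have hgc : g < c := by rw [hc]; have : 0 < ε * min c0 (1 / 2) := by positivity
                           linarith
    have h1 : ∀ᶠ n in atTop ⊓ 𝓟 E, scaled n < ENNReal.ofReal c :=
      eventually_lt_of_limsup_lt (by
        show gammaIn E < _
        rw [hgE]
        exact (ENNReal.ofReal_lt_ofReal_iff (by linarith)).2 hgc) (by isBoundedDefault)
    rw [eventually_inf_principal] at h1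
    obtain ⟨N, hN⟩ := eventually_atTop.1 h1
    have h2 := gamma_class hρ hC hc0 hT (c := c) (δ' := 1 / 2) (by linarith) (by norm_num) (by
      filter_upwards [(tendsto_rpow_atTop (show (0 : ℝ) < 1 - 1 / 2 by norm_num)).eventually_ge_atTop (N : ℝ)] with x hx
      refine le_trans ?_ hx
      have h3 : slowIn E c x ≤ ((range N : Finset ℕ) : Set ℕ).ncard := by
        unfold slowIn
        apply Set.ncard_le_ncard _ (Finset.finite_toSet _)
        rintro n ⟨_, _, g3, g4⟩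
        rw [Finset.mem_coe, mem_range]
        by_contra hcon
        exact absurd (hN n (not_lt.1 hcon) g3) (not_lt.2 g4.le)
      rw [Set.ncard_coe_finset, card_range] at h3
      exact_mod_cast h3)
    have e3 : min (1 / 2 : ℝ) (min c0 (1 / 2)) = min c0 (1 / 2) := min_eq_right (min_le_right _ _)
    rw [e3] at h2
    refine h2.trans (le_of_eq ?_)
    have e4 : 2 / Real.log (4 / 3) + (c - 2 / Real.log (4 / 3)) / min c0 (1 / 2) =
        (2 / Real.log (4 / 3) + (g - 2 / Real.log (4 / 3)) / min c0 (1 / 2)) + ε := by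
      rw [hc]; field_simp; ring
    rw [e4, ENNReal.ofReal_add _ hε'.le, ENNReal.ofReal_coe_nnreal]
    have : 0 ≤ (g - 2 / Real.log (4 / 3)) / min c0 (1 / 2) := div_nonneg (by linarith) hb0.le
    linarith

/-- power savings from the finiteness of the constant -/
theorem saving_of_gamma (hg : gamma < ⊤) {c : ℝ} (hc : 2 / Real.log (4 / 3) < c) :
    ∃ δ' : ℝ, 0 < δ' ∧ ∀ᶠ x : ℝ in atTop, (slowIn E c x : ℝ) ≤ x ^ (1 - δ') := by
  have hν := nu_pos'
  have hμ0 : 0 < 2 / Real.log (4 / 3) := by positivity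
  obtain ⟨C₀, hC₀, hF⟩ := fast_of_gamma hg
  obtain ⟨N, hN⟩ := eventually_atTop.1 hF
  obtain ⟨C, hC⟩ := Pool.Agent.W33.Coll.all_fast inv_univ (c := C₀) (N₁ := N)
    (fun n hn _ => hN n hn)
  obtain ⟨η, hη, δ', hδ', X, hX⟩ := Pool.Agent.X140.C3.saving (C := C) hc
  refine ⟨δ', hδ', ?_⟩
  filter_upwards [eventually_ge_atTop X] with x hx
  refine le_trans ?_ (hX x hx)
  have : slowIn E c x ≤ {n : ℕ | 1 ≤ n ∧ (n : ℝ) ≤ x ∧ ¬ Pool.Agent.W33.Coll.Fast c n ∧
    ∀ j : ℕ, 2 ≤ T^[j] n → ((T^[j] n : ℕ) : ℝ) ≤ x ^ η → Pool.Agent.W33.Coll.Fast C (T^[j] n)}.ncard := by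
    unfold slowIn
    apply Set.ncard_le_ncard
    · rintro n ⟨g1, g2, _, g4⟩
      exact ⟨g1, g2, not_fast.2 ((lt_scaled (by linarith) g1).1 g4), fun j hj _ => hC _ hj (Set.mem_univ _)⟩
    · apply (Set.finite_Icc 1 ⌊x⌋₊).subset
      rintro n ⟨g1, g2, _⟩
      exact ⟨g1, Nat.le_floor g2⟩
  exact_mod_cast this

/-- everything together -/
theorem main_class (hδ : Nat1 δ) (hρ : 0 < ρ) (hC : 0 ≤ C) (hc0 : 0 < c0) (hc1 : c0 ≤ 1)
    (hT : ∀ N : ℕ, 1 ≤ N → TrF (ind (fun n => n ∈ E)) (fun _ => 1) ρ (C * (N : ℝ) ^ (1 - c0)) N) :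
    (∀ h : ℝ≥0∞ → ℝ, Continuous h →
      Tendsto (fun X : ℕ => (∑ᶠ n ∈ {n : ℕ | 1 ≤ n ∧ n ≤ X ∧ n ∈ E}, h (scaled n)) / X) atTop
        (𝓝 (ρ * (δ * h (ENNReal.ofReal (2 / Real.log (4 / 3))) + (1 - δ) * h ⊤)))) ∧
    (∀ c δ' : ℝ, 2 / Real.log (4 / 3) < c → 0 < δ' → (∀ᶠ x : ℝ in atTop, (slowIn E c x : ℝ) ≤ x ^ (1 - δ')) →
      gamma ≤ ENNReal.ofReal (2 / Real.log (4 / 3) + (c - 2 / Real.log (4 / 3)) / min δ' (min c0 (1 / 2)))) ∧
    (ENNReal.ofReal (2 / Real.log (4 / 3)) ≤ gammaIn E ∧ gammaIn E ≤ gamma ∧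
      gamma ≤ ENNReal.ofReal (2 / Real.log (4 / 3)) +
        (gammaIn E - ENNReal.ofReal (2 / Real.log (4 / 3))) / ENNReal.ofReal (min c0 (1 / 2))) ∧
    [gamma < ⊤, gammaIn E < ⊤,
      ∀ c : ℝ, 2 / Real.log (4 / 3) < c → ∃ δ' : ℝ, 0 < δ' ∧ ∀ᶠ x : ℝ in atTop, (slowIn E c x : ℝ) ≤ x ^ (1 - δ'),
      ∃ c : ℝ, 2 / Real.log (4 / 3) < c ∧ ∃ δ' : ℝ, 0 < δ' ∧ ∀ᶠ x : ℝ in atTop,
        (slowIn E c x : ℝ) ≤ x ^ (1 - δ')].TFAE := by
  refine ⟨fun h hh => mean_class hδ hρ hC hc0 hc1 hT hh, fun c δ' hc hδ' hx => gamma_class hρ hC hc0 hT hc hδ' hx,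
    ⟨le_gammaIn hδ hρ hC hc0 hc1 hT, gammaIn_le, gamma_le_of_gammaIn hδ hρ hC hc0 hc1 hT⟩, ?_⟩
  have hb0 : 0 < min c0 (1 / 2) := lt_min hc0 (by norm_num)
  tfae_have 1 → 2 := fun h => gammaIn_le.trans_lt h
  tfae_have 2 → 1 := by
    intro h
    refine (gamma_le_of_gammaIn hδ hρ hC hc0 hc1 hT).trans_lt ?_
    refine ENNReal.add_lt_top.2 ⟨ENNReal.ofReal_lt_top, ?_⟩
    exact ENNReal.div_lt_top (tsub_le_self.trans_lt h).ne (by rw [Ne, ENNReal.ofReal_eq_zero]; exact not_le.2 hb0)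
  tfae_have 1 → 3 := fun h c hc => saving_of_gamma h hc
  tfae_have 3 → 4 := fun h => ⟨2 / Real.log (4 / 3) + 1, by linarith, h _ (by linarith)⟩
  tfae_have 4 → 1 := by
    rintro ⟨c, hc, δ', hδ', hx⟩
    exact (gamma_class hρ hC hc0 hT hc hδ' hx).trans_lt ENNReal.ofReal_lt_top
  tfae_finish

end Pool.Agent.X266.CD.SC
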