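import Pool.Agent.X266.CD.Cor2

/-! First visits of finite sets: transfer and laws inside classes, for the maps `3x+k` on both sides. -/

set_option autoImplicit false

namespace Pool.Agent.X266.CD

open Finset Filter Topology Pool.Agent.H319R3.GC Pool.Agent.Y55.DS Polynomial Pool.Agent.Y965.PL
open Pool.Agent.Y965.PS (Tz ac ac_succ)
open Pool.Agent.H499R2.ND (Phi Phi_continuous Dn Td)

/-- the first visit of the set `S` is at time `j` -/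
def FVis (k : ℤ) (S : Finset ℤ) (j : ℕ) (x : ℤ) : Prop := (Tz k)^[j] x ∈ S ∧ ∀ i < j, (Tz k)^[i] x ∉ S

theorem FVis_unique {k : ℤ} {S : Finset ℤ} {j j' : ℕ} {x : ℤ} (h : FVis k S j x) (h' : FVis k S j' x) : j = j' := by
  rcases lt_trichotomy j j' with h1 | h1 | h1
  · exact absurd h.1 (h'.2 j h1)
  · exact h1
  · exact absurd h'.1 (h.2 j' h1)

theorem FVis_ex {k : ℤ} {S : Finset ℤ} {x : ℤ} : (∃ j, FVis k S j x) ↔ ∃ j, (Tz k)^[j] x ∈ S := by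
  classical
  constructor
  · rintro ⟨j, hj⟩; exact ⟨j, hj.1⟩
  · intro h
    exact ⟨Nat.find h, Nat.find_spec h, fun i hi => Nat.find_min h hi⟩

open Classical in
/-- a function of the time of the first visit, of the number of odd terms before it, and of the place -/
noncomputable def Fv (k : ℤ) (S : Finset ℤ) (g : ℕ → ℕ → ℤ → ℝ) (g0 : ℝ) (x : ℤ) : ℝ :=
  if h : ∃ j, FVis k S j x then g h.choose (ac k h.choose x) ((Tz k)^[h.choose] x) else g0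

theorem Fv_pos {k : ℤ} {S : Finset ℤ} {g : ℕ → ℕ → ℤ → ℝ} {g0 : ℝ} {x : ℤ} {j : ℕ} (h : FVis k S j x) :
    Fv k S g g0 x = g j (ac k j x) ((Tz k)^[j] x) := by
  unfold Fv
  have h1 : ∃ j, FVis k S j x := ⟨j, h⟩
  rw [dif_pos h1, FVis_unique h1.choose_spec h]

theorem Fv_neg {k : ℤ} {S : Finset ℤ} {g : ℕ → ℕ → ℤ → ℝ} {g0 : ℝ} {x : ℤ} (h : ¬ ∃ j, FVis k S j x) :
    Fv k S g g0 x = g0 := by
  unfold Fv
  rw [dif_neg h]

theorem ac_add (k : ℤ) (i : ℕ) (x : ℤ) : ∀ j : ℕ, ac k (i + j) x = ac k i x + ac k j ((Tz k)^[i] x) := by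
  intro j
  induction j with
  | zero => rfl
  | succ j ih =>
    rw [← Nat.add_assoc, ac_succ, ac_succ, ih, ← Function.iterate_add_apply, Nat.add_comm j i, Nat.add_assoc]

theorem syncK_Fv {k : ℤ} {S : Finset ℤ} {g : ℕ → ℕ → ℤ → ℝ} {g0 : ℝ} (hk : k % 2 = 1) {N : ℕ} (hN : 256 ≤ N)
    (hS : ∀ a ∈ S, |(a : ℝ)| ≤ (N : ℝ) ^ (1 / 4 : ℝ)) (hk' : |(k : ℝ)| ≤ (N : ℝ) ^ (1 / 4 : ℝ))
    (hg : ∀ j o a, |g j o a| ≤ 1) (hg0 : |g0| ≤ 1) : SyncK 2 m3 (rk k) N (Fv k S g g0) := by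
  refine ⟨fun x => ?_, ?_⟩
  · by_cases h : ∃ j, FVis k S j x
    · obtain ⟨j, hj⟩ := h
      rw [Fv_pos hj]; exact hg _ _ _
    · rw [Fv_neg h]; exact hg0
  intro j x y h1 h2 h3 h4 h5
  rw [Tm_fun] at h4
  rw [Mw_eq, Mw_eq] at h5
  have h6 : ac k j x = ac k j y := Int.pow_right_injective (by norm_num) h5
  have key : ∀ (x y : ℤ), (N : ℝ) ^ (1 / 2 : ℝ) < |(x : ℝ)| → (N : ℝ) ^ (1 / 2 : ℝ) < |(y : ℝ)| →
      (Tz k)^[j] x = (Tz k)^[j] y → ac k j x = ac k j y → ∀ i, FVis k S i x → FVis k S i y ∧ ac k i x = ac k i y ∧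
        (Tz k)^[i] x = (Tz k)^[i] y := by
    intro x y h2 h3 h4 h6 i hi
    have hji : j < i := by
      by_contra hcon
      exact early hk (not_lt.1 hcon) h1 hN (hS _ hi.1) hk' h2 rfl
    have hit : ∀ i' : ℕ, j ≤ i' → (Tz k)^[i'] x = (Tz k)^[i'] y := by
      intro i' hi'
      have e : i' = (i' - j) + j := by omega
      rw [e, Function.iterate_add_apply, Function.iterate_add_apply, h4]
    refine ⟨⟨?_, fun i' hi' => ?_⟩, ?_, hit i hji.le⟩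
    · rw [← hit i hji.le]; exact hi.1
    · rcases le_or_gt i' j with h | h
      · intro hcon
        exact early hk h h1 hN (hS _ hcon) hk' h3 rfl
      · rw [← hit i' h.le]; exact hi.2 i' hi'
    · have e : i = j + (i - j) := by omega
      rw [e, ac_add, ac_add, h6, h4]
  by_cases h : ∃ i, FVis k S i x
  · obtain ⟨i, hi⟩ := h
    obtain ⟨g1, g2, g3⟩ := key x y h2 h3 h4 h6 i hi
    rw [Fv_pos hi, Fv_pos g1, g2, g3]
  · have h' : ¬ ∃ i, FVis k S i y := by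
      rintro ⟨i, hi⟩
      exact h ⟨i, (key y x h3 h2 h4.symm h6.symm i hi).1⟩
    rw [Fv_neg h, Fv_neg h']

/-- all admissible functions for `3x+k` are transferable -/
def TrK (w v : ℕ → ℝ) (ρ C c : ℝ) : Prop := ∀ N : ℕ, 1 ≤ N → ∀ (k s : ℤ) (F : ℤ → ℝ), k % 2 = 1 → (s = 1 ∨ s = -1) →
  SyncK 2 m3 (rk k) N F → Tr w v ρ (C * (1 + |(k : ℝ)|) * (N : ℝ) ^ (1 - c)) N (fun n => F (s * n))

/-- TRANSFER to digit classes -/
theorem dig_trK {ι : Type*} [Fintype ι] [DecidableEq ι] (q : ι → ℕ) (hq : ∀ i, 3 ≤ q i)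
    (hqd : ∀ i, Nat.Coprime 2 (q i)) (hc : ∀ i j, i ≠ j → Nat.Coprime (q i) (q j)) (W : ι → ℕ → ℤ)
    (hW : ∀ i, SA (q i) (W i)) (m : ι → ℕ) (hm : ∀ i, 1 ≤ m i) {M : ℕ} (hM : 1 ≤ M) : ∃ C c : ℝ, 0 ≤ C ∧ 0 < c ∧ c ≤ 1 ∧
    ∀ (a : ι → ℤ) (b : ℤ), TrK (ind (Cl m W a M b))
      (ind (Cl (fun i => obs (q i) (W i) (m i)) (fun i n => n * W i 1) a M b))
      (∏ i, ((obs (q i) (W i) (m i) : ℝ) / m i)) C c := by
  classical
  obtain ⟨C, c, hC, hc0, H⟩ := kim_gen eng3 q hq hqd hc W hW m hm hM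
  refine ⟨C, min c 1, hC, lt_min hc0 one_pos, min_le_right _ _, fun a b N hN k s F hk hs hF => ?_⟩
  have h1 := H N (1 + |(k : ℝ)|) (fun n => F (s * n)) hN (GK_of hk hs hF) a b
  unfold Tr
  rw [← sum_wt, ← sum_wt]
  refine h1.trans ?_
  have hk0 := abs_nonneg (k : ℝ)
  apply mul_le_mul_of_nonneg_left _ (by positivity)
  exact Real.rpow_le_rpow_of_exponent_le (by exact_mod_cast hN) (by linarith [min_le_left c 1])

/-- nondegenerate digit classes -/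
theorem dig_trK1 {ι : Type*} [Fintype ι] [DecidableEq ι] (q : ι → ℕ) (hq : ∀ i, 3 ≤ q i)
    (hqd : ∀ i, Nat.Coprime 2 (q i)) (hc : ∀ i j, i ≠ j → Nat.Coprime (q i) (q j)) (W : ι → ℕ → ℤ)
    (hW : ∀ i, SA (q i) (W i)) (m : ι → ℕ) (hm : ∀ i, 1 ≤ m i) (hobs : ∀ i, obs (q i) (W i) (m i) = 1) {M : ℕ}
    (hM : 1 ≤ M) : ∃ C c : ℝ, 0 ≤ C ∧ 0 < c ∧ c ≤ 1 ∧
    ∀ (a : ι → ℤ) (b : ℤ), TrK (ind (Cl m W a M b)) (ind (fun n => (M : ℤ) ∣ n - b)) (∏ i, (1 / (m i : ℝ))) C c := by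
  obtain ⟨C, c, h1, h2, h3, H⟩ := dig_trK q hq hqd hc W hW m hm hM
  refine ⟨C, c, h1, h2, h3, fun a b => ?_⟩
  have h := H a b
  have e1 : ind (Cl (fun i => obs (q i) (W i) (m i)) (fun i n => n * W i 1) a M b) = ind (fun n : ℕ => (M : ℤ) ∣ n - b) := by
    funext n
    apply ind_congr
    unfold Cl
    simp only [hobs]
    simp
  rw [e1] at h
  have e2 : ∏ i, ((obs (q i) (W i) (m i) : ℝ) / m i) = ∏ i, (1 / (m i : ℝ)) := by
    simp only [hobs]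
    simp
  rw [e2] at h
  exact h

/-- TRANSFER to fractional parts -/
theorem pol_trK {k : ℕ} (hk : 1 ≤ k) {α : ℝ} (hα : Dioph α) {M : ℕ} (hM : 1 ≤ M) (b : ℤ) : ∃ C c : ℝ, 0 ≤ C ∧ 0 < c ∧ c ≤ 1 ∧
    ∀ P : ℝ[X], P.natDegree ≤ k + 1 → P.coeff (k + 1) = α → ∀ u v : ℝ, 0 ≤ u → u ≤ v → v ≤ 1 →
      TrK (ind (Fr M b P u v)) (ind (fun n => (M : ℤ) ∣ n - b)) (v - u) C c := by
  classical
  obtain ⟨C, c, hC, hc0, hc1, H⟩ := disc_mod eng3 hk hα hM b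
  refine ⟨C, c, hC, hc0, hc1.le, fun P hP hPc u v hu huv hv N hN k s F hk hs hF => ?_⟩
  have h1 := H N (1 + |(k : ℝ)|) (fun n => F (s * n)) hN (GK_of hk hs hF) P hP hPc u v hu huv hv
  unfold Tr
  rw [← sum_wt, ← sum_wt, show (Icc 1 N).filter (Fr M b P u v) = (Icc 1 N).filter (fun n : ℕ => (M : ℤ) ∣ n - b ∧
    u ≤ Int.fract (P.eval (n : ℝ)) ∧ Int.fract (P.eval (n : ℝ)) < v) from filter_congr fun n _ => Iff.rfl]
  exact h1

theorem SyncK_one {k : ℤ} (N : ℕ) : SyncK 2 m3 (rk k) N (fun _ => 1) :=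
  ⟨fun x => by simp, fun _ _ _ _ _ _ _ _ => rfl⟩

theorem TrK.one {w v : ℕ → ℝ} {ρ C c : ℝ} (h : TrK w v ρ C c) {N : ℕ} (hN : 1 ≤ N) :
    Tr w v ρ (C * 2 * (N : ℝ) ^ (1 - c)) N (fun _ => 1) := by
  have h1 := h N hN 1 1 (fun _ => 1) (by norm_num) (Or.inl rfl) (SyncK_one N)
  rw [Int.cast_one, abs_one, show (1 : ℝ) + 1 = 2 by norm_num] at h1
  exact h1

/-- invariant functions -/
theorem TrK.inv {w v : ℕ → ℝ} {ρ C c : ℝ} (h : TrK w v ρ C c) {N : ℕ} (hN : 1 ≤ N) {s : ℤ} (hs : s = 1 ∨ s = -1)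
    {F : ℤ → ℝ} (hF1 : ∀ x, |F x| ≤ 1) (hF : ∀ x, F (Tz 1 x) = F x) :
    Tr w v ρ (C * 2 * (N : ℝ) ^ (1 - c)) N (fun n => F (s * n)) := by
  have hit : ∀ (j : ℕ) (x : ℤ), F ((Tz 1)^[j] x) = F x := by
    intro j
    induction j with
    | zero => intro x; rfl
    | succ j ih => intro x; rw [Function.iterate_succ_apply, ih, hF]
  have h1 := h N hN 1 s F (by norm_num) hs (syncK_syncG ⟨hF1, fun j x y hxy => by rw [← hit j x, ← hit j y, hxy]⟩ N)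
  rw [Int.cast_one, abs_one, show (1 : ℝ) + 1 = 2 by norm_num] at h1
  exact h1

/-- functions of the first visit of the set `S` -/
theorem TrK.vis {w v : ℕ → ℝ} {ρ C c : ℝ} (h : TrK w v ρ C c) {N : ℕ} (hN : 256 ≤ N) {s : ℤ} (hs : s = 1 ∨ s = -1)
    {S : Finset ℤ} (hS : ∀ a ∈ S, |(a : ℝ)| ≤ (N : ℝ) ^ (1 / 4 : ℝ)) {g : ℕ → ℕ → ℤ → ℝ} {g0 : ℝ}
    (hg : ∀ j o a, |g j o a| ≤ 1) (hg0 : |g0| ≤ 1) :
    Tr w v ρ (C * 2 * (N : ℝ) ^ (1 - c)) N (fun n => Fv 1 S g g0 (s * n)) := by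
  have hNR : (1 : ℝ) ≤ N := by exact_mod_cast (by omega : 1 ≤ N)
  have h1 := h N (by omega) 1 s (Fv 1 S g g0) (by norm_num) hs (syncK_Fv (by norm_num) hN hS (by
    rw [Int.cast_one, abs_one]; exact Real.one_le_rpow hNR (by norm_num)) hg hg0)
  rw [Int.cast_one, abs_one, show (1 : ℝ) + 1 = 2 by norm_num] at h1
  exact h1

/-- THE LAW INSIDE A CLASS, for a monotone family of properties -/
theorem law_gen {L : (ℕ → ℝ) → ℕ → Prop} (hL : ∀ (t t' : ℕ → ℝ) (n : ℕ), t n ≤ t' n → L t n → L t' n)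
    {A b : ℝ} (hA : 0 ≤ A) (hb : 0 < b) {d : ℝ → ℝ}
    (hd : Continuous d) {v : ℕ → ℝ} (hv : ∀ n, 0 ≤ v n ∧ v n ≤ 1)
    (hlaw : ∀ x, Mn (fun n => v n * ind (L (th A b x)) n) (d x)) (x : ℝ) {ε : ℝ} (hε : 0 < ε) :
    ∃ N0 : ℕ, ∀ N : ℕ, N0 ≤ N → ∀ (w : ℕ → ℝ) (ρ err : ℝ), (∀ n, 0 ≤ w n) → 0 ≤ ρ →
      (∀ M, 1 ≤ M → M ≤ N → Tr w v ρ err M (fun _ => 1)) →
      (∀ t : ℝ, Tr w v ρ err N (ind (L (fun _ => t)))) →
      |∑ n ∈ Icc 1 N, w n * ind (L (th A b x)) n - ρ * (d x * N)| ≤ ε * ρ * N + 2 * err := by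
  obtain ⟨r, hr, hr'⟩ := Metric.continuousAt_iff.1 (hd.continuousAt (x := x)) (ε / 8) (by positivity)
  set θ : ℝ := r / 4 with hθ
  have hθ0 : 0 < θ := by positivity
  have d1 := hr' (x := x + 2 * θ) (by rw [Real.dist_eq, add_sub_cancel_left, abs_of_pos (by positivity)]; linarith)
  have d2 := hr' (x := x - 2 * θ) (by
    rw [Real.dist_eq, sub_sub_cancel_left, abs_neg, abs_of_pos (by positivity)]; linarith)
  rw [Real.dist_eq, abs_lt] at d1 d2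
  set κ : ℝ := min (ε / 8) 1 with hκ
  have hκ0 : 0 < κ := lt_min (by positivity) one_pos
  have hκ1 : κ ≤ ε / 8 := min_le_left _ _
  have hκ2 : κ ≤ 1 := min_le_right _ _
  obtain ⟨N0, hN0⟩ := ((((Mn_ev (hlaw (x + 2 * θ)) (show 0 < ε / 8 by positivity))).and
    (Mn_ev (hlaw (x - 2 * θ)) (show 0 < ε / 8 by positivity))).and
    ((((th_cmp hA hb (show x - θ < x by linarith) hκ0).and
    (th_cmp hA hb (show x < x + θ by linarith) hκ0)).and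
    ((th_cmp hA hb (show x - 2 * θ < x - θ by linarith) hκ0).and
    (th_cmp hA hb (show x + θ < x + 2 * θ by linarith) hκ0))).and
    (tendsto_natCast_atTop_atTop.eventually_ge_atTop (1 / κ)))).exists_forall_of_atTop
  refine ⟨N0, fun N hN w ρ err hw hρ hT1 hT2 => ?_⟩
  obtain ⟨⟨l1, l2⟩, ⟨⟨c1, c2⟩, c3, c4⟩, g6⟩ := hN0 N hN
  rw [div_le_iff₀ hκ0] at g6
  set N' : ℕ := ⌊κ * N⌋₊ with hN'
  have hN'1 : 1 ≤ N' := Nat.le_floor (by rw [Nat.cast_one]; linarith)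
  have hN'2 : (N' : ℝ) ≤ κ * N := Nat.floor_le (by positivity)
  have hN'3 : N' ≤ N := by
    have : (N' : ℝ) ≤ N := hN'2.trans (by have : (0 : ℝ) ≤ N := Nat.cast_nonneg _; nlinarith)
    exact_mod_cast this
  have hgt : ∀ n : ℕ, N' < n → κ * N < n := by
    intro n hn
    exact (Nat.floor_lt (by positivity)).1 hn
  have hNR : (0 : ℝ) ≤ N := Nat.cast_nonneg _
  -- the sums over small `n`
  have hvs : ∑ n ∈ Icc 1 N', v n ≤ κ * N := by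
    have h1 : ∑ n ∈ Icc 1 N', v n ≤ ∑ n ∈ Icc 1 N', (1 : ℝ) := sum_le_sum fun n _ => (hv n).2
    rw [sum_const, Nat.card_Icc, Nat.add_sub_cancel, nsmul_eq_mul, mul_one] at h1
    linarith
  have hws : ∑ n ∈ Icc 1 N', w n ≤ ρ * (κ * N) + err := by
    have h1 := hT1 N' hN'1 hN'3
    unfold Tr at h1
    simp only [mul_one] at h1
    have h2 := (abs_le.1 h1).2
    have h3 := mul_le_mul_of_nonneg_left hvs hρ
    linarith
  set I : ℝ → ℕ → ℝ := fun y => ind (L (th A b y)) with hI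
  set J : ℝ → ℕ → ℝ := fun y => ind (L (fun _ => th A b y N)) with hJ
  have hIJ : ∀ y n, I y n ≤ 1 ∧ 0 ≤ I y n ∧ J y n ≤ 1 ∧ 0 ≤ J y n := fun y n =>
    ⟨ind_le_one _ _, ind_nonneg _ _, ind_le_one _ _, ind_nonneg _ _⟩
  have hmono : ∀ (t t' : ℕ → ℝ) (n : ℕ), t n ≤ t' n → ind (L t) n ≤ ind (L t') n := by
    intro t t' n h
    apply ind_mono
    exact hL t t' n h
  have s1 := sum_split N N' (v := w) (fun n => (hIJ x n).1) (fun n => (hIJ (x + θ) n).2.2.2) hw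
    (fun n h1 h2 => hmono _ _ n (c2 n (hgt n h1) h2).1)
  have s2 := sum_split N N' (v := w) (fun n => (hIJ (x - θ) n).2.2.1) (fun n => (hIJ x n).2.1) hw
    (fun n h1 h2 => hmono _ _ n (c1 n (hgt n h1) h2).2)
  have s3 := sum_split N N' (v := v) (fun n => (hIJ (x + θ) n).2.2.1) (fun n => (hIJ (x + 2 * θ) n).2.1) (fun n => (hv n).1)
    (fun n h1 h2 => hmono _ _ n (c4 n (hgt n h1) h2).2)
  have s4 := sum_split N N' (v := v) (fun n => (hIJ (x - 2 * θ) n).1) (fun n => (hIJ (x - θ) n).2.2.2) (fun n => (hv n).1)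
    (fun n h1 h2 => hmono _ _ n (c3 n (hgt n h1) h2).1)
  have t1 := hT2 (th A b (x + θ) N)
  have t2 := hT2 (th A b (x - θ) N)
  unfold Tr at t1 t2
  have t1' := (abs_le.1 t1).2
  have t2' := (abs_le.1 t2).1
  have l1' := (abs_le.1 l1).2
  have l2' := (abs_le.1 l2).1
  have u1 : ∑ n ∈ Icc 1 N, v n * J (x + θ) n ≤ (d x + 3 * (ε / 8)) * N := by
    have e1 : (d (x + 2 * θ)) * N ≤ (d x + ε / 8) * N := mul_le_mul_of_nonneg_right (by linarith [d1.2]) hNR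
    have e2 : κ * N ≤ ε / 8 * N := mul_le_mul_of_nonneg_right hκ1 hNR
    have e3 : ∑ n ∈ Icc 1 N, v n * I (x + 2 * θ) n ≤ d (x + 2 * θ) * N + ε / 8 * N := by
      have := l1'
      linarith
    nlinarith
  have u2 : (d x - 3 * (ε / 8)) * N ≤ ∑ n ∈ Icc 1 N, v n * J (x - θ) n := by
    have e1 : (d x - ε / 8) * N ≤ (d (x - 2 * θ)) * N := mul_le_mul_of_nonneg_right (by linarith [d2.1]) hNR
    have e2 : κ * N ≤ ε / 8 * N := mul_le_mul_of_nonneg_right hκ1 hNR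
    have e3 : d (x - 2 * θ) * N - ε / 8 * N ≤ ∑ n ∈ Icc 1 N, v n * I (x - 2 * θ) n := by
      have := l2'
      linarith
    nlinarith
  have u3 := mul_le_mul_of_nonneg_left u1 hρ
  have u4 := mul_le_mul_of_nonneg_left u2 hρ
  have u5 : ρ * (κ * N) ≤ ρ * (ε / 8 * N) :=
    mul_le_mul_of_nonneg_left (mul_le_mul_of_nonneg_right hκ1 hNR) hρ
  have e0 : 0 ≤ ρ * (ε * N) := by positivity
  rw [abs_le]
  constructor <;> nlinarith

/-- the level sets of the first visits -/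
def LvV (s : ℤ) (S : Finset ℤ) (m : ℕ) (κ ω : ℤ) (t : ℕ → ℝ) (n : ℕ) : Prop :=
  ∃ j : ℕ, FVis 1 S j (s * n) ∧ (j : ℝ) ≤ t n ∧ (j : ℤ) ≡ κ [ZMOD m] ∧ (ac 1 j (s * n) : ℤ) ≡ ω [ZMOD m]

open Classical in
theorem LvV_Fv (s : ℤ) (S : Finset ℤ) (m : ℕ) (κ ω : ℤ) (t : ℝ) : ind (LvV s S m κ ω (fun _ => t)) =
    fun n : ℕ => Fv 1 S (fun j o _ => if (j : ℝ) ≤ t ∧ (j : ℤ) ≡ κ [ZMOD m] ∧ (o : ℤ) ≡ ω [ZMOD m] then 1 else 0) 0
      (s * n) := by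
  funext n
  by_cases h : ∃ j, FVis 1 S j (s * n)
  · obtain ⟨j, hj⟩ := h
    rw [Fv_pos hj]
    split_ifs with h1
    · exact ind_pos ⟨j, hj, h1⟩
    · apply ind_neg
      rintro ⟨j', hj', h2⟩
      rw [FVis_unique hj' hj] at h2
      exact h1 h2
  · rw [Fv_neg h]
    apply ind_neg
    rintro ⟨j, hj, _⟩
    exact h ⟨j, hj⟩

theorem od_ac (j : ℕ) : ∀ x : ℤ, Pool.Agent.H499R2.LT.od 1 j x = (ac 1 j x : ℤ) := by
  induction j with
  | zero => intro x; rfl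
  | succ j ih =>
    intro x
    rw [ac_front]
    show (if x % 2 = 0 then (0 : ℤ) else 1) + Pool.Agent.H499R2.LT.od 1 j (Td 1 x) = _
    rw [ih]
    have : Td 1 x = Tz 1 x := rfl
    rw [this]
    push_cast
    split_ifs <;> simp

/-- the natural laws of the first visits -/
theorem natV {s : ℤ} (hs : s = 1 ∨ s = -1) (S : Finset ℤ) {δ : ℝ}
    (hδ : Dn (fun n : ℕ => ∃ k : ℕ, (Tz 1)^[k] (s * n) ∈ S) δ) (m : ℕ) (κ ω : ℤ) (hm : 1 ≤ m) (x : ℝ) :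
    Mn (ind (LvV s S m κ ω (th (2 / Real.log (4 / 3)) bK x))) (δ / m ^ 2 * Phi x) := by
  obtain ⟨δ', _, _, h2, h3⟩ := Pool.Agent.H499R2.LT.joint_side (d := 1) odd_one (by norm_num) hs S
  have e : δ' = δ := tendsto_nhds_unique h2 hδ
  rw [e] at h3
  refine Mn_of_Dn (Pool.Agent.H499R2.LT.Dn_iff (fun n hn => ?_) (h3 x m κ ω hm))
  unfold LvV
  refine exists_congr fun j => ?_
  rw [Pool.Agent.H499R2.LT.tb2 x n hn, od_ac]
  have e2 : th (2 / Real.log (4 / 3)) bK x n = 2 / Real.log (4 / 3) * Real.log n +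
      x * (Real.log 3 * Real.sqrt (2 * Real.log n / Real.log (4 / 3) ^ 3)) := by
    unfold bK
    rw [th_eq]
  rw [e2]
  unfold FVis
  constructor
  · rintro ⟨g1, g2, g3, g4⟩; exact ⟨g2, g1, g3, g4⟩
  · rintro ⟨g1, g2, g3, g4⟩; exact ⟨g2, g1, g3, g4⟩

/-- the law of the first visits in a class -/
theorem law_vis {s : ℤ} (hs : s = 1 ∨ s = -1) (S : Finset ℤ) {δ : ℝ}
    (hδ : Dn (fun n : ℕ => ∃ k : ℕ, (Tz 1)^[k] (s * n) ∈ S) δ) (m : ℕ) (κ ω : ℤ) (hm : 1 ≤ m) (x : ℝ)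
    {ε : ℝ} (hε : 0 < ε) : ∃ N0 : ℕ, ∀ N : ℕ, N0 ≤ N → ∀ (w : ℕ → ℝ) (ρ C c : ℝ), (∀ n, 0 ≤ w n) → 0 ≤ ρ → 0 ≤ C →
      c ≤ 1 → TrK w (fun _ => 1) ρ C c →
      |∑ n ∈ Icc 1 N, w n * ind (LvV s S m κ ω (th (2 / Real.log (4 / 3)) bK x)) n - ρ * (δ / m ^ 2 * Phi x * N)| ≤
        ε * ρ * N + 4 * C * (N : ℝ) ^ (1 - c) := by
  classical
  have hν := nu_pos'
  obtain ⟨N0, h0⟩ := law_gen (L := LvV s S m κ ω)
    (fun t t' n ht => by
      rintro ⟨j, g1, g2, g3⟩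
      exact ⟨j, g1, g2.trans ht, g3⟩)
    (A := 2 / Real.log (4 / 3)) (b := bK) (by positivity) bK_pos (d := fun x => δ / m ^ 2 * Phi x)
    (Phi_continuous.const_mul _) (v := fun _ => 1) (fun n => ⟨zero_le_one, le_rfl⟩)
    (fun y => by simpa using natV hs S hδ m κ ω hm y) x hε
  obtain ⟨N1, h1⟩ : ∃ N1 : ℕ, ∀ N : ℕ, N1 ≤ N → ∀ a ∈ S, |(a : ℝ)| ≤ (N : ℝ) ^ (1 / 4 : ℝ) := by
    have hT : Tendsto (fun N : ℕ => (N : ℝ) ^ (1 / 4 : ℝ)) atTop atTop :=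
      (tendsto_rpow_atTop (by norm_num)).comp tendsto_natCast_atTop_atTop
    obtain ⟨N1, h⟩ := (hT.eventually_ge_atTop (∑ a ∈ S, |(a : ℝ)|)).exists_forall_of_atTop
    exact ⟨N1, fun N hN a ha => (single_le_sum (f := fun a : ℤ => |(a : ℝ)|) (fun _ _ => abs_nonneg _) ha).trans (h N hN)⟩
  refine ⟨max N0 (max N1 256), fun N hN w ρ C c hw hρ hC hc hT => ?_⟩
  have hNa : N0 ≤ N := (le_max_left _ _).trans hN
  have hNb : N1 ≤ N := (le_max_left _ _).trans ((le_max_right _ _).trans hN)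
  have hNc : 256 ≤ N := (le_max_right _ _).trans ((le_max_right _ _).trans hN)
  have h2 := h0 N hNa w ρ (C * 2 * (N : ℝ) ^ (1 - c)) hw hρ (fun M h4 h5 => by
    refine (hT.one h4).trans ?_
    exact pow_le (by positivity) hc h5) (fun t => by
    rw [LvV_Fv]
    exact hT.vis hNc hs (h1 N hNb) (fun j o a => by split_ifs <;> simp) (by simp))
  refine h2.trans (le_of_eq ?_)
  ring

/-- the density of the level sets of the first visits in a class -/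
theorem dens_vis {s : ℤ} (hs : s = 1 ∨ s = -1) (S : Finset ℤ) {δ : ℝ}
    (hδ : Dn (fun n : ℕ => ∃ k : ℕ, (Tz 1)^[k] (s * n) ∈ S) δ) (m : ℕ) (κ ω : ℤ) (hm : 1 ≤ m) (x : ℝ)
    {w : ℕ → ℝ} {ρ C c : ℝ} (hw : ∀ n, 0 ≤ w n) (hρ : 0 ≤ ρ) (hC : 0 ≤ C) (hc0 : 0 < c) (hc : c ≤ 1)
    (hT : TrK w (fun _ => 1) ρ C c) :
    Mn (fun n => w n * ind (LvV s S m κ ω (th (2 / Real.log (4 / 3)) bK x)) n) (ρ * (δ / m ^ 2 * Phi x)) := by
  have key : MnS (fun n => n) (fun n => w n * ind (LvV s S m κ ω (th (2 / Real.log (4 / 3)) bK x)) n)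
      (ρ * (δ / m ^ 2 * Phi x)) := by
    apply MnS_of
    intro ε hε _
    obtain ⟨N0, h⟩ := law_vis hs S hδ m κ ω hm x (show 0 < ε / (2 * (ρ + 1)) by positivity)
    filter_upwards [small_err (4 * C) hc0 (show 0 < ε / 4 by positivity), eventually_ge_atTop N0] with X h1 h2
    have h3 := h X h2 w ρ C c hw hρ hC hc hT
    have h6 : ε / (2 * (ρ + 1)) * ρ * X ≤ ε / 2 * X := by
      apply mul_le_mul_of_nonneg_right _ (Nat.cast_nonneg _)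
      rw [div_mul_eq_mul_div, div_le_iff₀ (by positivity)]
      nlinarith
    have e : ρ * (δ / m ^ 2 * Phi x) * (X : ℝ) = ρ * (δ / m ^ 2 * Phi x * X) := by ring
    rw [e]
    have : 0 ≤ ε * X := by positivity
    linarith
  exact key

/-- the density of an invariant set in a class -/
theorem dens_inv {s : ℤ} (hs : s = 1 ∨ s = -1) {S : Set ℤ} (hS : ∀ x, Tz 1 x ∈ S ↔ x ∈ S) {δ : ℝ}
    (hδ : Dn (fun n : ℕ => s * (n : ℤ) ∈ S) δ) {w : ℕ → ℝ} {ρ C c : ℝ} (hc0 : 0 < c)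
    (hT : TrK w (fun _ => 1) ρ C c) : Mn (fun n => w n * ind (fun n : ℕ => s * (n : ℤ) ∈ S) n) (ρ * δ) := by
  classical
  refine Tr_Mn (v := fun _ => 1) hc0 (C := C * 2) (fun N hN => ?_) (by
    have := Mn_of_Dn hδ
    simpa using this)
  have h1 := hT.inv hN hs (F := fun x => if x ∈ S then 1 else 0) (fun x => by split_ifs <;> simp) (fun x => by
    by_cases h : x ∈ S
    · rw [if_pos h, if_pos ((hS x).2 h)]
    · rw [if_neg h, if_neg fun h' => h ((hS x).1 h')])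
  have e : (fun n : ℕ => (fun x : ℤ => if x ∈ S then (1 : ℝ) else 0) (s * n)) = ind (fun n : ℕ => s * (n : ℤ) ∈ S) := by
    funext n
    beta_reduce
    by_cases h : s * (n : ℤ) ∈ S
    · rw [if_pos h, ind_pos (P := fun n : ℕ => s * (n : ℤ) ∈ S) h]
    · rw [if_neg h, ind_neg (P := fun n : ℕ => s * (n : ℤ) ∈ S) h]
  rw [e] at h1
  exact h1

end Pool.Agent.X266.CD
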